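import Mathlib

/-!
# JOB AAbel: Abel summation bound for tails of Dirichlet series

PROOF of `cpow_sub_le`: for `k ≥ 1`, `σ = Re s > 0`:
`k^(-s) - (k+1)^(-s) = s ∫_k^{k+1} x^(-s-1) dx`, so the norm is at most
`‖s‖ ∫_k^{k+1} x^(-σ-1) dx = (‖s‖/σ) (k^(-σ) - (k+1)^(-σ))`
(use `integral_cpow` / `integral_rpow` and `intervalIntegral.norm_integral_le_integral_norm`,
`Complex.norm_cpow_eq_rpow_re_of_pos`).

PROOF of `abel_tail`: put `S(k) = ∑_{j ∈ Ioc M k} a_j`, `‖S(k)‖ ≤ B` for `k ≥ M`, `S(M) = 0`.  By induction on `n`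
`∑_{k ∈ Ioc M n} a_k k^(-s) = S(n) n^(-s) + ∑_{k ∈ Ico M n} S(k) (k^(-s) - (k+1)^(-s))`
(step: `S(n+1) = S(n) + a_{n+1}`).  Hence the norm is at most
`B n^(-σ) + B (‖s‖/σ) ∑_{k ∈ Ico M n} (k^(-σ) - (k+1)^(-σ)) = B n^(-σ) + B (‖s‖/σ)(M^(-σ) - n^(-σ))`
`≤ B (1 + ‖s‖/σ) M^(-σ)` as `n^(-σ) ≤ M^(-σ)` and `n^(-σ) ≥ 0`.
-/

open Finset

namespace Pool.Agent.Lib.MP_9c2ea5_nt.An

theorem cpow_sub_le (k : ℕ) (hk : 1 ≤ k) (s : ℂ) (hs : 0 < s.re) :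
    ‖(k : ℂ) ^ (-s) - ((k + 1 : ℕ) : ℂ) ^ (-s)‖ ≤
      (‖s‖ / s.re) * ((k : ℝ) ^ (-s.re) - ((k + 1 : ℕ) : ℝ) ^ (-s.re)) := by
  have hk0 : (0 : ℝ) < (k : ℝ) := by exact_mod_cast hk
  have hs0 : s ≠ 0 := by
    rintro rfl
    simp at hs
  have hle : (k : ℝ) ≤ ((k + 1 : ℕ) : ℝ) := by
    push_cast
    linarith
  have hnot : (0 : ℝ) ∉ Set.uIcc (k : ℝ) ((k + 1 : ℕ) : ℝ) := by
    rw [Set.uIcc_of_le hle, Set.mem_Icc]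
    rintro ⟨h, _⟩
    linarith
  have h1 : ∫ x : ℝ in (k : ℝ)..((k + 1 : ℕ) : ℝ), (x : ℂ) ^ (-s - 1) =
      ((((k + 1 : ℕ) : ℝ) : ℂ) ^ (-s - 1 + 1) - ((k : ℝ) : ℂ) ^ (-s - 1 + 1)) / (-s - 1 + 1) := by
    apply integral_cpow
    right
    refine ⟨?_, hnot⟩
    intro h
    apply hs0
    linear_combination -h
  have h2 : (k : ℂ) ^ (-s) - ((k + 1 : ℕ) : ℂ) ^ (-s) =
      s * ∫ x : ℝ in (k : ℝ)..((k + 1 : ℕ) : ℝ), (x : ℂ) ^ (-s - 1) := by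
    rw [h1]
    have h3 : -s - 1 + 1 = -s := by ring
    rw [h3, Complex.ofReal_natCast, Complex.ofReal_natCast, div_neg, mul_neg,
      mul_div_cancel₀ _ hs0]
    ring
  have h4 : ‖∫ x : ℝ in (k : ℝ)..((k + 1 : ℕ) : ℝ), (x : ℂ) ^ (-s - 1)‖ ≤
      ∫ x : ℝ in (k : ℝ)..((k + 1 : ℕ) : ℝ), x ^ (-s.re - 1) := by
    calc ‖∫ x : ℝ in (k : ℝ)..((k + 1 : ℕ) : ℝ), (x : ℂ) ^ (-s - 1)‖
        ≤ ∫ x : ℝ in (k : ℝ)..((k + 1 : ℕ) : ℝ), ‖(x : ℂ) ^ (-s - 1)‖ :=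
          intervalIntegral.norm_integral_le_integral_norm hle
      _ = ∫ x : ℝ in (k : ℝ)..((k + 1 : ℕ) : ℝ), x ^ (-s.re - 1) := by
        apply intervalIntegral.integral_congr
        intro x hx
        rw [Set.uIcc_of_le hle, Set.mem_Icc] at hx
        have hx0 : 0 < x := lt_of_lt_of_le hk0 hx.1
        show ‖(x : ℂ) ^ (-s - 1)‖ = x ^ (-s.re - 1)
        rw [Complex.norm_cpow_eq_rpow_re_of_pos hx0]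
        congr 1
  have h5 : ∫ x : ℝ in (k : ℝ)..((k + 1 : ℕ) : ℝ), x ^ (-s.re - 1) =
      ((((k + 1 : ℕ) : ℝ)) ^ (-s.re - 1 + 1) - (k : ℝ) ^ (-s.re - 1 + 1)) / (-s.re - 1 + 1) := by
    apply integral_rpow
    right
    exact ⟨by intro h; linarith, hnot⟩
  have h6 : -s.re - 1 + 1 = -s.re := by ring
  rw [h5, h6] at h4
  rw [h2, norm_mul]
  calc ‖s‖ * ‖∫ x : ℝ in (k : ℝ)..((k + 1 : ℕ) : ℝ), (x : ℂ) ^ (-s - 1)‖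
      ≤ ‖s‖ * (((((k + 1 : ℕ) : ℝ)) ^ (-s.re) - (k : ℝ) ^ (-s.re)) / (-s.re)) :=
        mul_le_mul_of_nonneg_left h4 (norm_nonneg s)
    _ = (‖s‖ / s.re) * ((k : ℝ) ^ (-s.re) - ((k + 1 : ℕ) : ℝ) ^ (-s.re)) := by
        rw [div_neg]
        ring

private theorem AAbel_sum (a : ℕ → ℂ) (M : ℕ) (s : ℂ) (n : ℕ) (hn : M ≤ n) :
    ∑ k ∈ Finset.Ioc M n, a k * (k : ℂ) ^ (-s) =
      (∑ k ∈ Finset.Ioc M n, a k) * (n : ℂ) ^ (-s) +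
      ∑ k ∈ Finset.Ico M n, (∑ j ∈ Finset.Ioc M k, a j) *
        ((k : ℂ) ^ (-s) - ((k + 1 : ℕ) : ℂ) ^ (-s)) := by
  induction n, hn using Nat.le_induction with
  | base => simp
  | succ n hn ih =>
    rw [Finset.sum_Ioc_succ_top hn, Finset.sum_Ioc_succ_top hn, Finset.sum_Ico_succ_top hn, ih]
    ring

private theorem AAbel_tel (M : ℕ) (σ : ℝ) (n : ℕ) (hn : M ≤ n) :
    ∑ k ∈ Finset.Ico M n, ((k : ℝ) ^ (-σ) - ((k + 1 : ℕ) : ℝ) ^ (-σ)) =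
      (M : ℝ) ^ (-σ) - (n : ℝ) ^ (-σ) := by
  induction n, hn using Nat.le_induction with
  | base => simp
  | succ n hn ih =>
    rw [Finset.sum_Ico_succ_top hn, ih]
    ring

theorem abel_tail (a : ℕ → ℂ) (B : ℝ) (M : ℕ) (hM : 1 ≤ M)
    (hB : ∀ n : ℕ, M ≤ n → ‖∑ k ∈ Finset.Ioc M n, a k‖ ≤ B) (s : ℂ) (hs : 0 < s.re)
    (n : ℕ) (hn : M ≤ n) :
    ‖∑ k ∈ Finset.Ioc M n, a k * (k : ℂ) ^ (-s)‖ ≤ B * (1 + ‖s‖ / s.re) * (M : ℝ) ^ (-s.re) := by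
  have hB0 : 0 ≤ B := le_trans (norm_nonneg _) (hB M le_rfl)
  have hM0 : (0 : ℝ) < (M : ℝ) := by exact_mod_cast hM
  have hn0 : (0 : ℝ) < (n : ℝ) := lt_of_lt_of_le hM0 (by exact_mod_cast hn)
  have hd : 0 ≤ ‖s‖ / s.re := div_nonneg (norm_nonneg _) hs.le
  rw [AAbel_sum a M s n hn]
  have h1 : ‖(∑ k ∈ Finset.Ioc M n, a k) * (n : ℂ) ^ (-s)‖ ≤ B * (n : ℝ) ^ (-s.re) := by
    rw [norm_mul]
    have h2 : ‖(n : ℂ) ^ (-s)‖ = (n : ℝ) ^ (-s.re) := by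
      have h3 := Complex.norm_cpow_eq_rpow_re_of_pos hn0 (-s)
      rw [Complex.ofReal_natCast] at h3
      rw [h3, Complex.neg_re]
    rw [h2]
    exact mul_le_mul_of_nonneg_right (hB n hn) (Real.rpow_nonneg hn0.le _)
  have h2 : ‖∑ k ∈ Finset.Ico M n, (∑ j ∈ Finset.Ioc M k, a j) *
        ((k : ℂ) ^ (-s) - ((k + 1 : ℕ) : ℂ) ^ (-s))‖ ≤
      B * (‖s‖ / s.re) * ((M : ℝ) ^ (-s.re) - (n : ℝ) ^ (-s.re)) := by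
    calc ‖∑ k ∈ Finset.Ico M n, (∑ j ∈ Finset.Ioc M k, a j) *
        ((k : ℂ) ^ (-s) - ((k + 1 : ℕ) : ℂ) ^ (-s))‖
        ≤ ∑ k ∈ Finset.Ico M n, ‖(∑ j ∈ Finset.Ioc M k, a j) *
        ((k : ℂ) ^ (-s) - ((k + 1 : ℕ) : ℂ) ^ (-s))‖ := norm_sum_le _ _
      _ ≤ ∑ k ∈ Finset.Ico M n, B * ((‖s‖ / s.re) *
          ((k : ℝ) ^ (-s.re) - ((k + 1 : ℕ) : ℝ) ^ (-s.re))) := by
        apply Finset.sum_le_sum
        intro k hk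
        rw [Finset.mem_Ico] at hk
        rw [norm_mul]
        exact mul_le_mul (hB k hk.1) (cpow_sub_le k (le_trans hM hk.1) s hs) (norm_nonneg _) hB0
      _ = B * (‖s‖ / s.re) * ((M : ℝ) ^ (-s.re) - (n : ℝ) ^ (-s.re)) := by
        rw [← AAbel_tel M s.re n hn, ← Finset.mul_sum, ← Finset.mul_sum]
        ring
  have h3 : (0 : ℝ) ≤ (n : ℝ) ^ (-s.re) := Real.rpow_nonneg hn0.le _
  have h4 : (n : ℝ) ^ (-s.re) ≤ (M : ℝ) ^ (-s.re) :=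
    Real.rpow_le_rpow_of_nonpos hM0 (by exact_mod_cast hn) (by linarith)
  have h5 : B * (n : ℝ) ^ (-s.re) ≤ B * (M : ℝ) ^ (-s.re) := mul_le_mul_of_nonneg_left h4 hB0
  have h6 : B * (‖s‖ / s.re) * ((M : ℝ) ^ (-s.re) - (n : ℝ) ^ (-s.re)) ≤
      B * (‖s‖ / s.re) * (M : ℝ) ^ (-s.re) :=
    mul_le_mul_of_nonneg_left (by linarith) (mul_nonneg hB0 hd)
  calc ‖(∑ k ∈ Finset.Ioc M n, a k) * (n : ℂ) ^ (-s) +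
      ∑ k ∈ Finset.Ico M n, (∑ j ∈ Finset.Ioc M k, a j) *
        ((k : ℂ) ^ (-s) - ((k + 1 : ℕ) : ℂ) ^ (-s))‖
      ≤ B * (M : ℝ) ^ (-s.re) + B * (‖s‖ / s.re) * (M : ℝ) ^ (-s.re) :=
        le_trans (norm_add_le _ _) (by linarith)
    _ = B * (1 + ‖s‖ / s.re) * (M : ℝ) ^ (-s.re) := by ring

end Pool.Agent.Lib.MP_9c2ea5_nt.An
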