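import Mathlib
import Pool.Agent.Lib.MP_9c2ea5_nt.AAbel

/-!
# JOB AConv: analytic continuation of a Dirichlet series with bounded partial sums

PROOF: put `P n s = ∑ k ∈ Ioc 0 n, a k * k^(-s)`.  For `Re s > 0` and `1 ≤ M ≤ n`, `abel_tail` gives
`‖P n s - P M s‖ ≤ B (1+‖s‖/σ) M^(-σ)` (use `Finset.sum_Ioc_consecutive`), so `P n s` is Cauchy (`M^(-σ) → 0`); let
`g s` be the limit (`Classical.choose` / `limUnder`).  Letting `n → ∞`: `‖g s - P M s‖ ≤ B (1+‖s‖/σ) M^(-σ)` for `M ≥ 1`.
On the open set `{s | δ < Re s, ‖s‖ < R}` (`δ > 0`) the right-hand side is at most `B (1+R/δ) M^(-δ) → 0`, so `P M → g`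
uniformly there; hence `TendstoLocallyUniformlyOn P g atTop {s | 0 < s.re}` and `g` is differentiable on `{s | 0 < s.re}`
(`TendstoLocallyUniformlyOn.differentiableOn`, every `P M` is differentiable: finite sum of `a_k k^(-s)` with `k ≥ 1`).
If `Re s > 1` and `‖a k‖ ≤ 1`, the series `LSeries a s = ∑' n, LSeries.term a s n` converges absolutely
(`LSeriesSummable_of_bounded_of_one_lt_re`), its partial sums over `range (n+1)` are `P n s`
(`LSeries.term a s 0 = 0`, and `a k / k^s = a k * k^(-s)`), so `g s = LSeries a s` by uniqueness of limits.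
-/

open Finset

namespace Pool.Agent.Lib.MP_9c2ea5_nt.An

private theorem AConv_tendsto (C δ : ℝ) (hδ : 0 < δ) :
    Filter.Tendsto (fun n : ℕ => C * (n : ℝ) ^ (-δ)) Filter.atTop (nhds 0) := by
  have h := ((tendsto_rpow_neg_atTop hδ).comp (tendsto_natCast_atTop_atTop (R := ℝ))).const_mul C
  rw [mul_zero] at h
  exact h

theorem exists_cont (a : ℕ → ℂ) (B : ℝ) (hB : ∀ M n : ℕ, ‖∑ k ∈ Finset.Ioc M n, a k‖ ≤ B)
    (ha : ∀ n, ‖a n‖ ≤ 1) :
    ∃ g : ℂ → ℂ, DifferentiableOn ℂ g {s | 0 < s.re} ∧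
      (∀ s : ℂ, 1 < s.re → g s = LSeries a s) ∧
      ∀ s : ℂ, 0 < s.re → ∀ M : ℕ, 1 ≤ M →
        ‖g s - ∑ k ∈ Finset.Ioc 0 M, a k * (k : ℂ) ^ (-s)‖ ≤
          B * (1 + ‖s‖ / s.re) * (M : ℝ) ^ (-s.re) := by
  have hB0 : 0 ≤ B := le_trans (norm_nonneg _) (hB 0 0)
  set P : ℕ → ℂ → ℂ := fun n s => ∑ k ∈ Finset.Ioc 0 n, a k * (k : ℂ) ^ (-s) with hP
  have hdiff : ∀ s : ℂ, 0 < s.re → ∀ M n : ℕ, 1 ≤ M → M ≤ n →
      ‖P n s - P M s‖ ≤ B * (1 + ‖s‖ / s.re) * (M : ℝ) ^ (-s.re) := by
    intro s hs M n hM hn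
    have h1 : P n s - P M s = ∑ k ∈ Finset.Ioc M n, a k * (k : ℂ) ^ (-s) := by
      rw [hP]
      show ∑ k ∈ Finset.Ioc 0 n, a k * (k : ℂ) ^ (-s) - ∑ k ∈ Finset.Ioc 0 M, a k * (k : ℂ) ^ (-s) = _
      rw [← Finset.sum_Ioc_consecutive _ (Nat.zero_le M) hn]
      ring
    rw [h1]
    exact abel_tail a B M hM (fun n _ => hB M n) s hs n hn
  have hlim : ∀ s : ℂ, ∃ z : ℂ, 0 < s.re → Filter.Tendsto (fun n => P n s) Filter.atTop (nhds z) := by
    intro s
    by_cases hs : 0 < s.re
    · have hc : CauchySeq (fun n => P (n + 1) s) := by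
        apply cauchySeq_of_le_tendsto_0
          (fun N : ℕ => (2 * (B * (1 + ‖s‖ / s.re))) * ((N + 1 : ℕ) : ℝ) ^ (-s.re))
        · intro n m N hn hm
          have h1 := hdiff s hs (N + 1) (n + 1) (by omega) (by omega)
          have h2 := hdiff s hs (N + 1) (m + 1) (by omega) (by omega)
          calc dist (P (n + 1) s) (P (m + 1) s)
              ≤ dist (P (n + 1) s) (P (N + 1) s) + dist (P (m + 1) s) (P (N + 1) s) :=
                dist_triangle_right _ _ _
            _ ≤ (2 * (B * (1 + ‖s‖ / s.re))) * ((N + 1 : ℕ) : ℝ) ^ (-s.re) := by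
                rw [dist_eq_norm, dist_eq_norm]
                linarith
        · exact (Filter.tendsto_add_atTop_iff_nat (f := fun N : ℕ =>
            (2 * (B * (1 + ‖s‖ / s.re))) * (N : ℝ) ^ (-s.re)) 1).2 (AConv_tendsto _ _ hs)
      obtain ⟨z, hz⟩ := cauchySeq_tendsto_of_complete hc
      exact ⟨z, fun _ => (Filter.tendsto_add_atTop_iff_nat 1).1 hz⟩
    · exact ⟨0, fun h => absurd h hs⟩
  choose g hg using hlim
  have hbound : ∀ s : ℂ, 0 < s.re → ∀ M : ℕ, 1 ≤ M →
      ‖g s - P M s‖ ≤ B * (1 + ‖s‖ / s.re) * (M : ℝ) ^ (-s.re) := by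
    intro s hs M hM
    have h1 : Filter.Tendsto (fun n => ‖P n s - P M s‖) Filter.atTop (nhds ‖g s - P M s‖) :=
      ((hg s hs).sub_const _).norm
    exact le_of_tendsto h1 (Filter.eventually_atTop.2 ⟨M, fun n hn => hdiff s hs M n hM hn⟩)
  refine ⟨g, ?_, ?_, hbound⟩
  · have hopen : IsOpen {s : ℂ | 0 < s.re} := isOpen_lt continuous_const Complex.continuous_re
    have hunif : TendstoLocallyUniformlyOn P g Filter.atTop {s : ℂ | 0 < s.re} := by
      rw [Metric.tendstoLocallyUniformlyOn_iff]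
      intro ε hε x hx
      have hx0 : 0 < x.re := hx
      refine ⟨{y : ℂ | x.re / 2 < y.re ∧ ‖y‖ < ‖x‖ + 1}, ?_, ?_⟩
      · apply mem_nhdsWithin_of_mem_nhds
        apply IsOpen.mem_nhds
        · exact (isOpen_lt continuous_const Complex.continuous_re).inter
            (isOpen_lt continuous_norm continuous_const)
        · exact ⟨by linarith, by linarith⟩
      · have h1 := AConv_tendsto (B * (1 + (‖x‖ + 1) / (x.re / 2))) (x.re / 2) (by linarith)
        have h2 := (tendsto_order.1 h1).2 ε hε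
        filter_upwards [h2, Filter.eventually_ge_atTop 1] with n hn hn1
        rintro y ⟨hy1, hy2⟩
        have hy0 : 0 < y.re := by linarith
        have hn1' : (1 : ℝ) ≤ (n : ℝ) := by exact_mod_cast hn1
        rw [dist_eq_norm]
        refine lt_of_le_of_lt (hbound y hy0 n hn1) (lt_of_le_of_lt ?_ hn)
        apply mul_le_mul
        · apply mul_le_mul_of_nonneg_left _ hB0
          have h3 : ‖y‖ / y.re ≤ (‖x‖ + 1) / (x.re / 2) :=
            div_le_div₀ (by positivity) hy2.le (by linarith) hy1.le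
          linarith
        · exact Real.rpow_le_rpow_of_exponent_le hn1' (by linarith)
        · exact Real.rpow_nonneg (by linarith) _
        · apply mul_nonneg hB0
          have : 0 ≤ (‖x‖ + 1) / (x.re / 2) := by positivity
          linarith
    apply hunif.differentiableOn _ hopen
    apply Filter.Eventually.of_forall
    intro n
    apply Differentiable.differentiableOn
    rw [hP]
    apply Differentiable.fun_sum
    intro k hk
    rw [Finset.mem_Ioc] at hk
    apply Differentiable.const_mul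
    apply Differentiable.const_cpow
    · exact differentiable_neg
    · left
      exact_mod_cast (Nat.pos_iff_ne_zero.1 hk.1)
  · intro s hs
    have hs0 : 0 < s.re := by linarith
    have hsum : LSeriesSummable a s :=
      LSeriesSummable_of_bounded_of_one_lt_re (m := 1) (fun n _ => ha n) hs
    have h1 : Filter.Tendsto (fun n => ∑ i ∈ range n, LSeries.term a s i) Filter.atTop
        (nhds (LSeries a s)) := (Summable.hasSum hsum).tendsto_sum_nat
    have h2 := (Filter.tendsto_add_atTop_iff_nat 1).2 h1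
    apply tendsto_nhds_unique (hg s hs0)
    refine Filter.Tendsto.congr ?_ h2
    intro n
    rw [hP]
    show ∑ i ∈ range (n + 1), LSeries.term a s i = ∑ k ∈ Finset.Ioc 0 n, a k * (k : ℂ) ^ (-s)
    have h3 : ∑ i ∈ Finset.Ioc 0 n, LSeries.term a s i = ∑ i ∈ range (n + 1), LSeries.term a s i := by
      apply Finset.sum_subset
      · intro i hi
        rw [Finset.mem_Ioc] at hi
        rw [Finset.mem_range]
        omega
      · intro i hi hi2
        rw [Finset.mem_range] at hi
        rw [Finset.mem_Ioc] at hi2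
        have h4 : i = 0 := by omega
        rw [h4, LSeries.term_zero]
    rw [← h3]
    apply Finset.sum_congr rfl
    intro i hi
    rw [Finset.mem_Ioc] at hi
    rw [LSeries.term_of_ne_zero (Nat.pos_iff_ne_zero.1 hi.1), Complex.cpow_neg, div_eq_mul_inv]

end Pool.Agent.Lib.MP_9c2ea5_nt.An
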