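import Mathlib
import Pool.Agent.Lib.MP_9c2ea5_nt.AConv
import Pool.Agent.Lib.MP_b95a42_nt.LOne

/-!
# JOB AChar: partial sums approximate `L(s,χ)` for `Re s > 0`

PROOF of `char_sum_le`: for `M ≤ n`, `∑_{Ioc M n} χ = ∑_{range (n+1)} χ - ∑_{range (M+1)} χ`, both of norm at most `m` by
`Pool.Agent.Lib.MP_b95a42_nt.norm_sum_range_le`; for `n < M` the sum is empty.

PROOF of `LFun_approx`: take `g` from `exists_cont (fun n => χ n) (2 m)` (`χ.norm_le_one`).  On `{s | 1 < s.re}` we have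
`g s = LSeries (χ ·) s = LFunction χ s` (`DirichletCharacter.LFunction_eq_LSeries`; the coefficient functions agree
definitionally or by `LSeries_congr`).  Both `g` and `LFunction χ` (`DirichletCharacter.differentiable_LFunction`) are
analytic on the open convex (hence preconnected) set `{s | 0 < s.re}` (`DifferentiableOn.analyticOnNhd`), and they agree near
`s = 2`; so they agree on it (`AnalyticOnNhd.eqOn_of_preconnected_of_eventuallyEq`).
-/

open Finset

namespace Pool.Agent.Lib.MP_9c2ea5_nt.An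

theorem char_sum_le {m : ℕ} [NeZero m] (χ : DirichletCharacter ℂ m) (hχ : χ ≠ 1) (M n : ℕ) :
    ‖∑ k ∈ Finset.Ioc M n, χ (k : ZMod m)‖ ≤ 2 * m := by
  rcases le_or_gt M n with h | h
  · have e : Finset.Ioc M n = Finset.Ico (M + 1) (n + 1) := by
      ext x
      simp only [Finset.mem_Ioc, Finset.mem_Ico]
      omega
    rw [e, Finset.sum_Ico_eq_sub _ (by omega)]
    have h1 := Pool.Agent.Lib.MP_b95a42_nt.norm_sum_range_le χ hχ (n + 1)
    have h2 := Pool.Agent.Lib.MP_b95a42_nt.norm_sum_range_le χ hχ (M + 1)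
    calc _ ≤ _ := norm_sub_le _ _
      _ ≤ (m : ℝ) + m := add_le_add h1 h2
      _ = 2 * m := by ring
  · rw [Finset.Ioc_eq_empty_of_le h.le, Finset.sum_empty, norm_zero]
    positivity

theorem LFun_approx {m : ℕ} [NeZero m] (χ : DirichletCharacter ℂ m) (hχ : χ ≠ 1) (s : ℂ)
    (hs : 0 < s.re) (M : ℕ) (hM : 1 ≤ M) :
    ‖DirichletCharacter.LFunction χ s - ∑ k ∈ Finset.Ioc 0 M, χ (k : ZMod m) * (k : ℂ) ^ (-s)‖ ≤
      2 * m * (1 + ‖s‖ / s.re) * (M : ℝ) ^ (-s.re) := by
  obtain ⟨g, hg1, hg2, hg3⟩ := exists_cont (fun n => χ (n : ZMod m)) (2 * m)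
    (char_sum_le χ hχ) (fun n => χ.norm_le_one _)
  have hopen : IsOpen {s : ℂ | 0 < s.re} := isOpen_lt continuous_const Complex.continuous_re
  have hconn : IsPreconnected {s : ℂ | 0 < s.re} :=
    (convex_halfSpace_re_gt 0).isPreconnected
  have ha1 : AnalyticOnNhd ℂ g {s : ℂ | 0 < s.re} := hg1.analyticOnNhd hopen
  have ha2 : AnalyticOnNhd ℂ (DirichletCharacter.LFunction χ) {s : ℂ | 0 < s.re} :=
    (DirichletCharacter.differentiable_LFunction hχ).differentiableOn.analyticOnNhd hopen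
  have hnear : g =ᶠ[nhds (2 : ℂ)] DirichletCharacter.LFunction χ := by
    have hopen1 : IsOpen {s : ℂ | 1 < s.re} := isOpen_lt continuous_const Complex.continuous_re
    filter_upwards [hopen1.mem_nhds (show (2 : ℂ) ∈ {s : ℂ | 1 < s.re} by simp)] with z hz
    rw [hg2 z hz, DirichletCharacter.LFunction_eq_LSeries χ hz]
  have heq := ha1.eqOn_of_preconnected_of_eventuallyEq ha2 hconn
    (show (2 : ℂ) ∈ {s : ℂ | 0 < s.re} by simp) hnear
  rw [← heq (show s ∈ {s : ℂ | 0 < s.re} from hs)]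
  exact hg3 s hs M hM

end Pool.Agent.Lib.MP_9c2ea5_nt.An
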