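import Mathlib

/-!
# JOB AProd: products over the prime factors, bounds for `ζ` and `L` to the right of 1

PROOF of `prod_div_le`: induction on `|S|`: if `S` is nonempty let `p = S.max'`; as `S` consists of `|S|` distinct naturals `≥ 2`,
`p ≥ |S| + 1`, so `p/(p-1) ≤ (|S|+1)/|S|` and the product over `S \ {p}` is at most `|S|`.

PROOF of `primeFactors_card_le`: `2^ω(M) ≤ ∏_{p | M} p ≤ M` (`Finset.prod_le_prod`/`Finset.card`..., `Nat.prod_primeFactors_dvd`), take logs.

PROOF of `prod_upper`: `1 + 1/p ≤ p/(p-1)`; apply `prod_div_le` with `S = M.primeFactors`: `≤ ω(M) + 1 ≤ 1 + log M/log 2`.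
PROOF of `prod_lower`: `∏ (1 - 1/p) = (∏ p/(p-1))⁻¹ ≥ 1/(ω(M)+1)`.
-/

open Finset

namespace Pool.Agent.Lib.MP_9c2ea5_nt.An

theorem prod_div_le (S : Finset ℕ) (hS : ∀ p ∈ S, 2 ≤ p) :
    ∏ p ∈ S, ((p : ℝ) / ((p : ℝ) - 1)) ≤ (S.card : ℝ) + 1 := by
  induction S using Finset.induction_on_max with
  | empty => simp
  | insert a s hlt ih =>
    have has : a ∉ s := fun h => lt_irrefl a (hlt a h)
    have hs : ∀ p ∈ s, 2 ≤ p := fun p hp => hS p (Finset.mem_insert_of_mem hp)
    have ha2 : 2 ≤ a := hS a (Finset.mem_insert_self a s)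
    have hcard : s.card ≤ a - 2 := by
      have h1 : s ⊆ Finset.Ico 2 a := fun p hp => Finset.mem_Ico.2 ⟨hs p hp, hlt p hp⟩
      have h2 := Finset.card_le_card h1
      rwa [Nat.card_Ico] at h2
    have hcR : (s.card : ℝ) + 2 ≤ a := by
      have : s.card + 2 ≤ a := by omega
      exact_mod_cast this
    have hc0 : (0 : ℝ) ≤ s.card := by positivity
    rw [Finset.prod_insert has, Finset.card_insert_of_notMem has]
    push_cast
    have h3 : (a : ℝ) / ((a : ℝ) - 1) ≤ ((s.card : ℝ) + 2) / ((s.card : ℝ) + 1) := by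
      rw [div_le_div_iff₀ (by linarith) (by linarith)]
      nlinarith
    calc (a : ℝ) / ((a : ℝ) - 1) * ∏ p ∈ s, ((p : ℝ) / ((p : ℝ) - 1))
        ≤ ((s.card : ℝ) + 2) / ((s.card : ℝ) + 1) * ((s.card : ℝ) + 1) := by
          refine mul_le_mul h3 (ih hs) ?_ (by positivity)
          refine Finset.prod_nonneg fun p hp => ?_
          have : (2 : ℝ) ≤ p := by exact_mod_cast hs p hp
          exact div_nonneg (by linarith) (by linarith)
      _ = (s.card : ℝ) + 1 + 1 := by field_simp; ring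

theorem primeFactors_card_le (M : ℕ) (hM : 1 ≤ M) :
    (M.primeFactors.card : ℝ) ≤ Real.log M / Real.log 2 := by
  have h2 : (2 : ℕ) ^ M.primeFactors.card ≤ M := by
    calc (2 : ℕ) ^ M.primeFactors.card = ∏ _p ∈ M.primeFactors, 2 := by
          rw [Finset.prod_const]
      _ ≤ ∏ p ∈ M.primeFactors, p :=
          Finset.prod_le_prod' fun p hp => (Nat.prime_of_mem_primeFactors hp).two_le
      _ ≤ M := Nat.le_of_dvd hM (Nat.prod_primeFactors_dvd M)
  have h3 : ((2 : ℝ)) ^ M.primeFactors.card ≤ M := by exact_mod_cast h2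
  rw [le_div_iff₀ (Real.log_pos (by norm_num)), ← Real.log_pow]
  exact Real.log_le_log (by positivity) h3

theorem prod_upper (M : ℕ) (hM : 1 ≤ M) :
    ∏ p ∈ M.primeFactors, (1 + 1 / (p : ℝ)) ≤ 1 + Real.log M / Real.log 2 := by
  calc ∏ p ∈ M.primeFactors, (1 + 1 / (p : ℝ))
      ≤ ∏ p ∈ M.primeFactors, ((p : ℝ) / ((p : ℝ) - 1)) := by
        refine Finset.prod_le_prod (fun p _ => by positivity) fun p hp => ?_
        have h2 : (2 : ℝ) ≤ p := by exact_mod_cast (Nat.prime_of_mem_primeFactors hp).two_le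
        rw [le_div_iff₀ (by linarith)]
        have h3 : (1 : ℝ) / p * p = 1 := by
          rw [one_div, inv_mul_cancel₀ (by linarith)]
        have h4 : (0 : ℝ) ≤ 1 / p := by positivity
        nlinarith
    _ ≤ (M.primeFactors.card : ℝ) + 1 :=
        prod_div_le _ fun p hp => (Nat.prime_of_mem_primeFactors hp).two_le
    _ ≤ 1 + Real.log M / Real.log 2 := by
        have := primeFactors_card_le M hM
        linarith

theorem prod_lower (M : ℕ) (hM : 1 ≤ M) :
    1 / (1 + Real.log M / Real.log 2) ≤ ∏ p ∈ M.primeFactors, (1 - 1 / (p : ℝ)) := by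
  have h1 : ∏ p ∈ M.primeFactors, (1 - 1 / (p : ℝ)) =
      (∏ p ∈ M.primeFactors, ((p : ℝ) / ((p : ℝ) - 1)))⁻¹ := by
    rw [← Finset.prod_inv_distrib]
    refine Finset.prod_congr rfl fun p hp => ?_
    have h2 : (2 : ℝ) ≤ p := by exact_mod_cast (Nat.prime_of_mem_primeFactors hp).two_le
    have h3 : (p : ℝ) ≠ 0 := by linarith
    have h4 : (p : ℝ) - 1 ≠ 0 := by linarith
    rw [inv_div]
    field_simp
  have h5 : ∏ p ∈ M.primeFactors, ((p : ℝ) / ((p : ℝ) - 1)) ≤ 1 + Real.log M / Real.log 2 := by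
    have h6 := prod_div_le M.primeFactors fun p hp => (Nat.prime_of_mem_primeFactors hp).two_le
    have h7 := primeFactors_card_le M hM
    linarith
  have h8 : 0 < ∏ p ∈ M.primeFactors, ((p : ℝ) / ((p : ℝ) - 1)) := by
    refine Finset.prod_pos fun p hp => ?_
    have h2 : (2 : ℝ) ≤ p := by exact_mod_cast (Nat.prime_of_mem_primeFactors hp).two_le
    exact div_pos (by linarith) (by linarith)
  rw [h1, one_div]
  exact inv_anti₀ h8 h5

end Pool.Agent.Lib.MP_9c2ea5_nt.An
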