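import Mathlib
import Pool.Agent.Lib.MP_9c2ea5_nt.AProd

/-!
# JOB ALev: `L(1,χ)` for induced characters

PROOF of `level_bounds`: `DirichletCharacter.LFunction_changeLevel`: `L(1,χ') = L(1,χ) ∏_{p|M} (1 - χ(p)/p)`, and
`∏ (1-1/p) ≤ ‖∏ (1-χ(p)/p)‖ ≤ ∏ (1+1/p)`; by `prod_upper`, `prod_lower` these are `≤ 1 + log M/log 2 ≤ 2l` and `≥ 1/(2l)`
(`log M ≤ l`, `1/log 2 ≤ 1.45`, `1 ≤ l/4`).
-/

open Complex Finset

namespace Pool.Agent.Lib.MP_9c2ea5_nt.An

private lemma alev_factor {m : ℕ} (χ : DirichletCharacter ℂ m) (p : ℕ) (hp : p.Prime) :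
    1 - 1 / (p : ℝ) ≤ ‖(1 : ℂ) - χ p * (p : ℂ) ^ (-(1 : ℂ))‖ ∧
      ‖(1 : ℂ) - χ p * (p : ℂ) ^ (-(1 : ℂ))‖ ≤ 1 + 1 / (p : ℝ) := by
  have h1 : ‖χ p * (p : ℂ) ^ (-(1 : ℂ))‖ ≤ 1 / (p : ℝ) := by
    rw [norm_mul, Complex.cpow_neg_one, norm_inv, Complex.norm_natCast, one_div]
    have h2 : ‖χ (p : ZMod m)‖ ≤ 1 := χ.norm_le_one _
    have h3 : (0 : ℝ) ≤ (p : ℝ)⁻¹ := by positivity
    nlinarith
  constructor
  · have h4 := norm_sub_norm_le (1 : ℂ) (χ p * (p : ℂ) ^ (-(1 : ℂ)))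
    rw [norm_one] at h4
    linarith
  · have h4 := norm_sub_le (1 : ℂ) (χ p * (p : ℂ) ^ (-(1 : ℂ)))
    rw [norm_one] at h4
    linarith

theorem level_bounds {m M : ℕ} [NeZero m] [NeZero M] (hmM : m ∣ M) (χ : DirichletCharacter ℂ m)
    (hχ : χ ≠ 1) (l : ℝ) (hl : 4 ≤ l) (hM : (M : ℝ) ≤ Real.exp l) :
    ‖DirichletCharacter.LFunction (DirichletCharacter.changeLevel hmM χ) 1‖ ≤
      2 * l * ‖DirichletCharacter.LFunction χ 1‖ ∧
    ‖DirichletCharacter.LFunction χ 1‖ ≤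
      2 * l * ‖DirichletCharacter.LFunction (DirichletCharacter.changeLevel hmM χ) 1‖ := by
  have hM0 : M ≠ 0 := NeZero.ne M
  have hM1 : 1 ≤ M := Nat.one_le_iff_ne_zero.mpr hM0
  have hlog2 := Real.log_two_gt_d9
  have hMr : (1 : ℝ) ≤ M := by exact_mod_cast hM1
  have hlogM : Real.log M ≤ l := by
    rw [Real.log_le_iff_le_exp (by linarith)]
    exact hM
  have hlogM0 : 0 ≤ Real.log M := Real.log_nonneg hMr
  have hQ : 1 + Real.log M / Real.log 2 ≤ 2 * l := by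
    have h1 : Real.log M / Real.log 2 ≤ 1.75 * l := by
      rw [div_le_iff₀ (by linarith)]
      nlinarith
    linarith
  have hQ0 : 0 < 1 + Real.log M / Real.log 2 := by
    have : 0 ≤ Real.log M / Real.log 2 := div_nonneg hlogM0 (by linarith)
    linarith
  set P : ℂ := ∏ p ∈ M.primeFactors, (1 - χ p * (p : ℂ) ^ (-(1 : ℂ))) with hP
  have hPn : ‖P‖ = ∏ p ∈ M.primeFactors, ‖(1 : ℂ) - χ p * (p : ℂ) ^ (-(1 : ℂ))‖ := by
    rw [hP, norm_prod]
  have hup : ‖P‖ ≤ 2 * l := by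
    rw [hPn]
    refine le_trans ?_ ((prod_upper M hM1).trans hQ)
    apply Finset.prod_le_prod (fun _ _ => norm_nonneg _)
    intro p hp
    exact (alev_factor χ p (Nat.prime_of_mem_primeFactors hp)).2
  have hlow : 1 / (2 * l) ≤ ‖P‖ := by
    rw [hPn]
    have h1 : 1 / (2 * l) ≤ 1 / (1 + Real.log M / Real.log 2) :=
      one_div_le_one_div_of_le hQ0 hQ
    refine h1.trans ((prod_lower M hM1).trans ?_)
    apply Finset.prod_le_prod
    · intro p hp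
      have hp2 : (1 : ℝ) ≤ p := by
        exact_mod_cast (Nat.prime_of_mem_primeFactors hp).one_le
      have : 1 / (p : ℝ) ≤ 1 := by
        rw [div_le_iff₀ (by linarith)]
        linarith
      linarith
    · intro p hp
      exact (alev_factor χ p (Nat.prime_of_mem_primeFactors hp)).1
  rw [DirichletCharacter.LFunction_changeLevel hmM χ (Or.inl hχ), ← hP, norm_mul]
  have hL := norm_nonneg (DirichletCharacter.LFunction χ 1)
  constructor
  · calc ‖DirichletCharacter.LFunction χ 1‖ * ‖P‖ ≤ ‖DirichletCharacter.LFunction χ 1‖ * (2 * l) :=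
          mul_le_mul_of_nonneg_left hup hL
      _ = 2 * l * ‖DirichletCharacter.LFunction χ 1‖ := by ring
  · have h1 : 1 ≤ 2 * l * ‖P‖ := by
      rw [div_le_iff₀ (by linarith)] at hlow
      linarith
    calc ‖DirichletCharacter.LFunction χ 1‖ = 1 * ‖DirichletCharacter.LFunction χ 1‖ := (one_mul _).symm
      _ ≤ (2 * l * ‖P‖) * ‖DirichletCharacter.LFunction χ 1‖ := mul_le_mul_of_nonneg_right h1 hL
      _ = 2 * l * (‖DirichletCharacter.LFunction χ 1‖ * ‖P‖) := by ring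

end Pool.Agent.Lib.MP_9c2ea5_nt.An
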