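import Mathlib

/-!
# JOB AElem: two elementary bounds for powers

PROOF of `sum_rpow_le`: for `1 ≤ k ≤ M ≤ e^ℓ`: `k^(-σ) ≤ k^(-1+1/ℓ) = k^(-1) k^(1/ℓ) ≤ k^(-1) (e^ℓ)^(1/ℓ) = e k^(-1)`
(`-σ ≤ -1+1/ℓ`, `k ≥ 1`: `Real.rpow_le_rpow_of_exponent_le`), and `∑_{k ≤ M} 1/k ≤ 1 + log M ≤ 1 + ℓ`
(Mathlib `harmonic_le_one_add_log`; for M = 0 trivial).

PROOF of `floor_rpow_le`: `x := ⌊e^ℓ⌋₊ ≥ e^ℓ/2 ≥ 1` (as `e^ℓ ≥ 2`, `x ≥ e^ℓ - 1`).  `x^(-σ) ≤ x^(-(1-1/ℓ))` (x ≥ 1)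
`≤ (e^ℓ/2)^(-(1-1/ℓ)) = 2^(1-1/ℓ) e^(-ℓ+1) ≤ 2 e e^(-ℓ)`.
-/

open Finset

namespace Pool.Agent.Lib.MP_9c2ea5_nt.An

theorem sum_rpow_le (l σ : ℝ) (hl : 1 ≤ l) (hσ : 1 - 1 / l ≤ σ) (M : ℕ)
    (hM : (M : ℝ) ≤ Real.exp l) :
    ∑ k ∈ Finset.Ioc 0 M, (k : ℝ) ^ (-σ) ≤ Real.exp 1 * (1 + l) := by
  have hl0 : 0 < l := by linarith
  rcases Nat.eq_zero_or_pos M with h0 | hMpos
  · subst h0
    simp only [Finset.Ioc_self, Finset.sum_empty]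
    positivity
  have hM0 : (0 : ℝ) < M := by exact_mod_cast hMpos
  have hterm : ∀ k ∈ Finset.Ioc 0 M, (k : ℝ) ^ (-σ) ≤ Real.exp 1 * ((k : ℝ))⁻¹ := by
    intro k hk
    rw [Finset.mem_Ioc] at hk
    have hk1 : (1 : ℝ) ≤ k := by exact_mod_cast hk.1
    have hk0 : (0 : ℝ) < k := by linarith
    have hkM : (k : ℝ) ≤ M := by exact_mod_cast hk.2
    have h1 : (k : ℝ) ^ (-σ) ≤ (k : ℝ) ^ (-1 + 1 / l) :=
      Real.rpow_le_rpow_of_exponent_le hk1 (by linarith)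
    have h2 : (k : ℝ) ^ (-1 + 1 / l) = (k : ℝ) ^ (1 / l) * (k : ℝ)⁻¹ := by
      rw [Real.rpow_add hk0, Real.rpow_neg_one, mul_comm]
    have h3 : (k : ℝ) ^ (1 / l) ≤ (Real.exp l) ^ (1 / l) :=
      Real.rpow_le_rpow hk0.le (by linarith) (by positivity)
    have h4 : (Real.exp l) ^ (1 / l) = Real.exp 1 := by
      rw [← Real.exp_mul]
      congr 1
      field_simp
    rw [h4] at h3
    calc (k : ℝ) ^ (-σ) ≤ (k : ℝ) ^ (-1 + 1 / l) := h1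
      _ = (k : ℝ) ^ (1 / l) * (k : ℝ)⁻¹ := h2
      _ ≤ Real.exp 1 * ((k : ℝ))⁻¹ := mul_le_mul_of_nonneg_right h3 (by positivity)
  have hharm : ∑ k ∈ Finset.Ioc 0 M, ((k : ℝ))⁻¹ ≤ 1 + Real.log M := by
    have h := harmonic_le_one_add_log M
    rw [harmonic_eq_sum_Icc] at h
    push_cast at h
    have hI : Finset.Icc 1 M = Finset.Ioc 0 M := by
      ext k
      simp only [Finset.mem_Icc, Finset.mem_Ioc]
      omega
    rw [hI] at h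
    exact h
  have hlog : Real.log M ≤ l := by
    rw [Real.log_le_iff_le_exp hM0]
    exact hM
  calc ∑ k ∈ Finset.Ioc 0 M, (k : ℝ) ^ (-σ) ≤ ∑ k ∈ Finset.Ioc 0 M, Real.exp 1 * ((k : ℝ))⁻¹ :=
        Finset.sum_le_sum hterm
    _ = Real.exp 1 * ∑ k ∈ Finset.Ioc 0 M, ((k : ℝ))⁻¹ := by rw [Finset.mul_sum]
    _ ≤ Real.exp 1 * (1 + l) :=
        mul_le_mul_of_nonneg_left (by linarith) (Real.exp_pos 1).le

theorem floor_rpow_le (l σ : ℝ) (hl : 4 ≤ l) (hσ : 1 - 1 / l ≤ σ) :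
    ((⌊Real.exp l⌋₊ : ℕ) : ℝ) ^ (-σ) ≤ 2 * Real.exp 1 * Real.exp (-l) := by
  have hl0 : 0 < l := by linarith
  have he : (2 : ℝ) ≤ Real.exp l := by
    have := Real.add_one_le_exp l
    linarith
  set x : ℝ := ((⌊Real.exp l⌋₊ : ℕ) : ℝ) with hx
  have hx1 : Real.exp l - 1 < x := by
    have := Nat.lt_floor_add_one (Real.exp l)
    linarith
  have hx2 : Real.exp l / 2 ≤ x := by linarith
  have hxge : 1 ≤ x := by linarith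
  have hx0 : 0 < x := by linarith
  have hinv : 1 / l ≤ 1 := by
    rw [div_le_one hl0]
    linarith
  have hinv0 : 0 < 1 / l := by positivity
  have h1 : x ^ (-σ) ≤ x ^ (-(1 - 1 / l)) :=
    Real.rpow_le_rpow_of_exponent_le hxge (by linarith)
  have h2 : x ^ (-(1 - 1 / l)) ≤ (Real.exp l / 2) ^ (-(1 - 1 / l)) :=
    Real.rpow_le_rpow_of_nonpos (by positivity) hx2 (by linarith)
  have h3 : (Real.exp l / 2) ^ (-(1 - 1 / l)) = (2 : ℝ) ^ (1 - 1 / l) * (Real.exp 1 * Real.exp (-l)) := by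
    rw [Real.div_rpow (Real.exp_pos l).le (by norm_num), ← Real.exp_mul, ← Real.exp_add,
      Real.rpow_neg (by norm_num : (0 : ℝ) ≤ 2), div_inv_eq_mul, mul_comm]
    congr 2
    field_simp
    ring
  have h4 : (2 : ℝ) ^ (1 - 1 / l) ≤ 2 := by
    calc (2 : ℝ) ^ (1 - 1 / l) ≤ (2 : ℝ) ^ (1 : ℝ) :=
          Real.rpow_le_rpow_of_exponent_le (by norm_num) (by linarith)
      _ = 2 := Real.rpow_one 2
  calc x ^ (-σ) ≤ (2 : ℝ) ^ (1 - 1 / l) * (Real.exp 1 * Real.exp (-l)) := by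
        rw [← h3]
        exact h1.trans h2
    _ ≤ 2 * (Real.exp 1 * Real.exp (-l)) := mul_le_mul_of_nonneg_right h4 (by positivity)
    _ = 2 * Real.exp 1 * Real.exp (-l) := by ring

end Pool.Agent.Lib.MP_9c2ea5_nt.An
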