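import Mathlib
import Pool.Agent.Lib.MP_9c2ea5_nt.AElem
import Pool.Agent.Lib.MP_9c2ea5_nt.AChar

/-!
# JOB AUpper: `‖L(s,χ)‖ ≤ 10 l` for `χ ≠ 1`, `Re s ≥ 1 - 1/l`, `m (|Im s| + 4) ≤ e^l`

PROOF: `M = ⌊e^l⌋₊ ≥ 1`, `σ = Re s ≥ 1 - 1/l ≥ 3/4`.  By `LFun_approx`,
`‖L(s,χ)‖ ≤ ∑_{k ≤ M} k^(-σ) + 2 m (1 + ‖s‖/σ) M^(-σ)` (norm of `χ(k) k^(-s)` at most `k^(-σ)`).
First sum `≤ e (1+l)` (`sum_rpow_le`) `≤ 2.72 (l/4 + l) = 3.4 l`.  `‖s‖ ≤ σ + |t|`, so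
`1 + ‖s‖/σ ≤ 2 + |t|/σ ≤ 2 + (4/3)|t| ≤ (4/3)(|t| + 4)`, and `M^(-σ) ≤ 2 e e^(-l)` (`floor_rpow_le`); hence the second term is
at most `2 (4/3) m (|t|+4) 2 e e^(-l) ≤ (16/3) e ≤ 14.6 ≤ 3.65 l`.  Total `≤ 7.1 l`.
-/

open Finset

namespace Pool.Agent.Lib.MP_9c2ea5_nt.An

theorem LFun_upper {m : ℕ} [NeZero m] (χ : DirichletCharacter ℂ m) (hχ : χ ≠ 1) (l : ℝ)
    (hl : 4 ≤ l) (s : ℂ) (hs : 1 - 1 / l ≤ s.re) (hm : (m : ℝ) * (|s.im| + 4) ≤ Real.exp l) :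
    ‖DirichletCharacter.LFunction χ s‖ ≤ 10 * l := by
  set M : ℕ := ⌊Real.exp l⌋₊ with hMdef
  have hl0 : 0 < l := by linarith
  have he1 : (1 : ℝ) ≤ Real.exp l := Real.one_le_exp hl0.le
  have hM1 : 1 ≤ M := Nat.le_floor (by exact_mod_cast he1)
  have hMle : (M : ℝ) ≤ Real.exp l := Nat.floor_le (by positivity)
  have hinv : 1 / l ≤ 1 / 4 := one_div_le_one_div_of_le (by norm_num) hl
  have hσ : 3 / 4 ≤ s.re := by linarith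
  have hσ0 : 0 < s.re := by linarith
  have h1 := LFun_approx χ hχ s hσ0 M hM1
  have h2 : ‖∑ k ∈ Finset.Ioc 0 M, χ (k : ZMod m) * (k : ℂ) ^ (-s)‖ ≤
      Real.exp 1 * (1 + l) := by
    refine le_trans (norm_sum_le _ _) (le_trans ?_ (sum_rpow_le l s.re (by linarith) hs M hMle))
    refine Finset.sum_le_sum fun k hk => ?_
    have hk0 : 0 < k := (Finset.mem_Ioc.1 hk).1
    rw [norm_mul, Complex.norm_natCast_cpow_of_pos hk0, Complex.neg_re]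
    exact mul_le_of_le_one_left (Real.rpow_nonneg (Nat.cast_nonneg k) _) (χ.norm_le_one _)
  have h3 : 1 + ‖s‖ / s.re ≤ 4 / 3 * (|s.im| + 4) := by
    have h4 : ‖s‖ ≤ |s.re| + |s.im| := Complex.norm_le_abs_re_add_abs_im s
    rw [abs_of_pos hσ0] at h4
    have h5 : ‖s‖ / s.re ≤ 1 + 4 / 3 * |s.im| := by
      rw [div_le_iff₀ hσ0]
      nlinarith [abs_nonneg s.im]
    linarith [abs_nonneg s.im]
  have h4 : (M : ℝ) ^ (-s.re) ≤ 2 * Real.exp 1 * Real.exp (-l) := floor_rpow_le l s.re hl hs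
  have h5 : 2 * (m : ℝ) * (1 + ‖s‖ / s.re) * (M : ℝ) ^ (-s.re) ≤ 16 / 3 * Real.exp 1 := by
    have h6 : 0 ≤ (M : ℝ) ^ (-s.re) := Real.rpow_nonneg (Nat.cast_nonneg M) _
    have h7 : 0 ≤ 1 + ‖s‖ / s.re := by positivity
    have h8 : (0 : ℝ) ≤ m := Nat.cast_nonneg m
    have h9 : 0 ≤ 4 / 3 * (|s.im| + 4) := by positivity
    calc 2 * (m : ℝ) * (1 + ‖s‖ / s.re) * (M : ℝ) ^ (-s.re)
        ≤ 2 * (m : ℝ) * (4 / 3 * (|s.im| + 4)) * (2 * Real.exp 1 * Real.exp (-l)) := by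
          apply mul_le_mul _ h4 h6 (by positivity)
          exact mul_le_mul_of_nonneg_left h3 (by positivity)
      _ = 16 / 3 * Real.exp 1 * (((m : ℝ) * (|s.im| + 4)) * Real.exp (-l)) := by ring
      _ ≤ 16 / 3 * Real.exp 1 * (Real.exp l * Real.exp (-l)) := by
          apply mul_le_mul_of_nonneg_left _ (by positivity)
          exact mul_le_mul_of_nonneg_right hm (Real.exp_nonneg _)
      _ = 16 / 3 * Real.exp 1 := by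
          rw [← Real.exp_add, add_neg_cancel, Real.exp_zero, mul_one]
  have h6 : ‖DirichletCharacter.LFunction χ s‖ ≤
      ‖DirichletCharacter.LFunction χ s - ∑ k ∈ Finset.Ioc 0 M, χ (k : ZMod m) * (k : ℂ) ^ (-s)‖ +
      ‖∑ k ∈ Finset.Ioc 0 M, χ (k : ZMod m) * (k : ℂ) ^ (-s)‖ := by
    have h7 := norm_add_le (DirichletCharacter.LFunction χ s -
      ∑ k ∈ Finset.Ioc 0 M, χ (k : ZMod m) * (k : ℂ) ^ (-s))
      (∑ k ∈ Finset.Ioc 0 M, χ (k : ZMod m) * (k : ℂ) ^ (-s))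
    rwa [sub_add_cancel] at h7
  have he := Real.exp_one_lt_d9
  have h7 : ‖DirichletCharacter.LFunction χ s‖ ≤ 16 / 3 * Real.exp 1 + Real.exp 1 * (1 + l) := by
    linarith
  nlinarith

end Pool.Agent.Lib.MP_9c2ea5_nt.An
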