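import Mathlib

/-!
# JOB AD: squarefree numbers with many divisors

PROOF: let `a` be with `W ≤ 2^a` (`a = W`).  For `i ≥ 1` choose by Bertrand (`Nat.exists_prime_lt_and_le_two_mul`) a prime
`p_i ∈ (2^(a+i), 2^(a+i+1)]`; these are distinct (disjoint intervals) and larger than `W`, hence prime to `W` (`0 < W`).
`D = ∏_{i=1}^k p_i` is squarefree, prime to `W`, has `2^k` divisors (by induction on `k`: `D_{k+1} = D_k p_{k+1}`, coprime,
`Nat.Coprime.card_divisors_mul`, `Nat.Prime.divisors`), `D ≤ 2^(∑_{i≤k}(a+i+1)) ≤ 2^((a+2)k²) ≤ exp((a+2) k²)`, `D ≥ 2^k`.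
So `κ = a + 2`.
-/

open Finset

namespace Pool.Agent.Lib.MP_9c2ea5_nt.An

theorem exists_D (W : ℕ) (hW : 0 < W) :
    ∃ κ : ℝ, 1 ≤ κ ∧ ∀ k : ℕ, 1 ≤ k → ∃ D : ℕ, Squarefree D ∧ Nat.Coprime D W ∧
      D.divisors.card = 2 ^ k ∧ (D : ℝ) ≤ Real.exp (κ * (k : ℝ) ^ 2) ∧ 2 ^ k ≤ D := by
  have hp : ∀ i : ℕ, ∃ p : ℕ, p.Prime ∧ 2 ^ (W + i) < p ∧ p ≤ 2 ^ (W + i + 1) := by
    intro i
    obtain ⟨p, h1, h2, h3⟩ := Nat.exists_prime_lt_and_le_two_mul (2 ^ (W + i)) (by positivity)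
    exact ⟨p, h1, h2, by rw [pow_succ]; omega⟩
  choose p hpp hlo hhi using hp
  have key : ∀ k : ℕ, ∃ D : ℕ, Squarefree D ∧ Nat.Coprime D W ∧ D.divisors.card = 2 ^ k ∧
      D ≤ 2 ^ ((W + 1) * k + k * k) ∧ 2 ^ k ≤ D ∧ (∀ q : ℕ, q.Prime → q ∣ D → q < 2 ^ (W + k) + 1) := by
    intro k
    induction k with
    | zero =>
      refine ⟨1, squarefree_one, Nat.coprime_one_left _, by simp, by simp, by simp, ?_⟩
      intro q hq hq1
      exact absurd (Nat.dvd_one.mp hq1) hq.one_lt.ne'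
    | succ k ih =>
      obtain ⟨D, h1, h2, h3, h4, h5, h6⟩ := ih
      have hndvd : ¬ p k ∣ D := by
        intro hd
        have := h6 _ (hpp k) hd
        have := hlo k
        omega
      have hcop : Nat.Coprime D (p k) := ((hpp k).coprime_iff_not_dvd.mpr hndvd).symm
      have hWp : Nat.Coprime (p k) W := by
        rw [(hpp k).coprime_iff_not_dvd]
        intro hd
        have h7 := Nat.le_of_dvd hW hd
        have h8 : W < 2 ^ (W + k) :=
          lt_of_lt_of_le Nat.lt_two_pow_self (Nat.pow_le_pow_right (by norm_num) (by omega))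
        have := hlo k
        omega
      refine ⟨D * p k, ?_, Nat.Coprime.mul_left h2 hWp, ?_, ?_, ?_, ?_⟩
      · rw [Nat.squarefree_mul hcop]
        exact ⟨h1, (hpp k).squarefree⟩
      · rw [Nat.Coprime.card_divisors_mul hcop, h3, (hpp k).divisors, Finset.card_pair (hpp k).one_lt.ne]
        ring
      · calc D * p k ≤ 2 ^ ((W + 1) * k + k * k) * 2 ^ (W + k + 1) := Nat.mul_le_mul h4 (hhi k)
          _ = 2 ^ ((W + 1) * k + k * k + (W + k + 1)) := by rw [← pow_add]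
          _ ≤ 2 ^ ((W + 1) * (k + 1) + (k + 1) * (k + 1)) := by
              apply Nat.pow_le_pow_right (by norm_num)
              nlinarith
      · rw [pow_succ]
        exact Nat.mul_le_mul h5 (hpp k).two_le
      · intro q hq hqd
        rcases (hq.dvd_mul).mp hqd with h | h
        · have h7 := h6 q hq h
          have h8 : 2 ^ (W + k) ≤ 2 ^ (W + (k + 1)) := Nat.pow_le_pow_right (by norm_num) (by omega)
          omega
        · have h7 := (Nat.prime_dvd_prime_iff_eq hq (hpp k)).mp h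
          have h8 := hhi k
          rw [show W + (k + 1) = W + k + 1 by ring]
          omega
  refine ⟨(W : ℝ) + 2, by have : (0 : ℝ) ≤ W := Nat.cast_nonneg _; linarith, ?_⟩
  intro k hk
  obtain ⟨D, h1, h2, h3, h4, h5, -⟩ := key k
  refine ⟨D, h1, h2, h3, ?_, h5⟩
  have hk1 : (1 : ℝ) ≤ k := by exact_mod_cast hk
  have hW0 : (0 : ℝ) ≤ W := Nat.cast_nonneg _
  calc (D : ℝ) ≤ ((2 ^ ((W + 1) * k + k * k) : ℕ) : ℝ) := by exact_mod_cast h4
    _ = (2 : ℝ) ^ ((W + 1) * k + k * k) := by push_cast; ring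
    _ ≤ (Real.exp 1) ^ ((W + 1) * k + k * k) := by
        apply pow_le_pow_left₀ (by norm_num)
        have := Real.exp_one_gt_d9
        linarith
    _ = Real.exp ((((W + 1) * k + k * k : ℕ) : ℝ)) := by
        rw [← Real.exp_nat_mul]; simp
    _ ≤ Real.exp (((W : ℝ) + 2) * (k : ℝ) ^ 2) := by
        apply Real.exp_le_exp.mpr
        push_cast
        have h7 : (k : ℝ) ≤ (k : ℝ) ^ 2 := by nlinarith
        have h8 : ((W : ℝ) + 1) * k ≤ ((W : ℝ) + 1) * (k : ℝ) ^ 2 :=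
          mul_le_mul_of_nonneg_left h7 (by linarith)
        nlinarith

end Pool.Agent.Lib.MP_9c2ea5_nt.An
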