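import Mathlib

/-!
# JOB ALip: a bound gives bounds for the derivative and the Lipschitz constant

PROOF of `deriv_of_bound`: for `s` with `1 - 1/(2l) ≤ Re s`, `|Im s| ≤ T`, every `z` on the sphere `‖z - s‖ = 1/(2l)` has
`Re z ≥ 1 - 1/l` and `|Im z| ≤ T + 1` (`1/(2l) ≤ 1/8`).  Cauchy's estimate
`Complex.norm_deriv_le_of_forall_mem_sphere_norm_le` gives `‖deriv f s‖ ≤ 10 l/(1/(2l)) = 20 l^2`.

PROOF of `lip_of_bound`: the set `{s | 1 - 1/(2l) ≤ Re s, |Im s| ≤ T}` is convex; use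
`Convex.norm_image_sub_le_of_norm_deriv_le` (or the `hasDerivWithin` version).

`LFun_lip`, `LFun_deriv`, `zeta0_lip`, `zeta0_deriv` in ALip2 are the applications.
-/

open Finset

namespace Pool.Agent.Lib.MP_9c2ea5_nt.An

theorem deriv_of_bound (f : ℂ → ℂ) (hf : Differentiable ℂ f) (l T : ℝ) (hl : 4 ≤ l)
    (hb : ∀ s : ℂ, 1 - 1 / l ≤ s.re → |s.im| ≤ T + 1 → ‖f s‖ ≤ 10 * l)
    (s : ℂ) (hs : 1 - 1 / (2 * l) ≤ s.re) (ht : |s.im| ≤ T) :
    ‖deriv f s‖ ≤ 20 * l ^ 2 := by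
  have hl0 : (0 : ℝ) < l := by linarith
  have hr0 : (0 : ℝ) < 1 / (2 * l) := by positivity
  have hr1 : 1 / (2 * l) ≤ 1 := by
    rw [div_le_one (by positivity)]
    linarith
  have hsplit : 1 / l = 1 / (2 * l) + 1 / (2 * l) := by
    field_simp
    norm_num
  have hC : ∀ z ∈ Metric.sphere s (1 / (2 * l)), ‖f z‖ ≤ 10 * l := by
    intro z hz
    rw [mem_sphere_iff_norm] at hz
    apply hb
    · have h1 : |(z - s).re| ≤ 1 / (2 * l) := by
        rw [← hz]
        exact Complex.abs_re_le_norm _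
      rw [Complex.sub_re] at h1
      have h2 := (abs_le.mp h1).1
      rw [hsplit]
      linarith
    · have h1 : |(z - s).im| ≤ 1 / (2 * l) := by
        rw [← hz]
        exact Complex.abs_im_le_norm _
      rw [Complex.sub_im] at h1
      have h3 : |z.im| ≤ |z.im - s.im| + |s.im| := by
        have := abs_add_le (z.im - s.im) s.im
        rwa [sub_add_cancel] at this
      linarith
  have h := Complex.norm_deriv_le_of_forall_mem_sphere_norm_le hr0
    (hf.diffContOnCl) hC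
  refine h.trans (le_of_eq ?_)
  field_simp
  norm_num

theorem lip_of_bound (f : ℂ → ℂ) (hf : Differentiable ℂ f) (l T : ℝ) (hl : 4 ≤ l)
    (hb : ∀ s : ℂ, 1 - 1 / l ≤ s.re → |s.im| ≤ T + 1 → ‖f s‖ ≤ 10 * l)
    (s₁ s₂ : ℂ) (hs₁ : 1 - 1 / (2 * l) ≤ s₁.re) (ht₁ : |s₁.im| ≤ T)
    (hs₂ : 1 - 1 / (2 * l) ≤ s₂.re) (ht₂ : |s₂.im| ≤ T) :
    ‖f s₁ - f s₂‖ ≤ 20 * l ^ 2 * ‖s₁ - s₂‖ := by
  let S : Set ℂ := {s : ℂ | 1 - 1 / (2 * l) ≤ s.re ∧ |s.im| ≤ T}
  have hconv : Convex ℝ S := by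
    intro x hx y hy a b ha hb' hab
    obtain ⟨hx1, hx2⟩ := hx
    obtain ⟨hy1, hy2⟩ := hy
    have e1 : (a • x + b • y).re = a * x.re + b * y.re := by simp
    have e2 : (a • x + b • y).im = a * x.im + b * y.im := by simp
    constructor
    · rw [e1]
      have h1 := mul_le_mul_of_nonneg_left hx1 ha
      have h2 := mul_le_mul_of_nonneg_left hy1 hb'
      have h3 : (1 - 1 / (2 * l)) = a * (1 - 1 / (2 * l)) + b * (1 - 1 / (2 * l)) := by
        rw [← add_mul, hab, one_mul]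
      linarith
    · rw [e2]
      have h1 := mul_le_mul_of_nonneg_left hx2 ha
      have h2 := mul_le_mul_of_nonneg_left hy2 hb'
      have h3 : T = a * T + b * T := by rw [← add_mul, hab, one_mul]
      calc |a * x.im + b * y.im| ≤ |a * x.im| + |b * y.im| := abs_add_le _ _
        _ = a * |x.im| + b * |y.im| := by rw [abs_mul, abs_mul, abs_of_nonneg ha, abs_of_nonneg hb']
        _ ≤ T := by linarith
  exact hconv.norm_image_sub_le_of_norm_deriv_le (fun x _ => hf x)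
    (fun x hx => deriv_of_bound f hf l T hl hb x hx.1 hx.2) ⟨hs₂, ht₂⟩ ⟨hs₁, ht₁⟩

end Pool.Agent.Lib.MP_9c2ea5_nt.An
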