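import Mathlib

/-!
# JOB AZb: the terms `b_n(s) = n^(-s) - ∫_n^{n+1} x^(-s) dx`, `n ≥ 1`

PROOF of `bz_diff`: `s ↦ n^(-s)` is entire (`n ≠ 0`).  For the integral: `x^(-s) = exp(-s log x)` is, for fixed `x ∈ [n,n+1]`,
entire in `s` with derivative `-log x · x^(-s)`, bounded for `s` in a ball and `x ∈ [n,n+1]`; use
`intervalIntegral.hasDerivAt_integral_of_dominated_loc_of_deriv_le` (bound `log(n+1) (n+1)^(‖s₀‖+1)`), or the theorem
`DifferentiableOn`/holomorphy of parametric integrals.  (Alternative: closed formula off `s = 1` and continuity at `1`: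
`Complex.differentiableOn_compl_singleton_and_continuousAt_iff`.)

PROOF of `bz_norm1` (`σ = Re s > 0`): `‖n^(-s)‖ = n^(-σ)` and `‖x^(-s)‖ = x^(-σ) ≤ n^(-σ)` for `x ∈ [n,n+1]`; the interval has length 1
(`intervalIntegral.norm_integral_le_of_norm_le_const`).

PROOF of `bz_norm2`: `b_n(s) = ∫_n^{n+1} (n^(-s) - x^(-s)) dx`, and for `n ≤ x`
`‖n^(-s) - x^(-s)‖ = ‖∫_n^x s u^(-s-1) du‖ ≤ ‖s‖ (x - n) n^(-σ-1) ≤ ‖s‖ n^(-σ-1)`
(mean value inequality: derivative of `u ↦ u^(-s)` is `-s u^(-s-1)` of norm `‖s‖ u^(-σ-1) ≤ ‖s‖ n^(-σ-1)`).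
-/

open Finset

namespace Pool.Agent.Lib.MP_9c2ea5_nt.An

/-- `b_n(s) = n^(-s) - ∫_n^{n+1} x^(-s) dx` -/
noncomputable def bz (n : ℕ) (s : ℂ) : ℂ :=
  (n : ℂ) ^ (-s) - ∫ x in (n : ℝ)..((n : ℝ) + 1), (x : ℂ) ^ (-s)

private theorem AZb_pos {n : ℕ} (hn : 1 ≤ n) {x : ℝ}
    (hx : x ∈ Set.uIcc (n : ℝ) ((n : ℝ) + 1)) : (n : ℝ) ≤ x ∧ x ≤ n + 1 ∧ 0 < x := by
  rw [Set.uIcc_of_le (by linarith)] at hx
  have h1 : (1 : ℝ) ≤ n := by exact_mod_cast hn
  exact ⟨hx.1, hx.2, by linarith [hx.1]⟩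

private theorem AZb_cont {n : ℕ} (hn : 1 ≤ n) (s : ℂ) :
    ContinuousOn (fun x : ℝ => (x : ℂ) ^ s) (Set.uIcc (n : ℝ) ((n : ℝ) + 1)) := by
  intro x hx
  have h := AZb_pos hn hx
  exact (Complex.continuousAt_ofReal_cpow_const x s (Or.inr h.2.2.ne')).continuousWithinAt

private theorem AZb_int {n : ℕ} (hn : 1 ≤ n) (s : ℂ) :
    IntervalIntegrable (fun x : ℝ => (x : ℂ) ^ s) MeasureTheory.volume (n : ℝ) ((n : ℝ) + 1) :=
  (AZb_cont hn s).intervalIntegrable

theorem bz_diff (n : ℕ) (hn : 1 ≤ n) : Differentiable ℂ (bz n) := by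
  intro s₀
  have hn1 : (1 : ℝ) ≤ n := by exact_mod_cast hn
  have hn0 : (n : ℂ) ≠ 0 := by
    have : n ≠ 0 := by omega
    exact_mod_cast this
  have h1 : DifferentiableAt ℂ (fun s : ℂ => (n : ℂ) ^ (-s)) s₀ :=
    (differentiable_id.neg s₀).const_cpow (Or.inl hn0)
  set F' : ℂ → ℝ → ℂ := fun s x => (x : ℂ) ^ (-s) * Complex.log (x : ℂ) * (-1) with hF'
  have hsub : Set.uIoc (n : ℝ) ((n : ℝ) + 1) ⊆ Set.uIcc (n : ℝ) ((n : ℝ) + 1) :=
    Set.uIoc_subset_uIcc
  have h2 := intervalIntegral.hasDerivAt_integral_of_dominated_loc_of_deriv_le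
    (μ := MeasureTheory.volume) (a := (n : ℝ)) (b := (n : ℝ) + 1)
    (F := fun (s : ℂ) (x : ℝ) => (x : ℂ) ^ (-s)) (F' := F') (x₀ := s₀) (s := Metric.ball s₀ 1)
    (bound := fun _ => ((n : ℝ) + 1) ^ (‖s₀‖ + 1) * Real.log ((n : ℝ) + 1))
    (Metric.ball_mem_nhds s₀ one_pos)
    (Filter.Eventually.of_forall fun s =>
      ((AZb_cont hn (-s)).mono hsub).aestronglyMeasurable measurableSet_uIoc)
    (AZb_int hn (-s₀))
    (by
      refine ContinuousOn.aestronglyMeasurable ?_ measurableSet_uIoc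
      refine ContinuousOn.mul (ContinuousOn.mul ((AZb_cont hn (-s₀)).mono hsub) ?_)
        continuousOn_const
      intro x hx
      have h := AZb_pos hn (hsub hx)
      refine ContinuousAt.continuousWithinAt ?_
      refine ContinuousAt.clog Complex.continuous_ofReal.continuousAt ?_
      exact Complex.ofReal_mem_slitPlane.2 h.2.2)
    (Filter.Eventually.of_forall fun x hx s hs => by
      have h := AZb_pos hn (hsub hx)
      rw [hF']
      dsimp only
      rw [norm_mul, norm_mul, norm_neg, norm_one, mul_one,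
        Complex.norm_cpow_eq_rpow_re_of_pos h.2.2, ← Complex.ofReal_log h.2.2.le,
        Complex.norm_real]
      have hx1 : 1 ≤ x := hn1.trans h.1
      have hlog : ‖Real.log x‖ ≤ Real.log ((n : ℝ) + 1) := by
        rw [Real.norm_of_nonneg (Real.log_nonneg hx1)]
        exact Real.log_le_log h.2.2 h.2.1
      have hre : (-s).re ≤ ‖s₀‖ + 1 := by
        have h3 : (-s).re ≤ ‖-s‖ := Complex.re_le_norm _
        rw [norm_neg] at h3
        have h4 : ‖s‖ ≤ ‖s₀‖ + ‖s - s₀‖ := by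
          have := norm_add_le s₀ (s - s₀)
          rwa [add_sub_cancel] at this
        have h5 : ‖s - s₀‖ < 1 := by
          rw [← dist_eq_norm]
          exact hs
        linarith
      have hpow : x ^ (-s).re ≤ ((n : ℝ) + 1) ^ (‖s₀‖ + 1) := by
        calc x ^ (-s).re ≤ x ^ (‖s₀‖ + 1) := Real.rpow_le_rpow_of_exponent_le hx1 hre
          _ ≤ ((n : ℝ) + 1) ^ (‖s₀‖ + 1) :=
            Real.rpow_le_rpow h.2.2.le h.2.1 (by positivity)
      exact mul_le_mul hpow hlog (norm_nonneg _) (by positivity))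
    intervalIntegrable_const
    (Filter.Eventually.of_forall fun x hx s _ => by
      have h := AZb_pos hn (hsub hx)
      have hx0 : (x : ℂ) ≠ 0 := by exact_mod_cast h.2.2.ne'
      exact HasDerivAt.const_cpow (hasDerivAt_neg s) (Or.inl hx0))
  exact h1.sub h2.2.differentiableAt

theorem bz_norm1 (n : ℕ) (hn : 1 ≤ n) (s : ℂ) (hs : 0 < s.re) :
    ‖bz n s‖ ≤ 2 * (n : ℝ) ^ (-s.re) := by
  have hn0 : 0 < n := hn
  have hn1 : (1 : ℝ) ≤ n := by exact_mod_cast hn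
  have h1 : ‖(n : ℂ) ^ (-s)‖ = (n : ℝ) ^ (-s.re) := by
    rw [Complex.norm_natCast_cpow_of_pos hn0, Complex.neg_re]
  have h2 : ‖∫ x in (n : ℝ)..((n : ℝ) + 1), (x : ℂ) ^ (-s)‖ ≤
      (n : ℝ) ^ (-s.re) * |((n : ℝ) + 1) - n| := by
    apply intervalIntegral.norm_integral_le_of_norm_le_const
    intro x hx
    have h := AZb_pos hn (Set.uIoc_subset_uIcc hx)
    rw [Complex.norm_cpow_eq_rpow_re_of_pos h.2.2, Complex.neg_re]
    exact Real.rpow_le_rpow_of_nonpos (by linarith) h.1 (by linarith)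
  have h3 : |((n : ℝ) + 1) - n| = 1 := by
    rw [add_sub_cancel_left, abs_one]
  rw [h3, mul_one] at h2
  unfold bz
  refine (norm_sub_le _ _).trans ?_
  rw [h1]
  linarith

theorem bz_norm2 (n : ℕ) (hn : 1 ≤ n) (s : ℂ) (hs : 0 < s.re) :
    ‖bz n s‖ ≤ ‖s‖ * (n : ℝ) ^ (-s.re - 1) := by
  have hn1 : (1 : ℝ) ≤ n := by exact_mod_cast hn
  have hs0 : -s ≠ 0 := by
    intro h
    have h' : s = 0 := neg_eq_zero.1 h
    rw [h'] at hs
    exact lt_irrefl _ hs
  -- the difference of the values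
  have hdiff : ∀ x ∈ Set.uIoc (n : ℝ) ((n : ℝ) + 1),
      ‖((n : ℝ) : ℂ) ^ (-s) - (x : ℂ) ^ (-s)‖ ≤ ‖s‖ * (n : ℝ) ^ (-s.re - 1) := by
    intro x hx
    have h := AZb_pos hn (Set.uIoc_subset_uIcc hx)
    have hmv := Convex.norm_image_sub_le_of_norm_hasDerivWithin_le
      (f := fun u : ℝ => (u : ℂ) ^ (-s)) (f' := fun u : ℝ => (-s) * (u : ℂ) ^ (-s - 1))
      (C := ‖s‖ * (n : ℝ) ^ (-s.re - 1)) (s := Set.Icc (n : ℝ) ((n : ℝ) + 1)) (x := x)
      (y := (n : ℝ))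
      (fun u hu => by
        have hu0 : u ≠ 0 := by
          have := hu.1
          intro h0
          rw [h0] at this
          linarith
        exact (hasDerivAt_ofReal_cpow_const hu0 hs0).hasDerivWithinAt)
      (fun u hu => by
        have hu0 : 0 < u := by linarith [hu.1]
        rw [norm_mul, norm_neg, Complex.norm_cpow_eq_rpow_re_of_pos hu0]
        apply mul_le_mul_of_nonneg_left _ (norm_nonneg _)
        have e : (-s - 1).re = -s.re - 1 := by simp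
        rw [e]
        exact Real.rpow_le_rpow_of_nonpos (by linarith) hu.1 (by linarith))
      (convex_Icc _ _) ⟨h.1, h.2.1⟩ ⟨le_rfl, by linarith⟩
    refine hmv.trans ?_
    have h4 : ‖(n : ℝ) - x‖ ≤ 1 := by
      rw [Real.norm_eq_abs, abs_le]
      constructor <;> linarith [h.1, h.2.1]
    calc ‖s‖ * (n : ℝ) ^ (-s.re - 1) * ‖(n : ℝ) - x‖
        ≤ ‖s‖ * (n : ℝ) ^ (-s.re - 1) * 1 := by
          apply mul_le_mul_of_nonneg_left h4
          positivity
      _ = ‖s‖ * (n : ℝ) ^ (-s.re - 1) := mul_one _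
  have hb : bz n s = ∫ x in (n : ℝ)..((n : ℝ) + 1), (((n : ℝ) : ℂ) ^ (-s) - (x : ℂ) ^ (-s)) := by
    rw [intervalIntegral.integral_sub intervalIntegrable_const (AZb_int hn (-s)),
      intervalIntegral.integral_const]
    unfold bz
    rw [add_sub_cancel_left, one_smul, Complex.ofReal_natCast]
  rw [hb]
  have h5 := intervalIntegral.norm_integral_le_of_norm_le_const hdiff
  have h3 : |((n : ℝ) + 1) - n| = 1 := by
    rw [add_sub_cancel_left, abs_one]
  rwa [h3, mul_one] at h5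

end Pool.Agent.Lib.MP_9c2ea5_nt.An
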