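import Mathlib
import Pool.Agent.Lib.MP_9c2ea5_nt.AZb

/-!
# JOB AZser: a bound for `ζ(s) - 1/(s-1)` in `Re s > 0`

With `bz` of AZb (`b_n = bz n`; index the series by `n+1`, `n : ℕ`):
PROOF of `zeta0_eq`: by `bz_norm2` and the Weierstrass M-test (`differentiableOn_tsum_of_summable_norm` on the open sets
`{s | δ < Re s ∧ ‖s‖ < R}`, majorant `R n^(-δ-1)`; every point of `Ω = {s | 0 < Re s}` lies in such a set)
`B(s) = ∑' n, bz (n+1) s` is analytic on `Ω`.  For `Re s > 1`: `∑_{n=1}^{K} bz n s = ∑_{n=1}^K n^(-s) - ∫_1^{K+1} x^(-s) dx`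
and `∫_1^{K+1} x^(-s) dx = (1 - (K+1)^(1-s))/(s-1) → 1/(s-1)` (`integral_cpow`), `∑ n^(-s) = ζ(s)`
(`zeta_eq_tsum_one_div_nat_add_one_cpow`), so `B(s) = ζ(s) - 1/(s-1) = riemannZeta₀ s` (`riemannZeta_eq_inv_sub_add`).
`Ω` is open and convex, both sides are analytic on it (`differentiable_riemannZeta₀`), so they agree on `Ω`
(`AnalyticOnNhd.eqOn_of_preconnected_of_eventuallyEq`).

PROOF of `zeta0_le`: split the sum at `M`: `∑_{n ≤ M} ‖b_n‖ ≤ ∑_{n ≤ M} 2 n^(-σ)` (`bz_norm1`), and for `n > M`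
`‖b_n‖ ≤ ‖s‖ n^(-σ-1) ≤ ‖s‖ ∫_{n-1}^{n} x^(-σ-1) dx = (‖s‖/σ)((n-1)^(-σ) - n^(-σ))`, which telescopes to `(‖s‖/σ) M^(-σ)`
(finite partial sums first, then the limit; e.g. `tsum` over `n+1` split with `Summable.sum_add_tsum_nat_add`).
-/

open Finset

namespace Pool.Agent.Lib.MP_9c2ea5_nt.An

private theorem AZser_summable_rpow (σ : ℝ) (hσ : 0 < σ) :
    Summable (fun n : ℕ => (((n + 1 : ℕ)) : ℝ) ^ (-σ - 1)) := by
  have h1 : Summable (fun n : ℕ => ((n : ℝ)) ^ (-σ - 1)) := Real.summable_nat_rpow.2 (by linarith)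
  exact (summable_nat_add_iff 1).2 h1

private theorem AZser_summable (s : ℂ) (hs : 0 < s.re) : Summable (fun n : ℕ => ‖bz (n + 1) s‖) := by
  refine Summable.of_nonneg_of_le (fun _ => norm_nonneg _)
    (fun n => bz_norm2 (n + 1) (by omega) s hs) ((AZser_summable_rpow s.re hs).mul_left _)

private theorem AZser_diff :
    DifferentiableOn ℂ (fun s => ∑' n : ℕ, bz (n + 1) s) {s : ℂ | 0 < s.re} := by
  intro s0 hs0
  have hs0' : 0 < s0.re := hs0
  set δ : ℝ := s0.re / 2 with hδ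
  set R : ℝ := ‖s0‖ + 1 with hR
  set U : Set ℂ := {z : ℂ | δ < z.re} ∩ Metric.ball 0 R with hU
  have hUo : IsOpen U := by
    refine IsOpen.inter ?_ Metric.isOpen_ball
    exact isOpen_lt continuous_const Complex.continuous_re
  have hmem : s0 ∈ U := by
    refine ⟨?_, ?_⟩
    · show δ < s0.re
      rw [hδ]; linarith
    · rw [mem_ball_zero_iff, hR]; linarith
  have hd : DifferentiableOn ℂ (fun s => ∑' n : ℕ, bz (n + 1) s) U := by
    refine Complex.differentiableOn_tsum_of_summable_norm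
      (u := fun n : ℕ => R * (((n + 1 : ℕ)) : ℝ) ^ (-δ - 1)) ?_ ?_ hUo ?_
    · exact (AZser_summable_rpow δ (by rw [hδ]; linarith)).mul_left _
    · intro n
      exact (bz_diff (n + 1) (by omega)).differentiableOn
    · intro n z hz
      obtain ⟨hz1, hz2⟩ := hz
      have hz1' : δ < z.re := hz1
      have hz2' : ‖z‖ < R := mem_ball_zero_iff.1 hz2
      refine le_trans (bz_norm2 (n + 1) (by omega) z (by linarith)) ?_
      apply mul_le_mul hz2'.le _ (by positivity) (by rw [hR]; positivity)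
      apply Real.rpow_le_rpow_of_exponent_le
      · push_cast
        linarith [(Nat.cast_nonneg n : (0 : ℝ) ≤ n)]
      · linarith
  exact ((hd.differentiableAt (hUo.mem_nhds hmem))).differentiableWithinAt

private theorem AZser_gt (s : ℂ) (hs : 1 < s.re) :
    ∑' n : ℕ, bz (n + 1) s = riemannZeta₀ s := by
  have hs0 : 0 < s.re := by linarith
  have hs1 : s ≠ 1 := by
    rintro rfl
    simp at hs
  have hne : -s + 1 ≠ 0 := by
    intro h
    apply hs1
    linear_combination -h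
  have h1 := ((AZser_summable s hs0).of_norm.hasSum).tendsto_sum_nat
  -- the partial sums
  have h2 : ∀ K : ℕ, ∑ i ∈ range K, bz (i + 1) s =
      ∑ i ∈ range K, 1 / ((i : ℂ) + 1) ^ s - (((K : ℝ) + 1 : ℝ) : ℂ) ^ (-s + 1) / (-s + 1) + 1 / (-s + 1) := by
    intro K
    have h3 : ∑ k ∈ range K, ∫ x in ((k : ℝ) + 1)..(((k + 1 : ℕ) : ℝ) + 1), (x : ℂ) ^ (-s) =
        ∫ x in (((0 : ℕ) : ℝ) + 1)..((K : ℝ) + 1), (x : ℂ) ^ (-s) := by
      refine intervalIntegral.sum_integral_adjacent_intervals (a := fun k : ℕ => (k : ℝ) + 1) ?_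
      intro k _
      apply intervalIntegral.intervalIntegrable_cpow
      right
      rw [Set.mem_uIcc]
      push_cast
      intro h
      rcases h with h | h <;> linarith [(Nat.cast_nonneg k : (0 : ℝ) ≤ k)]
    have h4 : ∫ x in (((0 : ℕ) : ℝ) + 1)..((K : ℝ) + 1), (x : ℂ) ^ (-s) =
        ((((K : ℝ) + 1 : ℝ) : ℂ) ^ (-s + 1) - (((((0 : ℕ) : ℝ) + 1 : ℝ)) : ℂ) ^ (-s + 1)) / (-s + 1) := by
      apply integral_cpow
      right
      refine ⟨?_, ?_⟩
      · intro h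
        apply hs1
        linear_combination -h
      · rw [Set.mem_uIcc]
        push_cast
        intro h
        rcases h with h | h <;> linarith [(Nat.cast_nonneg K : (0 : ℝ) ≤ K)]
    have h5 : (((((0 : ℕ) : ℝ) + 1 : ℝ)) : ℂ) ^ (-s + 1) = 1 := by
      push_cast
      rw [zero_add, Complex.one_cpow]
    rw [h5] at h4
    have h6 : ∑ i ∈ range K, bz (i + 1) s = ∑ i ∈ range K, 1 / ((i : ℂ) + 1) ^ s -
        ∑ k ∈ range K, ∫ x in ((k : ℝ) + 1)..(((k + 1 : ℕ) : ℝ) + 1), (x : ℂ) ^ (-s) := by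
      rw [← Finset.sum_sub_distrib]
      refine Finset.sum_congr rfl fun i _ => ?_
      unfold bz
      congr 1
      · rw [Complex.cpow_neg, one_div]
        push_cast
        rfl
      · push_cast
        rfl
    rw [h6, h3, h4]
    field_simp
    ring
  have h3 : Filter.Tendsto (fun K : ℕ => ∑ i ∈ range K, 1 / ((i : ℂ) + 1) ^ s) Filter.atTop
      (nhds (riemannZeta s)) := by
    rw [zeta_eq_tsum_one_div_nat_add_one_cpow hs]
    have h4 : Summable (fun n : ℕ => 1 / ((n : ℂ) + 1) ^ s) := by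
      have := (summable_nat_add_iff 1).2 (Complex.summable_one_div_nat_cpow.2 hs)
      refine this.congr fun n => ?_
      push_cast
      rfl
    exact h4.hasSum.tendsto_sum_nat
  have h4 : Filter.Tendsto (fun K : ℕ => (((K : ℝ) + 1 : ℝ) : ℂ) ^ (-s + 1)) Filter.atTop (nhds 0) := by
    rw [tendsto_zero_iff_norm_tendsto_zero]
    have h5 : ∀ K : ℕ, ‖(((K : ℝ) + 1 : ℝ) : ℂ) ^ (-s + 1)‖ = ((K : ℝ) + 1) ^ (-(s.re - 1)) := by
      intro K
      rw [Complex.norm_cpow_eq_rpow_re_of_pos (by positivity)]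
      congr 1
      simp
      ring
    simp_rw [h5]
    have h6 : Filter.Tendsto (fun K : ℕ => (K : ℝ) + 1) Filter.atTop Filter.atTop :=
      Filter.tendsto_atTop_add_const_right _ _ tendsto_natCast_atTop_atTop
    exact (tendsto_rpow_neg_atTop (by linarith : 0 < s.re - 1)).comp h6
  have h5 : Filter.Tendsto (fun K : ℕ => ∑ i ∈ range K, bz (i + 1) s) Filter.atTop
      (nhds (riemannZeta s - 0 / (-s + 1) + 1 / (-s + 1))) := by
    simp_rw [h2]
    exact (h3.sub (h4.div_const _)).add_const _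
  have h6 := tendsto_nhds_unique h1 h5
  rw [h6, riemannZeta_eq_inv_sub_add hs1]
  have hne2 : s - 1 ≠ 0 := sub_ne_zero.2 hs1
  have : (-s + 1) = -(s - 1) := by ring
  rw [this]
  field_simp
  ring

theorem zeta0_eq (s : ℂ) (hs : 0 < s.re) :
    HasSum (fun n : ℕ => bz (n + 1) s) (riemannZeta₀ s) := by
  have hopen : IsOpen {s : ℂ | 0 < s.re} := isOpen_lt continuous_const Complex.continuous_re
  have hB := AZser_diff.analyticOnNhd hopen
  have hZ : AnalyticOnNhd ℂ riemannZeta₀ {s : ℂ | 0 < s.re} :=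
    differentiable_riemannZeta₀.differentiableOn.analyticOnNhd hopen
  have hconn : IsPreconnected {s : ℂ | 0 < s.re} := (convex_halfSpace_re_gt 0).isPreconnected
  have h2 : (2 : ℂ) ∈ {s : ℂ | 0 < s.re} := by
    show (0 : ℝ) < (2 : ℂ).re
    norm_num
  have hev : (fun s => ∑' n : ℕ, bz (n + 1) s) =ᶠ[nhds (2 : ℂ)] riemannZeta₀ := by
    have h3 : {z : ℂ | 1 < z.re} ∈ nhds (2 : ℂ) := by
      apply (isOpen_lt continuous_const Complex.continuous_re).mem_nhds
      show (1 : ℝ) < (2 : ℂ).re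
      norm_num
    filter_upwards [h3] with z hz
    exact AZser_gt z hz
  have heq := hB.eqOn_of_preconnected_of_eventuallyEq hZ hconn h2 hev
  have h4 : ∑' n : ℕ, bz (n + 1) s = riemannZeta₀ s := heq hs
  rw [← h4]
  exact (AZser_summable s hs).of_norm.hasSum

private theorem AZser_step (σ : ℝ) (hσ : 0 < σ) (k : ℕ) (hk : 1 ≤ k) :
    (((k + 1 : ℕ)) : ℝ) ^ (-σ - 1) ≤ (1 / σ) * ((k : ℝ) ^ (-σ) - (((k + 1 : ℕ)) : ℝ) ^ (-σ)) := by
  have hk0 : (0 : ℝ) < k := by exact_mod_cast hk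
  have hk1 : (0 : ℝ) < ((k + 1 : ℕ) : ℝ) := by positivity
  set x : ℝ := ((k + 1 : ℕ) : ℝ) with hx
  have hxk : (k : ℝ) = x - 1 := by rw [hx]; push_cast; ring
  have h1 : (k : ℝ) ^ (-σ) = x ^ (-σ) * (k / x : ℝ) ^ (-σ) := by
    rw [← Real.mul_rpow hk1.le (by positivity)]
    congr 1
    field_simp
  have h2 : 1 + σ / x ≤ (k / x : ℝ) ^ (-σ) := by
    rw [Real.rpow_def_of_pos (by positivity)]
    have h3 : Real.log (k / x) ≤ k / x - 1 := Real.log_le_sub_one_of_pos (by positivity)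
    have h4 : (k : ℝ) / x - 1 = -(1 / x) := by
      rw [hxk]; field_simp; ring
    rw [h4] at h3
    have h5 := Real.add_one_le_exp (Real.log (k / x) * -σ)
    have h6 : σ / x ≤ Real.log (k / x) * -σ := by
      have : (1 / x) * σ ≤ -Real.log (k / x) * σ := mul_le_mul_of_nonneg_right (by linarith) hσ.le
      calc σ / x = (1 / x) * σ := by ring
        _ ≤ -Real.log (k / x) * σ := this
        _ = _ := by ring
    linarith
  have h7 : x ^ (-σ - 1) = x ^ (-σ) / x := by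
    rw [Real.rpow_sub hk1, Real.rpow_one]
  have h8 : 0 < x ^ (-σ) := Real.rpow_pos_of_pos hk1 _
  rw [h1, h7]
  have h9 : x ^ (-σ) * (1 + σ / x) ≤ x ^ (-σ) * (k / x : ℝ) ^ (-σ) := mul_le_mul_of_nonneg_left h2 h8.le
  have h10 : x ^ (-σ) * (1 + σ / x) - x ^ (-σ) = σ * (x ^ (-σ) / x) := by ring
  calc x ^ (-σ) / x = (1 / σ) * (σ * (x ^ (-σ) / x)) := by field_simp
    _ ≤ (1 / σ) * (x ^ (-σ) * (k / x : ℝ) ^ (-σ) - x ^ (-σ)) := by
        apply mul_le_mul_of_nonneg_left _ (by positivity)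
        linarith

private theorem AZser_Ioc (f : ℕ → ℝ) (M : ℕ) :
    ∑ k ∈ Finset.Ioc 0 M, f k = ∑ i ∈ range M, f (i + 1) := by
  induction M with
  | zero => simp
  | succ M ih => rw [Finset.sum_Ioc_succ_top (Nat.zero_le _), ih, sum_range_succ]

theorem zeta0_le (s : ℂ) (hs : 0 < s.re) (M : ℕ) (hM : 1 ≤ M) :
    ‖riemannZeta₀ s‖ ≤ 2 * ∑ k ∈ Finset.Ioc 0 M, (k : ℝ) ^ (-s.re) +
      (‖s‖ / s.re) * (M : ℝ) ^ (-s.re) := by
  have hsum := AZser_summable s hs
  rw [← (zeta0_eq s hs).tsum_eq]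
  refine le_trans (norm_tsum_le_tsum_norm hsum) ?_
  rw [← hsum.sum_add_tsum_nat_add M]
  apply add_le_add
  · rw [AZser_Ioc, Finset.mul_sum]
    refine Finset.sum_le_sum fun i _ => ?_
    exact bz_norm1 (i + 1) (by omega) s hs
  · apply Real.tsum_le_of_sum_range_le (fun _ => norm_nonneg _)
    intro N
    have h1 : ∀ i ∈ range N, ‖bz (i + M + 1) s‖ ≤
        (‖s‖ / s.re) * (((i + M : ℕ) : ℝ) ^ (-s.re) - ((i + 1 + M : ℕ) : ℝ) ^ (-s.re)) := by
      intro i _
      have h2 := bz_norm2 (i + M + 1) (by omega) s hs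
      have h3 := AZser_step s.re hs (i + M) (by omega)
      have h4 : i + 1 + M = i + M + 1 := by ring
      rw [h4]
      refine le_trans h2 (le_trans (mul_le_mul_of_nonneg_left h3 (norm_nonneg s)) (le_of_eq ?_))
      ring
    refine le_trans (Finset.sum_le_sum h1) ?_
    rw [← Finset.mul_sum]
    have h5 : ∑ i ∈ range N, (((i + M : ℕ) : ℝ) ^ (-s.re) - ((i + 1 + M : ℕ) : ℝ) ^ (-s.re)) =
        ((0 + M : ℕ) : ℝ) ^ (-s.re) - ((N + M : ℕ) : ℝ) ^ (-s.re) :=
      Finset.sum_range_sub' (fun i : ℕ => ((i + M : ℕ) : ℝ) ^ (-s.re)) N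
    rw [h5, zero_add]
    apply mul_le_mul_of_nonneg_left _ (by positivity)
    have : (0 : ℝ) ≤ ((N + M : ℕ) : ℝ) ^ (-s.re) := Real.rpow_nonneg (Nat.cast_nonneg _) _
    linarith

end Pool.Agent.Lib.MP_9c2ea5_nt.An
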