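import Mathlib
import Pool.Agent.Lib.MP_9c2ea5_nt.AElem
import Pool.Agent.Lib.MP_9c2ea5_nt.AZser

/-!
# JOB AZup: `‖ζ(s) - 1/(s-1)‖ ≤ 10 l` for `Re s ≥ 1 - 1/l`, `|Im s| + 4 ≤ e^l`

PROOF: `M = ⌊e^l⌋₊ ≥ 1`, `σ ≥ 3/4`; by `zeta0_le`, `sum_rpow_le` and `floor_rpow_le`
`‖riemannZeta₀ s‖ ≤ 2 e (1+l) + (‖s‖/σ) 2 e e^(-l)`.  First term `≤ 5.44 * 1.25 l = 6.8 l`.  `‖s‖/σ ≤ 1 + |t|/σ ≤ (4/3)(|t|+4)`, so
the second term is at most `(4/3) 2 e ≤ 7.3 ≤ 1.83 l`.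
-/

open Finset

namespace Pool.Agent.Lib.MP_9c2ea5_nt.An

theorem zeta0_upper (l : ℝ) (hl : 4 ≤ l) (s : ℂ) (hs : 1 - 1 / l ≤ s.re)
    (hm : |s.im| + 4 ≤ Real.exp l) : ‖riemannZeta₀ s‖ ≤ 10 * l := by
  have hl0 : (0 : ℝ) < l := by linarith
  have h1l : 1 / l ≤ 1 / 4 := one_div_le_one_div_of_le (by norm_num) hl
  have hσ : 3 / 4 ≤ s.re := by linarith
  have hσ0 : 0 < s.re := by linarith
  have hexp4 : (4 : ℝ) ≤ Real.exp l := by
    have := abs_nonneg s.im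
    linarith
  have hM1 : 1 ≤ ⌊Real.exp l⌋₊ := by
    rw [Nat.one_le_floor_iff]
    linarith
  have h := zeta0_le s hσ0 ⌊Real.exp l⌋₊ hM1
  have ha := sum_rpow_le l s.re (by linarith) hs ⌊Real.exp l⌋₊
    (Nat.floor_le (Real.exp_pos l).le)
  have hb := floor_rpow_le l s.re hl hs
  have he : Real.exp 1 ≤ 2.7182818286 := Real.exp_one_lt_d9.le
  have he0 : 0 < Real.exp 1 := Real.exp_pos 1
  have hns : ‖s‖ ≤ s.re + |s.im| := by
    have h1 := Complex.norm_le_abs_re_add_abs_im s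
    rwa [abs_of_pos hσ0] at h1
  have hdiv : ‖s‖ / s.re ≤ 4 / 3 * Real.exp l := by
    rw [div_le_iff₀ hσ0]
    have h2 : s.re * 1 + |s.im| ≤ s.re * (4 / 3 * (|s.im| + 4)) := by
      have := abs_nonneg s.im
      nlinarith
    have h3 : s.re * (4 / 3 * (|s.im| + 4)) ≤ s.re * (4 / 3 * Real.exp l) := by
      apply mul_le_mul_of_nonneg_left _ hσ0.le
      linarith
    linarith
  have hE : Real.exp l * Real.exp (-l) = 1 := by
    rw [← Real.exp_add]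
    simp
  have hsec : ‖s‖ / s.re * ((⌊Real.exp l⌋₊ : ℕ) : ℝ) ^ (-s.re) ≤ 8 / 3 * Real.exp 1 := by
    calc ‖s‖ / s.re * ((⌊Real.exp l⌋₊ : ℕ) : ℝ) ^ (-s.re)
        ≤ (4 / 3 * Real.exp l) * (2 * Real.exp 1 * Real.exp (-l)) := by
          apply mul_le_mul hdiv hb
          · positivity
          · positivity
      _ = 8 / 3 * Real.exp 1 * (Real.exp l * Real.exp (-l)) := by ring
      _ = 8 / 3 * Real.exp 1 := by rw [hE, mul_one]
  have hfst : 2 * (Real.exp 1 * (1 + l)) ≤ 2 * (2.7182818286 * (1 + l)) := by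
    apply mul_le_mul_of_nonneg_left _ (by norm_num)
    apply mul_le_mul_of_nonneg_right he (by linarith)
  linarith

end Pool.Agent.Lib.MP_9c2ea5_nt.An
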