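import Mathlib
import Pool.Agent.Lib.MP_9c2ea5_nt.AUpper
import Pool.Agent.Lib.MP_9c2ea5_nt.AZup
import Pool.Agent.Lib.MP_9c2ea5_nt.ALip

/-!
# Applications of `deriv_of_bound`, `lip_of_bound` (done)
-/

open Finset

namespace Pool.Agent.Lib.MP_9c2ea5_nt.An

lemma LFun_bd {m : ℕ} [NeZero m] (χ : DirichletCharacter ℂ m) (hχ : χ ≠ 1) (l T : ℝ)
    (hl : 4 ≤ l) (hm : (m : ℝ) * (T + 5) ≤ Real.exp l) (s : ℂ) (hs : 1 - 1 / l ≤ s.re)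
    (ht : |s.im| ≤ T + 1) : ‖DirichletCharacter.LFunction χ s‖ ≤ 10 * l := by
  apply LFun_upper χ hχ l hl s hs
  refine le_trans ?_ hm
  have : (0 : ℝ) ≤ m := by positivity
  nlinarith

theorem LFun_deriv {m : ℕ} [NeZero m] (χ : DirichletCharacter ℂ m) (hχ : χ ≠ 1) (l T : ℝ)
    (hl : 4 ≤ l) (hm : (m : ℝ) * (T + 5) ≤ Real.exp l) (s : ℂ) (hs : 1 - 1 / (2 * l) ≤ s.re)
    (ht : |s.im| ≤ T) : ‖deriv (DirichletCharacter.LFunction χ) s‖ ≤ 20 * l ^ 2 :=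
  deriv_of_bound _ (DirichletCharacter.differentiable_LFunction hχ) l T hl
    (LFun_bd χ hχ l T hl hm) s hs ht

theorem LFun_lip {m : ℕ} [NeZero m] (χ : DirichletCharacter ℂ m) (hχ : χ ≠ 1) (l T : ℝ)
    (hl : 4 ≤ l) (hm : (m : ℝ) * (T + 5) ≤ Real.exp l) (s₁ s₂ : ℂ)
    (hs₁ : 1 - 1 / (2 * l) ≤ s₁.re) (ht₁ : |s₁.im| ≤ T)
    (hs₂ : 1 - 1 / (2 * l) ≤ s₂.re) (ht₂ : |s₂.im| ≤ T) :
    ‖DirichletCharacter.LFunction χ s₁ - DirichletCharacter.LFunction χ s₂‖ ≤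
      20 * l ^ 2 * ‖s₁ - s₂‖ :=
  lip_of_bound _ (DirichletCharacter.differentiable_LFunction hχ) l T hl
    (LFun_bd χ hχ l T hl hm) s₁ s₂ hs₁ ht₁ hs₂ ht₂

lemma zeta0_bd (l T : ℝ) (hl : 4 ≤ l) (hm : T + 5 ≤ Real.exp l) (s : ℂ)
    (hs : 1 - 1 / l ≤ s.re) (ht : |s.im| ≤ T + 1) : ‖riemannZeta₀ s‖ ≤ 10 * l := by
  apply zeta0_upper l hl s hs
  linarith

theorem zeta0_deriv (l T : ℝ) (hl : 4 ≤ l) (hm : T + 5 ≤ Real.exp l) (s : ℂ)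
    (hs : 1 - 1 / (2 * l) ≤ s.re) (ht : |s.im| ≤ T) : ‖deriv riemannZeta₀ s‖ ≤ 20 * l ^ 2 :=
  deriv_of_bound _ differentiable_riemannZeta₀ l T hl (zeta0_bd l T hl hm) s hs ht

theorem zeta0_lip (l T : ℝ) (hl : 4 ≤ l) (hm : T + 5 ≤ Real.exp l) (s₁ s₂ : ℂ)
    (hs₁ : 1 - 1 / (2 * l) ≤ s₁.re) (ht₁ : |s₁.im| ≤ T)
    (hs₂ : 1 - 1 / (2 * l) ≤ s₂.re) (ht₂ : |s₂.im| ≤ T) :
    ‖riemannZeta₀ s₁ - riemannZeta₀ s₂‖ ≤ 20 * l ^ 2 * ‖s₁ - s₂‖ :=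
  lip_of_bound _ differentiable_riemannZeta₀ l T hl (zeta0_bd l T hl hm) s₁ s₂ hs₁ ht₁ hs₂ ht₂

end Pool.Agent.Lib.MP_9c2ea5_nt.An
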