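import Mathlib

/-!
# JOB ARep: the inequality for two real characters

PROOF: all L-functions are taken at the real point `1 + x > 1`, where they have absolutely convergent Euler products
(`DirichletCharacter.LSeries_eulerProduct_hasProd`, `LFunction_eq_LSeries`): the product of the four L-functions is
`∏_p E_p`, `E_p = ((1 - 1_{p∤M} a)(1 - χ₁(p) a)(1 - χ₂(p) a)(1 - χ₁(p)χ₂(p) a))⁻¹`, `a = p^(-1-x) ∈ (0,1)`.  If `p | M` all characters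
vanish and `E_p = 1`.  If `p ∤ M`, `χ₁(p), χ₂(p) ∈ {1,-1}` (as `χᵢ² = 1`) and `E_p = (1-a)^(-4)` if both are `1`, and
`E_p = ((1-a)(1+a))^(-2) = (1-a²)^(-2)` in the three other cases.  So `‖E_p‖ ≥ 1` for all `p`, hence the norm of the product is `≥ 1`
(`HasProd.mul`, `HasProd.norm` / limit of finite products of norms `≥ 1`, `ge_of_tendsto`).
-/

open Complex Finset

namespace Pool.Agent.Lib.MP_9c2ea5_nt.An

private lemma ARep_val {M : ℕ} (χ : DirichletCharacter ℂ M) (h : χ ^ 2 = 1) (a : ZMod M)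
    (ha : IsUnit a) : χ a = 1 ∨ χ a = -1 := by
  have h1 : (χ ^ 2) a = 1 := by
    rw [h]
    exact MulChar.one_apply ha
  rw [MulChar.pow_apply' _ two_ne_zero, pow_two] at h1
  exact mul_self_eq_one_iff.1 h1

private lemma ARep_fac (a : ℝ) (h0 : 0 < a) (h1 : a < 1) (e₁ e₂ : ℂ) (he₁ : e₁ = 1 ∨ e₁ = -1)
    (he₂ : e₂ = 1 ∨ e₂ = -1) :
    1 ≤ ‖(1 - (1 : ℂ) * (a : ℂ))⁻¹ * (1 - e₁ * (a : ℂ))⁻¹ * (1 - e₂ * (a : ℂ))⁻¹ *
      (1 - e₁ * e₂ * (a : ℂ))⁻¹‖ := by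
  have hr : ∃ r : ℝ, 0 < r ∧ r ≤ 1 ∧ (1 - (1 : ℂ) * (a : ℂ)) * (1 - e₁ * (a : ℂ)) *
      (1 - e₂ * (a : ℂ)) * (1 - e₁ * e₂ * (a : ℂ)) = (r : ℂ) := by
    have hb : 0 < 1 - a := by linarith
    have hb1 : 1 - a ≤ 1 := by linarith
    have hc : 0 < 1 - a ^ 2 := by nlinarith
    have hc1 : 1 - a ^ 2 ≤ 1 := by nlinarith
    rcases he₁ with rfl | rfl <;> rcases he₂ with rfl | rfl
    · refine ⟨(1 - a) ^ 4, by positivity, pow_le_one₀ hb.le hb1, ?_⟩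
      push_cast
      ring
    all_goals
      refine ⟨(1 - a ^ 2) ^ 2, by positivity, pow_le_one₀ hc.le hc1, ?_⟩
      push_cast
      ring
  obtain ⟨r, hr0, hr1, hr⟩ := hr
  rw [← mul_inv, ← mul_inv, ← mul_inv, hr, norm_inv, Complex.norm_real, Real.norm_of_nonneg hr0.le]
  exact (one_le_inv₀ hr0).2 hr1

theorem rep_ineq {M : ℕ} [NeZero M] (χ₁ χ₂ : DirichletCharacter ℂ M) (h₁ : χ₁ ^ 2 = 1)
    (h₂ : χ₂ ^ 2 = 1) (x : ℝ) (hx : 0 < x) :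
    1 ≤ ‖DirichletCharacter.LFunction (1 : DirichletCharacter ℂ M) ((1 + x : ℝ) : ℂ)‖ *
      ‖DirichletCharacter.LFunction χ₁ ((1 + x : ℝ) : ℂ)‖ *
      ‖DirichletCharacter.LFunction χ₂ ((1 + x : ℝ) : ℂ)‖ *
      ‖DirichletCharacter.LFunction (χ₁ * χ₂) ((1 + x : ℝ) : ℂ)‖ := by
  set s : ℂ := ((1 + x : ℝ) : ℂ) with hs
  have hre : 1 < s.re := by
    rw [hs, Complex.ofReal_re]
    linarith
  have hp := (((DirichletCharacter.LSeries_eulerProduct_hasProd (1 : DirichletCharacter ℂ M)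
    hre).mul (DirichletCharacter.LSeries_eulerProduct_hasProd χ₁ hre)).mul
    (DirichletCharacter.LSeries_eulerProduct_hasProd χ₂ hre)).mul
    (DirichletCharacter.LSeries_eulerProduct_hasProd (χ₁ * χ₂) hre)
  have hn := hp.norm
  rw [← norm_mul, ← norm_mul, ← norm_mul, DirichletCharacter.LFunction_eq_LSeries _ hre,
    DirichletCharacter.LFunction_eq_LSeries _ hre, DirichletCharacter.LFunction_eq_LSeries _ hre,
    DirichletCharacter.LFunction_eq_LSeries _ hre]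
  have hfac : ∀ p : Nat.Primes, 1 ≤ ‖(1 - (1 : DirichletCharacter ℂ M) (p : ℕ) *
      ((p : ℕ) : ℂ) ^ (-s))⁻¹ * (1 - χ₁ (p : ℕ) * ((p : ℕ) : ℂ) ^ (-s))⁻¹ *
      (1 - χ₂ (p : ℕ) * ((p : ℕ) : ℂ) ^ (-s))⁻¹ *
      (1 - (χ₁ * χ₂) (p : ℕ) * ((p : ℕ) : ℂ) ^ (-s))⁻¹‖ := by
    intro p
    have hpp : 1 < ((p : ℕ) : ℝ) := by exact_mod_cast p.2.one_lt
    have ha : ((p : ℕ) : ℂ) ^ (-s) = ((((p : ℕ) : ℝ) ^ (-(1 + x)) : ℝ) : ℂ) := by
      rw [Complex.ofReal_cpow (by positivity), hs]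
      push_cast
      rfl
    rw [ha]
    by_cases hu : IsUnit (((p : ℕ) : ZMod M))
    · rw [MulChar.one_apply hu, MulChar.mul_apply]
      exact ARep_fac _ (by positivity)
        (Real.rpow_lt_one_of_one_lt_of_neg hpp (by linarith)) _ _
        (ARep_val χ₁ h₁ _ hu) (ARep_val χ₂ h₂ _ hu)
    · rw [MulChar.map_nonunit _ hu, MulChar.map_nonunit _ hu, MulChar.map_nonunit _ hu,
        MulChar.map_nonunit _ hu]
      simp
  refine ge_of_tendsto hn (Filter.Eventually.of_forall fun t => ?_)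
  have : ∏ p ∈ t, (1 : ℝ) ≤ ∏ p ∈ t, ‖(1 - (1 : DirichletCharacter ℂ M) (p : ℕ) *
      ((p : ℕ) : ℂ) ^ (-s))⁻¹ * (1 - χ₁ (p : ℕ) * ((p : ℕ) : ℂ) ^ (-s))⁻¹ *
      (1 - χ₂ (p : ℕ) * ((p : ℕ) : ℂ) ^ (-s))⁻¹ *
      (1 - (χ₁ * χ₂) (p : ℕ) * ((p : ℕ) : ℂ) ^ (-s))⁻¹‖ :=
    Finset.prod_le_prod (fun _ _ => zero_le_one) fun p _ => hfac p
  rw [Finset.prod_const_one] at this
  exact this

end Pool.Agent.Lib.MP_9c2ea5_nt.An
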