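import Mathlib

/-!
# JOB ARight: bounds to the right of the line `Re s = 1`
-/

open Finset

namespace Pool.Agent.Lib.MP_9c2ea5_nt.An

private theorem ARight_step (x : ℝ) (hx : 0 < x) (u : ℝ) (hu : 2 ≤ u) :
    u ^ (-(1 + x)) ≤ ((u - 1) ^ (-x) - u ^ (-x)) / x := by
  have hu0 : 0 < u := by linarith
  have hv : 0 < 1 - 1 / u := by
    have : 1 / u ≤ 1 / 2 := one_div_le_one_div_of_le (by norm_num) hu
    linarith
  have h1 : (u - 1) ^ (-x) = u ^ (-x) * (1 - 1 / u) ^ (-x) := by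
    rw [← Real.mul_rpow hu0.le hv.le]
    congr 1
    field_simp
  have h2 : 1 + x / u ≤ (1 - 1 / u) ^ (-x) := by
    rw [Real.rpow_def_of_pos hv]
    have h3 : Real.log (1 - 1 / u) ≤ -(1 / u) := by
      have := Real.log_le_sub_one_of_pos hv
      linarith
    have h4 : x / u ≤ Real.log (1 - 1 / u) * -x := by
      have : x / u = -(1 / u) * -x := by ring
      rw [this]
      nlinarith
    have h5 := Real.add_one_le_exp (Real.log (1 - 1 / u) * -x)
    linarith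
  have h6 : u ^ (-(1 + x)) = u ^ (-x) / u := by
    rw [show -(1 + x) = -x - 1 by ring, Real.rpow_sub_one hu0.ne']
  have h7 : 0 < u ^ (-x) := Real.rpow_pos_of_pos hu0 _
  rw [h6, h1, le_div_iff₀ hx]
  have h8 : u ^ (-x) / u * x = u ^ (-x) * (x / u) := by ring
  rw [h8]
  nlinarith

private theorem ARight_partial (x : ℝ) (hx : 0 < x) (N : ℕ) :
    ∑ n ∈ Finset.range (N + 1), ((n : ℝ) + 1) ^ (-(1 + x)) ≤
      1 + (1 - ((N : ℝ) + 1) ^ (-x)) / x := by
  induction N with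
  | zero => simp
  | succ N ih =>
    rw [Finset.sum_range_succ]
    have h1 := ARight_step x hx (((N + 1 : ℕ) : ℝ) + 1) (by push_cast; linarith [Nat.cast_nonneg (α := ℝ) N])
    have h2 : ((N + 1 : ℕ) : ℝ) + 1 - 1 = (N : ℝ) + 1 := by push_cast; ring
    rw [h2] at h1
    calc _ ≤ 1 + (1 - ((N : ℝ) + 1) ^ (-x)) / x +
        (((N : ℝ) + 1) ^ (-x) - (((N + 1 : ℕ) : ℝ) + 1) ^ (-x)) / x := add_le_add ih h1
      _ = _ := by ring

theorem sum_rpow_right (x : ℝ) (hx : 0 < x) :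
    Summable (fun n : ℕ => ((n : ℝ) + 1) ^ (-(1 + x))) ∧
      ∑' n : ℕ, ((n : ℝ) + 1) ^ (-(1 + x)) ≤ 1 + 1 / x := by
  have h0 : ∀ n : ℕ, 0 ≤ ((n : ℝ) + 1) ^ (-(1 + x)) := fun n => by positivity
  have hb : ∀ N : ℕ, ∑ n ∈ Finset.range N, ((n : ℝ) + 1) ^ (-(1 + x)) ≤ 1 + 1 / x := by
    intro N
    have h1 := ARight_partial x hx N
    have h2 : ∑ n ∈ Finset.range N, ((n : ℝ) + 1) ^ (-(1 + x)) ≤
        ∑ n ∈ Finset.range (N + 1), ((n : ℝ) + 1) ^ (-(1 + x)) := by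
      rw [Finset.sum_range_succ]
      linarith [h0 N]
    have h3 : (1 - ((N : ℝ) + 1) ^ (-x)) / x ≤ 1 / x := by
      apply div_le_div_of_nonneg_right _ hx.le
      have : 0 ≤ ((N : ℝ) + 1) ^ (-x) := by positivity
      linarith
    linarith
  have hs : Summable (fun n : ℕ => ((n : ℝ) + 1) ^ (-(1 + x))) :=
    summable_of_sum_range_le h0 hb
  exact ⟨hs, hs.tsum_le_of_sum_range_le hb⟩

private theorem ARight_LSeries (f : ℕ → ℂ) (hf : ∀ n, ‖f n‖ ≤ 1) (s : ℂ) (hs : 1 < s.re)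
    (hs2 : s.re ≤ 2) : ‖LSeries f s‖ ≤ 2 / (s.re - 1) := by
  obtain ⟨h1, h2⟩ := sum_rpow_right (s.re - 1) (by linarith)
  have hexp : -(1 + (s.re - 1)) = -s.re := by ring
  rw [hexp] at h1 h2
  have hterm : ∀ n : ℕ, ‖LSeries.term f s (n + 1)‖ ≤ ((n : ℝ) + 1) ^ (-s.re) := by
    intro n
    rw [LSeries.term_of_ne_zero (Nat.succ_ne_zero n), norm_div,
      Complex.norm_natCast_cpow_of_pos (Nat.succ_pos n)]
    rw [Real.rpow_neg (by positivity), ← one_div]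
    push_cast
    apply div_le_div_of_nonneg_right (hf _)
    positivity
  have hsum : Summable (fun n : ℕ => ‖LSeries.term f s (n + 1)‖) :=
    Summable.of_nonneg_of_le (fun _ => norm_nonneg _) hterm h1
  have hsum' : Summable (fun n : ℕ => LSeries.term f s (n + 1)) := hsum.of_norm
  have hsum'' : Summable (fun n : ℕ => LSeries.term f s n) :=
    (summable_nat_add_iff 1).1 hsum'
  unfold LSeries
  rw [hsum''.tsum_eq_zero_add, LSeries.term_zero, zero_add]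
  calc ‖∑' n : ℕ, LSeries.term f s (n + 1)‖ ≤ ∑' n : ℕ, ‖LSeries.term f s (n + 1)‖ :=
        norm_tsum_le_tsum_norm hsum
    _ ≤ ∑' n : ℕ, ((n : ℝ) + 1) ^ (-s.re) := hsum.tsum_le_tsum hterm h1
    _ ≤ 1 + 1 / (s.re - 1) := h2
    _ ≤ 2 / (s.re - 1) := by
        have h3 : 0 < s.re - 1 := by linarith
        rw [le_div_iff₀ h3, add_mul, div_mul_cancel₀ _ h3.ne']
        linarith

theorem L_right_le {m : ℕ} [NeZero m] (χ : DirichletCharacter ℂ m) (s : ℂ) (hs : 1 < s.re)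
    (hs2 : s.re ≤ 2) : ‖DirichletCharacter.LFunction χ s‖ ≤ 2 / (s.re - 1) := by
  rw [DirichletCharacter.LFunction_eq_LSeries χ hs]
  exact ARight_LSeries _ (fun n => χ.norm_le_one _) s hs hs2

theorem L_right_ge {m : ℕ} [NeZero m] (χ : DirichletCharacter ℂ m) (s : ℂ) (hs : 1 < s.re)
    (hs2 : s.re ≤ 2) : (s.re - 1) / 2 ≤ ‖DirichletCharacter.LFunction χ s‖ := by
  rw [DirichletCharacter.LFunction_eq_LSeries χ hs]
  have h1 := DirichletCharacter.LSeries.mul_mu_eq_one χ hs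
  have h2 := congrArg norm h1
  rw [norm_mul, norm_one] at h2
  have h3 := ARight_LSeries ((fun n : ℕ => χ (n : ZMod m)) * fun n : ℕ => ((ArithmeticFunction.moebius n : ℤ) : ℂ))
    (fun n => by
      rw [Pi.mul_apply, norm_mul]
      have h4 : ‖((ArithmeticFunction.moebius n : ℤ) : ℂ)‖ ≤ 1 := by
        rw [Complex.norm_intCast]
        exact_mod_cast ArithmeticFunction.abs_moebius_le_one
      calc _ ≤ (1 : ℝ) * 1 := mul_le_mul (χ.norm_le_one _) h4 (norm_nonneg _) (by norm_num)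
        _ = 1 := by norm_num) s hs hs2
  have h5 : 0 < s.re - 1 := by linarith
  have h6 : 0 ≤ ‖LSeries (fun n : ℕ => χ (n : ZMod m)) s‖ := norm_nonneg _
  have h7 : 1 ≤ ‖LSeries (fun n : ℕ => χ (n : ZMod m)) s‖ * (2 / (s.re - 1)) := by
    exact h2.ge.trans (mul_le_mul_of_nonneg_left h3 h6)
  have h8 : ‖LSeries (fun n : ℕ => χ (n : ZMod m)) s‖ * (2 / (s.re - 1)) =
      (‖LSeries (fun n : ℕ => χ (n : ZMod m)) s‖ * 2) / (s.re - 1) := by ring
  rw [h8, le_div_iff₀ h5] at h7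
  linarith

theorem zeta_right_le (s : ℂ) (hs : 1 < s.re) (hs2 : s.re ≤ 2) :
    ‖riemannZeta s‖ ≤ 2 / (s.re - 1) := by
  have := L_right_le (1 : DirichletCharacter ℂ 1) s hs hs2
  rwa [DirichletCharacter.LFunction_modOne_eq] at this

theorem zeta_right_ge (s : ℂ) (hs : 1 < s.re) (hs2 : s.re ≤ 2) :
    (s.re - 1) / 2 ≤ ‖riemannZeta s‖ := by
  have := L_right_ge (1 : DirichletCharacter ℂ 1) s hs hs2
  rwa [DirichletCharacter.LFunction_modOne_eq] at this

end Pool.Agent.Lib.MP_9c2ea5_nt.An
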