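import Mathlib
import Pool.Agent.Lib.MP_9c2ea5_nt.ARep
import Pool.Agent.Lib.MP_9c2ea5_nt.ALip2
import Pool.Agent.Lib.MP_9c2ea5_nt.ARight
import Pool.Agent.Lib.MP_9c2ea5_nt.ALev

/-!
# JOB ARep3: repulsion of two real characters with small `L(1,χ)`

PROOF of `repulsion`: `M = m₁ m₂`, `χᵢ'` the characters mod `M` induced by `χᵢ` (`DirichletCharacter.changeLevel`), again real
(`χᵢ'^2 = 1`) and `≠ 1` (`changeLevel_eq_one_iff`).  `x ≤ 1`.  `‖L(1,χᵢ')‖ ≤ 2l x` and (Lipschitz, `LFun_lip` with `T = 0`, `M·5 ≤ e^l`)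
`‖L(1+x,χᵢ')‖ ≤ 2 l x + 20 l² x ≤ 21 l² x`.  `‖L(1+x,1)‖ ≤ 2/x` (`L_right_le`).  If `χ₁'χ₂' ≠ 1`, `‖L(1+x,χ₁'χ₂')‖ ≤ 10 l`
(`LFun_upper`), and `rep_ineq` gives `1 ≤ (2/x)(21 l² x)²(10 l) = 8820 l^5 x < 1`, a contradiction.  So `χ₁'χ₂' = 1`, i.e.
`χ₁' = χ₂'` (multiply by `χ₂'`, `χ₂'² = 1`), and `‖L(1,χ₁)‖ ≤ 2l ‖L(1,χ₁')‖ = 2l ‖L(1,χ₂')‖ ≤ 4 l² ‖L(1,χ₂)‖`.
-/

open Complex Finset

namespace Pool.Agent.Lib.MP_9c2ea5_nt.An

lemma rep3_bound {M : ℕ} [NeZero M] (χ : DirichletCharacter ℂ M) (hχ : χ ≠ 1) (l x : ℝ)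
    (hl : 4 ≤ l) (hM : (M : ℝ) * 5 ≤ Real.exp l) (hx : 0 < x)
    (hb : ‖DirichletCharacter.LFunction χ 1‖ ≤ 2 * l * x) :
    ‖DirichletCharacter.LFunction χ ((1 + x : ℝ) : ℂ)‖ ≤ 21 * l ^ 2 * x := by
  have hl0 : (0 : ℝ) < l := by linarith
  have hr0 : (0 : ℝ) < 1 / (2 * l) := by positivity
  have h := LFun_lip χ hχ l 0 hl (by rw [zero_add]; exact hM) ((1 + x : ℝ) : ℂ) 1
    (by rw [Complex.ofReal_re]; linarith) (by rw [Complex.ofReal_im]; simp)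
    (by rw [Complex.one_re]; linarith) (by rw [Complex.one_im]; simp)
  have e : ‖((1 + x : ℝ) : ℂ) - 1‖ = x := by
    have : ((1 + x : ℝ) : ℂ) - 1 = ((x : ℝ) : ℂ) := by
      push_cast
      ring
    rw [this, Complex.norm_real, Real.norm_eq_abs, abs_of_pos hx]
  rw [e] at h
  have h2 : ‖DirichletCharacter.LFunction χ ((1 + x : ℝ) : ℂ)‖ ≤
      ‖DirichletCharacter.LFunction χ ((1 + x : ℝ) : ℂ) - DirichletCharacter.LFunction χ 1‖ +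
        ‖DirichletCharacter.LFunction χ 1‖ := by
    have := norm_add_le (DirichletCharacter.LFunction χ ((1 + x : ℝ) : ℂ) -
      DirichletCharacter.LFunction χ 1) (DirichletCharacter.LFunction χ 1)
    rwa [sub_add_cancel] at this
  have h3 : 2 * l * x ≤ l ^ 2 * x := by
    apply mul_le_mul_of_nonneg_right _ hx.le
    nlinarith
  calc ‖DirichletCharacter.LFunction χ ((1 + x : ℝ) : ℂ)‖ ≤ 20 * l ^ 2 * x + 2 * l * x :=
        h2.trans (add_le_add h hb)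
    _ ≤ 20 * l ^ 2 * x + l ^ 2 * x := by linarith
    _ = 21 * l ^ 2 * x := by ring

theorem repulsion {m₁ m₂ : ℕ} [NeZero m₁] [NeZero m₂] (χ₁ : DirichletCharacter ℂ m₁)
    (χ₂ : DirichletCharacter ℂ m₂) (h₁ : χ₁ ^ 2 = 1) (h₂ : χ₂ ^ 2 = 1) (n₁ : χ₁ ≠ 1) (n₂ : χ₂ ≠ 1)
    (l x : ℝ) (hl : 4 ≤ l) (hM : (m₁ : ℝ) * m₂ * 5 ≤ Real.exp l) (hx : 0 < x)
    (hx1 : x * (10 ^ 4 * l ^ 5) < 1) (b₁ : ‖DirichletCharacter.LFunction χ₁ 1‖ ≤ x)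
    (b₂ : ‖DirichletCharacter.LFunction χ₂ 1‖ ≤ x) :
    ‖DirichletCharacter.LFunction χ₁ 1‖ ≤ 4 * l ^ 2 * ‖DirichletCharacter.LFunction χ₂ 1‖ := by
  have hl0 : (0 : ℝ) < l := by linarith
  have hl1 : (1 : ℝ) ≤ l := by linarith
  set M : ℕ := m₁ * m₂ with hMdef
  have : NeZero M := ⟨Nat.mul_ne_zero (NeZero.ne m₁) (NeZero.ne m₂)⟩
  have d₁ : m₁ ∣ M := Nat.dvd_mul_right m₁ m₂
  have d₂ : m₂ ∣ M := Nat.dvd_mul_left m₂ m₁
  have hM5 : (M : ℝ) * 5 ≤ Real.exp l := by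
    rw [hMdef]
    push_cast
    exact hM
  have hM0 : (0 : ℝ) ≤ M := Nat.cast_nonneg M
  have hMl : (M : ℝ) ≤ Real.exp l := by linarith
  set ψ₁ := DirichletCharacter.changeLevel d₁ χ₁ with hψ₁
  set ψ₂ := DirichletCharacter.changeLevel d₂ χ₂ with hψ₂
  have q₁ : ψ₁ ^ 2 = 1 := by rw [hψ₁, ← map_pow, h₁, map_one]
  have q₂ : ψ₂ ^ 2 = 1 := by rw [hψ₂, ← map_pow, h₂, map_one]
  have p₁ : ψ₁ ≠ 1 := fun h => n₁ ((DirichletCharacter.changeLevel_eq_one_iff d₁).mp h)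
  have p₂ : ψ₂ ≠ 1 := fun h => n₂ ((DirichletCharacter.changeLevel_eq_one_iff d₂).mp h)
  obtain ⟨u₁, v₁⟩ := level_bounds d₁ χ₁ n₁ l hl hMl
  obtain ⟨u₂, v₂⟩ := level_bounds d₂ χ₂ n₂ l hl hMl
  have hl5 : (1 : ℝ) ≤ 10 ^ 4 * l ^ 5 := by
    have : (1 : ℝ) ≤ l ^ 5 := one_le_pow₀ hl1
    nlinarith
  have hx_le : x ≤ 1 := by
    have : x * 1 ≤ x * (10 ^ 4 * l ^ 5) := mul_le_mul_of_nonneg_left hl5 hx.le
    linarith
  have c₁ : ‖DirichletCharacter.LFunction ψ₁ ((1 + x : ℝ) : ℂ)‖ ≤ 21 * l ^ 2 * x :=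
    rep3_bound ψ₁ p₁ l x hl hM5 hx
      (u₁.trans (mul_le_mul_of_nonneg_left b₁ (by positivity)))
  have c₂ : ‖DirichletCharacter.LFunction ψ₂ ((1 + x : ℝ) : ℂ)‖ ≤ 21 * l ^ 2 * x :=
    rep3_bound ψ₂ p₂ l x hl hM5 hx
      (u₂.trans (mul_le_mul_of_nonneg_left b₂ (by positivity)))
  have c₀ : ‖DirichletCharacter.LFunction (1 : DirichletCharacter ℂ M) ((1 + x : ℝ) : ℂ)‖ ≤
      2 / x := by
    have := L_right_le (1 : DirichletCharacter ℂ M) ((1 + x : ℝ) : ℂ)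
      (by rw [Complex.ofReal_re]; linarith) (by rw [Complex.ofReal_re]; linarith)
    rw [Complex.ofReal_re] at this
    have e : 1 + x - 1 = x := by ring
    rwa [e] at this
  have hprod : ψ₁ * ψ₂ = 1 := by
    by_contra hne
    have c₃ : ‖DirichletCharacter.LFunction (ψ₁ * ψ₂) ((1 + x : ℝ) : ℂ)‖ ≤ 10 * l := by
      apply LFun_upper (ψ₁ * ψ₂) hne l hl
      · rw [Complex.ofReal_re]
        have : 0 < 1 / l := by positivity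
        linarith
      · rw [Complex.ofReal_im, abs_zero, zero_add]
        linarith
    have hrep := rep_ineq ψ₁ ψ₂ q₁ q₂ x hx
    have hx2 : 0 ≤ 2 / x := by positivity
    have h21 : 0 ≤ 21 * l ^ 2 * x := by positivity
    have hbig : ‖DirichletCharacter.LFunction (1 : DirichletCharacter ℂ M) ((1 + x : ℝ) : ℂ)‖ *
      ‖DirichletCharacter.LFunction ψ₁ ((1 + x : ℝ) : ℂ)‖ *
      ‖DirichletCharacter.LFunction ψ₂ ((1 + x : ℝ) : ℂ)‖ *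
      ‖DirichletCharacter.LFunction (ψ₁ * ψ₂) ((1 + x : ℝ) : ℂ)‖ ≤
        2 / x * (21 * l ^ 2 * x) * (21 * l ^ 2 * x) * (10 * l) := by
      apply mul_le_mul _ c₃ (norm_nonneg _) (by positivity)
      apply mul_le_mul _ c₂ (norm_nonneg _) (by positivity)
      exact mul_le_mul c₀ c₁ (norm_nonneg _) hx2
    have e : 2 / x * (21 * l ^ 2 * x) * (21 * l ^ 2 * x) * (10 * l) = 8820 * l ^ 5 * x := by
      field_simp
      norm_num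
    rw [e] at hbig
    have h5 : 0 < l ^ 5 * x := by positivity
    nlinarith
  have heq : ψ₁ = ψ₂ := by
    have h : ψ₁ * ψ₂ * ψ₂ = ψ₂ := by rw [hprod, one_mul]
    rw [mul_assoc, ← pow_two, q₂, mul_one] at h
    exact h
  rw [← hψ₂, ← heq] at u₂
  calc ‖DirichletCharacter.LFunction χ₁ 1‖ ≤ 2 * l * ‖DirichletCharacter.LFunction ψ₁ 1‖ := v₁
    _ ≤ 2 * l * (2 * l * ‖DirichletCharacter.LFunction χ₂ 1‖) :=
        mul_le_mul_of_nonneg_left u₂ (by positivity)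
    _ = 4 * l ^ 2 * ‖DirichletCharacter.LFunction χ₂ 1‖ := by ring

end Pool.Agent.Lib.MP_9c2ea5_nt.An
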