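import Mathlib
import Pool.Agent.Lib.MP_9c2ea5_nt.ARep3

/-!
# JOB AGood: arbitrarily large good scales `X = log N`

PROOF: Suppose not: there is `X0` such that every `X ≥ X0` is bad.  Let `δ* ∈ (0,1/16)` be such that for `0 < δ ≤ δ*`, with
`w = log(1/δ)` (so `w → ∞` as `δ → 0`): (i) `l := 12 K w²` is `≥ 4` and `5 exp(K (2w)²·2) ≤ e^l`, i.e. `log 5 + 8 K w² ≤ 12 K w²`;
(ii) `δ · 10^4 · (12 K w²)^5 < 1`; (iii) `(2w)^28 δ² ≤ δ`; (iv) `4 (12 K w²)² (2w)^28 δ² < δ`.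
(All hold for small `δ` because `w^j δ → 0`.)  Choose `X1 ≥ max(X0, e^e)` with `(log X1)^28/X1 ≤ δ*` and `(log X1)^56 ≤ X1`.
`X1` is bad: there are `m₁ ≤ exp(K (log X1)²)` and `χ₁` real, `≠ 1`, with `δ := ‖L(1,χ₁)‖ < (log X1)^28/X1 ≤ δ*`; `δ > 0`
(`DirichletCharacter.LFunction_apply_one_ne_zero`).  Put `X2 = δ^(-2)`; as `δ² < (log X1)^56/X1² ≤ 1/X1`, `X2 ≥ X1 ≥ X0`, so `X2` is bad:
`m₂ ≤ exp(K (log X2)²) = exp(K (2w)²)`, `χ₂`, `δ₂ = ‖L(1,χ₂)‖ < (log X2)^28/X2 = (2w)^28 δ² ≤ δ` (iii).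
`m₁ m₂ 5 ≤ 5 exp(2 K (2w)²) ≤ e^l` (`log X1 ≤ log X2 = 2w`).  `repulsion` (`x = δ`) gives
`δ ≤ 4 l² δ₂ ≤ 4 l² (2w)^28 δ² < δ` (iv).  Contradiction.
-/

open Complex Finset

namespace Pool.Agent.Lib.MP_9c2ea5_nt.An

private lemma AGood_ev (c : ℝ) (n : ℕ) :
    ∀ᶠ w : ℝ in Filter.atTop, c * (w ^ n * Real.exp (-w)) < 1 := by
  have h := (Real.tendsto_pow_mul_exp_neg_atTop_nhds_zero n).const_mul c
  rw [mul_zero] at h
  exact h.eventually (gt_mem_nhds one_pos)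

theorem exists_good (K X0 : ℝ) (hK : 1 ≤ K) :
    ∃ X : ℝ, X0 ≤ X ∧ ∀ (m : ℕ) [NeZero m] (χ : DirichletCharacter ℂ m),
      (m : ℝ) ≤ Real.exp (K * (Real.log X) ^ 2) → χ ^ 2 = 1 → χ ≠ 1 →
      (Real.log X) ^ 28 / X ≤ ‖DirichletCharacter.LFunction χ 1‖ := by
  by_contra hcon
  push Not at hcon
  obtain ⟨W0, hW0⟩ : ∃ W0 : ℝ, ∀ w ≥ W0, 1 ≤ w ∧
      (10 ^ 4 * (12 * K) ^ 5) * (w ^ 10 * Real.exp (-w)) < 1 ∧
      (2 : ℝ) ^ 28 * (w ^ 28 * Real.exp (-w)) < 1 ∧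
      (576 * K ^ 2 * 2 ^ 28) * (w ^ 32 * Real.exp (-w)) < 1 := by
    rw [← Filter.eventually_atTop]
    exact (Filter.eventually_ge_atTop 1).and ((AGood_ev _ 10).and ((AGood_ev _ 28).and
      (AGood_ev _ 32)))
  set u : ℝ := max W0 (max X0 1) with hu
  have huW : W0 ≤ u := le_max_left _ _
  have huX : X0 ≤ u := (le_max_left _ _).trans (le_max_right _ _)
  have hu1 : 1 ≤ u := (le_max_right _ _).trans (le_max_right _ _)
  have hexp : ∀ w : ℝ, u ≤ w → X0 ≤ Real.exp (2 * w) := by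
    intro w hw
    have h1 := Real.add_one_le_exp (2 * w)
    linarith
  obtain ⟨m₁, hm₁, χ₁, hb₁, hr₁, hn₁, hs₁⟩ := hcon _ (hexp u le_rfl)
  rw [Real.log_exp] at hb₁ hs₁
  set δ : ℝ := ‖DirichletCharacter.LFunction χ₁ 1‖ with hδ
  have hδ0 : 0 < δ := norm_pos_iff.2 (DirichletCharacter.LFunction_apply_one_ne_zero hn₁)
  have hδu : δ < Real.exp (-u) := by
    refine hs₁.trans ?_
    rw [div_lt_iff₀ (Real.exp_pos _)]
    have h1 := (hW0 u huW).2.2.1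
    have h2 : (2 * u) ^ 28 = 2 ^ 28 * (u ^ 28 * Real.exp (-u)) * Real.exp u := by
      rw [mul_assoc, mul_assoc, ← Real.exp_add, neg_add_cancel, Real.exp_zero, mul_one, mul_pow]
    have h3 : Real.exp (-u) * Real.exp (2 * u) = 1 * Real.exp u := by
      rw [← Real.exp_add, one_mul]
      congr 1
      ring
    rw [h2, h3]
    exact mul_lt_mul_of_pos_right h1 (Real.exp_pos _)
  set w : ℝ := -Real.log δ with hw
  have hδw : Real.exp (-w) = δ := by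
    rw [hw, neg_neg, Real.exp_log hδ0]
  have huw : u < w := by
    rw [← hδw, Real.exp_lt_exp] at hδu
    linarith
  obtain ⟨hw1, hwa, hwb, hwc⟩ := hW0 w (by linarith)
  obtain ⟨m₂, hm₂, χ₂, hb₂, hr₂, hn₂, hs₂⟩ := hcon _ (hexp w huw.le)
  rw [Real.log_exp] at hb₂ hs₂
  set δ₂ : ℝ := ‖DirichletCharacter.LFunction χ₂ 1‖ with hδ₂
  have hE : ((2 * w) ^ 28 / Real.exp (2 * w) : ℝ) = 2 ^ 28 * (w ^ 28 * Real.exp (-w)) * δ := by
    rw [← hδw, div_eq_iff (Real.exp_pos _).ne', mul_assoc, mul_assoc, mul_assoc, ← Real.exp_add,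
      ← Real.exp_add, mul_pow]
    have h1 : -w + (-w + 2 * w) = 0 := by ring
    rw [h1, Real.exp_zero, mul_one]
  rw [hE] at hs₂
  have hδ₂δ : δ₂ ≤ δ := by
    refine hs₂.le.trans ?_
    exact mul_le_of_le_one_left hδ0.le hwb.le
  have hK0 : 0 < K := by linarith
  have hw2 : 1 ≤ w ^ 2 := one_le_pow₀ hw1
  have hKw : 1 ≤ K * w ^ 2 := by nlinarith
  have hl : 4 ≤ 12 * K * w ^ 2 := by nlinarith
  have hM : (m₁ : ℝ) * m₂ * 5 ≤ Real.exp (12 * K * w ^ 2) := by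
    have h1 : (m₁ : ℝ) ≤ Real.exp (K * (2 * w) ^ 2) := by
      refine hb₁.trans (Real.exp_le_exp.2 ?_)
      apply mul_le_mul_of_nonneg_left _ hK0.le
      apply pow_le_pow_left₀ (by linarith)
      linarith
    have h2 : (5 : ℝ) ≤ Real.exp 4 := by
      have := Real.add_one_le_exp (4 : ℝ)
      linarith
    calc (m₁ : ℝ) * m₂ * 5 ≤ Real.exp (K * (2 * w) ^ 2) * Real.exp (K * (2 * w) ^ 2) * Real.exp 4 := by
          apply mul_le_mul _ h2 (by norm_num) (by positivity)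
          exact mul_le_mul h1 hb₂ (Nat.cast_nonneg _) (by positivity)
      _ = Real.exp (K * (2 * w) ^ 2 + K * (2 * w) ^ 2 + 4) := by
          rw [Real.exp_add, Real.exp_add]
      _ ≤ Real.exp (12 * K * w ^ 2) := by
          apply Real.exp_le_exp.2
          nlinarith
  have hx1 : δ * (10 ^ 4 * (12 * K * w ^ 2) ^ 5) < 1 := by
    have h1 : δ * (10 ^ 4 * (12 * K * w ^ 2) ^ 5) =
        (10 ^ 4 * (12 * K) ^ 5) * (w ^ 10 * Real.exp (-w)) := by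
      rw [hδw]
      ring
    rw [h1]
    exact hwa
  have hrep := repulsion χ₁ χ₂ hr₁ hr₂ hn₁ hn₂ (12 * K * w ^ 2) δ hl hM hδ0 hx1 le_rfl hδ₂δ
  have h1 : 4 * (12 * K * w ^ 2) ^ 2 * δ₂ ≤
      (576 * K ^ 2 * 2 ^ 28) * (w ^ 32 * Real.exp (-w)) * δ := by
    calc 4 * (12 * K * w ^ 2) ^ 2 * δ₂ ≤
          4 * (12 * K * w ^ 2) ^ 2 * (2 ^ 28 * (w ^ 28 * Real.exp (-w)) * δ) := by
          apply mul_le_mul_of_nonneg_left hs₂.le (by positivity)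
      _ = _ := by ring
  have h2 : (576 * K ^ 2 * 2 ^ 28) * (w ^ 32 * Real.exp (-w)) * δ < 1 * δ :=
    mul_lt_mul_of_pos_right hwc hδ0
  linarith

end Pool.Agent.Lib.MP_9c2ea5_nt.An
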