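import Mathlib

/-!
# Stream A (prime number theorem in progressions for good N): definitions

`psiC χ y = ∑_{n ≤ y} χ(n) Λ(n)`, `riesz a y = ∑_{n ≤ y} a(n) (y - n)`,
`kern y c t = y^(c+1+it) / ((c+it)(c+1+it))`.
For the zeta function we use Mathlib's entire functions
`riemannZeta₀ s = ζ(s) - 1/(s-1)` and `riemannZeta₁ s = (s-1) ζ(s) = 1 + (s-1) riemannZeta₀ s`.
-/

open Complex Finset

namespace Pool.Agent.Lib.MP_9c2ea5_nt.An

/-- the coefficients `χ(n) Λ(n)` -/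
noncomputable def aChi {m : ℕ} (χ : DirichletCharacter ℂ m) (n : ℕ) : ℂ :=
  χ (n : ZMod m) * (ArithmeticFunction.vonMangoldt n : ℂ)

/-- the coefficients `Λ(n)` -/
noncomputable def aOne (n : ℕ) : ℂ := (ArithmeticFunction.vonMangoldt n : ℂ)

/-- `ψ(y, χ)` -/
noncomputable def psiC {m : ℕ} (χ : DirichletCharacter ℂ m) (y : ℕ) : ℂ :=
  ∑ n ∈ Finset.Ioc 0 y, aChi χ n

/-- Riesz mean `∑_{n ≤ y} a(n) (y - n)` -/
noncomputable def riesz (a : ℕ → ℂ) (y : ℝ) : ℂ :=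
  ∑ n ∈ Finset.Ioc 0 ⌊y⌋₊, a n * ((y - (n : ℝ) : ℝ) : ℂ)

/-- Perron kernel `y^(c+1+it) / ((c+it)(c+1+it))` -/
noncomputable def kern (y c t : ℝ) : ℂ :=
  (y : ℂ) ^ ((c : ℂ) + 1 + t * I) / (((c : ℂ) + t * I) * ((c : ℂ) + 1 + t * I))

lemma aChi_norm_le {m : ℕ} (χ : DirichletCharacter ℂ m) (n : ℕ) :
    ‖aChi χ n‖ ≤ ArithmeticFunction.vonMangoldt n := by
  unfold aChi
  rw [norm_mul, Complex.norm_real, Real.norm_of_nonneg ArithmeticFunction.vonMangoldt_nonneg]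
  exact mul_le_of_le_one_left ArithmeticFunction.vonMangoldt_nonneg (χ.norm_le_one _)

lemma aOne_norm_le (n : ℕ) : ‖aOne n‖ ≤ ArithmeticFunction.vonMangoldt n := by
  unfold aOne
  rw [Complex.norm_real, Real.norm_of_nonneg ArithmeticFunction.vonMangoldt_nonneg]

end Pool.Agent.Lib.MP_9c2ea5_nt.An
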