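import Mathlib
import Pool.Agent.Lib.MP_9c2ea5_nt.ABase

/-!
# JOB ADiff: from Riesz means to sums

PROOF: `h = y √E`, `1 ≤ h ≤ y`.  `riesz a (y+h) - riesz a y = h ∑_{n ≤ y} a n + ∑_{y < n ≤ ⌊y+h⌋} a n (y+h-n)`
(`⌊(y:ℝ)⌋₊ = y`).  The last sum has at most `h` terms (`⌊y+h⌋₊ - y ≤ h`), each of norm at most `log(2y) h`
(`Λ(n) ≤ log n ≤ log(2y)`), so it is at most `h² log(2y)`.  With `R(z) = riesz a z - κ (z-1)²/2`:
`h (∑_{n≤y} a n - κ y) = R(y+h) - R(y) + κ (h²/2 - h) - (last sum)`, because `((y+h-1)² - (y-1)²)/2 = h(y-1) + h²/2`.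
`|κ (h²/2 - h)| ≤ h²`.  Divide by `h`: `‖∑ a n - κ y‖ ≤ 2 E y²/h + h + h log(2y) = (3 + log(2y)) y √E ≤ 5 y √E log(2y)`
(`E = √E²`, `3 ≤ 4 log 6 ≤ 4 log(2y)`).
-/

open Complex Finset

namespace Pool.Agent.Lib.MP_9c2ea5_nt.An

theorem diff_bound (a : ℕ → ℂ) (ha : ∀ n, ‖a n‖ ≤ ArithmeticFunction.vonMangoldt n) (κ E : ℝ)
    (hκ : 0 ≤ κ) (hκ1 : κ ≤ 1) (y : ℕ) (hy : 3 ≤ y) (hE1 : 1 / (y : ℝ) ^ 2 ≤ E) (hE2 : E ≤ 1)
    (h : ∀ z : ℝ, (y : ℝ) ≤ z → z ≤ 2 * y →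
      ‖riesz a z - (κ : ℂ) * (((z - 1) ^ 2 / 2 : ℝ) : ℂ)‖ ≤ E * (y : ℝ) ^ 2) :
    ‖∑ n ∈ Finset.Ioc 0 y, a n - (κ : ℂ) * y‖ ≤ 5 * y * Real.sqrt E * Real.log (2 * y) := by
  have hy0 : (0 : ℝ) < y := by
    have : 0 < y := by omega
    exact_mod_cast this
  have hy3 : (3 : ℝ) ≤ y := by exact_mod_cast hy
  have hE0 : 0 ≤ E := le_trans (by positivity) hE1
  have hs0 : 0 ≤ Real.sqrt E := Real.sqrt_nonneg E
  have hsE : Real.sqrt E ^ 2 = E := Real.sq_sqrt hE0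
  have hs1 : Real.sqrt E ≤ 1 := by
    rw [Real.sqrt_le_one]; exact hE2
  have hsy : 1 / (y : ℝ) ≤ Real.sqrt E := by
    apply Real.le_sqrt_of_sq_le
    rw [div_pow, one_pow]; exact hE1
  set g : ℝ := y * Real.sqrt E with hg
  have hg1 : 1 ≤ g := by
    have := mul_le_mul_of_nonneg_left hsy hy0.le
    rwa [mul_one_div_cancel hy0.ne'] at this
  have hgy : g ≤ y := by
    have := mul_le_mul_of_nonneg_left hs1 hy0.le
    rwa [mul_one] at this
  have hlog : 1 ≤ Real.log (2 * y) := by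
    rw [Real.le_log_iff_exp_le (by positivity)]
    have := Real.exp_one_lt_d9
    linarith
  set M : ℕ := ⌊(y : ℝ) + g⌋₊ with hM
  have hyM : y ≤ M := by
    rw [hM, Nat.le_floor_iff (by linarith)]
    linarith
  have hMg : (M : ℝ) ≤ y + g := Nat.floor_le (by linarith)
  have hfy : ⌊(y : ℝ)⌋₊ = y := Nat.floor_natCast y
  set S : ℂ := ∑ n ∈ Finset.Ioc 0 y, a n with hS
  set tail : ℂ := ∑ n ∈ Finset.Ioc y M, a n * (((y : ℝ) + g - (n : ℝ) : ℝ) : ℂ) with htail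
  have hsplit : riesz a ((y : ℝ) + g) - riesz a y = (g : ℂ) * S + tail := by
    unfold riesz
    rw [hfy, ← hM]
    have hu : Finset.Ioc 0 M = Finset.Ioc 0 y ∪ Finset.Ioc y M := by
      rw [Finset.Ioc_union_Ioc_eq_Ioc (Nat.zero_le _) hyM]
    have hd : Disjoint (Finset.Ioc 0 y) (Finset.Ioc y M) := by
      rw [Finset.disjoint_left]
      intro n hn hn'
      rw [Finset.mem_Ioc] at hn hn'
      omega
    rw [hu, Finset.sum_union hd, hS, Finset.mul_sum, htail, add_sub_right_comm, ← Finset.sum_sub_distrib]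
    congr 1
    refine Finset.sum_congr rfl fun n _ => ?_
    push_cast
    ring
  have htn : ‖tail‖ ≤ g * (Real.log (2 * y) * g) := by
    have h1 : ∀ n ∈ Finset.Ioc y M, ‖a n * (((y : ℝ) + g - (n : ℝ) : ℝ) : ℂ)‖ ≤ Real.log (2 * y) * g := by
      intro n hn
      rw [Finset.mem_Ioc] at hn
      have hn0 : (0 : ℝ) < n := by
        have : 0 < n := by omega
        exact_mod_cast this
      have hny : (y : ℝ) ≤ n := by exact_mod_cast hn.1.le
      have hnM : (n : ℝ) ≤ y + g := le_trans (by exact_mod_cast hn.2) hMg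
      rw [norm_mul, Complex.norm_real, Real.norm_of_nonneg (by linarith)]
      apply mul_le_mul _ (by linarith) (by linarith) (by linarith)
      refine le_trans (ha n) (le_trans ArithmeticFunction.vonMangoldt_le_log ?_)
      exact Real.log_le_log hn0 (by linarith)
    have h2 := norm_sum_le_of_le _ h1
    rw [Finset.sum_const, Nat.card_Ioc, nsmul_eq_mul, Nat.cast_sub hyM] at h2
    refine le_trans h2 (mul_le_mul_of_nonneg_right (by linarith) ?_)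
    exact mul_nonneg (by linarith) (by linarith)
  have hR1 := h ((y : ℝ) + g) (by linarith) (by linarith)
  have hR0 := h y le_rfl (by linarith)
  have hid : (g : ℂ) * (S - (κ : ℂ) * y) =
      (riesz a ((y : ℝ) + g) - (κ : ℂ) * ((((y : ℝ) + g - 1) ^ 2 / 2 : ℝ) : ℂ)) -
      (riesz a y - (κ : ℂ) * ((((y : ℝ) - 1) ^ 2 / 2 : ℝ) : ℂ)) +
      ((κ * (g ^ 2 / 2 - g) : ℝ) : ℂ) - tail := by
    have h3 : (g : ℂ) * S = riesz a ((y : ℝ) + g) - riesz a y - tail := by rw [hsplit]; ring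
    rw [mul_sub, h3]
    push_cast
    ring
  have hk : ‖((κ * (g ^ 2 / 2 - g) : ℝ) : ℂ)‖ ≤ g ^ 2 := by
    rw [Complex.norm_real, Real.norm_eq_abs, abs_mul, abs_of_nonneg hκ]
    have h4 : |g ^ 2 / 2 - g| ≤ g ^ 2 := by
      rw [abs_le]
      constructor <;> nlinarith
    calc κ * |g ^ 2 / 2 - g| ≤ 1 * g ^ 2 := mul_le_mul hκ1 h4 (abs_nonneg _) (by norm_num)
      _ = g ^ 2 := one_mul _
  have hmain : g * ‖S - (κ : ℂ) * y‖ ≤ E * (y : ℝ) ^ 2 + E * (y : ℝ) ^ 2 + g ^ 2 + g * (Real.log (2 * y) * g) := by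
    have h5 : ‖(g : ℂ) * (S - (κ : ℂ) * y)‖ = g * ‖S - (κ : ℂ) * y‖ := by
      rw [norm_mul, Complex.norm_real, Real.norm_of_nonneg (by linarith)]
    rw [← h5, hid]
    refine le_trans (norm_sub_le _ _) (add_le_add ?_ htn)
    refine le_trans (norm_add_le _ _) (add_le_add ?_ hk)
    exact le_trans (norm_sub_le _ _) (add_le_add hR1 hR0)
  have hEy : E * (y : ℝ) ^ 2 = g * g := by
    calc E * (y : ℝ) ^ 2 = Real.sqrt E ^ 2 * (y : ℝ) ^ 2 := by rw [hsE]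
      _ = g * g := by rw [hg]; ring
  rw [hEy] at hmain
  have hfin : g * ‖S - (κ : ℂ) * y‖ ≤ g * (g * (3 + Real.log (2 * y))) := by
    refine le_trans hmain (le_of_eq ?_)
    ring
  have hfin2 := le_of_mul_le_mul_left hfin (by linarith)
  refine le_trans hfin2 ?_
  have : g * (3 + Real.log (2 * y)) ≤ g * (5 * Real.log (2 * y)) := by
    apply mul_le_mul_of_nonneg_left _ (by linarith)
    linarith
  refine le_trans this (le_of_eq ?_)
  rw [hg]; ring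

end Pool.Agent.Lib.MP_9c2ea5_nt.An
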