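import Mathlib
import Pool.Agent.Lib.MP_9c2ea5_nt.ARight

/-!
# JOB ALam: Dirichlet series with coefficients dominated by `Λ` to the right of 1

PROOF: `Λ(n) ≤ log n` (`ArithmeticFunction.vonMangoldt_le_log`) `≤ n^ε/ε` with `ε = (c-1)/2` (`Real.log_le_rpow_div`), so
`‖term a s n‖ = ‖a n‖ n^(-c) ≤ (2/(c-1)) n^(-(1+(c-1)/2))`; by `sum_rpow_right` (sum over `n+1`, the term `n = 0` is zero) the series
converges absolutely and its sum is at most `(2/(c-1)) (1 + 2/(c-1)) ≤ (2/(c-1)) (3/(c-1)) = 6/(c-1)²` (`1 ≤ 1/(c-1)`).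
-/

open Complex Finset

namespace Pool.Agent.Lib.MP_9c2ea5_nt.An

theorem LSeries_vm_le (a : ℕ → ℂ) (ha : ∀ n, ‖a n‖ ≤ ArithmeticFunction.vonMangoldt n) (c : ℝ)
    (hc : 1 < c) (hc2 : c ≤ 2) :
    LSeriesSummable a (c : ℂ) ∧ ∀ s : ℂ, s.re = c → ‖LSeries a s‖ ≤ 6 / (c - 1) ^ 2 := by
  have hx : 0 < (c - 1) / 2 := by linarith
  obtain ⟨hsum, hle⟩ := sum_rpow_right ((c - 1) / 2) hx
  have hbound : ∀ (s : ℂ), s.re = c → ∀ n : ℕ, ‖LSeries.term a s (n + 1)‖ ≤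
      (2 / (c - 1)) * ((n : ℝ) + 1) ^ (-(1 + (c - 1) / 2)) := by
    intro s hs n
    rw [LSeries.norm_term_eq, if_neg (Nat.succ_ne_zero n), hs]
    have hn0 : (0 : ℝ) < (n : ℝ) + 1 := by positivity
    have hn1 : (1 : ℝ) ≤ (n : ℝ) + 1 := by linarith [(Nat.cast_nonneg n : (0 : ℝ) ≤ n)]
    have hcast : ((n + 1 : ℕ) : ℝ) = (n : ℝ) + 1 := by push_cast; ring
    have h1 : ‖a (n + 1)‖ ≤ ((n : ℝ) + 1) ^ ((c - 1) / 2) / ((c - 1) / 2) := by
      refine (ha (n + 1)).trans (ArithmeticFunction.vonMangoldt_le_log.trans ?_)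
      rw [hcast]
      exact Real.log_le_rpow_div hn0.le hx
    rw [hcast, div_le_iff₀ (Real.rpow_pos_of_pos hn0 c)]
    refine h1.trans (le_of_eq ?_)
    rw [mul_assoc, ← Real.rpow_add hn0]
    have h2 : -(1 + (c - 1) / 2) + c = (c - 1) / 2 := by ring
    rw [h2]
    have h3 : c - 1 ≠ 0 := by linarith
    field_simp
  have hsum' : Summable (fun n : ℕ => (2 / (c - 1)) * ((n : ℝ) + 1) ^ (-(1 + (c - 1) / 2))) :=
    hsum.mul_left _
  have hnorm : ∀ s : ℂ, s.re = c → Summable (fun n : ℕ => ‖LSeries.term a s (n + 1)‖) := by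
    intro s hs
    exact Summable.of_nonneg_of_le (fun n => norm_nonneg _) (hbound s hs) hsum'
  have hS : ∀ s : ℂ, s.re = c → LSeriesSummable a s := by
    intro s hs
    rw [LSeriesSummable, ← summable_nat_add_iff 1]
    exact (hnorm s hs).of_norm
  refine ⟨hS c (Complex.ofReal_re c), fun s hs => ?_⟩
  rw [LSeries, (hS s hs).tsum_eq_zero_add, LSeries.term_zero, zero_add]
  refine (norm_tsum_le_tsum_norm (hnorm s hs)).trans ?_
  refine ((hnorm s hs).tsum_le_tsum (hbound s hs) hsum').trans ?_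
  rw [tsum_mul_left]
  have h4 : 0 < c - 1 := by linarith
  have h5 : (1 : ℝ) ≤ 1 / (c - 1) := by
    rw [le_div_iff₀ h4]; linarith
  calc (2 / (c - 1)) * ∑' n : ℕ, ((n : ℝ) + 1) ^ (-(1 + (c - 1) / 2)) ≤
      (2 / (c - 1)) * (1 + 1 / ((c - 1) / 2)) :=
        mul_le_mul_of_nonneg_left hle (by positivity)
    _ ≤ (2 / (c - 1)) * (3 * (1 / (c - 1))) := by
        apply mul_le_mul_of_nonneg_left _ (by positivity)
        have h6 : 1 / ((c - 1) / 2) = 2 * (1 / (c - 1)) := by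
          field_simp
        rw [h6]
        linarith
    _ = 6 / (c - 1) ^ 2 := by
        field_simp
        ring

end Pool.Agent.Lib.MP_9c2ea5_nt.An
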