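import Mathlib
import Pool.Agent.Lib.MP_9c2ea5_nt.ARight
import Pool.Agent.Lib.MP_9c2ea5_nt.AProd
import Pool.Agent.Lib.MP_9c2ea5_nt.AZup

/-!
# JOB AMert: the 3-4-1 inequality

PROOF of `mert`: `DirichletCharacter.norm_LFunction_product_ge_one χ hx t` says
`‖L(1+x,χ₀)^3 L(1+x+it,χ)^4 L(1+x+2it,χ²)‖ ≥ 1`; `‖L(1+x,χ₀)‖ ≤ 2/x` by `L_right_le`.  So
`(2/x)^3 ‖L(1+x+it,χ)‖^4 ‖L(1+x+2it,χ²)‖ ≥ 1`.  `mert_zeta`: the case of the character mod 1.

PROOF of `triv_upper`: by `DirichletCharacter.LFunctionTrivChar_eq_mul_riemannZeta`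
(`s = 1+x+it ≠ 1`), `‖L(s,χ₀)‖ = ∏_{p|m} ‖1 - p^(-s)‖ ‖ζ(s)‖ ≤ ∏ (1 + 1/p) ‖ζ(s)‖ ≤ (1 + log m/log 2) ‖ζ(s)‖ ≤ 2 l ‖ζ(s)‖`
(`prod_upper`; `‖p^(-s)‖ = p^(-1-x) ≤ 1/p`; `m ≤ e^l` so `log m ≤ l`, `1/log 2 ≤ 1.45`, `1 ≤ l/4`), and
`‖ζ(s)‖ ≤ 1/‖s-1‖ + ‖riemannZeta₀ s‖ ≤ 1/|t| + 10 l` (`riemannZeta_eq_inv_sub_add`, `zeta0_upper`, `|t| + 4 ≤ m(|t|+4) ≤ e^l`).
-/

open Complex Finset

namespace Pool.Agent.Lib.MP_9c2ea5_nt.An

theorem mert {m : ℕ} [NeZero m] (χ : DirichletCharacter ℂ m) (x t : ℝ) (hx : 0 < x)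
    (hx1 : x ≤ 1) :
    (x / 2) ^ 3 ≤ ‖DirichletCharacter.LFunction χ ((1 + x : ℝ) + t * I)‖ ^ 4 *
      ‖DirichletCharacter.LFunction (χ ^ 2) ((1 + x : ℝ) + (2 * t : ℝ) * I)‖ := by
  have h := DirichletCharacter.norm_LFunction_product_ge_one χ hx t
  have e1 : (1 + (x : ℂ) + I * t) = ((1 + x : ℝ) : ℂ) + t * I := by
    push_cast; ring
  have e2 : (1 + (x : ℂ) + 2 * I * t) = ((1 + x : ℝ) : ℂ) + (2 * t : ℝ) * I := by
    push_cast; ring
  have e0 : (1 + (x : ℂ)) = ((1 + x : ℝ) : ℂ) := by push_cast; ring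
  rw [e1, e2, e0, norm_mul, norm_mul, norm_pow, norm_pow] at h
  have hA : ‖DirichletCharacter.LFunctionTrivChar m ((1 + x : ℝ) : ℂ)‖ ≤ 2 / x := by
    have := L_right_le (1 : DirichletCharacter ℂ m) ((1 + x : ℝ) : ℂ)
      (by rw [Complex.ofReal_re]; linarith) (by rw [Complex.ofReal_re]; linarith)
    rw [Complex.ofReal_re] at this
    simpa using this
  set A := ‖DirichletCharacter.LFunctionTrivChar m ((1 + x : ℝ) : ℂ)‖ with hAdef
  set B := ‖DirichletCharacter.LFunction χ ((1 + x : ℝ) + t * I)‖ with hBdef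
  set C := ‖DirichletCharacter.LFunction (χ ^ 2) ((1 + x : ℝ) + (2 * t : ℝ) * I)‖ with hCdef
  have hA0 : 0 ≤ A := norm_nonneg _
  have hB0 : 0 ≤ B := norm_nonneg _
  have hC0 : 0 ≤ C := norm_nonneg _
  have hxA : x / 2 * A ≤ 1 := by
    have : x / 2 * A ≤ x / 2 * (2 / x) := mul_le_mul_of_nonneg_left hA (by positivity)
    have e : x / 2 * (2 / x) = 1 := by field_simp
    linarith
  have h3 : (x / 2 * A) ^ 3 ≤ 1 := pow_le_one₀ (by positivity) hxA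
  have hBC : 0 ≤ B ^ 4 * C := by positivity
  calc (x / 2) ^ 3 = (x / 2) ^ 3 * 1 := by ring
    _ ≤ (x / 2) ^ 3 * (A ^ 3 * B ^ 4 * C) := mul_le_mul_of_nonneg_left h (by positivity)
    _ = (x / 2 * A) ^ 3 * (B ^ 4 * C) := by ring
    _ ≤ 1 * (B ^ 4 * C) := mul_le_mul_of_nonneg_right h3 hBC
    _ = B ^ 4 * C := one_mul _

theorem mert_zeta (x t : ℝ) (hx : 0 < x) (hx1 : x ≤ 1) :
    (x / 2) ^ 3 ≤ ‖riemannZeta ((1 + x : ℝ) + t * I)‖ ^ 4 *
      ‖riemannZeta ((1 + x : ℝ) + (2 * t : ℝ) * I)‖ := by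
  have h := mert (1 : DirichletCharacter ℂ 1) x t hx hx1
  rw [DirichletCharacter.LFunction_modOne_eq, DirichletCharacter.LFunction_modOne_eq] at h
  exact h

theorem triv_upper {m : ℕ} [NeZero m] (l x t : ℝ) (hl : 4 ≤ l) (hx : 0 < x) (ht : t ≠ 0)
    (hm : (m : ℝ) * (|t| + 4) ≤ Real.exp l) :
    ‖DirichletCharacter.LFunction (1 : DirichletCharacter ℂ m) ((1 + x : ℝ) + t * I)‖ ≤
      2 * l * (1 / |t| + 10 * l) := by
  have hl0 : 0 < l := by linarith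
  set s : ℂ := ((1 + x : ℝ) : ℂ) + t * I with hs
  have hre : s.re = 1 + x := by simp [hs]
  have him : s.im = t := by simp [hs]
  have hs1 : s ≠ 1 := by
    intro h
    have : s.im = 0 := by rw [h]; simp
    rw [him] at this
    exact ht this
  have hm0 : m ≠ 0 := NeZero.ne m
  have hm1 : 1 ≤ m := Nat.one_le_iff_ne_zero.mpr hm0
  have hm1R : (1 : ℝ) ≤ m := by exact_mod_cast hm1
  have habs : 0 ≤ |t| := abs_nonneg t
  have htpos : 0 < |t| := abs_pos.mpr ht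
  have hmt : |t| + 4 ≤ Real.exp l := by nlinarith
  have hml : (m : ℝ) ≤ Real.exp l := by nlinarith
  have hL := DirichletCharacter.LFunctionTrivChar_eq_mul_riemannZeta (N := m) hs1
  change ‖DirichletCharacter.LFunctionTrivChar m s‖ ≤ _
  rw [hL, norm_mul, norm_prod]
  have hprod : ∏ p ∈ m.primeFactors, ‖(1 : ℂ) - (p : ℂ) ^ (-s)‖ ≤ 1 + Real.log m / Real.log 2 := by
    refine le_trans (Finset.prod_le_prod (fun p _ => norm_nonneg _) ?_) (prod_upper m hm1)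
    intro p hp
    have hpp := Nat.prime_of_mem_primeFactors hp
    have hp0 : 0 < p := hpp.pos
    have hpR : (1 : ℝ) ≤ p := by exact_mod_cast hpp.one_lt.le
    have hn : ‖(p : ℂ) ^ (-s)‖ ≤ 1 / (p : ℝ) := by
      rw [Complex.norm_natCast_cpow_of_pos hp0, Complex.neg_re, hre, one_div,
        ← Real.rpow_neg_one]
      exact Real.rpow_le_rpow_of_exponent_le hpR (by linarith)
    calc ‖(1 : ℂ) - (p : ℂ) ^ (-s)‖ ≤ ‖(1 : ℂ)‖ + ‖(p : ℂ) ^ (-s)‖ := norm_sub_le _ _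
      _ ≤ 1 + 1 / (p : ℝ) := by rw [norm_one]; linarith
  have hlogm : Real.log m ≤ l := by
    rw [Real.log_le_iff_le_exp (by linarith)]
    exact hml
  have hlog2 : 0.69 < Real.log 2 := by
    have := Real.log_two_gt_d9
    linarith
  have hprod2 : 1 + Real.log m / Real.log 2 ≤ 2 * l := by
    have h1 : Real.log m / Real.log 2 ≤ l / 0.69 := by
      apply div_le_div₀ hl0.le hlogm (by norm_num) hlog2.le
    have h2 : l / 0.69 ≤ 1.45 * l := by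
      rw [div_le_iff₀ (by norm_num)]
      nlinarith
    linarith
  have hzeta : ‖riemannZeta s‖ ≤ 1 / |t| + 10 * l := by
    rw [riemannZeta_eq_inv_sub_add hs1]
    have h0 := zeta0_upper l hl s (by
      rw [hre]
      have : 0 < 1 / l := by positivity
      linarith) (by rw [him]; exact hmt)
    have h1 : ‖(s - 1)⁻¹‖ ≤ 1 / |t| := by
      rw [norm_inv, one_div]
      apply inv_anti₀ htpos
      have := Complex.abs_im_le_norm (s - 1)
      simpa [him] using this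
    calc ‖(s - 1)⁻¹ + riemannZeta₀ s‖ ≤ ‖(s - 1)⁻¹‖ + ‖riemannZeta₀ s‖ := norm_add_le _ _
      _ ≤ 1 / |t| + 10 * l := by linarith
  calc (∏ p ∈ m.primeFactors, ‖(1 : ℂ) - (p : ℂ) ^ (-s)‖) * ‖riemannZeta s‖
      ≤ (2 * l) * (1 / |t| + 10 * l) := by
        apply mul_le_mul (hprod.trans hprod2) hzeta (norm_nonneg _) (by positivity)
    _ = 2 * l * (1 / |t| + 10 * l) := rfl

end Pool.Agent.Lib.MP_9c2ea5_nt.An
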