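import Mathlib

/-!
# JOB AStep: the abstract lower bound step of the 3-4-1 argument

PROOF of `step341`: let `σ ∈ [1+x0, 2]`, `x = σ - 1 ∈ [x0,1]`: `‖F(σ+it)‖^4 ≥ (x/2)^3/U ≥ (x0/2)^3/U ≥ (4 Λ x0)^4` because
`x0^3/(8U) ≥ 256 Λ^4 x0^4 ⟺ 2048 Λ^4 U x0 ≤ 1`; so `‖F(σ+it)‖ ≥ 4 Λ x0 ≥ 2 Λ x0`.  For `σ ∈ [1-x0, 1+x0]`:
`‖F(σ+it)‖ ≥ ‖F(1+x0+it)‖ - Λ (1+x0-σ) ≥ 4 Λ x0 - 2 Λ x0 = 2 Λ x0`.
-/

open Complex Finset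

namespace Pool.Agent.Lib.MP_9c2ea5_nt.An

theorem step341 (F : ℂ → ℂ) (t x0 Lam U : ℝ) (hx0 : 0 < x0) (hx1 : x0 ≤ 1 / 2) (hL : 0 < Lam)
    (hU : 0 < U) (hsmall : 2048 * Lam ^ 4 * U * x0 ≤ 1)
    (h341 : ∀ x : ℝ, x0 ≤ x → x ≤ 1 → (x / 2) ^ 3 ≤ ‖F ((1 + x : ℝ) + t * I)‖ ^ 4 * U)
    (hlip : ∀ σ₁ σ₂ : ℝ, 1 - x0 ≤ σ₁ → σ₁ ≤ 2 → 1 - x0 ≤ σ₂ → σ₂ ≤ 2 →
      ‖F ((σ₁ : ℂ) + t * I) - F ((σ₂ : ℂ) + t * I)‖ ≤ Lam * |σ₁ - σ₂|)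
    (σ : ℝ) (hσ : 1 - x0 ≤ σ) (hσ2 : σ ≤ 2) :
    2 * Lam * x0 ≤ ‖F ((σ : ℂ) + t * I)‖ := by
  have key : ∀ x : ℝ, x0 ≤ x → x ≤ 1 → 4 * Lam * x0 ≤ ‖F ((1 + x : ℝ) + t * I)‖ := by
    intro x hx hx'
    by_contra hcon
    push Not at hcon
    have h1 := h341 x hx hx'
    set n := ‖F ((1 + x : ℝ) + t * I)‖ with hn
    have hn0 : 0 ≤ n := norm_nonneg _
    have h2 : n ^ 4 < (4 * Lam * x0) ^ 4 := pow_lt_pow_left₀ hcon hn0 (by norm_num)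
    have h3 : (x0 / 2) ^ 3 ≤ (x / 2) ^ 3 := by
      apply pow_le_pow_left₀ (by positivity)
      linarith
    have h4 : n ^ 4 * U < (4 * Lam * x0) ^ 4 * U := mul_lt_mul_of_pos_right h2 hU
    have h5 : (4 * Lam * x0) ^ 4 * U = (2048 * Lam ^ 4 * U * x0) * (x0 / 2) ^ 3 := by ring
    have h6 : (2048 * Lam ^ 4 * U * x0) * (x0 / 2) ^ 3 ≤ 1 * (x0 / 2) ^ 3 :=
      mul_le_mul_of_nonneg_right hsmall (by positivity)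
    linarith
  by_cases hc : 1 + x0 ≤ σ
  · have h1 := key (σ - 1) (by linarith) (by linarith)
    have e : ((1 + (σ - 1) : ℝ) : ℂ) = (σ : ℂ) := by push_cast; ring
    rw [e] at h1
    have : 0 < Lam * x0 := mul_pos hL hx0
    linarith
  · push Not at hc
    have h1 := key x0 le_rfl (by linarith)
    have h2 := hlip (1 + x0) σ (by linarith) (by linarith) hσ hσ2
    rw [abs_of_nonneg (by linarith)] at h2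
    have h3 : Lam * (1 + x0 - σ) ≤ Lam * (2 * x0) := by
      apply mul_le_mul_of_nonneg_left _ hL.le
      linarith
    have h4 := norm_sub_norm_le (F (((1 + x0 : ℝ) : ℂ) + t * I)) (F ((σ : ℂ) + t * I))
    linarith

end Pool.Agent.Lib.MP_9c2ea5_nt.An
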