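import Mathlib
import Pool.Agent.Lib.MP_9c2ea5_nt.ALip2
import Pool.Agent.Lib.MP_9c2ea5_nt.AMert
import Pool.Agent.Lib.MP_9c2ea5_nt.AStep

/-!
# JOB ALowC: lower bound for `L(s,χ)` near the line 1, `χ² ≠ 1`

PROOF of `low_complex` (`χ² ≠ 1`, hence also `χ ≠ 1`): `step341` with `F = L(·,χ)`, `Lam = 20 l²`, `U = 10 l`,
`x0 = 1/(10^10 l^9)`: `2048 (20 l²)^4 (10 l) = 3.2768·10^9 l^9 ≤ 10^10 l^9`.  `h341`: `mert` and
`‖L(1+x+2it,χ²)‖ ≤ 10 l` (`LFun_upper` for `χ²`, `m(2|t|+4) ≤ m(2T+5) ≤ e^l`).  `hlip`: `LFun_lip` with `T`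
(`m(T+5) ≤ m(2T+5)`, `1 - x0 ≥ 1 - 1/(2l)`).  Conclusion `2·20 l²·x0 = 4·10^(-9) l^(-7) ≥ 1/(10^9 l^7)`.
-/

open Complex Finset

namespace Pool.Agent.Lib.MP_9c2ea5_nt.An

theorem low_complex {m : ℕ} [NeZero m] (χ : DirichletCharacter ℂ m) (hχ : χ ^ 2 ≠ 1) (l T : ℝ)
    (hl : 4 ≤ l) (hT : 0 ≤ T) (hm : (m : ℝ) * (2 * T + 5) ≤ Real.exp l) (s : ℂ)
    (hs : 1 - 1 / (10 ^ 10 * l ^ 9) ≤ s.re) (hs2 : s.re ≤ 2) (ht : |s.im| ≤ T) :
    1 / (10 ^ 9 * l ^ 7) ≤ ‖DirichletCharacter.LFunction χ s‖ := by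
  have hl0 : (0 : ℝ) < l := by linarith
  have hl1 : (1 : ℝ) ≤ l := by linarith
  have hm0 : (0 : ℝ) ≤ m := Nat.cast_nonneg m
  have hχ1 : χ ≠ 1 := by
    rintro rfl
    exact hχ (one_pow 2)
  set x0 : ℝ := 1 / (10 ^ 10 * l ^ 9) with hx0def
  have hD : (0 : ℝ) < 10 ^ 10 * l ^ 9 := by positivity
  have hx0 : 0 < x0 := by positivity
  have hx0l : x0 ≤ 1 / (2 * l) := by
    rw [hx0def]
    apply one_div_le_one_div_of_le (by positivity)
    have h8 : (1 : ℝ) ≤ l ^ 8 := one_le_pow₀ hl1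
    have h9 : l ^ 9 = l ^ 8 * l := by ring
    rw [h9]
    nlinarith [mul_le_mul_of_nonneg_right h8 hl0.le]
  have hx01 : x0 ≤ 1 / 2 := by
    refine hx0l.trans ?_
    apply one_div_le_one_div_of_le (by norm_num)
    linarith
  have hx0l' : x0 ≤ 1 / l := by
    refine hx0l.trans ?_
    apply one_div_le_one_div_of_le hl0
    linarith
  have hl2le : l ≤ l ^ 2 := by nlinarith
  set t : ℝ := s.im with htdef
  have key := step341 (DirichletCharacter.LFunction χ) t x0 (20 * l ^ 2) (10 * l) hx0 hx01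
    (by positivity) (by positivity) ?_ ?_ ?_ s.re hs hs2
  · have hs_eq : ((s.re : ℂ) + (t : ℂ) * I) = s := by
      rw [htdef]
      exact Complex.re_add_im s
    rw [hs_eq] at key
    refine le_trans ?_ key
    rw [hx0def]
    rw [mul_one_div, div_le_div_iff₀ (by positivity) hD]
    have : (2 * (20 * l ^ 2)) * (10 ^ 9 * l ^ 7) = 40 * 10 ^ 9 * l ^ 9 := by ring
    rw [this, one_mul]
    nlinarith [pow_pos hl0 9]
  · -- smallness
    rw [hx0def, mul_one_div, div_le_one hD]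
    have : 2048 * (20 * l ^ 2) ^ 4 * (10 * l) = 3276800000 * l ^ 9 := by ring
    rw [this]
    nlinarith [pow_pos hl0 9]
  · -- 3-4-1
    intro x hx hx1
    have hxpos : 0 < x := lt_of_lt_of_le hx0 hx
    have h1 := mert χ x t hxpos hx1
    refine h1.trans ?_
    apply mul_le_mul_of_nonneg_left _ (by positivity)
    apply LFun_upper (χ ^ 2) hχ l hl
    · have : (((1 + x : ℝ) : ℂ) + ((2 * t : ℝ) : ℂ) * I).re = 1 + x := by simp
      rw [this]
      have : 0 < 1 / l := by positivity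
      linarith
    · have : (((1 + x : ℝ) : ℂ) + ((2 * t : ℝ) : ℂ) * I).im = 2 * t := by simp
      rw [this, abs_mul, abs_of_pos (by norm_num : (0 : ℝ) < 2)]
      refine le_trans ?_ hm
      apply mul_le_mul_of_nonneg_left _ hm0
      linarith
  · -- Lipschitz
    intro σ₁ σ₂ h1 h1' h2 h2'
    have e : ‖((σ₁ : ℂ) + t * I) - ((σ₂ : ℂ) + t * I)‖ = |σ₁ - σ₂| := by
      have : ((σ₁ : ℂ) + t * I) - ((σ₂ : ℂ) + t * I) = ((σ₁ - σ₂ : ℝ) : ℂ) := by
        push_cast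
        ring
      rw [this, Complex.norm_real, Real.norm_eq_abs]
    rw [← e]
    have r1 : ∀ σ : ℝ, ((σ : ℂ) + (t : ℂ) * I).re = σ := by
      intro σ
      simp
    have i1 : ∀ σ : ℝ, ((σ : ℂ) + (t : ℂ) * I).im = t := by
      intro σ
      simp
    apply LFun_lip χ hχ1 l T hl
    · refine le_trans ?_ hm
      apply mul_le_mul_of_nonneg_left _ hm0
      linarith
    · rw [r1]
      linarith
    · rw [i1]
      exact ht
    · rw [r1]
      linarith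
    · rw [i1]
      exact ht

end Pool.Agent.Lib.MP_9c2ea5_nt.An
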