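import Mathlib
import Pool.Agent.Lib.MP_9c2ea5_nt.ALip2
import Pool.Agent.Lib.MP_9c2ea5_nt.AMert
import Pool.Agent.Lib.MP_9c2ea5_nt.AStep
import Pool.Agent.Lib.MP_9c2ea5_nt.ALowC

/-!
# JOB ALow: lower bound for `L(s,χ)` near the line 1, real characters and all characters

PROOF of `low_quad` (`χ² = 1`, `χ ≠ 1`, `δ ≤ ‖L(1,χ)‖`, `0 < δ ≤ 1`): `r0 = δ/(40 l²)`, `x0 = δ/(10^11 l^11)` (`x0 ≤ r0/2`, `s = σ+it`).
(a) `‖s-1‖ ≤ r0`: `‖L(s)‖ ≥ ‖L(1)‖ - 20 l² r0 ≥ δ/2` (`LFun_lip`, `r0 ≤ 1/(2l)`).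
(b) `|t| ≥ r0/2`: `step341` with `Lam = 20 l²`, `U = 100 l³/δ`: `mert` with `χ² = 1` and `triv_upper` (with `2t` for `t`):
`‖L(1+x+2it,1)‖ ≤ 2l(1/(2|t|) + 10 l) ≤ 2l(1/r0 + 10 l) = 2l(40 l²/δ + 10 l) ≤ 100 l³/δ`; `2048 (20l²)^4 (100 l³/δ) x0 =
3.2768·10^10 l^11 x0/δ ≤ 1`.  Result `≥ 2·20 l²·x0 = 4·10^(-10) δ/l^9`.
(c) otherwise `|t| < r0/2`, `‖s-1‖ > r0`, so `|σ-1| > r0/2 ≥ x0`, and `σ ≥ 1-x0` forces `σ - 1 > r0/2`; `L_right_ge`:
`‖L(s)‖ ≥ (σ-1)/2 ≥ r0/4 = δ/(160 l²)`.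
In all cases `‖L(s)‖ ≥ δ/(10^10 l^9)` (as `l ≥ 4`).

PROOF of `low_all`: combine: `x0' = δ/(10^11 l^11) ≤ 1/(10^10 l^9)`, `δ/(10^10 l^9) ≤ 1/(10^9 l^7)`.
-/

open Complex Finset

namespace Pool.Agent.Lib.MP_9c2ea5_nt.An

theorem low_quad {m : ℕ} [NeZero m] (χ : DirichletCharacter ℂ m) (hχ : χ ^ 2 = 1) (h1 : χ ≠ 1)
    (l T δ : ℝ) (hδ : 0 < δ) (hδ1 : δ ≤ 1) (hL : δ ≤ ‖DirichletCharacter.LFunction χ 1‖)
    (hl : 4 ≤ l) (hT : 0 ≤ T) (hm : (m : ℝ) * (2 * T + 5) ≤ Real.exp l) (s : ℂ)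
    (hs : 1 - δ / (10 ^ 11 * l ^ 11) ≤ s.re) (hs2 : s.re ≤ 2) (ht : |s.im| ≤ T) :
    δ / (10 ^ 10 * l ^ 9) ≤ ‖DirichletCharacter.LFunction χ s‖ := by
  have hm0 : (0 : ℝ) ≤ m := by positivity
  have hmT : (m : ℝ) * (T + 5) ≤ Real.exp l :=
    le_trans (mul_le_mul_of_nonneg_left (by linarith) hm0) hm
  have hl0 : 0 < l := by linarith
  have hl2 : 1 ≤ l ^ 2 := one_le_pow₀ (by linarith)
  have hl7 : 1 ≤ l ^ 7 := one_le_pow₀ (by linarith)
  have hl9 : 1 ≤ l ^ 9 := one_le_pow₀ (by linarith)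
  obtain ⟨r0, hr0⟩ : ∃ r0 : ℝ, r0 = δ / (40 * l ^ 2) := ⟨_, rfl⟩
  obtain ⟨x0, hx0⟩ : ∃ x0 : ℝ, x0 = δ / (10 ^ 11 * l ^ 11) := ⟨_, rfl⟩
  have hr0pos : 0 < r0 := by rw [hr0]; positivity
  have hx0pos : 0 < x0 := by rw [hx0]; positivity
  have hr0' : r0 * (40 * l ^ 2) = δ := by rw [hr0]; field_simp
  have hx0' : x0 * (10 ^ 11 * l ^ 11) = δ := by rw [hx0]; field_simp
  rw [← hx0] at hs
  have h11 : l ^ 11 = l ^ 2 * l ^ 9 := by ring
  have h9 : l ^ 9 = l ^ 2 * l ^ 7 := by ring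
  have hx0r0 : x0 ≤ r0 / 2 := by
    rw [hr0, hx0, div_div]
    apply div_le_div_of_nonneg_left hδ.le (by positivity)
    rw [h11]
    nlinarith [mul_le_mul_of_nonneg_left hl9 (by positivity : (0 : ℝ) ≤ l ^ 2)]
  have hr0l : r0 ≤ 1 / (2 * l) := by
    rw [hr0, div_le_div_iff₀ (by positivity) (by positivity)]
    nlinarith
  have h2l : 1 / (2 * l) ≤ 1 / 8 := by
    apply div_le_div_of_nonneg_left (by norm_num) (by norm_num)
    linarith
  -- final comparisons
  have hta : δ / (10 ^ 10 * l ^ 9) ≤ δ / 2 := by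
    apply div_le_div_of_nonneg_left hδ.le (by norm_num)
    nlinarith
  have htb : δ / (10 ^ 10 * l ^ 9) ≤ 2 * (20 * l ^ 2) * x0 := by
    have : 2 * (20 * l ^ 2) * x0 = 4 * (δ / (10 ^ 10 * l ^ 9)) := by
      rw [hx0]
      field_simp
      ring
    rw [this]
    have : 0 < δ / (10 ^ 10 * l ^ 9) := by positivity
    linarith
  have htc : δ / (10 ^ 10 * l ^ 9) ≤ r0 / 4 := by
    rw [hr0, div_div]
    apply div_le_div_of_nonneg_left hδ.le (by positivity)
    rw [h9]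
    nlinarith [mul_le_mul_of_nonneg_left hl7 (by positivity : (0 : ℝ) ≤ l ^ 2)]
  by_cases hA : ‖s - 1‖ ≤ r0
  · -- (a)
    have hre : |s.re - 1| ≤ r0 := by
      have := Complex.abs_re_le_norm (s - 1)
      simp only [Complex.sub_re, Complex.one_re] at this
      linarith
    have hlip := LFun_lip χ h1 l T hl hmT s 1
      (by have := neg_abs_le (s.re - 1); linarith) ht
      (by simp only [Complex.one_re]; have : 0 < 1 / (2 * l) := by positivity
          linarith) (by simpa using hT)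
    have h3 : 20 * l ^ 2 * ‖s - 1‖ ≤ δ / 2 := by
      have : 20 * l ^ 2 * ‖s - 1‖ ≤ 20 * l ^ 2 * r0 :=
        mul_le_mul_of_nonneg_left hA (by positivity)
      linarith
    have h4 : ‖DirichletCharacter.LFunction χ 1‖ - ‖DirichletCharacter.LFunction χ s‖ ≤
        ‖DirichletCharacter.LFunction χ s - DirichletCharacter.LFunction χ 1‖ := by
      rw [norm_sub_rev]; exact norm_sub_norm_le _ _
    linarith
  · push Not at hA
    by_cases hB : r0 / 2 ≤ |s.im|
    · -- (b)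
      have him : 0 < |s.im| := by linarith
      have hne : s.im ≠ 0 := abs_pos.mp him
      have hstep := step341 (DirichletCharacter.LFunction χ) s.im x0 (20 * l ^ 2)
        (100 * l ^ 3 / δ) hx0pos (by linarith) (by positivity) (by positivity)
        (by
          have : 2048 * (20 * l ^ 2) ^ 4 * (100 * l ^ 3 / δ) * x0 = 32768000000 / 10 ^ 11 := by
            rw [hx0]
            field_simp
            ring
          rw [this]
          norm_num)
        (by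
          intro x hx hx1
          have hxp : 0 < x := lt_of_lt_of_le hx0pos hx
          have h := mert χ x s.im hxp hx1
          rw [hχ] at h
          refine h.trans (mul_le_mul_of_nonneg_left ?_ (by positivity))
          have habs : |2 * s.im| = 2 * |s.im| := by rw [abs_mul]; norm_num
          refine (triv_upper l x (2 * s.im) hl hxp (by positivity) ?_).trans ?_
          · rw [habs]
            exact le_trans (mul_le_mul_of_nonneg_left (by linarith) hm0) hm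
          · rw [habs]
            have hi : 1 / (2 * |s.im|) ≤ 1 / r0 :=
              div_le_div_of_nonneg_left (by norm_num) hr0pos (by linarith)
            have hi2 : 1 / r0 = 40 * l ^ 2 / δ := by rw [hr0]; field_simp
            rw [hi2] at hi
            have h5 : 2 * l * (1 / (2 * |s.im|) + 10 * l) ≤ 2 * l * (40 * l ^ 2 / δ + 10 * l) :=
              mul_le_mul_of_nonneg_left (by linarith) (by positivity)
            refine h5.trans ?_
            have h6 : 2 * l * (40 * l ^ 2 / δ + 10 * l) = (80 * l ^ 3 + 20 * l ^ 2 * δ) / δ := by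
              field_simp
              ring
            rw [h6]
            apply div_le_div_of_nonneg_right _ hδ.le
            have h7 : l ^ 2 * δ ≤ l ^ 2 := mul_le_of_le_one_right (by positivity) hδ1
            nlinarith)
        (by
          intro σ₁ σ₂ h₁ _ h₂ _
          have hre1 : ∀ σ : ℝ, ((σ : ℂ) + s.im * I).re = σ := fun σ => by simp
          have h := LFun_lip χ h1 l T hl hmT ((σ₁ : ℂ) + s.im * I) ((σ₂ : ℂ) + s.im * I)
            (by rw [hre1 σ₁]; linarith) (by simpa using ht) (by rw [hre1 σ₂]; linarith) (by simpa using ht)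
          have he : ((σ₁ : ℂ) + s.im * I) - ((σ₂ : ℂ) + s.im * I) = ((σ₁ - σ₂ : ℝ) : ℂ) := by
            push_cast
            ring
          rw [he, Complex.norm_real, Real.norm_eq_abs] at h
          exact h)
        s.re hs hs2
      rw [Complex.re_add_im] at hstep
      linarith
    · -- (c)
      push Not at hB
      have h5 : ‖s - 1‖ ≤ |s.re - 1| + |s.im| := by
        have := Complex.norm_le_abs_re_add_abs_im (s - 1)
        simpa using this
      have h6 : r0 / 2 < |s.re - 1| := by linarith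
      have h7 : r0 / 2 < s.re - 1 := by
        rcases le_or_gt 0 (s.re - 1) with h | h
        · rwa [abs_of_nonneg h] at h6
        · rw [abs_of_neg h] at h6
          linarith
      have h8 := L_right_ge χ s (by linarith) hs2
      linarith

theorem low_all {m : ℕ} [NeZero m] (χ : DirichletCharacter ℂ m) (h1 : χ ≠ 1)
    (l T δ : ℝ) (hδ : 0 < δ) (hδ1 : δ ≤ 1)
    (hL : χ ^ 2 = 1 → δ ≤ ‖DirichletCharacter.LFunction χ 1‖)
    (hl : 4 ≤ l) (hT : 0 ≤ T) (hm : (m : ℝ) * (2 * T + 5) ≤ Real.exp l) (s : ℂ)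
    (hs : 1 - δ / (10 ^ 11 * l ^ 11) ≤ s.re) (hs2 : s.re ≤ 2) (ht : |s.im| ≤ T) :
    δ / (10 ^ 10 * l ^ 9) ≤ ‖DirichletCharacter.LFunction χ s‖ := by
  by_cases hχ : χ ^ 2 = 1
  · exact low_quad χ hχ h1 l T δ hδ hδ1 (hL hχ) hl hT hm s hs hs2 ht
  · have hl0 : 0 < l := by linarith
    have hl2 : 1 ≤ l ^ 2 := one_le_pow₀ (by linarith)
    have h7 : δ / (10 ^ 11 * l ^ 11) ≤ 1 / (10 ^ 10 * l ^ 9) := by
      have h11 : l ^ 11 = l ^ 2 * l ^ 9 := by ring
      apply div_le_div₀ (by norm_num) hδ1 (by positivity)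
      rw [h11]
      have : (0 : ℝ) ≤ l ^ 9 := by positivity
      nlinarith [mul_le_mul_of_nonneg_right hl2 this]
    have h8 : δ / (10 ^ 10 * l ^ 9) ≤ 1 / (10 ^ 9 * l ^ 7) := by
      have h9 : l ^ 9 = l ^ 2 * l ^ 7 := by ring
      apply div_le_div₀ (by norm_num) hδ1 (by positivity)
      rw [h9]
      have : (0 : ℝ) ≤ l ^ 7 := by positivity
      nlinarith [mul_le_mul_of_nonneg_right hl2 this]
    exact h8.trans (low_complex χ hχ l T hl hT hm s (by linarith) hs2 ht)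

end Pool.Agent.Lib.MP_9c2ea5_nt.An
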