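import Mathlib
import Pool.Agent.Lib.MP_9c2ea5_nt.ABase

/-!
# JOB AMelP: the contribution of the pole (Mellin inversion for `(1-x)²/(2x)`)

PROOF: let `f x = (((max 0 (1 - x)) ^ 2 / (2 * x) : ℝ) : ℂ)`.  For `Re s > 1`, `mellin f s = (1/2) ∫_0^1 x^(s-2)(1-x)² dx
= (1/2)(1/(s-1) - 2/s + 1/(s+1)) = 1/((s-1)s(s+1))`; `MellinConvergent f c` for `c > 1` (dominated by `x^(c-2)` on `(0,1]`);
`VerticalIntegrable (mellin f) c`: continuous in `t`, norm at most `(1/(c-1)) /(c²+t²)`; `f` is continuous on `(0,∞)`.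
`mellinInv_mellin_eq` at `x = 1/y`: `(1/(2π)) ∫ y^(c+it) /((c-1+it)(c+it)(c+1+it)) dt = f(1/y) = (1-1/y)² y/2 = (y-1)²/(2y)`;
multiply by `y` (`kern y c t = y · y^(c+it)/((c+it)(c+1+it))`).
-/

open Complex MeasureTheory

namespace Pool.Agent.Lib.MP_9c2ea5_nt.An

private theorem AMelP_hasMellin (s : ℂ) (hs : 1 < s.re) :
    HasMellin (fun x : ℝ => (((max 0 (1 - x)) ^ 2 / (2 * x) : ℝ) : ℂ)) s
      (1 / ((s - 1) * (s * (s + 1)))) := by
  have h1 := hasMellin_one_Ioc (s := s) (by linarith)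
  have h2 := hasMellin_cpow_Ioc 1 (s := s) (by rw [one_re]; linarith)
  have h0 := hasMellin_cpow_Ioc (-1) (s := s) (by rw [neg_re, one_re]; linarith)
  have h3 := hasMellin_add h0.1 h2.1
  have h4 := hasMellin_const_smul h1.1 (2 : ℂ)
  have h5 := hasMellin_sub h3.1 h4.1
  have h6 := hasMellin_const_smul h5.1 (1 / 2 : ℂ)
  have hs0 : s ≠ 0 := by
    intro h
    rw [h] at hs
    simp at hs
    linarith
  have hs1 : s + 1 ≠ 0 := by
    intro h
    have : (s + 1).re = 0 := by rw [h]; simp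
    rw [add_re, one_re] at this
    linarith
  have hs2 : s - 1 ≠ 0 := by
    intro h
    have : (s - 1).re = 0 := by rw [h]; simp
    rw [sub_re, one_re] at this
    linarith
  have hs2' : s + -1 ≠ 0 := by rwa [← sub_eq_add_neg]
  have hfun : ∀ x ∈ Set.Ioi (0 : ℝ), (x : ℂ) ^ (s - 1) • (((max 0 (1 - x)) ^ 2 / (2 * x) : ℝ) : ℂ) =
      (x : ℂ) ^ (s - 1) • ((1 / 2 : ℂ) •
        ((Set.indicator (Set.Ioc 0 1) (fun t : ℝ => (t : ℂ) ^ (-1 : ℂ)) x +
        Set.indicator (Set.Ioc 0 1) (fun t : ℝ => (t : ℂ) ^ (1 : ℂ)) x) -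
          (2 : ℂ) • Set.indicator (Set.Ioc 0 1) (fun _ => (1 : ℂ)) x)) := by
    intro x hx
    have hx0 : (0 : ℝ) < x := hx
    have hxc : (x : ℂ) ≠ 0 := by exact_mod_cast hx0.ne'
    congr 1
    by_cases h : x ≤ 1
    · have hmem : x ∈ Set.Ioc (0 : ℝ) 1 := ⟨hx0, h⟩
      rw [Set.indicator_of_mem hmem, Set.indicator_of_mem hmem, Set.indicator_of_mem hmem,
        max_eq_right (by linarith), cpow_one, cpow_neg_one, smul_eq_mul, smul_eq_mul]
      push_cast
      field_simp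
      ring
    · have hmem : x ∉ Set.Ioc (0 : ℝ) 1 := fun h' => h h'.2
      rw [Set.indicator_of_notMem hmem, Set.indicator_of_notMem hmem, Set.indicator_of_notMem hmem,
        max_eq_left (by linarith)]
      simp
  refine ⟨?_, ?_⟩
  · have := h6.1
    unfold MellinConvergent at this ⊢
    exact (integrableOn_congr_fun hfun measurableSet_Ioi).2 this
  · have e1 : mellin (fun x : ℝ => (((max 0 (1 - x)) ^ 2 / (2 * x) : ℝ) : ℂ)) s =
        mellin (fun x : ℝ => ((1 / 2 : ℂ) •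
        ((Set.indicator (Set.Ioc 0 1) (fun t : ℝ => (t : ℂ) ^ (-1 : ℂ)) x +
        Set.indicator (Set.Ioc 0 1) (fun t : ℝ => (t : ℂ) ^ (1 : ℂ)) x) -
          (2 : ℂ) • Set.indicator (Set.Ioc 0 1) (fun _ => (1 : ℂ)) x))) s :=
      setIntegral_congr_fun measurableSet_Ioi hfun
    rw [e1, h6.2, h5.2, h4.2, h3.2, h0.2, h1.2, h2.2, smul_eq_mul, smul_eq_mul,
      ← sub_eq_add_neg]
    field_simp
    ring

private theorem AMelP_den (c t : ℝ) (hc : 1 < c) :
    (c - 1) * (c ^ 2 + t ^ 2) ≤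
      ‖(((c : ℂ) + t * I) - 1) * (((c : ℂ) + t * I) * (((c : ℂ) + t * I) + 1))‖ := by
  have h0 : ∀ b : ℝ, ‖((b : ℂ) + t * I)‖ ^ 2 = b ^ 2 + t ^ 2 := fun b => by
    rw [← Complex.normSq_eq_norm_sq, Complex.normSq_add_mul_I]
  rw [norm_mul, norm_mul]
  have h1 := h0 c
  have h2 := h0 (c + 1)
  have h5 := h0 (c - 1)
  have h3 : ((c + 1 : ℝ) : ℂ) + t * I = (c : ℂ) + t * I + 1 := by push_cast; ring
  have h6 : ((c - 1 : ℝ) : ℂ) + t * I = (c : ℂ) + t * I - 1 := by push_cast; ring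
  rw [h3] at h2
  rw [h6] at h5
  have h4 : ‖((c : ℂ) + t * I)‖ ≤ ‖((c : ℂ) + t * I + 1)‖ := by
    refine le_of_sq_le_sq ?_ (norm_nonneg _)
    rw [h1, h2]
    nlinarith
  have h7 : c - 1 ≤ ‖((c : ℂ) + t * I - 1)‖ := by
    refine le_of_sq_le_sq ?_ (norm_nonneg _)
    rw [h5]
    nlinarith [sq_nonneg t]
  refine mul_le_mul h7 ?_ (by positivity) (norm_nonneg _)
  rw [← h1, sq]
  exact mul_le_mul_of_nonneg_left h4 (norm_nonneg _)

private theorem AMelP_int (c : ℝ) (hc : 1 < c) :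
    Integrable (fun t : ℝ =>
      1 / ((((c : ℂ) + t * I) - 1) * (((c : ℂ) + t * I) * (((c : ℂ) + t * I) + 1)))) := by
  have hc0 : 0 < c - 1 := by linarith
  have hne : ∀ t : ℝ, (((c : ℂ) + t * I) - 1) * (((c : ℂ) + t * I) * (((c : ℂ) + t * I) + 1)) ≠ 0 := by
    intro t
    have h := AMelP_den c t hc
    have h1 : 0 < (c - 1) * (c ^ 2 + t ^ 2) := by positivity
    exact norm_pos_iff.1 (h1.trans_le h)
  have h1 : Integrable (fun t : ℝ => (1 / (c - 1)) * (1 + t ^ 2)⁻¹) :=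
    integrable_inv_one_add_sq.const_mul _
  have hcont : Continuous fun t : ℝ =>
      1 / ((((c : ℂ) + t * I) - 1) * (((c : ℂ) + t * I) * (((c : ℂ) + t * I) + 1))) :=
    continuous_const.div (by fun_prop) hne
  refine h1.mono' hcont.aestronglyMeasurable (Filter.Eventually.of_forall ?_)
  intro t
  have h2 : ‖1 / ((((c : ℂ) + t * I) - 1) * (((c : ℂ) + t * I) * (((c : ℂ) + t * I) + 1)))‖ ≤
      1 / ((c - 1) * (c ^ 2 + t ^ 2)) := by
    rw [norm_div, norm_one]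
    exact one_div_le_one_div_of_le (by positivity) (AMelP_den c t hc)
  refine h2.trans ?_
  rw [← one_div_mul_one_div, inv_eq_one_div]
  refine mul_le_mul_of_nonneg_left ?_ (by positivity)
  exact one_div_le_one_div_of_le (by positivity) (by nlinarith)

theorem pole_integral (c y : ℝ) (hc : 1 < c) (hy : 1 ≤ y) :
    ∫ t : ℝ, (1 / ((c : ℂ) - 1 + t * I)) * kern y c t =
      ((2 * Real.pi * ((y - 1) ^ 2 / 2) : ℝ) : ℂ) := by
  have hy0 : 0 < y := by linarith
  have hre : ∀ t : ℝ, 1 < ((c : ℂ) + t * I).re := fun t => by simpa using hc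
  have hz' : (0 : ℝ) < 1 / y := by positivity
  have hcr : 1 < (c : ℂ).re := by simpa using hc
  have hmel : ∀ t : ℝ, mellin (fun x : ℝ => (((max 0 (1 - x)) ^ 2 / (2 * x) : ℝ) : ℂ))
      ((c : ℂ) + t * I) =
      1 / ((((c : ℂ) + t * I) - 1) * (((c : ℂ) + t * I) * (((c : ℂ) + t * I) + 1))) :=
    fun t => (AMelP_hasMellin _ (hre t)).2
  have hV : VerticalIntegrable (mellin
      (fun x : ℝ => (((max 0 (1 - x)) ^ 2 / (2 * x) : ℝ) : ℂ))) c := by
    unfold VerticalIntegrable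
    simp only [hmel]
    exact AMelP_int c hc
  have hcont : ContinuousAt (fun x : ℝ => (((max 0 (1 - x)) ^ 2 / (2 * x) : ℝ) : ℂ)) (1 / y) := by
    refine Complex.continuous_ofReal.continuousAt.comp ?_
    refine ContinuousAt.div (by fun_prop) (by fun_prop) ?_
    positivity
  have hmain := mellinInv_mellin_eq c
    (fun x : ℝ => (((max 0 (1 - x)) ^ 2 / (2 * x) : ℝ) : ℂ)) hz'
    (AMelP_hasMellin _ hcr).1 hV hcont
  unfold mellinInv at hmain
  simp only [hmel] at hmain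
  have hyc : (y : ℂ) ≠ 0 := by exact_mod_cast hy0.ne'
  have hint : ∀ t : ℝ, (1 / ((c : ℂ) - 1 + t * I)) * kern y c t = (y : ℂ) *
      (((1 / y : ℝ) : ℂ) ^ (-((c : ℂ) + t * I)) •
      (1 / ((((c : ℂ) + t * I) - 1) * (((c : ℂ) + t * I) * (((c : ℂ) + t * I) + 1))))) := by
    intro t
    have hinv : ((1 / y : ℝ) : ℂ) ^ (-((c : ℂ) + t * I)) = (y : ℂ) ^ ((c : ℂ) + t * I) := by
      have harg : (y : ℂ).arg ≠ Real.pi := by
        rw [Complex.arg_ofReal_of_nonneg hy0.le]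
        exact Real.pi_pos.ne
      push_cast
      rw [one_div, Complex.inv_cpow _ _ harg, Complex.cpow_neg, inv_inv]
    unfold kern
    rw [hinv, smul_eq_mul, show (c : ℂ) + 1 + t * I = (c : ℂ) + t * I + 1 by ring,
      show (c : ℂ) - 1 + t * I = (c : ℂ) + t * I - 1 by ring, Complex.cpow_add _ _ hyc,
      Complex.cpow_one, ← one_div_mul_one_div]
    ring
  simp only [hint]
  rw [integral_const_mul]
  have hpi : (2 * Real.pi : ℝ) ≠ 0 := by positivity
  rw [Complex.real_smul] at hmain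
  have h6 : ∀ J : ℂ, (((2 * Real.pi : ℝ)) : ℂ) * (((1 / (2 * Real.pi) : ℝ) : ℂ) * J) = J := by
    intro J
    rw [← mul_assoc, ← Complex.ofReal_mul, mul_one_div_cancel hpi, Complex.ofReal_one, one_mul]
  rw [← h6 (∫ t : ℝ, _), hmain]
  have hmax : max 0 (1 - 1 / y) = 1 - 1 / y := by
    apply max_eq_right
    rw [sub_nonneg, div_le_one hy0]
    exact hy
  rw [hmax]
  push_cast
  field_simp

end Pool.Agent.Lib.MP_9c2ea5_nt.An
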