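import Mathlib
import Pool.Agent.Lib.MP_9c2ea5_nt.ABase

/-!
# JOB AKern: the Perron kernel: size, continuity, integrability

PROOF: `‖c+it‖² = c²+t²`, `‖c+1+it‖² = (c+1)²+t² ≥ c²+t²`, so the product of the norms is at least `c²+t² > 0`.
`‖y^(c+1+it)‖ = y^(c+1)` for `y > 0` (`Complex.norm_cpow_eq_rpow_re_of_pos`).  Continuity in `t` is clear (denominator `≠ 0`,
`y ≠ 0`).  Integrability: continuous and dominated by `y^(c+1)/(c²+t²)`, integrable by `integrable_inv_one_add_sq` and scaling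
(or: `1/(c²+t²) ≤ max(1,1/c²)/(1+t²)`).
`kern_tail`: for `T > 0`, `∫_{|t|>T} ‖kern‖ ≤ 2 y^(c+1) ∫_T^∞ t^(-2) dt = 2 y^(c+1)/T`
(`‖kern y c t‖ ≤ y^(c+1)/t²`; `integral_Ioi_rpow_of_lt`; the complement of `Ioc (-T) T` is `Iic (-T) ∪ Ioi T`; `Iic` part by the
substitution `t ↦ -t`, `integral_comp_neg_Iic`).
-/

open Complex Finset MeasureTheory

namespace Pool.Agent.Lib.MP_9c2ea5_nt.An

private theorem AKern_normSq (c t : ℝ) : ‖((c : ℂ) + t * I)‖ ^ 2 = c ^ 2 + t ^ 2 := by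
  rw [← Complex.normSq_eq_norm_sq, Complex.normSq_add_mul_I]

theorem kden_ge (c t : ℝ) (hc : 0 < c) :
    c ^ 2 + t ^ 2 ≤ ‖((c : ℂ) + t * I) * ((c : ℂ) + 1 + t * I)‖ := by
  rw [norm_mul]
  have h1 := AKern_normSq c t
  have h2 := AKern_normSq (c + 1) t
  have h3 : ((c + 1 : ℝ) : ℂ) + t * I = (c : ℂ) + 1 + t * I := by push_cast; ring
  rw [h3] at h2
  have h4 : ‖((c : ℂ) + t * I)‖ ≤ ‖((c : ℂ) + 1 + t * I)‖ := by
    refine le_of_sq_le_sq ?_ (norm_nonneg _)
    rw [h1, h2]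
    nlinarith
  rw [← h1, sq]
  exact mul_le_mul_of_nonneg_left h4 (norm_nonneg _)

theorem kern_norm_le (y c t : ℝ) (hy : 0 < y) (hc : 0 < c) :
    ‖kern y c t‖ ≤ y ^ (c + 1) / (c ^ 2 + t ^ 2) := by
  unfold kern
  rw [norm_div, Complex.norm_cpow_eq_rpow_re_of_pos hy]
  have h1 : ((c : ℂ) + 1 + t * I).re = c + 1 := by simp
  rw [h1]
  exact div_le_div_of_nonneg_left (by positivity) (by positivity) (kden_ge c t hc)

private theorem AKern_den_ne (c t : ℝ) (hc : 0 < c) :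
    ((c : ℂ) + t * I) * ((c : ℂ) + 1 + t * I) ≠ 0 := by
  have h := kden_ge c t hc
  have h1 : 0 < c ^ 2 + t ^ 2 := by positivity
  exact norm_pos_iff.1 (h1.trans_le h)

theorem kern_continuous (y c : ℝ) (hy : 0 < y) (hc : 0 < c) : Continuous (fun t => kern y c t) := by
  unfold kern
  refine Continuous.div ?_ (by fun_prop) (fun t => AKern_den_ne c t hc)
  refine Continuous.const_cpow (by fun_prop) (Or.inl ?_)
  exact_mod_cast hy.ne'

theorem kern_integrable (y c : ℝ) (hy : 0 < y) (hc : 0 < c) :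
    Integrable (fun t : ℝ => kern y c t) := by
  have h1 : Integrable (fun t : ℝ => (y ^ (c + 1) * (max 1 (1 / c ^ 2))) * (1 + t ^ 2)⁻¹) :=
    integrable_inv_one_add_sq.const_mul _
  refine h1.mono' (kern_continuous y c hy hc).aestronglyMeasurable (Filter.Eventually.of_forall ?_)
  intro t
  refine (kern_norm_le y c t hy hc).trans ?_
  rw [div_eq_mul_inv, mul_assoc]
  refine mul_le_mul_of_nonneg_left ?_ (by positivity)
  rw [← div_eq_mul_inv, inv_eq_one_div, div_le_div_iff₀ (by positivity) (by positivity)]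
  have h2 : 1 ≤ max 1 (1 / c ^ 2) := le_max_left _ _
  have h3 : 1 ≤ max 1 (1 / c ^ 2) * c ^ 2 := by
    have := le_max_right 1 (1 / c ^ 2)
    calc (1 : ℝ) = 1 / c ^ 2 * c ^ 2 := by field_simp
      _ ≤ _ := mul_le_mul_of_nonneg_right this (by positivity)
  nlinarith [sq_nonneg t]

theorem kern_tail (y c T : ℝ) (hy : 0 < y) (hc : 0 < c) (hT : 0 < T) :
    ∫ t in (Set.Ioc (-T) T)ᶜ, ‖kern y c t‖ ≤ 2 * y ^ (c + 1) / T := by
  have hset : (Set.Ioc (-T) T)ᶜ = Set.Iic (-T) ∪ Set.Ioi T := by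
    ext t
    simp only [Set.mem_compl_iff, Set.mem_Ioc, Set.mem_union, Set.mem_Iic, Set.mem_Ioi, not_and_or,
      not_lt, not_le]
  have hdis : Disjoint (Set.Iic (-T)) (Set.Ioi T) := by
    rw [Set.disjoint_left]
    intro t h1 h2
    have h1' : t ≤ -T := h1
    have h2' : T < t := h2
    linarith
  have hint := (kern_integrable y c hy hc).norm
  rw [hset, setIntegral_union hdis measurableSet_Ioi hint.integrableOn hint.integrableOn]
  have hC : 0 ≤ y ^ (c + 1) := by positivity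
  -- the bound on `Ioi T`
  have hI : ∫ t in Set.Ioi T, y ^ (c + 1) * t ^ (-2 : ℝ) = y ^ (c + 1) / T := by
    rw [integral_const_mul, integral_Ioi_rpow_of_lt (by norm_num) hT]
    have : T ^ ((-2 : ℝ) + 1) = T⁻¹ := by
      rw [← Real.rpow_neg_one]
      norm_num
    rw [this]
    norm_num
    rfl
  have hIint : IntegrableOn (fun t : ℝ => y ^ (c + 1) * t ^ (-2 : ℝ)) (Set.Ioi T) :=
    (integrableOn_Ioi_rpow_of_lt (by norm_num) hT).const_mul _
  have hb : ∀ t ∈ Set.Ioi T, ∀ u : ℝ, u ^ 2 = t ^ 2 → ‖kern y c u‖ ≤ y ^ (c + 1) * t ^ (-2 : ℝ) := by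
    intro t ht u hu
    have ht0 : 0 < t := hT.trans ht
    refine (kern_norm_le y c u hy hc).trans ?_
    rw [hu, div_eq_mul_inv]
    refine mul_le_mul_of_nonneg_left ?_ hC
    have : t ^ (-2 : ℝ) = (t ^ 2)⁻¹ := by
      rw [Real.rpow_neg ht0.le]
      norm_num
    rw [this]
    exact inv_anti₀ (by positivity) (by nlinarith [sq_nonneg c])
  have h1 : ∫ t in Set.Ioi T, ‖kern y c t‖ ≤ y ^ (c + 1) / T := by
    rw [← hI]
    exact setIntegral_mono_on hint.integrableOn hIint measurableSet_Ioi fun t ht => hb t ht t rfl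
  have h2 : ∫ t in Set.Iic (-T), ‖kern y c t‖ ≤ y ^ (c + 1) / T := by
    rw [← integral_comp_neg_Ioi T (fun t => ‖kern y c t‖), ← hI]
    refine setIntegral_mono_on ?_ hIint measurableSet_Ioi fun t ht => hb t ht (-t) (by ring)
    exact (hint.comp_neg).integrableOn
  calc _ ≤ y ^ (c + 1) / T + y ^ (c + 1) / T := add_le_add h2 h1
    _ = 2 * y ^ (c + 1) / T := by ring

end Pool.Agent.Lib.MP_9c2ea5_nt.An
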