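import Mathlib

/-!
# JOB AMel: Mellin inversion for `max(0,1-x)`

PROOF of `kernel_integral`: let `f x = ((max 0 (1 - x) : ℝ) : ℂ)`.  For `Re s > 0`, `mellin f s = ∫_0^1 x^(s-1)(1-x) dx = 1/s - 1/(s+1)
= 1/(s(s+1))` (`integral_cpow` on `0..1`), `MellinConvergent f c` (dominated by `x^(c-1)` on `(0,1]`, zero beyond).
`VerticalIntegrable (mellin f) c`: `t ↦ 1/((c+it)(c+1+it))` is continuous and `≤ 1/(c²+t²)`.  `f` is continuous.
`mellinInv_mellin_eq` (Mathlib `Mathlib/Analysis/MellinInversion.lean`) at `x = 1/z` gives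
`(1/(2π)) ∫ (1/z)^(-(c+it)) /((c+it)(c+1+it)) dt = max 0 (1 - 1/z)`, and `(1/z)^(-(c+it)) = z^(c+it)`.
-/

open Complex MeasureTheory

namespace Pool.Agent.Lib.MP_9c2ea5_nt.An

private theorem AMel_hasMellin (s : ℂ) (hs : 0 < s.re) :
    HasMellin (fun x : ℝ => ((max 0 (1 - x) : ℝ) : ℂ)) s (1 / (s * (s + 1))) := by
  have h1 := hasMellin_one_Ioc hs
  have h2 := hasMellin_cpow_Ioc 1 (s := s) (by rw [one_re]; linarith)
  have h3 := hasMellin_sub h1.1 h2.1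
  have hs0 : s ≠ 0 := by
    intro h
    rw [h] at hs
    simp at hs
  have hs1 : s + 1 ≠ 0 := by
    intro h
    have : (s + 1).re = 0 := by rw [h]; simp
    rw [add_re, one_re] at this
    linarith
  have hfun : ∀ x ∈ Set.Ioi (0 : ℝ), (x : ℂ) ^ (s - 1) • ((max 0 (1 - x) : ℝ) : ℂ) =
      (x : ℂ) ^ (s - 1) • (Set.indicator (Set.Ioc 0 1) (fun _ => (1 : ℂ)) x -
        Set.indicator (Set.Ioc 0 1) (fun t : ℝ => (t : ℂ) ^ (1 : ℂ)) x) := by
    intro x hx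
    have hx0 : (0 : ℝ) < x := hx
    congr 1
    by_cases h : x ≤ 1
    · rw [Set.indicator_of_mem (show x ∈ Set.Ioc (0 : ℝ) 1 from ⟨hx0, h⟩),
        Set.indicator_of_mem (show x ∈ Set.Ioc (0 : ℝ) 1 from ⟨hx0, h⟩), max_eq_right (by linarith),
        cpow_one]
      push_cast
      ring
    · rw [Set.indicator_of_notMem (fun h' => h h'.2), Set.indicator_of_notMem (fun h' => h h'.2),
        max_eq_left (by linarith)]
      simp
  refine ⟨?_, ?_⟩
  · have := h3.1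
    unfold MellinConvergent at this ⊢
    exact (integrableOn_congr_fun hfun measurableSet_Ioi).2 this
  · have e1 : mellin (fun x : ℝ => ((max 0 (1 - x) : ℝ) : ℂ)) s =
        mellin (fun x : ℝ => Set.indicator (Set.Ioc 0 1) (fun _ => (1 : ℂ)) x -
        Set.indicator (Set.Ioc 0 1) (fun t : ℝ => (t : ℂ) ^ (1 : ℂ)) x) s :=
      setIntegral_congr_fun measurableSet_Ioi hfun
    rw [e1, h3.2, h1.2, h2.2]
    field_simp
    ring

private theorem AMel_den (c t : ℝ) (hc : 0 < c) :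
    c ^ 2 + t ^ 2 ≤ ‖((c : ℂ) + t * I) * ((c : ℂ) + 1 + t * I)‖ := by
  have h0 : ∀ b : ℝ, ‖((b : ℂ) + t * I)‖ ^ 2 = b ^ 2 + t ^ 2 := fun b => by
    rw [← Complex.normSq_eq_norm_sq, Complex.normSq_add_mul_I]
  rw [norm_mul]
  have h1 := h0 c
  have h2 := h0 (c + 1)
  have h3 : ((c + 1 : ℝ) : ℂ) + t * I = (c : ℂ) + 1 + t * I := by push_cast; ring
  rw [h3] at h2
  have h4 : ‖((c : ℂ) + t * I)‖ ≤ ‖((c : ℂ) + 1 + t * I)‖ := by
    refine le_of_sq_le_sq ?_ (norm_nonneg _)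
    rw [h1, h2]
    nlinarith
  rw [← h1, sq]
  exact mul_le_mul_of_nonneg_left h4 (norm_nonneg _)

private theorem AMel_int (c : ℝ) (hc : 0 < c) :
    Integrable (fun t : ℝ => 1 / (((c : ℂ) + t * I) * ((c : ℂ) + t * I + 1))) := by
  have hne : ∀ t : ℝ, ((c : ℂ) + t * I) * ((c : ℂ) + 1 + t * I) ≠ 0 := by
    intro t
    have h := AMel_den c t hc
    have h1 : 0 < c ^ 2 + t ^ 2 := by positivity
    exact norm_pos_iff.1 (h1.trans_le h)
  have hfun : (fun t : ℝ => 1 / (((c : ℂ) + t * I) * ((c : ℂ) + t * I + 1))) =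
      fun t : ℝ => 1 / (((c : ℂ) + t * I) * ((c : ℂ) + 1 + t * I)) := by
    funext t
    rw [show (c : ℂ) + t * I + 1 = (c : ℂ) + 1 + t * I by ring]
  rw [hfun]
  have h1 : Integrable (fun t : ℝ => (max 1 (1 / c ^ 2)) * (1 + t ^ 2)⁻¹) :=
    integrable_inv_one_add_sq.const_mul _
  have hcont : Continuous fun t : ℝ => 1 / (((c : ℂ) + t * I) * ((c : ℂ) + 1 + t * I)) :=
    continuous_const.div (by fun_prop) hne
  refine h1.mono' hcont.aestronglyMeasurable (Filter.Eventually.of_forall ?_)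
  intro t
  have h2 : ‖1 / (((c : ℂ) + t * I) * ((c : ℂ) + 1 + t * I))‖ ≤ 1 / (c ^ 2 + t ^ 2) := by
    rw [norm_div, norm_one]
    exact one_div_le_one_div_of_le (by positivity) (AMel_den c t hc)
  refine h2.trans ?_
  rw [← div_eq_mul_inv, div_le_div_iff₀ (by positivity) (by positivity)]
  have h2 : 1 ≤ max 1 (1 / c ^ 2) := le_max_left _ _
  have h3 : 1 ≤ max 1 (1 / c ^ 2) * c ^ 2 := by
    have := le_max_right 1 (1 / c ^ 2)
    calc (1 : ℝ) = 1 / c ^ 2 * c ^ 2 := by field_simp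
      _ ≤ _ := mul_le_mul_of_nonneg_right this (by positivity)
  nlinarith [sq_nonneg t]

theorem kernel_integral (c z : ℝ) (hc : 0 < c) (hz : 0 < z) :
    ∫ t : ℝ, (z : ℂ) ^ ((c : ℂ) + t * I) / (((c : ℂ) + t * I) * ((c : ℂ) + 1 + t * I)) =
      ((2 * Real.pi * max 0 (1 - 1 / z) : ℝ) : ℂ) := by
  have hre : ∀ t : ℝ, 0 < ((c : ℂ) + t * I).re := fun t => by simpa using hc
  have hz' : (0 : ℝ) < 1 / z := by positivity
  have hcr : 0 < (c : ℂ).re := by simpa using hc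
  have hmel : ∀ t : ℝ, mellin (fun x : ℝ => ((max 0 (1 - x) : ℝ) : ℂ)) ((c : ℂ) + t * I) =
      1 / (((c : ℂ) + t * I) * ((c : ℂ) + t * I + 1)) := fun t => (AMel_hasMellin _ (hre t)).2
  have hV : VerticalIntegrable (mellin (fun x : ℝ => ((max 0 (1 - x) : ℝ) : ℂ))) c := by
    unfold VerticalIntegrable
    simp only [hmel]
    exact AMel_int c hc
  have hcont : ContinuousAt (fun x : ℝ => ((max 0 (1 - x) : ℝ) : ℂ)) (1 / z) := by
    apply Continuous.continuousAt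
    fun_prop
  have hmain := mellinInv_mellin_eq c (fun x : ℝ => ((max 0 (1 - x) : ℝ) : ℂ)) hz'
    (AMel_hasMellin _ hcr).1 hV hcont
  unfold mellinInv at hmain
  simp only [hmel] at hmain
  have hint : ∀ t : ℝ, ((1 / z : ℝ) : ℂ) ^ (-((c : ℂ) + t * I)) •
      (1 / (((c : ℂ) + t * I) * ((c : ℂ) + t * I + 1))) =
      (z : ℂ) ^ ((c : ℂ) + t * I) / (((c : ℂ) + t * I) * ((c : ℂ) + 1 + t * I)) := by
    intro t
    have hinv : ((1 / z : ℝ) : ℂ) ^ (-((c : ℂ) + t * I)) = (z : ℂ) ^ ((c : ℂ) + t * I) := by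
      have harg : (z : ℂ).arg ≠ Real.pi := by
        rw [Complex.arg_ofReal_of_nonneg hz.le]
        exact Real.pi_pos.ne
      push_cast
      rw [one_div, Complex.inv_cpow _ _ harg, Complex.cpow_neg, inv_inv]
    rw [hinv, smul_eq_mul, show (c : ℂ) + t * I + 1 = (c : ℂ) + 1 + t * I by ring]
    ring
  simp only [hint] at hmain
  have hpi : (2 * Real.pi : ℝ) ≠ 0 := by positivity
  have h5 : (((2 * Real.pi : ℝ)) : ℂ) ≠ 0 := by exact_mod_cast hpi
  rw [Complex.real_smul] at hmain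
  have h6 : (((2 * Real.pi : ℝ)) : ℂ) * (((1 / (2 * Real.pi) : ℝ) : ℂ) *
      ∫ t : ℝ, (z : ℂ) ^ ((c : ℂ) + t * I) / (((c : ℂ) + t * I) * ((c : ℂ) + 1 + t * I))) =
      ∫ t : ℝ, (z : ℂ) ^ ((c : ℂ) + t * I) / (((c : ℂ) + t * I) * ((c : ℂ) + 1 + t * I)) := by
    rw [← mul_assoc, ← Complex.ofReal_mul, mul_one_div_cancel hpi, Complex.ofReal_one, one_mul]
  rw [← h6, hmain]
  push_cast
  ring

end Pool.Agent.Lib.MP_9c2ea5_nt.An
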