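import Mathlib
import Pool.Agent.Lib.MP_9c2ea5_nt.AKern
import Pool.Agent.Lib.MP_9c2ea5_nt.AMel

/-!
# JOB APer: Perron's formula for Riesz means

PROOF: for `t` real, `LSeries a (c+it) = ∑' n, term a (c+it) n`, `term = 0` for `n = 0` and `a n / n^(c+it)` for `n ≥ 1`, of norm
`‖a n‖ n^(-c)` (`= ‖term a c n‖`, `LSeries.norm_term_eq`).  Put `F n t = LSeries.term a (c+it) n * kern y c t`.
`∫ ‖F n t‖ dt = ‖term a c n‖ ∫ ‖kern y c t‖ dt` is summable in `n`, and `∑' n F n t = LSeries a (c+it) * kern y c t`, so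
`MeasureTheory.hasSum_integral_of_summable_integral_norm` gives
`∫ LSeries a (c+it) kern = ∑' n, ∫ F n t dt`.  (Every `F n` is integrable: `kern_integrable`, the factor
`t ↦ n^(-(c+it))` is continuous and of constant norm.)
For `n ≥ 1`: `n^(-(c+it)) kern y c t = y (y/n)^(c+it)/((c+it)(c+1+it))` (`Complex.ofReal` powers of positive reals), so
`∫ F n = a n · y · 2π max(0, 1 - n/y) = 2π a n max(0, y - n)` by `kernel_integral` (`z = y/n`).
The sum over `n` is the finite sum over `Ioc 0 ⌊y⌋₊` (`max(0,y-n) = 0` for `n ≥ y`): `2π riesz a y`.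
Integrability of `t ↦ LSeries a (c+it) * kern y c t`: it is bounded by `(∑' ‖term a c n‖) ‖kern y c t‖` and measurable
(continuous: uniform limit of continuous functions, `continuous_tsum`; or from the same Mathlib lemma
`MeasureTheory.integrable_of_summable_norm_...`).
-/

open Complex Finset MeasureTheory

namespace Pool.Agent.Lib.MP_9c2ea5_nt.An

private theorem APer_cont (a : ℕ → ℂ) (c : ℝ) (n : ℕ) :
    Continuous (fun t : ℝ => LSeries.term a ((c : ℂ) + t * I) n) := by
  rcases eq_or_ne n 0 with rfl | hn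
  · simp only [LSeries.term_zero]
    exact continuous_const
  · simp only [LSeries.term_of_ne_zero hn]
    have hn' : (n : ℂ) ≠ 0 := by exact_mod_cast hn
    apply Continuous.div continuous_const
    · apply Continuous.const_cpow (by fun_prop)
      exact Or.inl hn'
    · intro t
      rw [Complex.cpow_ne_zero_iff]
      exact Or.inl hn'

private theorem APer_norm (a : ℕ → ℂ) (c t : ℝ) (n : ℕ) :
    ‖LSeries.term a ((c : ℂ) + t * I) n‖ = ‖LSeries.term a (c : ℂ) n‖ := by
  rw [LSeries.norm_term_eq, LSeries.norm_term_eq]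
  simp

private theorem APer_kern (c y : ℝ) (hy : 0 < y) (n : ℕ) (hn : n ≠ 0) (t : ℝ) :
    kern y c t / (n : ℂ) ^ ((c : ℂ) + t * I) =
      (y : ℂ) * (((y / n : ℝ) : ℂ) ^ ((c : ℂ) + t * I) /
        (((c : ℂ) + t * I) * ((c : ℂ) + 1 + t * I))) := by
  have hyc : (y : ℂ) ≠ 0 := by exact_mod_cast hy.ne'
  have hn0 : (0 : ℝ) < n := by exact_mod_cast Nat.pos_of_ne_zero hn
  have hnc : (n : ℂ) ≠ 0 := by exact_mod_cast hn
  obtain ⟨s, hs⟩ : ∃ s : ℂ, s = (c : ℂ) + t * I := ⟨_, rfl⟩
  have e1 : (c : ℂ) + 1 + t * I = s + 1 := by rw [hs]; ring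
  have e2 : (y : ℂ) ^ (s + 1) = (y : ℂ) ^ s * y := by
    rw [Complex.cpow_add _ _ hyc, Complex.cpow_one]
  have e3 : (y : ℂ) ^ s = ((y / n : ℝ) : ℂ) ^ s * (n : ℂ) ^ s := by
    have h1 := Complex.mul_cpow_ofReal_nonneg (a := y / n) (b := (n : ℝ)) (by positivity)
      hn0.le s
    rw [Complex.ofReal_natCast] at h1
    rw [← h1]
    congr 1
    rw [← Complex.ofReal_natCast, ← Complex.ofReal_mul, div_mul_cancel₀ _ hn0.ne']
  have hns : (n : ℂ) ^ s ≠ 0 := by
    rw [Complex.cpow_ne_zero_iff]
    exact Or.inl hnc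
  unfold kern
  rw [e1, ← hs, e2, e3]
  rw [div_div, mul_comm (s * (s + 1)) ((n : ℂ) ^ s), ← div_div]
  congr 1
  rw [← mul_div_assoc]
  field_simp

private theorem APer_term (a : ℕ → ℂ) (c y : ℝ) (hc : 0 < c) (hy : 0 < y) (n : ℕ) (hn : n ≠ 0) :
    ∫ t : ℝ, LSeries.term a ((c : ℂ) + t * I) n * kern y c t =
      2 * Real.pi * (a n * ((max 0 (y - n) : ℝ) : ℂ)) := by
  have hn0 : (0 : ℝ) < n := by exact_mod_cast Nat.pos_of_ne_zero hn
  have e1 : ∀ t : ℝ, LSeries.term a ((c : ℂ) + t * I) n * kern y c t =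
      (a n * y) * (((y / n : ℝ) : ℂ) ^ ((c : ℂ) + t * I) /
        (((c : ℂ) + t * I) * ((c : ℂ) + 1 + t * I))) := by
    intro t
    have h1 := APer_kern c y hy n hn t
    rw [LSeries.term_of_ne_zero hn, mul_assoc, ← h1]
    ring
  simp_rw [e1]
  rw [MeasureTheory.integral_const_mul, kernel_integral c (y / n) hc (by positivity)]
  have e2 : y * max 0 (1 - 1 / (y / n)) = max 0 (y - n) := by
    rw [mul_max_of_nonneg _ _ hy.le, mul_zero]
    congr 1
    field_simp
  rw [← e2]
  push_cast
  ring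

theorem perron (a : ℕ → ℂ) (c y : ℝ) (hc : 0 < c) (hy : 0 < y) (ha : LSeriesSummable a c) :
    Integrable (fun t : ℝ => LSeries a ((c : ℂ) + t * I) * kern y c t) ∧
      ∫ t : ℝ, LSeries a ((c : ℂ) + t * I) * kern y c t = 2 * Real.pi * riesz a y := by
  have hsum : Summable fun n => ‖LSeries.term a (c : ℂ) n‖ := ha.norm
  have hkc := kern_continuous y c hy hc
  have hki := kern_integrable y c hy hc
  constructor
  · have hLc : Continuous fun t : ℝ => LSeries a ((c : ℂ) + t * I) := by
      unfold LSeries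
      refine continuous_tsum (APer_cont a c) hsum ?_
      intro n t
      rw [APer_norm]
    refine Integrable.mono' (g := fun t => (∑' n, ‖LSeries.term a (c : ℂ) n‖) * ‖kern y c t‖)
      (hki.norm.const_mul _) (hLc.mul hkc).aestronglyMeasurable ?_
    refine Filter.Eventually.of_forall fun t => ?_
    rw [norm_mul]
    apply mul_le_mul_of_nonneg_right _ (norm_nonneg _)
    unfold LSeries
    have h1 : Summable fun n => ‖LSeries.term a ((c : ℂ) + t * I) n‖ := by
      simp_rw [APer_norm]
      exact hsum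
    refine (norm_tsum_le_tsum_norm h1).trans (le_of_eq ?_)
    simp_rw [APer_norm]
  · have hF : ∀ n, Integrable (fun t : ℝ => LSeries.term a ((c : ℂ) + t * I) n * kern y c t) := by
      intro n
      refine Integrable.mono' (g := fun t => ‖LSeries.term a (c : ℂ) n‖ * ‖kern y c t‖)
        (hki.norm.const_mul _) ((APer_cont a c n).mul hkc).aestronglyMeasurable ?_
      refine Filter.Eventually.of_forall fun t => ?_
      rw [norm_mul, APer_norm]
    have hFs : Summable fun n => ∫ t : ℝ, ‖LSeries.term a ((c : ℂ) + t * I) n * kern y c t‖ := by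
      have e1 : ∀ n, ∫ t : ℝ, ‖LSeries.term a ((c : ℂ) + t * I) n * kern y c t‖ =
          ‖LSeries.term a (c : ℂ) n‖ * ∫ t : ℝ, ‖kern y c t‖ := by
        intro n
        simp_rw [norm_mul, APer_norm]
        rw [MeasureTheory.integral_const_mul]
      simp_rw [e1]
      exact hsum.mul_right _
    have h1 := MeasureTheory.hasSum_integral_of_summable_integral_norm hF hFs
    have e2 : ∀ t : ℝ, ∑' n, LSeries.term a ((c : ℂ) + t * I) n * kern y c t =
        LSeries a ((c : ℂ) + t * I) * kern y c t := by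
      intro t
      rw [tsum_mul_right]
      rfl
    simp_rw [e2] at h1
    have h2 : HasSum (fun n => ∫ t : ℝ, LSeries.term a ((c : ℂ) + t * I) n * kern y c t)
        (∑ n ∈ Finset.Ioc 0 ⌊y⌋₊, ∫ t : ℝ, LSeries.term a ((c : ℂ) + t * I) n * kern y c t) := by
      apply hasSum_sum_of_ne_finset_zero
      intro n hn
      rcases eq_or_ne n 0 with rfl | hn0
      · simp
      · rw [APer_term a c y hc hy n hn0]
        have h3 : y < n := by
          by_contra hcon
          apply hn
          rw [Finset.mem_Ioc]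
          exact ⟨Nat.pos_of_ne_zero hn0, Nat.le_floor (not_lt.1 hcon)⟩
        rw [max_eq_left (by linarith)]
        simp
    rw [h1.unique h2]
    unfold riesz
    rw [Finset.mul_sum]
    refine Finset.sum_congr rfl fun n hn => ?_
    rw [Finset.mem_Ioc] at hn
    have h3 : (n : ℝ) ≤ y := (Nat.le_floor_iff hy.le).1 hn.2
    rw [APer_term a c y hc hy n (by omega), max_eq_right (by linarith)]

end Pool.Agent.Lib.MP_9c2ea5_nt.An
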