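import Mathlib
import Pool.Agent.Lib.MP_9c2ea5_nt.AKern

/-!
# JOB AShift: shifting the line of integration

PROOF: let `f s = G s * ((y:ℂ)^(s+1) / (s (s+1)))`, differentiable at every point of the closed rectangle with corners
`z = (1-η) - iT`, `w = c + iT` (`s ≠ 0, -1` as `Re s ≥ 3/4`).  `Complex.integral_boundary_rect_eq_zero_of_differentiableOn` gives
`I ∫_{-T}^{T} f(c+it) dt = I ∫_{-T}^{T} f(1-η+it) dt - ∫_{1-η}^{c} f(x - iT) dx + ∫_{1-η}^{c} f(x + iT) dx`, and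
`f(c+it) = G(c+it) kern y c t`.  Bounds: `‖f(x ± iT)‖ ≤ B y^(x+1)/T² ≤ B y^(c+1)/T²` (`y ≥ 1`, `‖s‖ ‖s+1‖ ≥ T²`), the interval has length
`c - 1 + η ≤ 5/4`; the two horizontal sides contribute at most `2.5 B y^(c+1)/T²`.
`‖f(1-η+it)‖ ≤ B y^(2-η)/((3/4)² + t²)` and `∫_ℝ dt/((9/16)+t²) = (4/3) π ≤ 4.2` (or crude: `1/((9/16)+t²) ≤ 2/(1+t²)`, integral `2π ≤ 6.3`
via `integral_univ_inv_one_add_sq`, or `∫_{-T}^{T} 1/(1+t²) = 2 arctan T ≤ π`), `≤ 16`.
-/

open Complex Finset MeasureTheory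

namespace Pool.Agent.Lib.MP_9c2ea5_nt.An

theorem shift_bound (G : ℂ → ℂ) (η c T B y : ℝ) (hη : 0 < η) (hη4 : η ≤ 1 / 4) (hc : 1 < c)
    (hc2 : c ≤ 2) (hT : 1 ≤ T) (hy : 1 ≤ y) (hB : 0 ≤ B)
    (hd : ∀ s : ℂ, 1 - η ≤ s.re → s.re ≤ 2 → |s.im| ≤ T → DifferentiableAt ℂ G s)
    (hb : ∀ s : ℂ, 1 - η ≤ s.re → s.re ≤ 2 → |s.im| ≤ T → ‖G s‖ ≤ B) :
    ‖∫ t in (-T)..T, G ((c : ℂ) + t * I) * kern y c t‖ ≤
      4 * B * y ^ (c + 1) / T ^ 2 + 16 * B * y ^ (2 - η) := by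
  have hy0 : 0 < y := by linarith
  have hT0 : 0 < T := by linarith
  have hyc : (y : ℂ) ≠ 0 := by exact_mod_cast hy0.ne'
  obtain ⟨f, hf⟩ : ∃ f : ℂ → ℂ, f = fun s => G s * ((y : ℂ) ^ (s + 1) / (s * (s + 1))) := ⟨_, rfl⟩
  have hkern : ∀ x t : ℝ, f ((x : ℂ) + t * I) = G ((x : ℂ) + t * I) * kern y x t := by
    intro x t
    rw [hf]
    unfold kern
    dsimp only
    have e1 : (x : ℂ) + t * I + 1 = (x : ℂ) + 1 + t * I := by ring
    rw [e1]
  -- differentiability on the rectangle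
  have hz := Complex.integral_boundary_rect_eq_zero_of_differentiableOn f
    (((1 - η : ℝ) : ℂ) + ((-T : ℝ) : ℂ) * I) ((c : ℂ) + (T : ℂ) * I) (by
      intro s hs
      rw [Complex.mem_reProdIm] at hs
      obtain ⟨h1, h2⟩ := hs
      simp only [add_re, ofReal_re, mul_re, I_re, mul_zero, ofReal_im, I_im, mul_one, sub_self,
        add_zero, add_im, mul_im, zero_add] at h1 h2
      rw [Set.uIcc_of_le (by linarith)] at h1 h2
      obtain ⟨h1a, h1b⟩ := h1
      obtain ⟨h2a, h2b⟩ := h2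
      have hre : 0 < s.re := by linarith
      have hs0 : s ≠ 0 := by
        rintro rfl
        simp at hre
      have hs1 : s + 1 ≠ 0 := by
        intro h
        have h3 := congrArg Complex.re h
        simp at h3
        linarith
      apply DifferentiableAt.differentiableWithinAt
      rw [hf]
      apply DifferentiableAt.mul
      · exact hd s h1a (by linarith) (abs_le.2 ⟨h2a, h2b⟩)
      · apply DifferentiableAt.div
        · apply DifferentiableAt.const_cpow (by fun_prop)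
          exact Or.inl hyc
        · fun_prop
        · exact mul_ne_zero hs0 hs1)
  simp only [add_re, ofReal_re, mul_re, I_re, mul_zero, ofReal_im, I_im, mul_one, sub_self,
    add_zero, add_im, mul_im, zero_add] at hz
  obtain ⟨J0, hJ0⟩ : ∃ J0 : ℂ, J0 = ∫ x : ℝ in (1 - η)..c, f (x + ((-T : ℝ) : ℂ) * I) := ⟨_, rfl⟩
  obtain ⟨J1, hJ1⟩ : ∃ J1 : ℂ, J1 = ∫ x : ℝ in (1 - η)..c, f (x + (T : ℂ) * I) := ⟨_, rfl⟩
  obtain ⟨K0, hK0⟩ : ∃ K0 : ℂ, K0 = ∫ t : ℝ in (-T)..T, f (((1 - η : ℝ) : ℂ) + t * I) := ⟨_, rfl⟩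
  obtain ⟨K1, hK1⟩ : ∃ K1 : ℂ, K1 = ∫ t : ℝ in (-T)..T, f ((c : ℂ) + t * I) := ⟨_, rfl⟩
  rw [← hJ0, ← hJ1, ← hK0, ← hK1] at hz
  have hgoal : (∫ t in (-T)..T, G ((c : ℂ) + t * I) * kern y c t) = K1 := by
    rw [hK1]
    congr 1
    funext t
    rw [hkern]
  rw [hgoal]
  have hK : ‖K1‖ ≤ ‖K0‖ + ‖J0‖ + ‖J1‖ := by
    have e1 : I * K1 = I * K0 - J0 + J1 := by
      simp only [smul_eq_mul] at hz
      linear_combination hz
    have e2 : ‖K1‖ = ‖I * K0 - J0 + J1‖ := by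
      rw [← e1, norm_mul, Complex.norm_I, one_mul]
    rw [e2]
    calc ‖I * K0 - J0 + J1‖ ≤ ‖I * K0 - J0‖ + ‖J1‖ := norm_add_le _ _
      _ ≤ ‖I * K0‖ + ‖J0‖ + ‖J1‖ := by
          have := norm_sub_le (I * K0) J0
          linarith
      _ = ‖K0‖ + ‖J0‖ + ‖J1‖ := by rw [norm_mul, Complex.norm_I, one_mul]
  -- the horizontal sides
  have hhor : ∀ x t : ℝ, 1 - η ≤ x → x ≤ c → |t| = T →
      ‖f ((x : ℂ) + (t : ℂ) * I)‖ ≤ B * y ^ (c + 1) / T ^ 2 := by
    intro x t h1 h2 h3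
    obtain ⟨s, hs⟩ : ∃ s : ℂ, s = (x : ℂ) + (t : ℂ) * I := ⟨_, rfl⟩
    have hsre : s.re = x := by rw [hs]; simp
    have hsim : s.im = t := by rw [hs]; simp
    rw [← hs, hf]
    dsimp only
    rw [norm_mul, norm_div, norm_mul]
    have i1 : ‖G s‖ ≤ B := hb s (by rw [hsre]; exact h1) (by rw [hsre]; linarith)
      (by rw [hsim]; exact h3.le)
    have i2 : ‖(y : ℂ) ^ (s + 1)‖ ≤ y ^ (c + 1) := by
      rw [Complex.norm_cpow_eq_rpow_re_of_pos hy0]
      apply Real.rpow_le_rpow_of_exponent_le hy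
      rw [add_re, one_re, hsre]
      linarith
    have i3 : T ≤ ‖s‖ := by
      have := Complex.abs_im_le_norm s
      rw [hsim, h3] at this
      exact this
    have i4 : T ≤ ‖s + 1‖ := by
      have := Complex.abs_im_le_norm (s + 1)
      rw [add_im, one_im, add_zero, hsim, h3] at this
      exact this
    have i5 : T ^ 2 ≤ ‖s‖ * ‖s + 1‖ := by
      rw [sq]
      exact mul_le_mul i3 i4 hT0.le (norm_nonneg _)
    have hT2 : 0 < T ^ 2 := pow_pos hT0 2
    have hyp : 0 ≤ y ^ (c + 1) := Real.rpow_nonneg hy0.le _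
    calc ‖G s‖ * (‖(y : ℂ) ^ (s + 1)‖ / (‖s‖ * ‖s + 1‖)) ≤ B * (y ^ (c + 1) / T ^ 2) := by
          apply mul_le_mul i1 _ (by positivity) hB
          exact div_le_div₀ hyp i2 hT2 i5
      _ = B * y ^ (c + 1) / T ^ 2 := by ring
  have hlen : |c - (1 - η)| ≤ 5 / 4 := by
    rw [abs_of_nonneg (by linarith)]
    linarith
  have hM0 : 0 ≤ B * y ^ (c + 1) / T ^ 2 := by
    have hyp : 0 ≤ y ^ (c + 1) := Real.rpow_nonneg hy0.le _
    positivity
  have hJ0b : ‖J0‖ ≤ B * y ^ (c + 1) / T ^ 2 * (5 / 4) := by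
    rw [hJ0]
    refine (intervalIntegral.norm_integral_le_of_norm_le_const (C := B * y ^ (c + 1) / T ^ 2)
      ?_).trans (mul_le_mul_of_nonneg_left hlen hM0)
    intro x hx
    rw [Set.uIoc_of_le (by linarith)] at hx
    exact hhor x (-T) hx.1.le hx.2 (by rw [abs_neg, abs_of_pos hT0])
  have hJ1b : ‖J1‖ ≤ B * y ^ (c + 1) / T ^ 2 * (5 / 4) := by
    rw [hJ1]
    refine (intervalIntegral.norm_integral_le_of_norm_le_const (C := B * y ^ (c + 1) / T ^ 2)
      ?_).trans (mul_le_mul_of_nonneg_left hlen hM0)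
    intro x hx
    rw [Set.uIoc_of_le (by linarith)] at hx
    exact hhor x T hx.1.le hx.2 (abs_of_pos hT0)
  -- the vertical side
  have hK0b : ‖K0‖ ≤ 16 * B * y ^ (2 - η) := by
    have hyp : 0 ≤ y ^ (2 - η) := Real.rpow_nonneg hy0.le _
    have hbd : ∀ t : ℝ, t ∈ Set.Ioc (-T) T → ‖f (((1 - η : ℝ) : ℂ) + t * I)‖ ≤
        (2 * B * y ^ (2 - η)) * (1 + t ^ 2)⁻¹ := by
      intro t ht
      rw [hkern, norm_mul]
      have i1 : ‖G (((1 - η : ℝ) : ℂ) + t * I)‖ ≤ B := by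
        apply hb
        · simp
        · simp
          linarith
        · simp
          exact abs_le.2 ⟨ht.1.le, ht.2⟩
      have i2 : ‖kern y (1 - η) t‖ ≤ y ^ (2 - η) / ((1 - η) ^ 2 + t ^ 2) := by
        have := kern_norm_le y (1 - η) t hy0 (by linarith)
        have e : (1 - η) + 1 = 2 - η := by ring
        rwa [e] at this
      have i3 : y ^ (2 - η) / ((1 - η) ^ 2 + t ^ 2) ≤ 2 * y ^ (2 - η) * (1 + t ^ 2)⁻¹ := by
        have h1 : 0 < (1 - η) ^ 2 + t ^ 2 := by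
          have : 0 < 1 - η := by linarith
          positivity
        have h2 : 0 < 1 + t ^ 2 := by positivity
        rw [← div_eq_mul_inv, div_le_div_iff₀ h1 h2]
        have h3 : 1 + t ^ 2 ≤ 2 * ((1 - η) ^ 2 + t ^ 2) := by nlinarith
        nlinarith [mul_le_mul_of_nonneg_left h3 hyp]
      calc ‖G (((1 - η : ℝ) : ℂ) + t * I)‖ * ‖kern y (1 - η) t‖
          ≤ B * (2 * y ^ (2 - η) * (1 + t ^ 2)⁻¹) :=
            mul_le_mul i1 (i2.trans i3) (norm_nonneg _) hB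
        _ = (2 * B * y ^ (2 - η)) * (1 + t ^ 2)⁻¹ := by ring
    have hcont : Continuous fun t : ℝ => (2 * B * y ^ (2 - η)) * (1 + t ^ 2)⁻¹ := by
      apply Continuous.mul continuous_const
      apply Continuous.inv₀ (by fun_prop)
      intro t
      positivity
    rw [hK0]
    refine (intervalIntegral.norm_integral_le_of_norm_le (by linarith)
      (Filter.Eventually.of_forall hbd) (hcont.intervalIntegrable _ _)).trans ?_
    rw [intervalIntegral.integral_const_mul, integral_inv_one_add_sq]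
    have h1 : Real.arctan T - Real.arctan (-T) ≤ Real.pi := by
      have := Real.arctan_lt_pi_div_two T
      rw [Real.arctan_neg]
      linarith
    have h2 : Real.pi ≤ 8 := by
      have := Real.pi_le_four
      linarith
    have h3 : 0 ≤ 2 * B * y ^ (2 - η) := by positivity
    calc 2 * B * y ^ (2 - η) * (Real.arctan T - Real.arctan (-T)) ≤ 2 * B * y ^ (2 - η) * 8 :=
          mul_le_mul_of_nonneg_left (h1.trans h2) h3
      _ = 16 * B * y ^ (2 - η) := by ring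
  have e4 : 4 * B * y ^ (c + 1) / T ^ 2 = 4 * (B * y ^ (c + 1) / T ^ 2) := by ring
  rw [e4]
  linarith

end Pool.Agent.Lib.MP_9c2ea5_nt.An
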