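import Mathlib
import Pool.Agent.Lib.MP_9c2ea5_nt.APer
import Pool.Agent.Lib.MP_9c2ea5_nt.AMelP
import Pool.Agent.Lib.MP_9c2ea5_nt.AShift

/-!
# JOB APbd: bound for Riesz means from bounds for the Dirichlet series

PROOF: let `c = 1 + 1/log y ∈ (1,2]` (`log 3 > 1`), so `y^(c+1) = y² y^(1/log y) = e y²`.  On the line `Re s = c`,
`G(c+it) = LSeries a (c+it) - κ/(c-1+it)`.  By `perron` and `pole_integral`,
`2π (riesz a y - κ (y-1)²/2) = ∫_ℝ G(c+it) kern y c t dt` (both integrands are integrable: the first by `perron`, the second is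
bounded by `(1/(c-1)) ‖kern‖`).  Split `ℝ = Ioc (-T) T ∪ compl`: the first part is the interval integral bounded by `shift_bound`,
the second is at most `B' · 2 y^(c+1)/T` (`kern_tail`, `‖G(c+it)‖ ≤ B'`).  So
`‖riesz a y - κ (y-1)²/2‖ ≤ (1/2π)(4 B e y²/T² + 16 B y^(2-η) + 2 B' e y²/T) ≤ 3 y² ((B+B')/T + B y^(-η))`
(`4e/(2π) ≤ 1.74`, `16/(2π) ≤ 2.55`, `2e/(2π) ≤ 0.87`, `1/T² ≤ 1/T`).
-/

open Complex Finset MeasureTheory

namespace Pool.Agent.Lib.MP_9c2ea5_nt.An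

theorem perron_bound (a : ℕ → ℂ) (G : ℂ → ℂ) (κ η T B B' y : ℝ) (hκ : 0 ≤ κ) (hκ1 : κ ≤ 1)
    (hη : 0 < η) (hη4 : η ≤ 1 / 4) (hT : 1 ≤ T) (hy : 3 ≤ y) (hB : 0 ≤ B) (hB' : 0 ≤ B')
    (ha : LSeriesSummable a ((1 + 1 / Real.log y : ℝ) : ℂ))
    (hG : ∀ s : ℂ, 1 < s.re → G s = LSeries a s - (κ : ℂ) / (s - 1))
    (hd : ∀ s : ℂ, 1 - η ≤ s.re → s.re ≤ 2 → |s.im| ≤ T → DifferentiableAt ℂ G s)
    (hb : ∀ s : ℂ, 1 - η ≤ s.re → s.re ≤ 2 → |s.im| ≤ T → ‖G s‖ ≤ B)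
    (hb' : ∀ t : ℝ, ‖G (((1 + 1 / Real.log y : ℝ) : ℂ) + t * I)‖ ≤ B') :
    ‖riesz a y - (κ : ℂ) * (((y - 1) ^ 2 / 2 : ℝ) : ℂ)‖ ≤
      3 * y ^ 2 * ((B + B') / T + B * y ^ (-η)) := by
  have hy0 : 0 < y := by linarith
  have hlog : 1 < Real.log y := by
    rw [Real.lt_log_iff_exp_lt hy0]
    have := Real.exp_one_lt_d9
    linarith
  obtain ⟨c, hcdef⟩ : ∃ c : ℝ, c = 1 + 1 / Real.log y := ⟨_, rfl⟩
  rw [← hcdef] at ha hb'
  have hl0 : 0 < 1 / Real.log y := by positivity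
  have hl1 : 1 / Real.log y ≤ 1 := by
    rw [div_le_one (by linarith)]
    exact hlog.le
  have hc1 : 1 < c := by rw [hcdef]; linarith
  have hc0 : 0 < c := by linarith
  have hc2 : c ≤ 2 := by rw [hcdef]; linarith
  have hyc : y ^ (c + 1) = Real.exp 1 * y ^ 2 := by
    have h1 : c + 1 = 2 + 1 / Real.log y := by rw [hcdef]; ring
    rw [h1, Real.rpow_add hy0]
    have h2 : y ^ (1 / Real.log y) = Real.exp 1 := by
      rw [Real.rpow_def_of_pos hy0]
      congr 1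
      field_simp
    rw [h2, mul_comm]
    congr 1
    exact_mod_cast Real.rpow_natCast y 2
  have hyη : y ^ (2 - η) = y ^ 2 * y ^ (-η) := by
    rw [sub_eq_add_neg, Real.rpow_add hy0]
    congr 1
    exact_mod_cast Real.rpow_natCast y 2
  obtain ⟨hi1, he1⟩ := perron a c y hc0 hy0 ha
  have hki := kern_integrable y c hy0 hc0
  have he2 := pole_integral c y hc1 (by linarith)
  have hne : ∀ t : ℝ, (c : ℂ) - 1 + t * I ≠ 0 := by
    intro t h0
    have := congrArg Complex.re h0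
    simp at this
    linarith
  have hi2 : Integrable (fun t : ℝ => (1 / ((c : ℂ) - 1 + t * I)) * kern y c t) := by
    refine hki.bdd_mul (c := 1 / (c - 1)) ?_ ?_
    · apply Continuous.aestronglyMeasurable
      apply Continuous.div continuous_const
      · fun_prop
      · exact hne
    · refine Filter.Eventually.of_forall fun t => ?_
      rw [norm_div, norm_one]
      apply one_div_le_one_div_of_le (by linarith)
      have h3 := Complex.abs_re_le_norm ((c : ℂ) - 1 + t * I)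
      simp at h3
      refine le_trans (le_abs_self _) h3
  have hh : ∀ t : ℝ, G ((c : ℂ) + t * I) * kern y c t =
      LSeries a ((c : ℂ) + t * I) * kern y c t -
        (κ : ℂ) * ((1 / ((c : ℂ) - 1 + t * I)) * kern y c t) := by
    intro t
    rw [hG ((c : ℂ) + t * I) (by simp; exact hc1)]
    have : (c : ℂ) + t * I - 1 = (c : ℂ) - 1 + t * I := by ring
    rw [this]
    ring
  have hih : Integrable (fun t : ℝ => G ((c : ℂ) + t * I) * kern y c t) := by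
    simp_rw [hh]
    exact hi1.sub (hi2.const_mul _)
  have hint : ∫ t : ℝ, G ((c : ℂ) + t * I) * kern y c t =
      2 * Real.pi * (riesz a y - (κ : ℂ) * (((y - 1) ^ 2 / 2 : ℝ) : ℂ)) := by
    simp_rw [hh]
    rw [integral_sub hi1 (hi2.const_mul _), integral_const_mul, he1, he2]
    push_cast
    ring
  have hsplit : ∫ t : ℝ, G ((c : ℂ) + t * I) * kern y c t =
      (∫ t in (-T)..T, G ((c : ℂ) + t * I) * kern y c t) +
        ∫ t in (Set.Ioc (-T) T)ᶜ, G ((c : ℂ) + t * I) * kern y c t := by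
    rw [intervalIntegral.integral_of_le (by linarith)]
    exact (integral_add_compl measurableSet_Ioc hih).symm
  have hs := shift_bound G η c T B y hη hη4 hc1 hc2 hT (by linarith) hB hd hb
  have ht : ‖∫ t in (Set.Ioc (-T) T)ᶜ, G ((c : ℂ) + t * I) * kern y c t‖ ≤
      B' * (2 * y ^ (c + 1) / T) := by
    have h4 : ‖∫ t in (Set.Ioc (-T) T)ᶜ, G ((c : ℂ) + t * I) * kern y c t‖ ≤
        ∫ t in (Set.Ioc (-T) T)ᶜ, B' * ‖kern y c t‖ := by
      apply norm_integral_le_of_norm_le (hki.norm.integrableOn.const_mul B')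
      refine Filter.Eventually.of_forall fun t => ?_
      rw [norm_mul]
      exact mul_le_mul_of_nonneg_right (hb' t) (norm_nonneg _)
    refine h4.trans ?_
    rw [integral_const_mul]
    exact mul_le_mul_of_nonneg_left (kern_tail y c T hy0 hc0 (by linarith)) hB'
  have hnorm : 2 * Real.pi * ‖riesz a y - (κ : ℂ) * (((y - 1) ^ 2 / 2 : ℝ) : ℂ)‖ ≤
      (4 * B * y ^ (c + 1) / T ^ 2 + 16 * B * y ^ (2 - η)) + B' * (2 * y ^ (c + 1) / T) := by
    have h5 : ‖∫ t : ℝ, G ((c : ℂ) + t * I) * kern y c t‖ =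
        2 * Real.pi * ‖riesz a y - (κ : ℂ) * (((y - 1) ^ 2 / 2 : ℝ) : ℂ)‖ := by
      rw [hint, norm_mul, norm_mul, Complex.norm_real, Real.norm_of_nonneg Real.pi_pos.le]
      simp
    rw [← h5, hsplit]
    exact (norm_add_le _ _).trans (add_le_add hs ht)
  rw [hyc, hyη] at hnorm
  have hpi := Real.pi_gt_three
  have hexp := Real.exp_one_lt_d9
  have hexp0 := Real.exp_pos 1
  have hT0 : 0 < T := by linarith
  have hy2 : 0 < y ^ 2 := by positivity
  have hyn : 0 < y ^ (-η) := Real.rpow_pos_of_pos hy0 _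
  have hTT : 1 / T ^ 2 ≤ 1 / T := by
    apply one_div_le_one_div_of_le hT0
    nlinarith
  have hT1 : 0 < 1 / T := by positivity
  have e1 : 4 * B * (Real.exp 1 * y ^ 2) / T ^ 2 ≤ 18 * (y ^ 2 * (B / T)) := by
    have h6 : 4 * B * (Real.exp 1 * y ^ 2) / T ^ 2 =
        (4 * Real.exp 1) * (y ^ 2 * (B * (1 / T ^ 2))) := by
      ring
    have h7 : y ^ 2 * (B * (1 / T ^ 2)) ≤ y ^ 2 * (B / T) := by
      apply mul_le_mul_of_nonneg_left _ hy2.le
      rw [div_eq_mul_one_div B T]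
      exact mul_le_mul_of_nonneg_left hTT hB
    have h8 : 0 ≤ y ^ 2 * (B / T) := by positivity
    rw [h6]
    calc (4 * Real.exp 1) * (y ^ 2 * (B * (1 / T ^ 2))) ≤ (4 * Real.exp 1) * (y ^ 2 * (B / T)) :=
          mul_le_mul_of_nonneg_left h7 (by positivity)
      _ ≤ 18 * (y ^ 2 * (B / T)) := mul_le_mul_of_nonneg_right (by linarith) h8
  have e2 : 16 * B * (y ^ 2 * y ^ (-η)) ≤ 18 * (y ^ 2 * (B * y ^ (-η))) := by
    have h8 : 0 ≤ y ^ 2 * (B * y ^ (-η)) := by positivity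
    nlinarith
  have e3 : B' * (2 * (Real.exp 1 * y ^ 2) / T) ≤ 18 * (y ^ 2 * (B' / T)) := by
    have h6 : B' * (2 * (Real.exp 1 * y ^ 2) / T) = (2 * Real.exp 1) * (y ^ 2 * (B' / T)) := by
      ring
    have h8 : 0 ≤ y ^ 2 * (B' / T) := by positivity
    rw [h6]
    exact mul_le_mul_of_nonneg_right (by linarith) h8
  have hX := norm_nonneg (riesz a y - (κ : ℂ) * (((y - 1) ^ 2 / 2 : ℝ) : ℂ))
  have hfin : 6 * ‖riesz a y - (κ : ℂ) * (((y - 1) ^ 2 / 2 : ℝ) : ℂ)‖ ≤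
      18 * (y ^ 2 * (B / T)) + 18 * (y ^ 2 * (B * y ^ (-η))) + 18 * (y ^ 2 * (B' / T)) := by
    have h9 : 6 * ‖riesz a y - (κ : ℂ) * (((y - 1) ^ 2 / 2 : ℝ) : ℂ)‖ ≤
        2 * Real.pi * ‖riesz a y - (κ : ℂ) * (((y - 1) ^ 2 / 2 : ℝ) : ℂ)‖ :=
      mul_le_mul_of_nonneg_right (by linarith) hX
    linarith
  have hgoal : 3 * y ^ 2 * ((B + B') / T + B * y ^ (-η)) =
      3 * (y ^ 2 * (B / T)) + 3 * (y ^ 2 * (B * y ^ (-η))) + 3 * (y ^ 2 * (B' / T)) := by
    ring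
  rw [hgoal]
  linarith

end Pool.Agent.Lib.MP_9c2ea5_nt.An
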