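import Mathlib
import Pool.Agent.Lib.MP_9c2ea5_nt.APbd
import Pool.Agent.Lib.MP_9c2ea5_nt.ALam
import Pool.Agent.Lib.MP_9c2ea5_nt.ALow

/-!
# JOB ARzC: bound for the Riesz means of `χ Λ`

PROOF of `riesz_chi`: `perron_bound` with `a = aChi χ`, `κ = 0`, `η = δ/(10^11 l^11)`, `G = -L'/L` (`L = LFunction χ`), which is
differentiable where `L ≠ 0` (`L` and its derivative are entire), in particular for `1-η ≤ Re s ≤ 2`, `|Im s| ≤ T` by `low_all`.
For `Re s > 1`: `G s = LSeries (aChi χ) s` (`DirichletCharacter.LSeries_twist_vonMangoldt_eq`,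
`DirichletCharacter.deriv_LFunction_eq_deriv_LSeries`, `LFunction_eq_LSeries`).  `B = 2·10^11 l^11/δ` (`LFun_deriv`: `20 l²`, `low_all`).
`B' = 6 (log y)²` (`LSeries_vm_le` with `c = 1 + 1/log y`).  Since `log y ≥ 1` and `l^11/δ ≥ 1`:
`3((B+B')/T + B y^(-η)) ≤ 3 (B+B')(1/T + y^(-η)) ≤ 3 (2·10^11 + 6)(l^11/δ)(log y)² (1/T + y^(-η))`.
-/

open Complex Finset

namespace Pool.Agent.Lib.MP_9c2ea5_nt.An

lemma aChi_LSeries {m : ℕ} [NeZero m] (χ : DirichletCharacter ℂ m) (s : ℂ) (hs : 1 < s.re) :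
    -deriv (DirichletCharacter.LFunction χ) s / DirichletCharacter.LFunction χ s =
      LSeries (aChi χ) s := by
  rw [DirichletCharacter.deriv_LFunction_eq_deriv_LSeries χ hs,
    DirichletCharacter.LFunction_eq_LSeries χ hs]
  exact (DirichletCharacter.LSeries_twist_vonMangoldt_eq χ hs).symm

theorem riesz_chi {m : ℕ} [NeZero m] (χ : DirichletCharacter ℂ m) (h1 : χ ≠ 1)
    (l T δ : ℝ) (hδ : 0 < δ) (hδ1 : δ ≤ 1)
    (hL : χ ^ 2 = 1 → δ ≤ ‖DirichletCharacter.LFunction χ 1‖)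
    (hl : 4 ≤ l) (hT : 1 ≤ T) (hm : (m : ℝ) * (2 * T + 5) ≤ Real.exp l) (y : ℝ) (hy : 3 ≤ y) :
    ‖riesz (aChi χ) y‖ ≤ 10 ^ 13 * (l ^ 11 / δ) * (Real.log y) ^ 2 * y ^ 2 *
      (1 / T + y ^ (-(δ / (10 ^ 11 * l ^ 11)))) := by
  have hl0 : (0 : ℝ) < l := by linarith
  have hl1 : (1 : ℝ) ≤ l := by linarith
  have hy0 : (0 : ℝ) < y := by linarith
  have hT0 : (0 : ℝ) < T := by linarith
  have hlog1 : 1 ≤ Real.log y := by
    rw [Real.le_log_iff_exp_le hy0]
    have := Real.exp_one_lt_d9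
    linarith
  set η : ℝ := δ / (10 ^ 11 * l ^ 11) with hηdef
  have hl11 : (1 : ℝ) ≤ l ^ 11 := one_le_pow₀ hl1
  have hl10 : (1 : ℝ) ≤ l ^ 10 := one_le_pow₀ hl1
  have hη : 0 < η := by positivity
  have hηl : η ≤ 1 / (2 * l) := by
    rw [hηdef, div_le_div_iff₀ (by positivity) (by positivity)]
    have h1 : δ * (2 * l) ≤ 1 * (2 * l) := mul_le_mul_of_nonneg_right hδ1 (by positivity)
    have h2 : l ^ 11 = l * l ^ 10 := by ring
    rw [h2]
    nlinarith
  have hη4 : η ≤ 1 / 4 := by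
    have h3 : 1 / (2 * l) ≤ 1 / 4 := one_div_le_one_div_of_le (by norm_num) (by linarith)
    linarith
  have hm5 : (m : ℝ) * (T + 5) ≤ Real.exp l := by
    have h0 : (0 : ℝ) ≤ m := Nat.cast_nonneg m
    nlinarith
  set X : ℝ := l ^ 11 / δ with hX
  set Y : ℝ := (Real.log y) ^ 2 with hY
  have hX1 : 1 ≤ X := by
    rw [hX, le_div_iff₀ hδ]
    linarith
  have hY1 : 1 ≤ Y := one_le_pow₀ hlog1
  have hlow : ∀ s : ℂ, 1 - η ≤ s.re → s.re ≤ 2 → |s.im| ≤ T →
      δ / (10 ^ 10 * l ^ 9) ≤ ‖DirichletCharacter.LFunction χ s‖ := fun s h1s h2s h3s =>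
    low_all χ h1 l T δ hδ hδ1 hL hl hT0.le hm s h1s h2s h3s
  have hpos9 : 0 < δ / (10 ^ 10 * l ^ 9) := by positivity
  have hdiffL : Differentiable ℂ (DirichletCharacter.LFunction χ) :=
    DirichletCharacter.differentiable_LFunction h1
  have hc1 : 1 < 1 + 1 / Real.log y := by
    have : 0 < 1 / Real.log y := by positivity
    linarith
  have hc2 : 1 + 1 / Real.log y ≤ 2 := by
    have : 1 / Real.log y ≤ 1 := by
      rw [div_le_one (by linarith)]
      exact hlog1
    linarith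
  obtain ⟨hsum, hbd⟩ := LSeries_vm_le (aChi χ) (aChi_norm_le χ) (1 + 1 / Real.log y) hc1 hc2
  have key := perron_bound (aChi χ)
    (fun s => -deriv (DirichletCharacter.LFunction χ) s / DirichletCharacter.LFunction χ s)
    0 η T (2 * 10 ^ 11 * X) (6 * Y) y le_rfl zero_le_one hη hη4 hT hy (by positivity)
    (by positivity) hsum
    (by
      intro s hs
      simp only [Complex.ofReal_zero, zero_div, sub_zero]
      exact aChi_LSeries χ s hs)
    (by
      intro s h1s h2s h3s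
      have hne : DirichletCharacter.LFunction χ s ≠ 0 := by
        intro h0
        have := hlow s h1s h2s h3s
        rw [h0, norm_zero] at this
        linarith
      exact ((hdiffL.deriv s).neg).div (hdiffL s) hne)
    (by
      intro s h1s h2s h3s
      have hlo := hlow s h1s h2s h3s
      have hup := LFun_deriv χ h1 l T hl hm5 s (by linarith) h3s
      rw [norm_div, norm_neg]
      calc ‖deriv (DirichletCharacter.LFunction χ) s‖ / ‖DirichletCharacter.LFunction χ s‖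
          ≤ (20 * l ^ 2) / (δ / (10 ^ 10 * l ^ 9)) := by
            apply div_le_div₀ (by positivity) hup hpos9 hlo
        _ = 2 * 10 ^ 11 * X := by
            rw [hX]
            field_simp
            norm_num)
    (by
      intro t
      have hre : ((((1 + 1 / Real.log y : ℝ)) : ℂ) + t * I).re = 1 + 1 / Real.log y := by
        simp
      have h1s : 1 < ((((1 + 1 / Real.log y : ℝ)) : ℂ) + t * I).re := by
        rw [hre]; exact hc1
      rw [aChi_LSeries χ _ h1s]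
      refine le_trans (hbd _ hre) (le_of_eq ?_)
      rw [hY]
      have : Real.log y ≠ 0 := by linarith
      field_simp
      ring)
  simp only [Complex.ofReal_zero, zero_mul, sub_zero] at key
  refine le_trans key ?_
  have hyη : 0 ≤ y ^ (-η) := Real.rpow_nonneg hy0.le _
  have hT1 : 0 ≤ 1 / T := by positivity
  have hXY : X ≤ X * Y := le_mul_of_one_le_right (by linarith) hY1
  have hYX : Y ≤ X * Y := le_mul_of_one_le_left (by linarith) hX1
  have hXY0 : 0 ≤ X * Y := by positivity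
  have e1 : (2 * 10 ^ 11 * X + 6 * Y) / T ≤ (10 ^ 13 / 3 * (X * Y)) * (1 / T) := by
    rw [div_eq_mul_one_div]
    apply mul_le_mul_of_nonneg_right _ hT1
    linarith
  have e2 : 2 * 10 ^ 11 * X * y ^ (-η) ≤ (10 ^ 13 / 3 * (X * Y)) * y ^ (-η) := by
    apply mul_le_mul_of_nonneg_right _ hyη
    linarith
  calc 3 * y ^ 2 * ((2 * 10 ^ 11 * X + 6 * Y) / T + 2 * 10 ^ 11 * X * y ^ (-η))
      ≤ 3 * y ^ 2 * ((10 ^ 13 / 3 * (X * Y)) * (1 / T) + (10 ^ 13 / 3 * (X * Y)) * y ^ (-η)) := by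
        apply mul_le_mul_of_nonneg_left _ (by positivity)
        linarith
    _ = 10 ^ 13 * X * Y * y ^ 2 * (1 / T + y ^ (-η)) := by ring

end Pool.Agent.Lib.MP_9c2ea5_nt.An
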