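import Mathlib
import Pool.Agent.Lib.MP_9c2ea5_nt.ALip2
import Pool.Agent.Lib.MP_9c2ea5_nt.AMert
import Pool.Agent.Lib.MP_9c2ea5_nt.AStep

/-!
# JOB AZlow: `riemannZeta₁` has no zero near the line 1 and its logarithmic derivative is small

`riemannZeta₁ s = 1 + (s-1) riemannZeta₀ s = (s-1) ζ(s)`, `riemannZeta₁' = riemannZeta₀ + (s-1) riemannZeta₀'`.
Let `s = σ + it`, `1 - 1/(10^18 l^9) ≤ σ ≤ 2`, `|t| ≤ T`, `2T + 5 ≤ e^l`, `l ≥ 4`.
(a) `‖s-1‖ ≤ 1/(20 l)`: `‖riemannZeta₁ s‖ ≥ 1 - 10 l/(20 l) = 1/2` and `‖riemannZeta₁' s‖ ≤ 10 l + 20 l²/(20 l) = 11 l`;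
quotient at most `22 l`.
(b) `|t| ≥ 1/(40 l)`: on the horizontal line at height `t` (`σ' ≥ 1 - x0`, `x0 = 1/(10^18 l^9)`):
`‖ζ'‖ = ‖riemannZeta₀' - 1/(s-1)²‖ ≤ 20 l² + 1600 l² = 1620 l²`, so `ζ` is Lipschitz there with `Lam = 1620 l²`
(or: `‖1/(s₁-1) - 1/(s₂-1)‖ ≤ |σ₁-σ₂|/t²`); `‖ζ(1+x+2it)‖ ≤ 1/(2|t|) + 10 l ≤ 30 l = U`.  `step341` (with `mert_zeta`):
`2048 · 1620^4 · 30 ≤ 4.3·10^17`, times `l^9 x0` is `≤ 1`.  So `‖ζ(s)‖ ≥ 2·1620 l² x0 = 3.24·10^(-15) l^(-7)`.
`riemannZeta₁'/riemannZeta₁ = ζ'/ζ + 1/(s-1)` has norm at most `1620 l²·10^15 l^7/3.24 + 40 l ≤ 10^19 l^9`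
(directly: `‖riemannZeta₁ s‖ = ‖s-1‖ ‖ζ(s)‖` and `‖riemannZeta₁'‖ ≤ 10 l + ‖s-1‖ 20 l²`, ratio
`≤ (10 l/‖s-1‖ + 20 l²)/‖ζ(s)‖ ≤ (400 l² + 20 l²) 10^15 l^7/3.24`).
(c) otherwise `|t| < 1/(40 l)` and `‖s-1‖ > 1/(20 l)`, so `σ - 1 > 1/(40 l)`; `zeta_right_ge`: `‖ζ(s)‖ ≥ 1/(80 l)`; ratio
`≤ (10 l · 20 l + 20 l²) 80 l = 17600 l³`.
-/

open Complex Finset

namespace Pool.Agent.Lib.MP_9c2ea5_nt.An

private theorem AZlow_deriv (s : ℂ) :
    deriv riemannZeta₁ s = riemannZeta₀ s + (s - 1) * deriv riemannZeta₀ s := by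
  have h0 : HasDerivAt riemannZeta₀ (deriv riemannZeta₀ s) s :=
    (differentiable_riemannZeta₀ s).hasDerivAt
  have h1 : HasDerivAt (fun z : ℂ => z - 1) 1 s := (hasDerivAt_id s).sub_const 1
  have h2 : HasDerivAt (fun z : ℂ => 1 + (z - 1) * riemannZeta₀ z)
      (1 * riemannZeta₀ s + (s - 1) * deriv riemannZeta₀ s) s := (h1.mul h0).const_add 1
  have h3 : riemannZeta₁ = fun z : ℂ => 1 + (z - 1) * riemannZeta₀ z := rfl
  rw [h3, h2.deriv, one_mul]

private theorem AZlow_key (l B : ℝ) (hl : 4 ≤ l) (hB : 0 < B) (s : ℂ) (h1 : 1 / (40 * l) ≤ ‖s - 1‖)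
    (hz : B ≤ ‖riemannZeta s‖) (h0 : ‖riemannZeta₀ s‖ ≤ 10 * l) (hd : ‖deriv riemannZeta₀ s‖ ≤ 20 * l ^ 2) :
    riemannZeta₁ s ≠ 0 ∧ ‖deriv riemannZeta₁ s / riemannZeta₁ s‖ ≤ 420 * l ^ 2 / B := by
  have hl0 : 0 < l := by linarith
  have hpos : 0 < ‖s - 1‖ := lt_of_lt_of_le (by positivity) h1
  have hs1 : s - 1 ≠ 0 := norm_pos_iff.1 hpos
  have hs : s ≠ 1 := sub_ne_zero.1 hs1
  have hzz : riemannZeta₁ s = (s - 1) * riemannZeta s := by
    rw [riemannZeta_eq_inv_sub_add hs]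
    unfold riemannZeta₁
    field_simp
  have hn : ‖riemannZeta₁ s‖ = ‖s - 1‖ * ‖riemannZeta s‖ := by rw [hzz, norm_mul]
  have hlow : ‖s - 1‖ * B ≤ ‖riemannZeta₁ s‖ := by
    rw [hn]; exact mul_le_mul_of_nonneg_left hz hpos.le
  have hp1 : 0 < ‖riemannZeta₁ s‖ := lt_of_lt_of_le (by positivity) hlow
  refine ⟨norm_pos_iff.1 hp1, ?_⟩
  rw [norm_div, div_le_div_iff₀ hp1 hB, AZlow_deriv]
  have hnum : ‖riemannZeta₀ s + (s - 1) * deriv riemannZeta₀ s‖ ≤ 420 * l ^ 2 * ‖s - 1‖ := by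
    refine le_trans (norm_add_le _ _) ?_
    rw [norm_mul]
    have h2 : ‖s - 1‖ * ‖deriv riemannZeta₀ s‖ ≤ ‖s - 1‖ * (20 * l ^ 2) :=
      mul_le_mul_of_nonneg_left hd hpos.le
    have h3 : 10 * l ≤ 400 * l ^ 2 * ‖s - 1‖ := by
      have h4 : 1 ≤ 40 * l * ‖s - 1‖ := by
        have := mul_le_mul_of_nonneg_left h1 (by positivity : 0 ≤ 40 * l)
        rwa [mul_one_div_cancel (by positivity)] at this
      have h5 := mul_le_mul_of_nonneg_left h4 (by positivity : 0 ≤ 10 * l)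
      nlinarith
    linarith
  have h6 := mul_le_mul_of_nonneg_right hnum hB.le
  have h7 := mul_le_mul_of_nonneg_left hlow (by positivity : 0 ≤ 420 * l ^ 2)
  nlinarith

theorem zeta1_logDeriv (l T : ℝ) (hl : 4 ≤ l) (hT : 0 ≤ T) (hm : 2 * T + 5 ≤ Real.exp l) (s : ℂ)
    (hs : 1 - 1 / (10 ^ 18 * l ^ 9) ≤ s.re) (hs2 : s.re ≤ 2) (ht : |s.im| ≤ T) :
    riemannZeta₁ s ≠ 0 ∧ ‖deriv riemannZeta₁ s / riemannZeta₁ s‖ ≤ 10 ^ 19 * l ^ 9 := by
  have hl0 : 0 < l := by linarith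
  have hl1 : 1 ≤ l := by linarith
  have hp8 : 1 ≤ l ^ 8 := one_le_pow₀ hl1
  have hp6 : 1 ≤ l ^ 6 := one_le_pow₀ hl1
  have hl9 : l ≤ l ^ 9 := by nlinarith
  have hl39 : l ^ 3 ≤ l ^ 9 := by
    have : 0 < l ^ 3 := by positivity
    nlinarith
  set x0 : ℝ := 1 / (10 ^ 18 * l ^ 9) with hx0
  have hx0p : 0 < x0 := by rw [hx0]; positivity
  have hx0l : x0 ≤ 1 / (80 * l) := by
    rw [hx0]
    apply one_div_le_one_div_of_le (by positivity)
    nlinarith
  have h80 : 1 / (80 * l) ≤ 1 / (2 * l) := one_div_le_one_div_of_le (by positivity) (by linarith)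
  have h2l : 1 / (2 * l) ≤ 1 / l := one_div_le_one_div_of_le (by positivity) (by linarith)
  have h2l' : 1 / (2 * l) ≤ 1 / 2 := one_div_le_one_div_of_le (by norm_num) (by linarith)
  have hmT : T + 5 ≤ Real.exp l := by linarith
  have hZ0 : ‖riemannZeta₀ s‖ ≤ 10 * l := zeta0_bd l T hl hmT s (by linarith) (by linarith)
  have hZ1 : ‖deriv riemannZeta₀ s‖ ≤ 20 * l ^ 2 := zeta0_deriv l T hl hmT s (by linarith) ht
  have hbig : 33600 * l ^ 3 ≤ 10 ^ 19 * l ^ 9 := by nlinarith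
  by_cases ha : ‖s - 1‖ ≤ 1 / (20 * l)
  · -- near the pole
    have h1 : ‖(s - 1) * riemannZeta₀ s‖ ≤ 1 / 2 := by
      rw [norm_mul]
      calc ‖s - 1‖ * ‖riemannZeta₀ s‖ ≤ 1 / (20 * l) * (10 * l) :=
            mul_le_mul ha hZ0 (norm_nonneg _) (by positivity)
        _ = 1 / 2 := by field_simp; norm_num
    have h2 : 1 / 2 ≤ ‖riemannZeta₁ s‖ := by
      unfold riemannZeta₁
      have h3 := norm_sub_le_norm_add (1 : ℂ) ((s - 1) * riemannZeta₀ s)
      rw [norm_one] at h3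
      linarith
    have h3 : ‖deriv riemannZeta₁ s‖ ≤ 11 * l := by
      rw [AZlow_deriv]
      refine le_trans (norm_add_le _ _) ?_
      rw [norm_mul]
      have h4 : ‖s - 1‖ * ‖deriv riemannZeta₀ s‖ ≤ 1 / (20 * l) * (20 * l ^ 2) :=
        mul_le_mul ha hZ1 (norm_nonneg _) (by positivity)
      have h5 : 1 / (20 * l) * (20 * l ^ 2) = l := by field_simp
      linarith
    have hp1 : 0 < ‖riemannZeta₁ s‖ := by linarith
    refine ⟨norm_pos_iff.1 hp1, ?_⟩
    rw [norm_div, div_le_iff₀ hp1]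
    have h6 : 10 ^ 19 * l ^ 9 * (1 / 2) ≤ 10 ^ 19 * l ^ 9 * ‖riemannZeta₁ s‖ :=
      mul_le_mul_of_nonneg_left h2 (by positivity)
    nlinarith
  · push Not at ha
    have h40 : 1 / (40 * l) ≤ ‖s - 1‖ := by
      have : 1 / (40 * l) ≤ 1 / (20 * l) := one_div_le_one_div_of_le (by positivity) (by linarith)
      linarith
    by_cases hb : 1 / (40 * l) ≤ |s.im|
    · -- away from the real axis
      have him0 : 0 < |s.im| := lt_of_lt_of_le (by positivity) hb
      have hlow : 2 * (1620 * l ^ 2) * x0 ≤ ‖riemannZeta ((s.re : ℂ) + s.im * I)‖ := by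
        refine step341 riemannZeta s.im x0 (1620 * l ^ 2) (30 * l) hx0p (by linarith) (by positivity)
          (by positivity) ?_ ?_ ?_ s.re hs hs2
        · rw [hx0]
          have : 2048 * (1620 * l ^ 2) ^ 4 * (30 * l) * (1 / (10 ^ 18 * l ^ 9)) =
              (2048 * 1620 ^ 4 * 30 / 10 ^ 18 : ℝ) := by
            field_simp
          rw [this]
          norm_num
        · intro x hx hx1
          have hxp : 0 < x := lt_of_lt_of_le hx0p hx
          refine le_trans (mert_zeta x s.im hxp hx1) ?_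
          apply mul_le_mul_of_nonneg_left _ (by positivity)
          set z : ℂ := ((1 + x : ℝ) : ℂ) + ((2 * s.im : ℝ) : ℂ) * I with hz
          have hzre : z.re = 1 + x := by simp [hz]
          have hzim : z.im = 2 * s.im := by simp [hz]
          have hz1 : z ≠ 1 := by
            intro h
            have := congrArg Complex.re h
            rw [hzre, Complex.one_re] at this
            linarith
          have hnz : 1 / (20 * l) ≤ ‖z - 1‖ := by
            have h1 : |(z - 1).im| ≤ ‖z - 1‖ := Complex.abs_im_le_norm _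
            rw [Complex.sub_im, Complex.one_im, sub_zero, hzim, abs_mul, abs_two] at h1
            have h2 : 1 / (20 * l) = 2 * (1 / (40 * l)) := by field_simp; norm_num
            linarith
          rw [riemannZeta_eq_inv_sub_add hz1]
          refine le_trans (norm_add_le _ _) ?_
          have h3 : ‖(z - 1)⁻¹‖ ≤ 20 * l := by
            rw [norm_inv]
            have := inv_anti₀ (by positivity) hnz
            rwa [one_div, inv_inv] at this
          have h4 : ‖riemannZeta₀ z‖ ≤ 10 * l := by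
            apply zeta0_bd l (2 * T) hl hm z
            · rw [hzre]
              have : 0 < 1 / l := by positivity
              linarith
            · rw [hzim, abs_mul, abs_two]
              linarith
          linarith
        · intro σ₁ σ₂ h1 h1' h2 h2'
          set z1 : ℂ := (σ₁ : ℂ) + s.im * I with hz1
          set z2 : ℂ := (σ₂ : ℂ) + s.im * I with hz2
          have hre1 : z1.re = σ₁ := by simp [hz1]
          have hre2 : z2.re = σ₂ := by simp [hz2]
          have him1 : z1.im = s.im := by simp [hz1]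
          have him2 : z2.im = s.im := by simp [hz2]
          have hne : ∀ z : ℂ, z.im = s.im → z - 1 ≠ 0 ∧ |s.im| ≤ ‖z - 1‖ := by
            intro z hz
            have h3 : |(z - 1).im| ≤ ‖z - 1‖ := Complex.abs_im_le_norm _
            rw [Complex.sub_im, Complex.one_im, sub_zero, hz] at h3
            exact ⟨norm_pos_iff.1 (by linarith), h3⟩
          obtain ⟨hn1, hb1⟩ := hne z1 him1
          obtain ⟨hn2, hb2⟩ := hne z2 him2
          have hdiff : z1 - z2 = ((σ₁ - σ₂ : ℝ) : ℂ) := by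
            rw [hz1, hz2]; push_cast; ring
          have hnd : ‖z1 - z2‖ = |σ₁ - σ₂| := by
            rw [hdiff, Complex.norm_real, Real.norm_eq_abs]
          rw [riemannZeta_eq_inv_sub_add (sub_ne_zero.1 hn1), riemannZeta_eq_inv_sub_add (sub_ne_zero.1 hn2)]
          have e1 : (z1 - 1)⁻¹ + riemannZeta₀ z1 - ((z2 - 1)⁻¹ + riemannZeta₀ z2) =
              -((z1 - z2) / ((z1 - 1) * (z2 - 1))) + (riemannZeta₀ z1 - riemannZeta₀ z2) := by
            field_simp
            ring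
          rw [e1]
          refine le_trans (norm_add_le _ _) ?_
          have h3 : ‖riemannZeta₀ z1 - riemannZeta₀ z2‖ ≤ 20 * l ^ 2 * |σ₁ - σ₂| := by
            rw [← hnd]
            apply zeta0_lip l T hl hmT z1 z2
            · rw [hre1]; linarith
            · rw [him1]; exact ht
            · rw [hre2]; linarith
            · rw [him2]; exact ht
          have h4 : ‖-((z1 - z2) / ((z1 - 1) * (z2 - 1)))‖ ≤ 1600 * l ^ 2 * |σ₁ - σ₂| := by
            rw [norm_neg, norm_div, norm_mul, hnd]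
            have h5 : (1 / (40 * l)) ^ 2 ≤ ‖z1 - 1‖ * ‖z2 - 1‖ := by
              rw [pow_two]
              exact mul_le_mul (hb.trans hb1) (hb.trans hb2) (by positivity) (norm_nonneg _)
            rw [div_le_iff₀ (lt_of_lt_of_le (by positivity) h5)]
            have h6 : |σ₁ - σ₂| = 1600 * l ^ 2 * |σ₁ - σ₂| * (1 / (40 * l)) ^ 2 := by
              field_simp
              norm_num
            calc |σ₁ - σ₂| = 1600 * l ^ 2 * |σ₁ - σ₂| * (1 / (40 * l)) ^ 2 := h6
              _ ≤ _ := mul_le_mul_of_nonneg_left h5 (by positivity)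
          nlinarith [abs_nonneg (σ₁ - σ₂)]
      rw [Complex.re_add_im] at hlow
      have hB : 0 < 2 * (1620 * l ^ 2) * x0 := by positivity
      obtain ⟨h1, h2⟩ := AZlow_key l _ hl hB s h40 hlow hZ0 hZ1
      refine ⟨h1, h2.trans ?_⟩
      rw [hx0]
      have : 420 * l ^ 2 / (2 * (1620 * l ^ 2) * (1 / (10 ^ 18 * l ^ 9))) =
          (420 / 3240 * 10 ^ 18 : ℝ) * l ^ 9 := by
        field_simp
        norm_num
      rw [this]
      apply mul_le_mul_of_nonneg_right _ (by positivity)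
      norm_num
    · -- near the real axis, to the right of the pole
      push Not at hb
      have h1 : ‖s - 1‖ ≤ |(s - 1).re| + |(s - 1).im| := Complex.norm_le_abs_re_add_abs_im _
      rw [Complex.sub_re, Complex.sub_im, Complex.one_re, Complex.one_im, sub_zero] at h1
      have h2 : 1 / (20 * l) = 2 * (1 / (40 * l)) := by field_simp; norm_num
      have h3 : 1 / (40 * l) < |s.re - 1| := by linarith
      have h4 : 1 / (40 * l) = 2 * (1 / (80 * l)) := by field_simp; norm_num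
      have h5 : 0 < 1 / (80 * l) := by positivity
      have h6 : 1 / (40 * l) < s.re - 1 := by
        rcases abs_cases (s.re - 1) with ⟨h7, _⟩ | ⟨h7, _⟩
        · linarith
        · linarith
      have h7 := zeta_right_ge s (by linarith) hs2
      have h8 : 1 / (80 * l) ≤ ‖riemannZeta s‖ := by linarith
      obtain ⟨h9, h10⟩ := AZlow_key l _ hl h5 s h40 h8 hZ0 hZ1
      refine ⟨h9, h10.trans ?_⟩
      have : 420 * l ^ 2 / (1 / (80 * l)) = 33600 * l ^ 3 := by
        field_simp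
        norm_num
      rw [this]
      exact hbig

end Pool.Agent.Lib.MP_9c2ea5_nt.An
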