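import Mathlib
import Pool.Agent.Lib.MP_9c2ea5_nt.APbd
import Pool.Agent.Lib.MP_9c2ea5_nt.ALam
import Pool.Agent.Lib.MP_9c2ea5_nt.AZlow

/-!
# JOB ARzO: bound for the Riesz mean of `Λ`

PROOF of `riesz_one`: `perron_bound` with `a = aOne`, `κ = 1`, `η = 1/(10^18 l^9)`, `G = -riemannZeta₁'/riemannZeta₁`
(`zeta1_logDeriv`: `B = 10^19 l^9`, zero free; `riemannZeta₁` entire).  For `Re s > 1`:
`LSeries aOne s = -ζ'/ζ` (`ArithmeticFunction.LSeries_vonMangoldt_eq_deriv_riemannZeta_div`), and `ζ = riemannZeta₁/(s-1)` near `s`,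
so `-ζ'/ζ = 1/(s-1) - riemannZeta₁'/riemannZeta₁`.  `B' = 7 (log y)²` (`‖1/(s-1)‖ ≤ log y` on the line).
-/

open Complex Finset

namespace Pool.Agent.Lib.MP_9c2ea5_nt.An

lemma zeta1_ne (s : ℂ) (hs : 1 < s.re) : s - 1 ≠ 0 ∧ riemannZeta₁ s ≠ 0 := by
  have h1 : s ≠ 1 := by
    rintro rfl
    simp at hs
  have h2 : s - 1 ≠ 0 := sub_ne_zero.mpr h1
  refine ⟨h2, ?_⟩
  intro h0
  have h3 := riemannZeta_ne_zero_of_one_lt_re hs
  apply h3
  rw [riemannZeta_eq_inv_sub_mul h1, h0, mul_zero]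

lemma aOne_LSeries (s : ℂ) (hs : 1 < s.re) :
    -(deriv riemannZeta₁ s / riemannZeta₁ s) = LSeries aOne s - ((1 : ℝ) : ℂ) / (s - 1) := by
  obtain ⟨h2, h3⟩ := zeta1_ne s hs
  have h1 : s ≠ 1 := sub_ne_zero.mp h2
  have h4 : LSeries aOne s = -deriv riemannZeta s / riemannZeta s :=
    ArithmeticFunction.LSeries_vonMangoldt_eq_deriv_riemannZeta_div hs
  rw [h4, deriv_riemannZeta_eq_neg_inv_sub_sq_mul_add h1, riemannZeta_eq_inv_sub_mul h1]
  push_cast
  field_simp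
  ring

theorem riesz_one (l T : ℝ) (hl : 4 ≤ l) (hT : 1 ≤ T) (hm : 2 * T + 5 ≤ Real.exp l) (y : ℝ)
    (hy : 3 ≤ y) :
    ‖riesz aOne y - (((y - 1) ^ 2 / 2 : ℝ) : ℂ)‖ ≤ 10 ^ 21 * l ^ 9 * (Real.log y) ^ 2 * y ^ 2 *
      (1 / T + y ^ (-(1 / (10 ^ 18 * l ^ 9)))) := by
  have hl0 : (0 : ℝ) < l := by linarith
  have hl1 : (1 : ℝ) ≤ l := by linarith
  have hy0 : (0 : ℝ) < y := by linarith
  have hT0 : (0 : ℝ) < T := by linarith
  have hlog1 : 1 ≤ Real.log y := by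
    rw [Real.le_log_iff_exp_le hy0]
    have := Real.exp_one_lt_d9
    linarith
  set η : ℝ := 1 / (10 ^ 18 * l ^ 9) with hηdef
  have hl9 : (1 : ℝ) ≤ l ^ 9 := one_le_pow₀ hl1
  have hη : 0 < η := by positivity
  have hη4 : η ≤ 1 / 4 := by
    rw [hηdef]
    apply one_div_le_one_div_of_le (by norm_num)
    nlinarith
  set X : ℝ := l ^ 9 with hX
  set Y : ℝ := (Real.log y) ^ 2 with hY
  have hX1 : 1 ≤ X := hl9
  have hY1 : 1 ≤ Y := one_le_pow₀ hlog1
  have hlow : ∀ s : ℂ, 1 - η ≤ s.re → s.re ≤ 2 → |s.im| ≤ T →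
      riemannZeta₁ s ≠ 0 ∧ ‖deriv riemannZeta₁ s / riemannZeta₁ s‖ ≤ 10 ^ 19 * l ^ 9 :=
    fun s h1s h2s h3s => zeta1_logDeriv l T hl hT0.le hm s h1s h2s h3s
  have hdiffL : Differentiable ℂ riemannZeta₁ := differentiable_riemannZeta₁
  have hc1 : 1 < 1 + 1 / Real.log y := by
    have : 0 < 1 / Real.log y := by positivity
    linarith
  have hc2 : 1 + 1 / Real.log y ≤ 2 := by
    have : 1 / Real.log y ≤ 1 := by
      rw [div_le_one (by linarith)]
      exact hlog1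
    linarith
  obtain ⟨hsum, hbd⟩ := LSeries_vm_le aOne aOne_norm_le (1 + 1 / Real.log y) hc1 hc2
  have key := perron_bound aOne
    (fun s => -(deriv riemannZeta₁ s / riemannZeta₁ s))
    1 η T (10 ^ 19 * X) (7 * Y) y zero_le_one le_rfl hη hη4 hT hy (by positivity)
    (by positivity) hsum
    (by
      intro s hs
      exact aOne_LSeries s hs)
    (by
      intro s h1s h2s h3s
      have hne := (hlow s h1s h2s h3s).1
      exact ((hdiffL.deriv s).div (hdiffL s) hne).neg)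
    (by
      intro s h1s h2s h3s
      rw [norm_neg]
      exact (hlow s h1s h2s h3s).2)
    (by
      intro t
      have hre : ((((1 + 1 / Real.log y : ℝ)) : ℂ) + t * I).re = 1 + 1 / Real.log y := by
        simp
      have h1s : 1 < ((((1 + 1 / Real.log y : ℝ)) : ℂ) + t * I).re := by
        rw [hre]; exact hc1
      rw [aOne_LSeries _ h1s]
      have hA : ‖LSeries aOne ((((1 + 1 / Real.log y : ℝ)) : ℂ) + t * I)‖ ≤ 6 * Y := by
        refine le_trans (hbd _ hre) (le_of_eq ?_)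
        rw [hY]
        have : Real.log y ≠ 0 := by linarith
        field_simp
        ring
      have hB : ‖((1 : ℝ) : ℂ) / ((((1 + 1 / Real.log y : ℝ)) : ℂ) + t * I - 1)‖ ≤ Y := by
        rw [norm_div]
        have h5 : 1 / Real.log y ≤ ‖(((1 + 1 / Real.log y : ℝ)) : ℂ) + t * I - 1‖ := by
          have h6 := Complex.abs_re_le_norm ((((1 + 1 / Real.log y : ℝ)) : ℂ) + t * I - 1)
          have h7 : ((((1 + 1 / Real.log y : ℝ)) : ℂ) + t * I - 1).re = 1 / Real.log y := by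
            rw [Complex.sub_re, hre]
            simp
          rw [h7] at h6
          exact le_trans (le_abs_self _) h6
        have h8 : ‖((1 : ℝ) : ℂ)‖ = 1 := by simp
        rw [h8]
        calc 1 / ‖(((1 + 1 / Real.log y : ℝ)) : ℂ) + t * I - 1‖ ≤ 1 / (1 / Real.log y) :=
              one_div_le_one_div_of_le (by positivity) h5
          _ = Real.log y := by rw [one_div_one_div]
          _ ≤ Y := by rw [hY]; nlinarith
      calc _ ≤ ‖LSeries aOne ((((1 + 1 / Real.log y : ℝ)) : ℂ) + t * I)‖ +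
            ‖((1 : ℝ) : ℂ) / ((((1 + 1 / Real.log y : ℝ)) : ℂ) + t * I - 1)‖ := norm_sub_le _ _
        _ ≤ 6 * Y + Y := add_le_add hA hB
        _ = 7 * Y := by ring)
  rw [Complex.ofReal_one, one_mul] at key
  refine le_trans key ?_
  have hyη : 0 ≤ y ^ (-η) := Real.rpow_nonneg hy0.le _
  have hT1 : 0 ≤ 1 / T := by positivity
  have hXY : X ≤ X * Y := le_mul_of_one_le_right (by linarith) hY1
  have hYX : Y ≤ X * Y := le_mul_of_one_le_left (by linarith) hX1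
  have hXY0 : 0 ≤ X * Y := by positivity
  have e1 : (10 ^ 19 * X + 7 * Y) / T ≤ (10 ^ 21 / 3 * (X * Y)) * (1 / T) := by
    rw [div_eq_mul_one_div]
    apply mul_le_mul_of_nonneg_right _ hT1
    linarith
  have e2 : 10 ^ 19 * X * y ^ (-η) ≤ (10 ^ 21 / 3 * (X * Y)) * y ^ (-η) := by
    apply mul_le_mul_of_nonneg_right _ hyη
    linarith
  calc 3 * y ^ 2 * ((10 ^ 19 * X + 7 * Y) / T + 10 ^ 19 * X * y ^ (-η))
      ≤ 3 * y ^ 2 * ((10 ^ 21 / 3 * (X * Y)) * (1 / T) + (10 ^ 21 / 3 * (X * Y)) * y ^ (-η)) := by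
        apply mul_le_mul_of_nonneg_left _ (by positivity)
        linarith
    _ = 10 ^ 21 * X * Y * y ^ 2 * (1 / T + y ^ (-η)) := by ring

end Pool.Agent.Lib.MP_9c2ea5_nt.An
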