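import Mathlib
import Pool.Agent.Lib.MP_9c2ea5_nt.ARzC
import Pool.Agent.Lib.MP_9c2ea5_nt.ARzO
import Pool.Agent.Lib.MP_9c2ea5_nt.ADiff

/-!
# Bounds for `ψ(y,χ)` at a good scale (assembly)
-/

open Complex Finset

namespace Pool.Agent.Lib.MP_9c2ea5_nt.An

/-- data at the scale `X` -/
structure Scale (κ X : ℝ) : Prop where
  k1 : 1 ≤ κ
  x100 : 100 ≤ X
  p1 : 1 ≤ Real.log X
  p2 : Real.exp (6 * κ * (Real.log X) ^ 2) * (2 * Real.exp (2001 * κ * (Real.log X) ^ 2) + 5) ≤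
      Real.exp (2010 * κ * (Real.log X) ^ 2)
  p3 : (Real.log X) ^ 28 ≤ X
  p4 : 2001 * κ * (Real.log X) ^ 2 ≤ X
  pm : 64 * 10 ^ 21 * (2010 * κ) ^ 11 * (X ^ 3 / (Real.log X) ^ 6) *
      (Real.exp (-(2001 * κ * (Real.log X) ^ 2)) +
        Real.exp (-((Real.log X) ^ 6 / (2 * 10 ^ 18 * (2010 * κ) ^ 11)))) ≤
      (Real.exp (-(1000 * κ * (Real.log X) ^ 2)) / (60 * X)) ^ 2

namespace Scale

variable {κ X : ℝ}

/-- `l` -/
noncomputable def ll (κ X : ℝ) : ℝ := 2010 * κ * (Real.log X) ^ 2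

/-- `T` -/
noncomputable def TT (κ X : ℝ) : ℝ := Real.exp (2001 * κ * (Real.log X) ^ 2)

/-- `δ` -/
noncomputable def dd (X : ℝ) : ℝ := (Real.log X) ^ 28 / X

/-- `η` -/
noncomputable def ee (κ X : ℝ) : ℝ := dd X / (10 ^ 18 * (ll κ X) ^ 11)

/-- `E` -/
noncomputable def EE (κ X : ℝ) (y : ℕ) : ℝ :=
  4 * 10 ^ 21 * ((ll κ X) ^ 11 / dd X) * (Real.log (2 * y)) ^ 2 *
    (1 / TT κ X + (y : ℝ) ^ (-(ee κ X)))

lemma ll_ge (h : Scale κ X) : 4 ≤ ll κ X := by
  unfold ll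
  have h1 := h.k1
  have h2 := h.p1
  have h3 : 1 ≤ (Real.log X) ^ 2 := one_le_pow₀ h2
  nlinarith

lemma X_pos (h : Scale κ X) : 0 < X := by linarith [h.x100]

lemma dd_pos (h : Scale κ X) : 0 < dd X := by
  unfold dd
  have h2 := h.p1
  have := h.X_pos
  positivity

lemma dd_le (h : Scale κ X) : dd X ≤ 1 := by
  unfold dd
  rw [div_le_one h.X_pos]
  exact h.p3

lemma TT_ge (h : Scale κ X) : 1 ≤ TT κ X := by
  unfold TT
  apply Real.one_le_exp
  have := h.k1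
  positivity

lemma quot_ge (h : Scale κ X) : 1 ≤ (ll κ X) ^ 11 / dd X := by
  rw [le_div_iff₀ h.dd_pos, one_mul]
  exact h.dd_le.trans (one_le_pow₀ (by linarith [h.ll_ge]))

lemma ee_pos (h : Scale κ X) : 0 < ee κ X := by
  unfold ee
  have h1 := h.dd_pos
  have h2 := h.ll_ge
  positivity

lemma y_ge (h : Scale κ X) {y : ℕ} (hy : Real.exp (X / 2) ≤ y) : (50 : ℝ) ≤ y := by
  have h1 := Real.add_one_le_exp (X / 2)
  have h2 := h.x100
  linarith

lemma log2y_ge (h : Scale κ X) {y : ℕ} (hy : Real.exp (X / 2) ≤ y) : 1 ≤ Real.log (2 * y) := by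
  rw [Real.le_log_iff_exp_le (by linarith [h.y_ge hy])]
  have := Real.exp_one_lt_d9
  linarith [h.y_ge hy]

lemma log2y_le (h : Scale κ X) {y : ℕ} (hy : Real.exp (X / 2) ≤ y)
    (hy3 : (y : ℝ) ≤ Real.exp (3 * X)) : Real.log (2 * y) ≤ 4 * X := by
  have h1 : (0 : ℝ) < y := by linarith [h.y_ge hy]
  rw [Real.log_mul (by norm_num) h1.ne']
  have h2 : Real.log y ≤ 3 * X := by
    rw [Real.log_le_iff_le_exp h1]
    exact hy3
  have h3 : Real.log 2 ≤ 1 := by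
    have := Real.log_two_lt_d9
    linarith
  linarith [h.x100]

lemma EE_le (h : Scale κ X) {y : ℕ} (hy : Real.exp (X / 2) ≤ y)
    (hy3 : (y : ℝ) ≤ Real.exp (3 * X)) :
    EE κ X y ≤ (Real.exp (-(1000 * κ * (Real.log X) ^ 2)) / (60 * X)) ^ 2 := by
  refine le_trans ?_ h.pm
  have hX := h.X_pos
  have hL := h.p1
  have hLp : 0 < Real.log X := by linarith
  have hk := h.k1
  have hκ : 0 < κ := by linarith
  have hyp : (0 : ℝ) < y := by linarith [h.y_ge hy]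
  have e1 : (ll κ X) ^ 11 / dd X = (2010 * κ) ^ 11 * (X / (Real.log X) ^ 6) := by
    unfold ll dd
    field_simp
  have e2 : (Real.log (2 * y)) ^ 2 ≤ 16 * X ^ 2 := by
    have h1 := h.log2y_ge hy
    have h2 := h.log2y_le hy hy3
    nlinarith
  have e3 : (y : ℝ) ^ (-(ee κ X)) ≤
      Real.exp (-((Real.log X) ^ 6 / (2 * 10 ^ 18 * (2010 * κ) ^ 11))) := by
    rw [Real.rpow_def_of_pos hyp]
    apply Real.exp_le_exp.mpr
    have h1 : X / 2 ≤ Real.log y := by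
      rw [Real.le_log_iff_exp_le hyp]
      exact hy
    have h2 : (Real.log X) ^ 6 / (2 * 10 ^ 18 * (2010 * κ) ^ 11) = X / 2 * ee κ X := by
      unfold ee ll dd
      field_simp
    rw [h2]
    have h3 := h.ee_pos
    nlinarith
  have e4 : 1 / TT κ X = Real.exp (-(2001 * κ * (Real.log X) ^ 2)) := by
    unfold TT
    rw [Real.exp_neg, one_div]
  unfold EE
  rw [e1, e4]
  have e5 : 64 * 10 ^ 21 * (2010 * κ) ^ 11 * (X ^ 3 / (Real.log X) ^ 6) =
      4 * 10 ^ 21 * ((2010 * κ) ^ 11 * (X / (Real.log X) ^ 6)) * (16 * X ^ 2) := by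
    field_simp
    ring
  rw [e5]
  gcongr

lemma EE_nonneg (h : Scale κ X) {y : ℕ} : 0 ≤ EE κ X y := by
  unfold EE
  have h1 := h.dd_pos
  have h2 := h.ll_ge
  have h3 := h.TT_ge
  positivity

lemma sqrt_EE_le (h : Scale κ X) {y : ℕ} (hy : Real.exp (X / 2) ≤ y)
    (hy3 : (y : ℝ) ≤ Real.exp (3 * X)) :
    Real.sqrt (EE κ X y) ≤ Real.exp (-(1000 * κ * (Real.log X) ^ 2)) / (60 * X) := by
  have hX := h.X_pos
  apply Real.sqrt_le_iff.mpr
  refine ⟨by positivity, h.EE_le hy hy3⟩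

lemma EE_le_one (h : Scale κ X) {y : ℕ} (hy : Real.exp (X / 2) ≤ y)
    (hy3 : (y : ℝ) ≤ Real.exp (3 * X)) : EE κ X y ≤ 1 := by
  refine (h.EE_le hy hy3).trans ?_
  have hX := h.x100
  apply pow_le_one₀ (by have := h.X_pos; positivity)
  rw [div_le_one (by linarith)]
  have : Real.exp (-(1000 * κ * (Real.log X) ^ 2)) ≤ 1 := by
    apply Real.exp_le_one_iff.mpr
    have := h.k1
    have h2 : 0 ≤ (Real.log X) ^ 2 := sq_nonneg _
    nlinarith
  linarith

lemma EE_ge (h : Scale κ X) {y : ℕ} (hy : Real.exp (X / 2) ≤ y) : 1 / (y : ℝ) ^ 2 ≤ EE κ X y := by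
  have hyp : (0 : ℝ) < y := by linarith [h.y_ge hy]
  have h1 : 1 / (y : ℝ) ^ 2 ≤ 1 / TT κ X := by
    apply one_div_le_one_div_of_le (by linarith [h.TT_ge])
    calc TT κ X ≤ Real.exp X := by
          unfold TT
          exact Real.exp_le_exp.mpr h.p4
      _ = (Real.exp (X / 2)) ^ 2 := by
          rw [← Real.exp_nat_mul]
          congr 1
          push_cast
          ring
      _ ≤ (y : ℝ) ^ 2 := by
          apply pow_le_pow_left₀ (Real.exp_pos _).le hy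
  refine h1.trans ?_
  unfold EE
  have h2 := h.quot_ge
  have h3 := h.log2y_ge hy
  have h4 : 1 ≤ 4 * 10 ^ 21 * ((ll κ X) ^ 11 / dd X) * (Real.log (2 * y)) ^ 2 := by
    have h5 : 1 ≤ (Real.log (2 * y)) ^ 2 := one_le_pow₀ h3
    have h6 : 1 ≤ 4 * 10 ^ 21 * ((ll κ X) ^ 11 / dd X) := by nlinarith
    nlinarith
  have h5 : 0 < 1 / TT κ X := by
    have := h.TT_ge
    positivity
  have h6 : 0 ≤ (y : ℝ) ^ (-(ee κ X)) := by positivity
  nlinarith

lemma mT_le (h : Scale κ X) {m : ℕ} (hm : (m : ℝ) ≤ Real.exp (6 * κ * (Real.log X) ^ 2)) :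
    (m : ℝ) * (2 * TT κ X + 5) ≤ Real.exp (ll κ X) := by
  refine le_trans ?_ h.p2
  unfold TT
  gcongr

lemma factor_le (h : Scale κ X) {y : ℕ} (hy : Real.exp (X / 2) ≤ y) {z : ℝ} (hz : (y : ℝ) ≤ z)
    (hz2 : z ≤ 2 * y) (e' : ℝ) (he' : ee κ X ≤ e') (A : ℝ) (hA0 : 0 ≤ A)
    (hA : A ≤ 10 ^ 21 * ((ll κ X) ^ 11 / dd X)) :
    A * (Real.log z) ^ 2 * z ^ 2 * (1 / TT κ X + z ^ (-e')) ≤ EE κ X y * (y : ℝ) ^ 2 := by
  have hyp : (50 : ℝ) ≤ y := h.y_ge hy
  have hzp : 0 < z := by linarith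
  have h1 : (Real.log z) ^ 2 ≤ (Real.log (2 * y)) ^ 2 := by
    apply pow_le_pow_left₀ (Real.log_nonneg (by linarith))
    exact Real.log_le_log hzp hz2
  have h2 : z ^ 2 ≤ 4 * (y : ℝ) ^ 2 := by nlinarith
  have h3 : z ^ (-e') ≤ (y : ℝ) ^ (-(ee κ X)) := by
    calc z ^ (-e') ≤ z ^ (-(ee κ X)) :=
          Real.rpow_le_rpow_of_exponent_le (by linarith) (by linarith)
      _ ≤ (y : ℝ) ^ (-(ee κ X)) :=
          Real.rpow_le_rpow_of_nonpos (by linarith) hz (by linarith [h.ee_pos])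
  have hT := h.TT_ge
  have h4 : 0 ≤ z ^ (-e') := by positivity
  have h5 : 0 ≤ 10 ^ 21 * ((ll κ X) ^ 11 / dd X) := hA0.trans hA
  calc A * (Real.log z) ^ 2 * z ^ 2 * (1 / TT κ X + z ^ (-e'))
      ≤ (10 ^ 21 * ((ll κ X) ^ 11 / dd X)) * (Real.log (2 * y)) ^ 2 * (4 * (y : ℝ) ^ 2) *
        (1 / TT κ X + (y : ℝ) ^ (-(ee κ X))) := by
        gcongr
    _ = EE κ X y * (y : ℝ) ^ 2 := by
        unfold EE
        ring

lemma ee_le1 (h : Scale κ X) : ee κ X ≤ dd X / (10 ^ 11 * (ll κ X) ^ 11) := by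
  unfold ee
  have h1 := h.dd_pos
  have h2 := h.ll_ge
  gcongr
  all_goals norm_num

lemma ee_le2 (h : Scale κ X) : ee κ X ≤ 1 / (10 ^ 18 * (ll κ X) ^ 9) := by
  unfold ee
  have h1 := h.dd_pos
  have h2 := h.ll_ge
  have h3 := h.dd_le
  gcongr
  · linarith
  · norm_num

theorem psiC_le (h : Scale κ X) {m : ℕ} [NeZero m]
    (hm : (m : ℝ) ≤ Real.exp (6 * κ * (Real.log X) ^ 2)) (χ : DirichletCharacter ℂ m)
    (h1 : χ ≠ 1) (hL : χ ^ 2 = 1 → dd X ≤ ‖DirichletCharacter.LFunction χ 1‖)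
    {y : ℕ} (hy : Real.exp (X / 2) ≤ y) (hy3 : (y : ℝ) ≤ Real.exp (3 * X)) :
    ‖psiC χ y‖ ≤ y * Real.exp (-(1000 * κ * (Real.log X) ^ 2)) / 3 := by
  have hyp : (50 : ℝ) ≤ y := h.y_ge hy
  have hX := h.X_pos
  have hd := diff_bound (aChi χ) (aChi_norm_le χ) 0 (EE κ X y) le_rfl zero_le_one y
    (by
      have : (3 : ℝ) ≤ y := by linarith
      exact_mod_cast this) (h.EE_ge hy) (h.EE_le_one hy hy3) (by
      intro z hz hz2
      rw [Complex.ofReal_zero, zero_mul, sub_zero]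
      refine (riesz_chi χ h1 (ll κ X) (TT κ X) (dd X) h.dd_pos h.dd_le hL h.ll_ge h.TT_ge
        (h.mT_le hm) z (by linarith)).trans ?_
      apply h.factor_le hy hz hz2 _ h.ee_le1
      · have := h.quot_ge
        positivity
      · have := h.quot_ge
        nlinarith)
  rw [Complex.ofReal_zero, zero_mul, sub_zero] at hd
  refine hd.trans ?_
  have e1 := h.sqrt_EE_le hy hy3
  have e2 := h.log2y_le hy hy3
  have e3 := h.log2y_ge hy
  calc 5 * (y : ℝ) * Real.sqrt (EE κ X y) * Real.log (2 * y)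
      ≤ 5 * (y : ℝ) * (Real.exp (-(1000 * κ * (Real.log X) ^ 2)) / (60 * X)) * (4 * X) := by
        gcongr
    _ = y * Real.exp (-(1000 * κ * (Real.log X) ^ 2)) / 3 := by
        field_simp
        ring

theorem psi_le (h : Scale κ X) {y : ℕ} (hy : Real.exp (X / 2) ≤ y)
    (hy3 : (y : ℝ) ≤ Real.exp (3 * X)) :
    ‖∑ n ∈ Finset.Ioc 0 y, aOne n - (y : ℂ)‖ ≤
      y * Real.exp (-(1000 * κ * (Real.log X) ^ 2)) / 3 := by
  have hyp : (50 : ℝ) ≤ y := h.y_ge hy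
  have hX := h.X_pos
  have hd := diff_bound aOne aOne_norm_le 1 (EE κ X y) zero_le_one le_rfl y
    (by
      have : (3 : ℝ) ≤ y := by linarith
      exact_mod_cast this) (h.EE_ge hy) (h.EE_le_one hy hy3) (by
      intro z hz hz2
      rw [Complex.ofReal_one, one_mul]
      have hm1 : 2 * TT κ X + 5 ≤ Real.exp (ll κ X) := by
        have := h.mT_le (m := 1) (by
          push_cast
          apply Real.one_le_exp
          have := h.k1
          positivity)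
        simpa using this
      refine (riesz_one (ll κ X) (TT κ X) h.ll_ge h.TT_ge hm1 z (by linarith)).trans ?_
      apply h.factor_le hy hz hz2 _ h.ee_le2
      · have := h.ll_ge
        positivity
      · have h1 := h.ll_ge
        have h2 := h.dd_le
        have h3 := h.dd_pos
        have h4 : (ll κ X) ^ 9 ≤ (ll κ X) ^ 11 / dd X := by
          rw [le_div_iff₀ h3]
          calc (ll κ X) ^ 9 * dd X ≤ (ll κ X) ^ 9 * 1 := by gcongr
            _ ≤ (ll κ X) ^ 11 := by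
                rw [mul_one]
                exact pow_le_pow_right₀ (by linarith) (by norm_num)
        gcongr)
  rw [Complex.ofReal_one, one_mul] at hd
  refine hd.trans ?_
  have e1 := h.sqrt_EE_le hy hy3
  have e2 := h.log2y_le hy hy3
  have e3 := h.log2y_ge hy
  calc 5 * (y : ℝ) * Real.sqrt (EE κ X y) * Real.log (2 * y)
      ≤ 5 * (y : ℝ) * (Real.exp (-(1000 * κ * (Real.log X) ^ 2)) / (60 * X)) * (4 * X) := by
        gcongr
    _ = y * Real.exp (-(1000 * κ * (Real.log X) ^ 2)) / 3 := by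
        field_simp
        ring

end Scale

end Pool.Agent.Lib.MP_9c2ea5_nt.An
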