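import Mathlib
import Pool.Agent.Lib.MP_9c2ea5_nt.ABase

/-!
# JOB AOrth: orthogonality of characters

PROOF: by `DirichletCharacter.sum_char_inv_mul_char_eq` (or as in `ArithmeticFunction.vonMangoldt.residueClass_apply`), for `c` a unit
mod `m`: `∑_χ χ(c⁻¹) χ(n) = φ(m)` if `n ≡ c (mod m)` and `0` otherwise, so
`∑_{n ≤ y, n ≡ c} Λ(n) = (1/φ(m)) ∑_χ χ(c⁻¹) psiC χ y` and
`∑_{n ≡ c} Λ(n) - y/φ(m) = (1/φ(m)) (∑_{χ≠1} χ(c⁻¹) psiC χ y + (psiC 1 y - y))`.  There are `φ(m)` characters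
(`DirichletCharacter.card_eq_totient_of_hasEnoughRootsOfUnity` or similar), each summand has norm at most `E`.
-/

open Complex Finset

namespace Pool.Agent.Lib.MP_9c2ea5_nt.An

theorem orth {m : ℕ} [NeZero m] (c y : ℕ) (hc : Nat.Coprime c m) (E : ℝ)
    (h1 : ∀ χ : DirichletCharacter ℂ m, χ ≠ 1 → ‖psiC χ y‖ ≤ E)
    (h2 : ‖psiC (1 : DirichletCharacter ℂ m) y - (y : ℂ)‖ ≤ E) :
    |∑ n ∈ (Finset.Ioc 0 y).filter (fun n => n ≡ c [MOD m]), ArithmeticFunction.vonMangoldt n -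
      (y : ℝ) / (Nat.totient m : ℝ)| ≤ E := by
  classical
  have hunit : IsUnit (c : ZMod m) := (ZMod.isUnit_iff_coprime c m).2 hc
  have hφ0 : 0 < Nat.totient m := Nat.totient_pos.2 (NeZero.pos m)
  have hφ : (0 : ℝ) < (Nat.totient m : ℝ) := by exact_mod_cast hφ0
  have hφC : ((Nat.totient m : ℕ) : ℂ) ≠ 0 := by exact_mod_cast hφ0.ne'
  set F : DirichletCharacter ℂ m → ℂ := fun χ =>
    χ (c : ZMod m)⁻¹ * (psiC χ y - if χ = 1 then (y : ℂ) else 0) with hF
  have hFle : ∀ χ, ‖F χ‖ ≤ E := by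
    intro χ
    simp only [hF]
    rw [norm_mul]
    have h3 : ‖psiC χ y - if χ = 1 then (y : ℂ) else 0‖ ≤ E := by
      split_ifs with h
      · rw [h]; exact h2
      · rw [sub_zero]; exact h1 χ h
    calc ‖χ (c : ZMod m)⁻¹‖ * ‖psiC χ y - if χ = 1 then (y : ℂ) else 0‖ ≤ 1 * E :=
          mul_le_mul (χ.norm_le_one _) h3 (norm_nonneg _) zero_le_one
      _ = E := one_mul E
  have hsumψ : ∑ χ : DirichletCharacter ℂ m, χ (c : ZMod m)⁻¹ * psiC χ y =
      (Nat.totient m : ℂ) * ∑ n ∈ (Finset.Ioc 0 y).filter (fun n => n ≡ c [MOD m]),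
        (ArithmeticFunction.vonMangoldt n : ℂ) := by
    unfold psiC aChi
    simp_rw [Finset.mul_sum]
    rw [Finset.sum_comm, Finset.sum_filter]
    refine Finset.sum_congr rfl fun n _ => ?_
    have e := DirichletCharacter.sum_char_inv_mul_char_eq ℂ hunit (n : ZMod m)
    have e2 : ∑ χ : DirichletCharacter ℂ m, χ (c : ZMod m)⁻¹ *
        (χ (n : ZMod m) * (ArithmeticFunction.vonMangoldt n : ℂ)) =
        (∑ χ : DirichletCharacter ℂ m, χ (c : ZMod m)⁻¹ * χ (n : ZMod m)) *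
          (ArithmeticFunction.vonMangoldt n : ℂ) := by
      rw [Finset.sum_mul]
      exact Finset.sum_congr rfl fun χ _ => by ring
    rw [e2, e]
    by_cases hn : n ≡ c [MOD m]
    · rw [if_pos hn, if_pos ((ZMod.natCast_eq_natCast_iff c n m).2 hn.symm)]
    · rw [if_neg hn, if_neg (fun h => hn ((ZMod.natCast_eq_natCast_iff c n m).1 h).symm), zero_mul]
  have hone : ∑ χ : DirichletCharacter ℂ m, χ (c : ZMod m)⁻¹ * (if χ = 1 then (y : ℂ) else 0) =
      y := by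
    rw [Finset.sum_eq_single (1 : DirichletCharacter ℂ m)]
    · have hinv : IsUnit ((c : ZMod m)⁻¹) := by
        have h3 : (c : ZMod m)⁻¹ * (c : ZMod m) = 1 := ZMod.inv_mul_of_unit _ hunit
        exact IsUnit.of_mul_eq_one _ h3
      rw [if_pos rfl, MulChar.one_apply hinv, one_mul]
    · intro χ _ hne
      rw [if_neg hne, mul_zero]
    · intro h
      exact absurd (Finset.mem_univ _) h
  have hFsum : ∑ χ, F χ = (Nat.totient m : ℂ) *
      ((∑ n ∈ (Finset.Ioc 0 y).filter (fun n => n ≡ c [MOD m]),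
        (ArithmeticFunction.vonMangoldt n : ℂ)) - (y : ℂ) / (Nat.totient m : ℂ)) := by
    simp only [hF, mul_sub, Finset.sum_sub_distrib]
    rw [hsumψ, hone]
    field_simp
  have hcard : Fintype.card (DirichletCharacter ℂ m) = Nat.totient m := by
    rw [← Nat.card_eq_fintype_card]
    exact DirichletCharacter.card_eq_totient_of_hasEnoughRootsOfUnity ℂ m
  have hnorm : ‖∑ χ, F χ‖ ≤ (Nat.totient m : ℝ) * E := by
    calc ‖∑ χ, F χ‖ ≤ ∑ χ : DirichletCharacter ℂ m, ‖F χ‖ := norm_sum_le _ _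
      _ ≤ ∑ _χ : DirichletCharacter ℂ m, E := Finset.sum_le_sum fun χ _ => hFle χ
      _ = (Nat.totient m : ℝ) * E := by
          rw [Finset.sum_const, nsmul_eq_mul, Finset.card_univ, hcard]
  rw [hFsum, norm_mul, Complex.norm_natCast] at hnorm
  have h5 := le_of_mul_le_mul_left hnorm hφ
  have h6 : (∑ n ∈ (Finset.Ioc 0 y).filter (fun n => n ≡ c [MOD m]),
        (ArithmeticFunction.vonMangoldt n : ℂ)) - (y : ℂ) / (Nat.totient m : ℂ) =
      ((∑ n ∈ (Finset.Ioc 0 y).filter (fun n => n ≡ c [MOD m]), ArithmeticFunction.vonMangoldt n -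
      (y : ℝ) / (Nat.totient m : ℝ) : ℝ) : ℂ) := by
    push_cast
    rfl
  rw [h6, Complex.norm_real, Real.norm_eq_abs] at h5
  exact h5

end Pool.Agent.Lib.MP_9c2ea5_nt.An
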