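import Mathlib

/-!
# JOB AParM: the main inequality between the parameters, for large `X` (`L = log X`)

PROOF (eventually as `X → ∞`; substitute `X = e^L`, `L → ∞`).  The left-hand side is
`64·10^21·(2010κ)^11·e^(3L)/L^6·(exp(-2001κL²) + exp(-L^6/(2·10^18 (2010κ)^11)))`.  For `L` large
`L^6/(2·10^18(2010κ)^11) ≥ 2001κL²` (i.e. `L^4 ≥ 4002·10^18 κ (2010κ)^11`) and `L ≥ 1`, so it is at most `C e^(3L) exp(-2001κL²)` with
`C = 128·10^21 (2010κ)^11`; the right-hand side is `exp(-2000κL²)/(3600 e^(2L))`; so it suffices that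
`κ L² ≥ 5L + log(3600 C)`, true for large `L` (`κ ≥ 1`).
-/

open Finset Filter

namespace Pool.Agent.Lib.MP_9c2ea5_nt.An

theorem par_main (κ : ℝ) (hκ : 1 ≤ κ) : ∀ᶠ X : ℝ in atTop,
    64 * 10 ^ 21 * (2010 * κ) ^ 11 * (X ^ 3 / (Real.log X) ^ 6) *
      (Real.exp (-(2001 * κ * (Real.log X) ^ 2)) +
        Real.exp (-((Real.log X) ^ 6 / (2 * 10 ^ 18 * (2010 * κ) ^ 11)))) ≤
      (Real.exp (-(1000 * κ * (Real.log X) ^ 2)) / (60 * X)) ^ 2 := by
  set A : ℝ := 64 * 10 ^ 21 * (2010 * κ) ^ 11 with hA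
  have hκ0 : 0 < κ := by linarith
  have hA0 : 0 < A := by positivity
  set E : ℝ := 2 * 10 ^ 18 * (2010 * κ) ^ 11 with hE
  have hE0 : 0 < E := by positivity
  have ev := Real.tendsto_log_atTop.eventually_ge_atTop
    (1 + 2001 * κ * E + (5 + |Real.log (7200 * A)|))
  filter_upwards [ev, Filter.eventually_gt_atTop 0] with X hX hX0
  clear_value A E
  obtain ⟨L, hL⟩ : ∃ L, L = Real.log X := ⟨_, rfl⟩
  rw [← hL] at hX ⊢
  have hXe : X = Real.exp L := by rw [hL, Real.exp_log hX0]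
  have hκE : 0 ≤ 2001 * κ * E := by positivity
  have habs := abs_nonneg (Real.log (7200 * A))
  have hL1 : 1 ≤ L := by linarith
  have hL0 : 0 < L := by linarith
  have h1 : 2001 * κ * L ^ 2 ≤ L ^ 6 / E := by
    rw [le_div_iff₀ hE0]
    have h : 2001 * κ * E ≤ L ^ 4 := by
      calc 2001 * κ * E ≤ L := by linarith
        _ = L ^ 1 := (pow_one L).symm
        _ ≤ L ^ 4 := pow_le_pow_right₀ hL1 (by norm_num)
    calc 2001 * κ * L ^ 2 * E = (2001 * κ * E) * L ^ 2 := by ring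
      _ ≤ L ^ 4 * L ^ 2 := by gcongr
      _ = L ^ 6 := by ring
  have h2 : Real.exp (-(L ^ 6 / E)) ≤ Real.exp (-(2001 * κ * L ^ 2)) :=
    Real.exp_le_exp.2 (by linarith)
  have h3 : Real.log (7200 * A) + 5 * L ≤ κ * L ^ 2 := by
    have h4 := le_abs_self (Real.log (7200 * A))
    have h5 : (5 + |Real.log (7200 * A)|) * L ≤ L * L :=
      mul_le_mul_of_nonneg_right (by linarith) hL0.le
    have h6 : L * L ≤ κ * L ^ 2 := by nlinarith
    have h7 : |Real.log (7200 * A)| * 1 ≤ |Real.log (7200 * A)| * L :=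
      mul_le_mul_of_nonneg_left hL1 habs
    nlinarith
  have h8 : 7200 * A * Real.exp (5 * L) ≤ Real.exp (κ * L ^ 2) := by
    calc 7200 * A * Real.exp (5 * L) = Real.exp (Real.log (7200 * A) + 5 * L) := by
          rw [Real.exp_add, Real.exp_log (by positivity)]
      _ ≤ Real.exp (κ * L ^ 2) := Real.exp_le_exp.2 h3
  have h9 : 0 ≤ X ^ 3 := by positivity
  have h10 : X ^ 3 / L ^ 6 ≤ X ^ 3 := div_le_self h9 (one_le_pow₀ hL1)
  calc A * (X ^ 3 / L ^ 6) * (Real.exp (-(2001 * κ * L ^ 2)) + Real.exp (-(L ^ 6 / E)))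
      ≤ A * X ^ 3 * (2 * Real.exp (-(2001 * κ * L ^ 2))) := by
        have h11 : Real.exp (-(2001 * κ * L ^ 2)) + Real.exp (-(L ^ 6 / E)) ≤
            2 * Real.exp (-(2001 * κ * L ^ 2)) := by linarith
        gcongr
    _ ≤ (Real.exp (-(1000 * κ * L ^ 2)) / (60 * X)) ^ 2 := by
        rw [div_pow, le_div_iff₀ (by positivity)]
        have h12 : Real.exp (-(1000 * κ * L ^ 2)) ^ 2 =
            Real.exp (-(2001 * κ * L ^ 2)) * Real.exp (κ * L ^ 2) := by
          rw [← Real.exp_nat_mul, ← Real.exp_add]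
          congr 1
          push_cast
          ring
        have h13 : X ^ 3 * X ^ 2 = Real.exp (5 * L) := by
          rw [hXe, ← pow_add, ← Real.exp_nat_mul]
          norm_num
        rw [h12]
        calc A * X ^ 3 * (2 * Real.exp (-(2001 * κ * L ^ 2))) * (60 * X) ^ 2
            = Real.exp (-(2001 * κ * L ^ 2)) * (7200 * A * (X ^ 3 * X ^ 2)) := by ring
          _ ≤ Real.exp (-(2001 * κ * L ^ 2)) * Real.exp (κ * L ^ 2) := by
            rw [h13]
            exact mul_le_mul_of_nonneg_left h8 (Real.exp_pos _).le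

end Pool.Agent.Lib.MP_9c2ea5_nt.An
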