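import Mathlib

/-!
# JOB AParR: the other inequalities between the parameters, for large `X` (`L = log X`)

PROOF: combine eight eventual statements with `Filter.Eventually.and`.
Second: holds as soon as `L ≥ 1`: `exp(6κL²)(2 exp(2001κL²) + 5) ≤ 7 exp(2007κL²) ≤ exp(2010κL²)` since `7 ≤ e^2 ≤ e^(3κL²)`.
Third: `(log X)^28 = o(X)` (`Real.isLittleO_pow_log_id_atTop`).  The others: all exponents are of the form `C L²`, and
`C L² + L + C' ≤ X/4` for large `X` (as `L² = o(X)`, `L = o(X)`), `X = exp L` for `X > 0`.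
-/

open Finset Filter

namespace Pool.Agent.Lib.MP_9c2ea5_nt.An

theorem par_rest (κ : ℝ) (hκ : 1 ≤ κ) : ∀ᶠ X : ℝ in atTop,
    1 ≤ Real.log X ∧
    Real.exp (6 * κ * (Real.log X) ^ 2) * (2 * Real.exp (2001 * κ * (Real.log X) ^ 2) + 5) ≤
      Real.exp (2010 * κ * (Real.log X) ^ 2) ∧
    (Real.log X) ^ 28 ≤ X ∧
    2001 * κ * (Real.log X) ^ 2 ≤ X ∧
    9 * X * Real.exp (6 * κ * (Real.log X) ^ 2) * Real.exp (1000 * κ * (Real.log X) ^ 2) ≤
      Real.exp (X / 2) ∧
    18 * X * Real.exp (1000 * κ * (Real.log X) ^ 2) ≤ Real.exp (X / 4) ∧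
    X * Real.exp (1000 * κ * (Real.log X) ^ 2) * Real.exp (X / 2) ≤ Real.exp X / 2 ∧
    Real.exp (4000 * κ * (Real.log X) ^ 2) ≤ Real.exp X / 2 ∧
    100 ≤ X := by
  have e1 : ∀ᶠ X : ℝ in atTop, 10 ≤ Real.log X := Real.tendsto_log_atTop.eventually_ge_atTop 10
  have e2 : ∀ᶠ X : ℝ in atTop, (Real.log X) ^ 28 ≤ X := by
    have h := (Real.isLittleO_pow_log_id_atTop (n := 28)).bound (show (0 : ℝ) < 1 by norm_num)
    filter_upwards [h, eventually_ge_atTop (1 : ℝ)] with X hX hX1
    have h1 : (0 : ℝ) ≤ X := by linarith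
    have h2 := le_trans (le_abs_self _) hX
    simpa [abs_of_nonneg h1] using h2
  have e3 : ∀ᶠ X : ℝ in atTop, 400000 * (κ * (Real.log X) ^ 2) ≤ X := by
    have h := (Real.isLittleO_pow_log_id_atTop (n := 2)).bound
      (show (0 : ℝ) < 1 / (400000 * κ) by positivity)
    filter_upwards [h, eventually_ge_atTop (1 : ℝ)] with X hX hX1
    have h1 : (0 : ℝ) ≤ X := by linarith
    have h2 := le_trans (le_abs_self _) hX
    simp only [id, Real.norm_eq_abs, abs_of_nonneg h1] at h2
    have hk : (0 : ℝ) < 400000 * κ := by positivity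
    rw [div_mul_eq_mul_div, one_mul, le_div_iff₀ hk] at h2
    linarith
  filter_upwards [e1, e2, e3, eventually_ge_atTop (100 : ℝ)] with X h1 h2 h3 h4
  have hX0 : (0 : ℝ) < X := by linarith
  set L := Real.log X with hL
  have ha1 : 100 ≤ κ * L ^ 2 := by nlinarith [sq_nonneg L]
  have ha2 : L ≤ κ * L ^ 2 := by nlinarith [sq_nonneg L]
  set a := κ * L ^ 2 with ha
  have hXa : X ≤ Real.exp a := by
    rw [← Real.exp_log hX0]
    exact Real.exp_le_exp.mpr ha2
  have h9 : (18 : ℝ) ≤ Real.exp a := by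
    have := Real.add_one_le_exp a
    linarith
  have r1 : ∀ c : ℝ, c * κ * L ^ 2 = c * a := by intro c; rw [ha]; ring
  have ea : 0 < Real.exp a := Real.exp_pos a
  refine ⟨by linarith, ?_, h2, ?_, ?_, ?_, ?_, ?_, h4⟩
  · rw [r1, r1, r1]
    have h5 : (1 : ℝ) ≤ Real.exp (2001 * a) := Real.one_le_exp (by linarith)
    have h7 : (7 : ℝ) ≤ Real.exp (3 * a) := by
      have := Real.add_one_le_exp (3 * a)
      linarith
    calc Real.exp (6 * a) * (2 * Real.exp (2001 * a) + 5)
        ≤ Real.exp (6 * a) * (7 * Real.exp (2001 * a)) := by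
          apply mul_le_mul_of_nonneg_left _ (Real.exp_pos _).le
          linarith
      _ ≤ Real.exp (6 * a) * (Real.exp (3 * a) * Real.exp (2001 * a)) := by
          apply mul_le_mul_of_nonneg_left _ (Real.exp_pos _).le
          exact mul_le_mul_of_nonneg_right h7 (Real.exp_pos _).le
      _ = Real.exp (2010 * a) := by
          rw [← Real.exp_add, ← Real.exp_add]
          congr 1
          ring
  · rw [r1]; linarith
  · rw [r1, r1]
    calc 9 * X * Real.exp (6 * a) * Real.exp (1000 * a)
        ≤ Real.exp a * Real.exp a * Real.exp (6 * a) * Real.exp (1000 * a) := by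
          gcongr
          linarith
      _ = Real.exp (1008 * a) := by
          rw [← Real.exp_add, ← Real.exp_add, ← Real.exp_add]
          congr 1
          ring
      _ ≤ Real.exp (X / 2) := Real.exp_le_exp.mpr (by linarith)
  · rw [r1]
    calc 18 * X * Real.exp (1000 * a) ≤ Real.exp a * Real.exp a * Real.exp (1000 * a) := by
          gcongr
      _ = Real.exp (1002 * a) := by
          rw [← Real.exp_add, ← Real.exp_add]
          congr 1
          ring
      _ ≤ Real.exp (X / 4) := Real.exp_le_exp.mpr (by linarith)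
  · rw [r1]
    rw [le_div_iff₀ (by norm_num : (0 : ℝ) < 2)]
    calc X * Real.exp (1000 * a) * Real.exp (X / 2) * 2
        ≤ Real.exp a * Real.exp (1000 * a) * Real.exp (X / 2) * Real.exp a := by
          gcongr
          linarith
      _ = Real.exp (1002 * a + X / 2) := by
          rw [← Real.exp_add, ← Real.exp_add, ← Real.exp_add]
          congr 1
          ring
      _ ≤ Real.exp X := Real.exp_le_exp.mpr (by linarith)
  · rw [r1]
    rw [le_div_iff₀ (by norm_num : (0 : ℝ) < 2)]
    calc Real.exp (4000 * a) * 2 ≤ Real.exp (4000 * a) * Real.exp a := by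
          gcongr
          linarith
      _ = Real.exp (4001 * a) := by
          rw [← Real.exp_add]
          congr 1
          ring
      _ ≤ Real.exp X := Real.exp_le_exp.mpr (by linarith)

end Pool.Agent.Lib.MP_9c2ea5_nt.An
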