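import Mathlib

/-!
# Sums and products in the shifted primes: definitions

`q = W² D u v + 1`, `x = W d u`, `y = W (D/d) v` for a divisor `d` of `D`:
`x y + 1 = q` does not depend on `d`, and `x + y + 1 = p_d = W (d u + (D/d) v) + 1`.
-/

open Finset

namespace Pool.Agent.Lib.MP_9c2ea5_nt

lemma exists_W0 : ∃ w : ℕ, 0 < w ∧ Squarefree w ∧ ∀ p : ℕ, p.Prime → p ≤ 10000 → p ∣ w := by
  refine ⟨∏ p ∈ (Finset.range 10001).filter Nat.Prime, p,
    Finset.prod_pos fun p hp => (Finset.mem_filter.mp hp).2.pos, ?_, ?_⟩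
  · apply Finset.squarefree_prod_of_pairwise_isCoprime
    · intro p hp q hq hne
      simp only [Finset.coe_filter, Set.mem_ofPred_eq] at hp hq
      have := (Nat.coprime_primes hp.2 hq.2).2 hne
      simpa [Function.onFun] using (Nat.coprime_iff_isRelPrime.mp this)
    · intro p hp
      exact (Finset.mem_filter.mp hp).2.squarefree
  · intro p hp h
    exact Finset.dvd_prod_of_mem _
      (Finset.mem_filter.mpr ⟨Finset.mem_range.mpr (by omega), hp⟩)

/-- a squarefree number divisible by all primes up to `10^4` -/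
noncomputable def W0 : ℕ := Classical.choose exists_W0

/-- `log n` for primes `n`, zero otherwise -/
noncomputable def thN (n : ℕ) : ℝ := if n.Prime then Real.log n else 0

/-- `log n` for primes `n`, zero otherwise (integer argument) -/
noncomputable def th (n : ℤ) : ℝ := thN n.toNat

/-- `h(r,n) = μ(gcd(r,n)) / φ(r / gcd(r,n))` -/
noncomputable def hh (r : ℕ) (n : ℤ) : ℝ :=
  ((ArithmeticFunction.moebius (Int.gcd r n) : ℤ) : ℝ) / (Nat.totient (r / Int.gcd r n) : ℝ)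

/-- the squarefree numbers `r ≤ Q` prime to `W` -/
def RR (W Q : ℕ) : Finset ℕ := (Icc 1 Q).filter (fun r => Squarefree r ∧ Nat.Coprime r W)

/-- the model of the primes -/
noncomputable def lam (W Q : ℕ) (n : ℤ) : ℝ :=
  ((W : ℝ) / (Nat.totient W : ℝ)) * ∑ r ∈ RR W Q, hh r n

/-- `W = W0 D` -/
noncomputable def WW (D : ℕ) : ℕ := W0 * D

/-- `U = N D^300` -/
def UU (D N : ℕ) : ℕ := N * D ^ 300

/-- `Z = W² D U N` -/
noncomputable def ZZ (D N : ℕ) : ℕ := (WW D) ^ 2 * D * UU D N * N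

/-- the model used for `D` -/
noncomputable def lamD (D : ℕ) (n : ℤ) : ℝ := lam (WW D) (D ^ 2) n

/-- `f = θ - λ` -/
noncomputable def ff (D : ℕ) (n : ℤ) : ℝ := th n - lamD D n

/-- `p_d(u,v) = W (d u + (D/d) v) + 1` -/
noncomputable def pd (D d u v : ℕ) : ℤ := ((WW D * (d * u + (D / d) * v) + 1 : ℕ) : ℤ)

/-- `q(u,v) = W² D u v + 1` -/
noncomputable def qq (D u v : ℕ) : ℕ := (WW D) ^ 2 * D * u * v + 1

/-- the primes in `(N, 2N]` -/
def VV (N : ℕ) : Finset ℕ := (Ioc N (2 * N)).filter Nat.Prime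

/-- the box of all `(u,v)` -/
def box (D N : ℕ) : Finset (ℕ × ℕ) := Icc 1 (4 * UU D N) ×ˢ Ioc N (2 * N)

/-- the `u` with `2Z < q(u,v) ≤ 4Z` -/
noncomputable def QQ (D N v : ℕ) : Finset ℕ :=
  (Icc 1 (4 * UU D N)).filter (fun u => 2 * ZZ D N < qq D u v ∧ qq D u v ≤ 4 * ZZ D N)

/-- the sum of the model over prime values of `q` -/
noncomputable def Md (D N d : ℕ) : ℝ :=
  ∑ v ∈ VV N, ∑ u ∈ QQ D N v, thN (qq D u v) * lamD D (pd D d u v)

/-- equidistribution of the primes in residue classes to moduli `≤ D^6` -/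
def EQ (D N : ℕ) : Prop := ∀ m c y : ℕ, 0 < m → m ≤ D ^ 6 → Nat.Coprime c m → y ≤ N ^ 3 →
  |∑ n ∈ (Ioc 0 y).filter (fun n => n ≡ c [MOD m]), thN n - (y : ℝ) / (Nat.totient m : ℝ)| ≤
    ((y : ℝ) + N) / (D : ℝ) ^ 1000

/-- the hypotheses on `D` and `N` -/
structure Hyp (D N : ℕ) : Prop where
  big : W0 ^ 100 * 10 ^ 100 ≤ D
  sqf : Squarefree D
  cop : Nat.Coprime D W0
  tau : Real.log N ^ 40 ≤ (D.divisors.card : ℝ)
  size : D ^ 4000 ≤ N
  eq : EQ D N

lemma W0_pos : 0 < W0 := (Classical.choose_spec exists_W0).1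

lemma prime_dvd_W0 {p : ℕ} (hp : p.Prime) (h : p ≤ 10000) : p ∣ W0 :=
  (Classical.choose_spec exists_W0).2.2 p hp h

lemma W0_squarefree : Squarefree W0 := (Classical.choose_spec exists_W0).2.1

lemma prime_gt_of_coprime_W0 {r p : ℕ} (h : Nat.Coprime r W0) (hp : p.Prime) (hpr : p ∣ r) :
    10000 < p := by
  by_contra hle
  have h1 := prime_dvd_W0 hp (by omega)
  have h2 := Nat.dvd_gcd hpr h1
  rw [h] at h2
  exact hp.one_lt.ne' (Nat.dvd_one.mp h2)

end Pool.Agent.Lib.MP_9c2ea5_nt
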