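import Mathlib
import Pool.Agent.Lib.MP_9c2ea5_nt.Defs
import Pool.Agent.Lib.MP_9c2ea5_nt.ABase

/-!
# JOB ATh: prime powers and the principal character

PROOF of `theta_of_psi`: `Λ(n) - thN(n) ≥ 0` for all `n` (`thN n = log n = Λ(n)` for primes, `thN n = 0` otherwise), so the
difference over the filter is at most the difference over all of `Ioc 0 y`, which is `ψ(y) - θ(y) ≤ 2 √y log y`
(Mathlib `Chebyshev.psi_sub_theta_le`, for `y ≥ 1`; `Chebyshev.psi`, `Chebyshev.theta` are these sums over `Ioc 0 ⌊y⌋₊`).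

PROOF of `psi_triv`: `psiC 1 y - ∑_{n ≤ y} Λ(n) = -∑_{n ≤ y, gcd(n,m) > 1} Λ(n)`.  `Λ(n) ≠ 0` and `gcd(n,m) > 1` imply `n = p^k` with
`p | m`, `1 ≤ k`, `p^k ≤ y`; for every `p | m` there are at most `log y/log p` such `k`, each contributing `log p`; total at most
`ω(m) log y ≤ m log y`.
-/

open Complex Finset

namespace Pool.Agent.Lib.MP_9c2ea5_nt.An

theorem ATh_thN_le (n : ℕ) : thN n ≤ ArithmeticFunction.vonMangoldt n := by
  rw [thN]
  by_cases h : n.Prime
  · rw [if_pos h, ArithmeticFunction.vonMangoldt_apply_prime h]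
  · rw [if_neg h]
    exact ArithmeticFunction.vonMangoldt_nonneg

theorem theta_of_psi (m c y : ℕ) (hy : 1 ≤ y) :
    |∑ n ∈ (Finset.Ioc 0 y).filter (fun n => n ≡ c [MOD m]), thN n -
      ∑ n ∈ (Finset.Ioc 0 y).filter (fun n => n ≡ c [MOD m]), ArithmeticFunction.vonMangoldt n| ≤
      2 * Real.sqrt y * Real.log y := by
  rw [← Finset.sum_sub_distrib, ← abs_neg, ← Finset.sum_neg_distrib]
  have h1 : ∀ n : ℕ, 0 ≤ -(thN n - ArithmeticFunction.vonMangoldt n) := by
    intro n
    have := ATh_thN_le n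
    linarith
  rw [abs_of_nonneg (Finset.sum_nonneg fun n _ => h1 n)]
  have h2 : ∑ n ∈ (Finset.Ioc 0 y).filter (fun n => n ≡ c [MOD m]),
      -(thN n - ArithmeticFunction.vonMangoldt n) ≤
      ∑ n ∈ Finset.Ioc 0 y, -(thN n - ArithmeticFunction.vonMangoldt n) :=
    Finset.sum_le_sum_of_subset_of_nonneg (Finset.filter_subset _ _) fun n _ _ => h1 n
  refine h2.trans ?_
  have h3 : ∑ n ∈ Finset.Ioc 0 y, -(thN n - ArithmeticFunction.vonMangoldt n) =
      Chebyshev.psi (y : ℝ) - Chebyshev.theta (y : ℝ) := by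
    rw [Chebyshev.psi, Chebyshev.theta, Nat.floor_natCast, Finset.sum_filter,
      ← Finset.sum_sub_distrib]
    refine Finset.sum_congr rfl fun n _ => ?_
    rw [thN]
    ring
  rw [h3]
  exact Chebyshev.psi_sub_theta_le (by exact_mod_cast hy)

theorem psi_triv {m : ℕ} [NeZero m] (y : ℕ) (hy : 1 ≤ y) :
    ‖psiC (1 : DirichletCharacter ℂ m) y - ∑ n ∈ Finset.Ioc 0 y, aOne n‖ ≤ m * Real.log y := by
  classical
  have hm : m ≠ 0 := NeZero.ne m
  -- the terms
  have h1 : ∀ n : ℕ, ‖aChi (1 : DirichletCharacter ℂ m) n - aOne n‖ ≤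
      if Nat.Coprime n m then 0 else ArithmeticFunction.vonMangoldt n := by
    intro n
    rw [aChi, aOne]
    by_cases h : Nat.Coprime n m
    · rw [if_pos h, MulChar.one_apply ((ZMod.isUnit_iff_coprime n m).2 h), one_mul, sub_self,
        norm_zero]
    · rw [if_neg h, MulChar.map_nonunit _ (fun h' => h ((ZMod.isUnit_iff_coprime n m).1 h')),
        zero_mul, zero_sub, norm_neg, Complex.norm_real,
        Real.norm_of_nonneg ArithmeticFunction.vonMangoldt_nonneg]
  have h2 : ‖psiC (1 : DirichletCharacter ℂ m) y - ∑ n ∈ Finset.Ioc 0 y, aOne n‖ ≤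
      ∑ n ∈ (Finset.Ioc 0 y).filter (fun n => ¬ Nat.Coprime n m ∧
        ArithmeticFunction.vonMangoldt n ≠ 0), ArithmeticFunction.vonMangoldt n := by
    rw [psiC, ← Finset.sum_sub_distrib]
    refine (norm_sum_le _ _).trans ((Finset.sum_le_sum fun n _ => h1 n).trans (le_of_eq ?_))
    rw [Finset.sum_filter]
    refine Finset.sum_congr rfl fun n _ => ?_
    by_cases h : Nat.Coprime n m
    · rw [if_pos h, if_neg (fun h' => h'.1 h)]
    · rw [if_neg h]
      by_cases h0 : ArithmeticFunction.vonMangoldt n = 0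
      · rw [if_neg (fun h' => h'.2 h0), h0]
      · rw [if_pos ⟨h, h0⟩]
  refine h2.trans ?_
  -- the prime powers
  let I : Finset (Σ _ : ℕ, ℕ) := m.primeFactors.sigma fun p => Finset.Icc 1 (Nat.log p y)
  have h3 : (Finset.Ioc 0 y).filter (fun n => ¬ Nat.Coprime n m ∧
      ArithmeticFunction.vonMangoldt n ≠ 0) ⊆ I.image (fun z => z.1 ^ z.2) := by
    intro n hn
    rw [Finset.mem_filter, Finset.mem_Ioc] at hn
    obtain ⟨⟨hn0, hny⟩, hcop, hΛ⟩ := hn
    rw [ArithmeticFunction.vonMangoldt_ne_zero_iff] at hΛ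
    obtain ⟨p, k, hp, hk, rfl⟩ := (isPrimePow_nat_iff n).1 hΛ
    rw [Finset.mem_image]
    refine ⟨⟨p, k⟩, ?_, rfl⟩
    rw [Finset.mem_sigma]
    refine ⟨?_, ?_⟩
    · rw [Nat.mem_primeFactors]
      refine ⟨hp, ?_, hm⟩
      by_contra h
      exact hcop (Nat.Coprime.pow_left k ((Nat.Prime.coprime_iff_not_dvd hp).2 h))
    · rw [Finset.mem_Icc]
      exact ⟨hk, (Nat.le_log_iff_pow_le hp.one_lt (by omega)).2 hny⟩
  have h4 : ∑ n ∈ (Finset.Ioc 0 y).filter (fun n => ¬ Nat.Coprime n m ∧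
        ArithmeticFunction.vonMangoldt n ≠ 0), ArithmeticFunction.vonMangoldt n ≤
      ∑ n ∈ I.image (fun z => z.1 ^ z.2), ArithmeticFunction.vonMangoldt n :=
    Finset.sum_le_sum_of_subset_of_nonneg h3 fun n _ _ => ArithmeticFunction.vonMangoldt_nonneg
  have hinj : Set.InjOn (fun z : (Σ _ : ℕ, ℕ) => z.1 ^ z.2) (I : Set (Σ _ : ℕ, ℕ)) := by
    rintro ⟨p, k⟩ h ⟨p', k'⟩ h' hpp
    rw [Finset.mem_coe, Finset.mem_sigma] at h h'
    have hp := Nat.prime_of_mem_primeFactors h.1
    have hp' := Nat.prime_of_mem_primeFactors h'.1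
    have hk : 1 ≤ k := (Finset.mem_Icc.1 h.2).1
    have hk' : 1 ≤ k' := (Finset.mem_Icc.1 h'.2).1
    change p ^ k = p' ^ k' at hpp
    have h5 : p = p' := by
      have h6 : p ∣ p' ^ k' := by
        rw [← hpp]
        exact dvd_pow_self p (by omega)
      exact (Nat.prime_dvd_prime_iff_eq hp hp').1 (hp.dvd_of_dvd_pow h6)
    subst h5
    have h6 : k = k' := Nat.pow_right_injective hp.two_le hpp
    rw [h6]
  refine h4.trans ?_
  rw [Finset.sum_image hinj, Finset.sum_sigma]
  have hlogy : 0 ≤ Real.log y := Real.log_natCast_nonneg y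
  have h5 : ∀ p ∈ m.primeFactors, ∑ k ∈ Finset.Icc 1 (Nat.log p y),
      ArithmeticFunction.vonMangoldt (p ^ k) ≤ Real.log y := by
    intro p hp
    have hpp := Nat.prime_of_mem_primeFactors hp
    have h6 : ∀ k ∈ Finset.Icc 1 (Nat.log p y), ArithmeticFunction.vonMangoldt (p ^ k) =
        Real.log p := by
      intro k hk
      have hk1 := (Finset.mem_Icc.1 hk).1
      rw [ArithmeticFunction.vonMangoldt_apply_pow (by omega),
        ArithmeticFunction.vonMangoldt_apply_prime hpp]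
    rw [Finset.sum_congr rfl h6, Finset.sum_const, Nat.card_Icc, nsmul_eq_mul,
      Nat.add_sub_cancel, ← Real.log_pow]
    apply Real.log_le_log
    · have : (0 : ℝ) < p := by exact_mod_cast hpp.pos
      positivity
    · exact_mod_cast Nat.pow_log_le_self p (by omega)
  refine (Finset.sum_le_sum h5).trans ?_
  rw [Finset.sum_const, nsmul_eq_mul]
  apply mul_le_mul_of_nonneg_right _ hlogy
  have h6 : m.primeFactors.card ≤ m := by
    calc m.primeFactors.card ≤ (Finset.Icc 1 m).card := by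
          apply Finset.card_le_card
          intro p hp
          rw [Finset.mem_Icc]
          exact ⟨(Nat.prime_of_mem_primeFactors hp).one_lt.le,
            Nat.le_of_dvd (Nat.pos_of_ne_zero hm) (Nat.dvd_of_mem_primeFactors hp)⟩
      _ = m := by rw [Nat.card_Icc]; omega
  exact_mod_cast h6

end Pool.Agent.Lib.MP_9c2ea5_nt.An
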