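import Mathlib
import Pool.Agent.Lib.MP_9c2ea5_nt.AMain1
import Pool.Agent.Lib.MP_9c2ea5_nt.Defs
import Pool.Agent.Lib.MP_9c2ea5_nt.AOrth
import Pool.Agent.Lib.MP_9c2ea5_nt.ATh
import Pool.Agent.Lib.MP_9c2ea5_nt.AGood
import Pool.Agent.Lib.MP_9c2ea5_nt.AD
import Pool.Agent.Lib.MP_9c2ea5_nt.AParM
import Pool.Agent.Lib.MP_9c2ea5_nt.AParR

/-!
# Theorem A (assembly)
-/

open Complex Finset Filter

namespace Pool.Agent.Lib.MP_9c2ea5_nt.An

lemma thN_nonneg (n : ℕ) : 0 ≤ thN n := by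
  unfold thN
  split_ifs with h
  · exact Real.log_nonneg (by exact_mod_cast h.one_lt.le)
  · exact le_rfl

lemma sum_thN_le (m c y : ℕ) (hy : 1 ≤ y) :
    ∑ n ∈ (Finset.Ioc 0 y).filter (fun n => n ≡ c [MOD m]), thN n ≤ y * Real.log y := by
  calc ∑ n ∈ (Finset.Ioc 0 y).filter (fun n => n ≡ c [MOD m]), thN n
      ≤ ∑ n ∈ Finset.Ioc 0 y, thN n := by
        apply Finset.sum_le_sum_of_subset_of_nonneg (Finset.filter_subset _ _)
        intro i _ _
        exact thN_nonneg i
    _ ≤ ∑ n ∈ Finset.Ioc 0 y, Real.log y := by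
        apply Finset.sum_le_sum
        intro i hi
        rw [Finset.mem_Ioc] at hi
        unfold thN
        split_ifs with h
        · exact Real.log_le_log (by exact_mod_cast hi.1) (by exact_mod_cast hi.2)
        · exact Real.log_nonneg (by exact_mod_cast hy)
    _ = y * Real.log y := by simp

/-- the equidistribution bound for large `y` -/
theorem eq_large {κ X : ℝ} (h : Scale κ X)
    (q1 : 9 * X * Real.exp (6 * κ * (Real.log X) ^ 2) * Real.exp (1000 * κ * (Real.log X) ^ 2) ≤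
      Real.exp (X / 2))
    (q2 : 18 * X * Real.exp (1000 * κ * (Real.log X) ^ 2) ≤ Real.exp (X / 4))
    {m : ℕ} (hm0 : 0 < m) (hm : (m : ℝ) ≤ Real.exp (6 * κ * (Real.log X) ^ 2))
    (hgood : ∀ (m : ℕ) [NeZero m] (χ : DirichletCharacter ℂ m),
      (m : ℝ) ≤ Real.exp (6 * κ * (Real.log X) ^ 2) → χ ^ 2 = 1 → χ ≠ 1 →
      (Real.log X) ^ 28 / X ≤ ‖DirichletCharacter.LFunction χ 1‖)
    (c y : ℕ) (hc : Nat.Coprime c m) (hy : Real.exp (X / 2) ≤ y)
    (hy3 : (y : ℝ) ≤ Real.exp (3 * X)) :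
    |∑ n ∈ (Finset.Ioc 0 y).filter (fun n => n ≡ c [MOD m]), thN n -
      (y : ℝ) / (Nat.totient m : ℝ)| ≤ y * Real.exp (-(1000 * κ * (Real.log X) ^ 2)) := by
  haveI : NeZero m := ⟨hm0.ne'⟩
  have hX := h.X_pos
  have hyp : (50 : ℝ) ≤ y := h.y_ge hy
  have hy1 : 1 ≤ y := by
    have : (1 : ℝ) ≤ y := by linarith
    exact_mod_cast this
  set e := Real.exp (-(1000 * κ * (Real.log X) ^ 2)) with he
  have hepos : 0 < e := Real.exp_pos _
  have hee : e * Real.exp (1000 * κ * (Real.log X) ^ 2) = 1 := by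
    rw [he, ← Real.exp_add]
    simp
  have hlogy : Real.log y ≤ 3 * X := by
    rw [Real.log_le_iff_le_exp (by linarith)]
    exact hy3
  have hlogy0 : 0 ≤ Real.log y := Real.log_nonneg (by linarith)
  -- m log y
  have b1 : (m : ℝ) * Real.log y ≤ y * e / 3 := by
    have : 9 * X * (m : ℝ) * Real.exp (1000 * κ * (Real.log X) ^ 2) ≤ y := by
      refine le_trans ?_ (q1.trans hy)
      gcongr
    have h2 : 9 * X * (m : ℝ) ≤ y * e := by
      calc 9 * X * (m : ℝ) = 9 * X * (m : ℝ) * Real.exp (1000 * κ * (Real.log X) ^ 2) * e := by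
            rw [mul_assoc _ _ e, mul_comm _ e, hee, mul_one]
        _ ≤ y * e := by gcongr
    have h3 : (m : ℝ) * Real.log y ≤ m * (3 * X) := by gcongr
    nlinarith
  have b2 : 2 * Real.sqrt y * Real.log y ≤ y * e / 3 := by
    have hs : Real.exp (X / 4) ≤ Real.sqrt y := by
      apply Real.le_sqrt_of_sq_le
      rw [← Real.exp_nat_mul]
      refine le_trans (le_of_eq ?_) hy
      congr 1
      push_cast
      ring
    have h1 : 18 * X * Real.exp (1000 * κ * (Real.log X) ^ 2) ≤ Real.sqrt y := q2.trans hs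
    have h2 : 18 * X ≤ Real.sqrt y * e := by
      calc 18 * X = 18 * X * Real.exp (1000 * κ * (Real.log X) ^ 2) * e := by
            rw [mul_assoc _ _ e, mul_comm _ e, hee, mul_one]
        _ ≤ Real.sqrt y * e := by gcongr
    have h3 : Real.sqrt y * Real.sqrt y = y := Real.mul_self_sqrt (by linarith)
    have h4 : 0 ≤ Real.sqrt y := Real.sqrt_nonneg _
    calc 2 * Real.sqrt y * Real.log y ≤ 2 * Real.sqrt y * (3 * X) := by gcongr
      _ = Real.sqrt y * (18 * X) / 3 := by ring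
      _ ≤ Real.sqrt y * (Real.sqrt y * e) / 3 := by gcongr
      _ = y * e / 3 := by rw [← mul_assoc, h3]
  have b3 := theta_of_psi m c y hy1
  have b4 := orth (m := m) c y hc (y * e / 3 + y * e / 3 - 2 * Real.sqrt y * Real.log y + (y * e / 3 - y * e / 3) + 2 * Real.sqrt y * Real.log y)
    (by
      intro χ hχ
      have := h.psiC_le hm χ hχ (fun h2 => hgood m χ hm h2 hχ) hy hy3
      rw [← he] at this
      refine this.trans ?_
      have : 0 ≤ y * e / 3 := by positivity
      linarith)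
    (by
      have h1 := h.psi_le hy hy3
      rw [← he] at h1
      have h2 := psi_triv (m := m) y hy1
      have h3 : psiC (1 : DirichletCharacter ℂ m) y - (y : ℂ) =
          (psiC (1 : DirichletCharacter ℂ m) y - ∑ n ∈ Finset.Ioc 0 y, aOne n) +
            (∑ n ∈ Finset.Ioc 0 y, aOne n - (y : ℂ)) := by ring
      rw [h3]
      refine (norm_add_le _ _).trans ?_
      linarith)
  rw [abs_le] at b3 b4 ⊢
  constructor <;> linarith [b3.1, b3.2, b4.1, b4.2]

/-- Theorem A -/
theorem theoremA (N0 : ℕ) : ∃ D N : ℕ, N0 ≤ N ∧ Hyp D N := by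
  obtain ⟨κ0, hκ0, hD⟩ := exists_D W0 W0_pos
  set κ : ℝ := 3600 * κ0 with hκdef
  have hκ : 1 ≤ κ := by linarith
  have hev := (par_main κ hκ).and (par_rest κ hκ)
  rw [Filter.eventually_atTop] at hev
  obtain ⟨X1, hX1⟩ := hev
  obtain ⟨X, hX, hgood⟩ := exists_good (6 * κ)
    (max X1 (max (N0 : ℝ) ((W0 ^ 100 * 10 ^ 100 : ℕ) : ℝ))) (by linarith)
  have hXX1 : X1 ≤ X := (le_max_left _ _).trans hX
  have hXN0 : (N0 : ℝ) ≤ X := (le_max_left _ _).trans ((le_max_right _ _).trans hX)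
  have hXW : ((W0 ^ 100 * 10 ^ 100 : ℕ) : ℝ) ≤ X :=
    (le_max_right _ _).trans ((le_max_right _ _).trans hX)
  obtain ⟨pm, p1, p2, p3, p4, q1, q2, q3, q4, x100⟩ := hX1 X hXX1
  have h : Scale κ X := ⟨hκ, x100, p1, p2, p3, p4, pm⟩
  have hXpos := h.X_pos
  set L := Real.log X with hL
  -- the choice of k
  set k : ℕ := ⌈40 * L / Real.log 2⌉₊ with hk
  have hlog2 : 0 < Real.log 2 := Real.log_pos (by norm_num)
  have hlog2a : (0.6931471803 : ℝ) < Real.log 2 := Real.log_two_gt_d9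
  have hk1 : 40 * L / Real.log 2 ≤ k := Nat.le_ceil _
  have hk2 : (k : ℝ) < 40 * L / Real.log 2 + 1 :=
    Nat.ceil_lt_add_one (by positivity)
  have hk3 : (k : ℝ) ≤ 60 * L := by
    have : 40 * L / Real.log 2 ≤ 58 * L := by
      rw [div_le_iff₀ hlog2]
      nlinarith
    linarith
  have hkpos : 1 ≤ k := by
    have : (0 : ℝ) < k := lt_of_lt_of_le (by positivity) hk1
    exact_mod_cast this
  obtain ⟨D, hsq, hcop, htau, hDle, hDge⟩ := hD k hkpos
  have h2k : X ^ 40 ≤ (2 : ℝ) ^ k := by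
    have h1 : 40 * L ≤ k * Real.log 2 := by
      rw [div_le_iff₀ hlog2] at hk1
      exact hk1
    have h2 : (2 : ℝ) ^ k = Real.exp (k * Real.log 2) := by
      rw [mul_comm, Real.exp_mul, Real.exp_log (by norm_num), Real.rpow_natCast]
    have h3 : X ^ 40 = Real.exp (40 * L) := by
      rw [mul_comm, Real.exp_mul, Real.exp_log hXpos]
      norm_cast
    rw [h2, h3]
    exact Real.exp_le_exp.mpr h1
  have hDle' : (D : ℝ) ≤ Real.exp (κ * L ^ 2) := by
    refine hDle.trans (Real.exp_le_exp.mpr ?_)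
    have : (k : ℝ) ^ 2 ≤ 3600 * L ^ 2 := by
      have h0 : (0 : ℝ) ≤ k := by positivity
      nlinarith
    calc κ0 * (k : ℝ) ^ 2 ≤ κ0 * (3600 * L ^ 2) := by gcongr
      _ = κ * L ^ 2 := by rw [hκdef]; ring
  have hDpow : ∀ j : ℕ, (D : ℝ) ^ j ≤ Real.exp (j * κ * L ^ 2) := by
    intro j
    calc (D : ℝ) ^ j ≤ (Real.exp (κ * L ^ 2)) ^ j := by gcongr
      _ = Real.exp (j * κ * L ^ 2) := by
          rw [← Real.exp_nat_mul]
          ring_nf
  -- N
  set N : ℕ := ⌊Real.exp X⌋₊ with hN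
  have hNle : (N : ℝ) ≤ Real.exp X := Nat.floor_le (Real.exp_pos _).le
  have hNge : Real.exp X / 2 ≤ N := by
    have h1 : Real.exp X < N + 1 := Nat.lt_floor_add_one _
    have h2 : X + 1 ≤ Real.exp X := Real.add_one_le_exp X
    linarith
  have hNX : X ≤ N := by
    have h1 : Real.exp X < N + 1 := Nat.lt_floor_add_one _
    have h2 : X + 1 ≤ Real.exp X := Real.add_one_le_exp X
    linarith
  have hNpos : (0 : ℝ) < N := by linarith
  have hlogN : Real.log N ≤ X := by
    rw [Real.log_le_iff_le_exp hNpos]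
    exact hNle
  have hlogN0 : 0 ≤ Real.log N := Real.log_nonneg (by linarith)
  have hDpos : 0 < D := lt_of_lt_of_le (by positivity) hDge
  have hDposR : (0 : ℝ) < D := by exact_mod_cast hDpos
  have hD1000 : (D : ℝ) ^ 1000 ≤ Real.exp (1000 * κ * L ^ 2) := by
    have := hDpow 1000
    exact_mod_cast this
  refine ⟨D, N, ?_, ?_⟩
  · have : (N0 : ℝ) ≤ N := hXN0.trans hNX
    exact_mod_cast this
  refine ⟨?_, hsq, hcop, ?_, ?_, ?_⟩
  · -- big
    have h1 : ((W0 ^ 100 * 10 ^ 100 : ℕ) : ℝ) ≤ D := by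
      calc ((W0 ^ 100 * 10 ^ 100 : ℕ) : ℝ) ≤ X := hXW
        _ ≤ X ^ 40 := le_self_pow₀ (by linarith) (by norm_num)
        _ ≤ (2 : ℝ) ^ k := h2k
        _ ≤ D := by exact_mod_cast hDge
    exact_mod_cast h1
  · -- tau
    rw [htau]
    push_cast
    calc Real.log N ^ 40 ≤ X ^ 40 := by gcongr
      _ ≤ (2 : ℝ) ^ k := h2k
  · -- size
    have h1 : ((D : ℝ)) ^ 4000 ≤ N := by
      have := hDpow 4000
      push_cast at this
      exact this.trans (q4.trans hNge)
    exact_mod_cast h1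
  · -- EQ
    intro m c y hm hmD hc hy
    have hmR : (m : ℝ) ≤ Real.exp (6 * κ * L ^ 2) := by
      have h1 := hDpow 6
      push_cast at h1
      have h2 : (m : ℝ) ≤ (D : ℝ) ^ 6 := by exact_mod_cast hmD
      exact h2.trans h1
    have hye : (y : ℝ) ≤ Real.exp (3 * X) := by
      have h1 : (y : ℝ) ≤ (N : ℝ) ^ 3 := by exact_mod_cast hy
      refine h1.trans ?_
      calc (N : ℝ) ^ 3 ≤ (Real.exp X) ^ 3 := by gcongr
        _ = Real.exp (3 * X) := by
            rw [← Real.exp_nat_mul]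
            norm_cast
    have hinv : Real.exp (-(1000 * κ * L ^ 2)) ≤ 1 / (D : ℝ) ^ 1000 := by
      rw [Real.exp_neg, ← one_div]
      exact one_div_le_one_div_of_le (by positivity) hD1000
    rcases le_or_gt (Real.exp (X / 2)) (y : ℝ) with hcase | hcase
    · refine (eq_large h q1 q2 hm hmR (fun m' _ χ' h1 h2 h3 => hgood m' χ' h1 h2 h3) c y hc hcase
        hye).trans ?_
      calc (y : ℝ) * Real.exp (-(1000 * κ * L ^ 2)) ≤ y * (1 / (D : ℝ) ^ 1000) := by gcongr
        _ = y / (D : ℝ) ^ 1000 := by ring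
        _ ≤ ((y : ℝ) + N) / (D : ℝ) ^ 1000 := by
            gcongr
            linarith
    · rcases Nat.eq_zero_or_pos y with hy0 | hy0
      · subst hy0
        simp
        positivity
      · have hyR : (1 : ℝ) ≤ y := by exact_mod_cast hy0
        have h1 := sum_thN_le m c y hy0
        have h2 : 0 ≤ ∑ n ∈ (Finset.Ioc 0 y).filter (fun n => n ≡ c [MOD m]), thN n :=
          Finset.sum_nonneg (fun i _ => thN_nonneg i)
        have h3 : (1 : ℝ) ≤ (Nat.totient m : ℝ) := by
          exact_mod_cast Nat.totient_pos.mpr hm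
        have h4 : (y : ℝ) / (Nat.totient m : ℝ) ≤ y := div_le_self (by linarith) h3
        have h5 : 0 ≤ (y : ℝ) / (Nat.totient m : ℝ) := by positivity
        have h6 : Real.log y ≤ X / 2 := by
          rw [Real.log_le_iff_le_exp (by linarith)]
          exact hcase.le
        have h7 : (y : ℝ) * Real.log y + y ≤ X * Real.exp (X / 2) := by
          calc (y : ℝ) * Real.log y + y ≤ y * (X / 2) + y := by gcongr
            _ = y * (X / 2 + 1) := by ring
            _ ≤ Real.exp (X / 2) * X := by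
                gcongr
                linarith
            _ = X * Real.exp (X / 2) := by ring
        have h8 : X * Real.exp (X / 2) ≤ ((y : ℝ) + N) / (D : ℝ) ^ 1000 := by
          rw [le_div_iff₀ (by positivity)]
          calc X * Real.exp (X / 2) * (D : ℝ) ^ 1000
              ≤ X * Real.exp (X / 2) * Real.exp (1000 * κ * L ^ 2) := by gcongr
            _ = X * Real.exp (1000 * κ * L ^ 2) * Real.exp (X / 2) := by ring
            _ ≤ Real.exp X / 2 := q3
            _ ≤ N := hNge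
            _ ≤ (y : ℝ) + N := by linarith
        rw [abs_le]
        constructor <;> linarith

end Pool.Agent.Lib.MP_9c2ea5_nt.An
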