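import Mathlib
import Pool.Agent.Lib.MP_2a816b_nt.PrimeSieve
import Pool.Agent.Lib.MP_2a816b_nt.Basic0

/-!
# Q1: the kernel `δ_l(u) = [u ≡ 1 mod l] - [l ∤ u]/(l-1)`

Model: `Lib/MP_2a816b_nt/ModEll.lean` (lemmas `bilin_sub`, `bilin_bound`, `variance_eq`, `sum_cl`,
`bilin_seq`) and `PrimeSieve.lean` (`sum_erase_eq`), where the same is done for the kernel `kap`.

On `ZMod l` put `δ(u) = [u=1] - [u≠0]/(l-1)`; `∑_c δ(c d) = 0` for every `d` (for `d = 0` all terms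
vanish, for a unit `d` the sum is `1 - (l-1)/(l-1)`).  Hence for class sums `X, Y : ZMod l → ℂ` the
form `∑_{c,d} X_c Y_d δ(cd)` does not change when `X` and `Y` are replaced by `X - mean`,
`Y - mean`.  Then
`|∑_{c unit} X_c Y_{c⁻¹}| ≤ ‖X‖ ‖Y‖` and `(1/(l-1)) |∑_{c≠0} X_c| |∑_{d≠0} Y_d| ≤ ‖X‖ ‖Y‖`
(Cauchy-Schwarz), and `‖X - mean‖² = (1/l) ∑_{b≠0} |∑_c X_c e(bc/l)|²` is `variance_eq`.
-/

open Finset Real
open Pool.Agent.Lib.MP_2a816b_nt (e OpB)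

namespace Pool.Agent.Lib.MP_9c2ea5_nt

/-- `δ_l(u) = [u ≡ 1 mod l] - [l ∤ u]/(l-1)` -/
noncomputable def dl (l u : ℕ) : ℂ :=
  (if u ≡ 1 [MOD l] then 1 else 0) - (if l ∣ u then 0 else 1 / ((l : ℂ) - 1))

lemma norm_dl_le (l : ℕ) (hl : l.Prime) (u : ℕ) : ‖dl l u‖ ≤ 2 := by
  have hl2 : (2 : ℝ) ≤ l := by exact_mod_cast hl.two_le
  have h3 : ‖(1 : ℂ) / ((l : ℂ) - 1)‖ ≤ 1 := by
    have : ((l : ℂ) - 1) = ((l - 1 : ℝ) : ℂ) := by push_cast; ring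
    rw [norm_div, this, Complex.norm_real, norm_one, norm_eq_abs, abs_of_pos (by linarith),
      div_le_one (by linarith)]
    linarith
  have h1 : ‖(if u ≡ 1 [MOD l] then (1 : ℂ) else 0)‖ ≤ 1 := by
    split_ifs <;> simp
  have h2 : ‖(if l ∣ u then (0 : ℂ) else 1 / ((l : ℂ) - 1))‖ ≤ 1 := by
    split_ifs
    · simp
    · exact h3
  unfold dl
  calc _ ≤ _ := norm_sub_le _ _
    _ ≤ 1 + 1 := add_le_add h1 h2
    _ = 2 := by norm_num

lemma dl_add (l u : ℕ) : dl l (l + u) = dl l u := by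
  unfold dl
  have h1 : (l + u ≡ 1 [MOD l]) ↔ (u ≡ 1 [MOD l]) := by
    unfold Nat.ModEq
    rw [Nat.add_mod_left]
  have h2 : l ∣ l + u ↔ l ∣ u := Nat.dvd_add_right (dvd_refl l)
  simp only [h1, h2]

lemma dl_of_dvd (l : ℕ) (hl : l.Prime) {u : ℕ} (h : l ∣ u) : dl l u = 0 := by
  unfold dl
  rw [if_pos h, if_neg, sub_zero]
  intro h1
  have h2 : l ∣ 1 := (h1.dvd_iff (dvd_refl l)).mp h
  exact hl.one_lt.ne' (Nat.dvd_one.mp h2)

/-- the kernel on `ZMod l` -/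
noncomputable def Q1_dz (l : ℕ) (u : ZMod l) : ℂ :=
  (if u = 1 then 1 else 0) - (if u = 0 then 0 else 1 / ((l : ℂ) - 1))

lemma Q1_dl_eq (l u : ℕ) : dl l u = Q1_dz l (u : ZMod l) := by
  unfold dl Q1_dz
  have h1 : (u ≡ 1 [MOD l]) ↔ ((u : ZMod l) = 1) := by
    rw [← ZMod.natCast_eq_natCast_iff, Nat.cast_one]
  have h2 : l ∣ u ↔ (u : ZMod l) = 0 := (ZMod.natCast_eq_zero_iff u l).symm
  simp only [h1, h2]

section
variable (l : ℕ) [Fact l.Prime]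

lemma Q1_dz_zero : Q1_dz l 0 = 0 := by
  unfold Q1_dz
  rw [if_neg (zero_ne_one), if_pos rfl, sub_zero]

lemma Q1_sum_dz : ∑ u : ZMod l, Q1_dz l u = 0 := by
  unfold Q1_dz
  rw [sum_sub_distrib, sum_ite_eq' univ (1 : ZMod l) (fun _ => (1 : ℂ)), if_pos (mem_univ _)]
  rw [← add_sum_erase univ _ (mem_univ (0 : ZMod l)), if_pos rfl, zero_add]
  have h1 : ∀ u ∈ univ.erase (0 : ZMod l), (if u = 0 then (0 : ℂ) else 1 / ((l : ℂ) - 1)) =
      1 / ((l : ℂ) - 1) := by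
    intro u hu
    rw [if_neg (mem_erase.mp hu).1]
  have h4 : ((l - 1 : ℕ) : ℂ) = (l : ℂ) - 1 := by
    rw [Nat.cast_sub (Fact.out : l.Prime).one_lt.le, Nat.cast_one]
  rw [sum_congr rfl h1, sum_const, card_erase_of_mem (mem_univ _), card_univ, ZMod.card, nsmul_eq_mul, h4,
    mul_one_div_cancel (Pool.Agent.Lib.MP_2a816b_nt.q_sub_one_ne l), sub_self]

lemma Q1_sum_mul_left (c : ZMod l) : ∑ d : ZMod l, Q1_dz l (c * d) = 0 := by
  by_cases hc : c = 0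
  · subst hc
    simp only [zero_mul, Q1_dz_zero, sum_const_zero]
  · rw [← Q1_sum_dz l]
    exact Fintype.sum_equiv (Equiv.mulLeft₀ c hc) _ _ fun d => rfl

lemma Q1_sum_mul_right (d : ZMod l) : ∑ c : ZMod l, Q1_dz l (c * d) = 0 := by
  rw [← Q1_sum_mul_left l d]
  exact sum_congr rfl fun c _ => by rw [mul_comm]

lemma Q1_bilin_sub (X Y : ZMod l → ℂ) (lam mu : ℂ) :
    ∑ c : ZMod l, ∑ d : ZMod l, X c * Y d * Q1_dz l (c * d) =
      ∑ c : ZMod l, ∑ d : ZMod l, (X c - lam) * (Y d - mu) * Q1_dz l (c * d) := by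
  have h1 : ∀ c d : ZMod l, (X c - lam) * (Y d - mu) * Q1_dz l (c * d) =
      X c * Y d * Q1_dz l (c * d) - (lam * Y d - lam * mu) * Q1_dz l (c * d)
        - (X c * mu) * Q1_dz l (c * d) := by
    intro c d; ring
  simp_rw [h1, sum_sub_distrib]
  have h2 : ∑ c : ZMod l, ∑ d : ZMod l, (X c * mu) * Q1_dz l (c * d) = 0 := by
    apply sum_eq_zero; intro c _
    rw [← mul_sum, Q1_sum_mul_left, mul_zero]
  have h3 : ∑ c : ZMod l, ∑ d : ZMod l, (lam * Y d - lam * mu) * Q1_dz l (c * d) = 0 := by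
    rw [sum_comm]
    apply sum_eq_zero; intro d _
    rw [← mul_sum, Q1_sum_mul_right, mul_zero]
  rw [h2, h3]; ring

lemma Q1_bilin_le (x y : ZMod l → ℂ) :
    ‖∑ c : ZMod l, ∑ d : ZMod l, x c * y d * Q1_dz l (c * d)‖ ≤
      2 * (√(∑ c : ZMod l, ‖x c‖ ^ 2) * √(∑ d : ZMod l, ‖y d‖ ^ 2)) := by
  have hl1 : (1 : ℝ) < l := Pool.Agent.Lib.MP_2a816b_nt.one_lt_q l
  set nx := √(∑ c : ZMod l, ‖x c‖ ^ 2) with hnx
  set ny := √(∑ d : ZMod l, ‖y d‖ ^ 2) with hny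
  have h0 : ∑ c : ZMod l, ∑ d : ZMod l, x c * y d * Q1_dz l (c * d) =
      ∑ c ∈ univ.erase (0 : ZMod l), x c * y c⁻¹ -
        (1 / ((l : ℂ) - 1)) * ((∑ c ∈ univ.erase (0 : ZMod l), x c) * ∑ d ∈ univ.erase (0 : ZMod l), y d) := by
    have e1 : ∀ c ∈ univ.erase (0 : ZMod l), ∑ d : ZMod l, x c * y d * Q1_dz l (c * d) =
        x c * y c⁻¹ - (1 / ((l : ℂ) - 1)) * (x c * ∑ d ∈ univ.erase (0 : ZMod l), y d) := by
      intro c hc
      have hc0 := (mem_erase.mp hc).1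
      have e2 : ∀ d : ZMod l, x c * y d * Q1_dz l (c * d) =
          (if d = c⁻¹ then x c * y d else 0) - (if d = 0 then 0 else (1 / ((l : ℂ) - 1)) * (x c * y d)) := by
        intro d
        unfold Q1_dz
        have e3 : c * d = 1 ↔ d = c⁻¹ := by
          constructor
          · intro h
            exact eq_inv_of_mul_eq_one_right h
          · intro h
            rw [h, mul_inv_cancel₀ hc0]
        have e4 : c * d = 0 ↔ d = 0 := by
          rw [mul_eq_zero]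
          exact ⟨fun h => h.resolve_left hc0, fun h => Or.inr h⟩
        simp only [e3, e4]
        split_ifs <;> ring
      simp_rw [e2]
      rw [sum_sub_distrib, sum_ite_eq' univ c⁻¹ (fun d => x c * y d), if_pos (mem_univ _)]
      congr 1
      rw [← add_sum_erase univ _ (mem_univ (0 : ZMod l)), if_pos rfl, zero_add, mul_sum, mul_sum]
      exact sum_congr rfl fun d hd => by rw [if_neg (mem_erase.mp hd).1]
    rw [← add_sum_erase univ _ (mem_univ (0 : ZMod l))]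
    have e5 : ∑ d : ZMod l, x 0 * y d * Q1_dz l (0 * d) = 0 := by
      apply sum_eq_zero
      intro d _
      rw [zero_mul, Q1_dz_zero, mul_zero]
    rw [e5, zero_add, sum_congr rfl e1, sum_sub_distrib, ← mul_sum, ← sum_mul]
  have h1 : ‖∑ c ∈ univ.erase (0 : ZMod l), x c * y c⁻¹‖ ≤ nx * ny := by
    calc ‖∑ c ∈ univ.erase (0 : ZMod l), x c * y c⁻¹‖
        ≤ ∑ c ∈ univ.erase (0 : ZMod l), ‖x c‖ * ‖y c⁻¹‖ := by
          refine (norm_sum_le _ _).trans ?_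
          exact sum_le_sum fun c _ => by rw [norm_mul]
      _ ≤ √(∑ c ∈ univ.erase (0 : ZMod l), ‖x c‖ ^ 2) * √(∑ c ∈ univ.erase (0 : ZMod l), ‖y c⁻¹‖ ^ 2) :=
          sum_mul_le_sqrt_mul_sqrt _ _ _
      _ ≤ nx * ny := by
          have e1 : ∑ c ∈ univ.erase (0 : ZMod l), ‖x c‖ ^ 2 ≤ ∑ c : ZMod l, ‖x c‖ ^ 2 :=
            sum_le_sum_of_subset_of_nonneg (subset_univ _) fun _ _ _ => by positivity
          have e2 : ∑ c ∈ univ.erase (0 : ZMod l), ‖y c⁻¹‖ ^ 2 ≤ ∑ c : ZMod l, ‖y c⁻¹‖ ^ 2 :=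
            sum_le_sum_of_subset_of_nonneg (subset_univ _) fun _ _ _ => by positivity
          have e3 : ∑ c : ZMod l, ‖y c⁻¹‖ ^ 2 = ∑ c : ZMod l, ‖y c‖ ^ 2 :=
            Fintype.sum_equiv (Equiv.inv (ZMod l)) _ _ fun c => rfl
          rw [e3] at e2
          exact mul_le_mul (sqrt_le_sqrt e1) (sqrt_le_sqrt e2) (sqrt_nonneg _) (sqrt_nonneg _)
  have hsum : ∀ (z : ZMod l → ℂ), ‖∑ c ∈ univ.erase (0 : ZMod l), z c‖ ≤
      √((l : ℝ) - 1) * √(∑ c : ZMod l, ‖z c‖ ^ 2) := by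
    intro z
    calc ‖∑ c ∈ univ.erase (0 : ZMod l), z c‖ ≤ ∑ c ∈ univ.erase (0 : ZMod l), 1 * ‖z c‖ := by
          simp only [one_mul]
          exact norm_sum_le _ _
      _ ≤ √(∑ c ∈ univ.erase (0 : ZMod l), (1 : ℝ) ^ 2) *
          √(∑ c ∈ univ.erase (0 : ZMod l), ‖z c‖ ^ 2) := sum_mul_le_sqrt_mul_sqrt _ _ _
      _ ≤ _ := by
          have : (∑ c ∈ univ.erase (0 : ZMod l), (1 : ℝ) ^ 2) = (l : ℝ) - 1 := by
            simp only [one_pow, sum_const, card_erase_of_mem (mem_univ (0 : ZMod l)), card_univ,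
              ZMod.card, nsmul_eq_mul, mul_one]
            rw [Nat.cast_sub (Fact.out : l.Prime).one_lt.le]; simp
          rw [this]
          gcongr
          exact subset_univ _
  have h3 : ‖(1 / ((l : ℂ) - 1)) * ((∑ c ∈ univ.erase (0 : ZMod l), x c) *
      ∑ d ∈ univ.erase (0 : ZMod l), y d)‖ ≤ nx * ny := by
    have e1 : ‖(1 : ℂ) / ((l : ℂ) - 1)‖ = 1 / ((l : ℝ) - 1) := by
      have : ((l : ℂ) - 1) = ((l - 1 : ℝ) : ℂ) := by push_cast; ring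
      rw [norm_div, this, Complex.norm_real, norm_one, norm_eq_abs, abs_of_pos (by linarith)]
    rw [norm_mul, norm_mul, e1]
    have a1 := hsum x
    have a2 := hsum y
    calc 1 / ((l : ℝ) - 1) * (‖∑ c ∈ univ.erase (0 : ZMod l), x c‖ * ‖∑ d ∈ univ.erase (0 : ZMod l), y d‖)
        ≤ 1 / ((l : ℝ) - 1) * ((√((l : ℝ) - 1) * nx) * (√((l : ℝ) - 1) * ny)) := by
          have : 0 ≤ 1 / ((l : ℝ) - 1) := by
            apply div_nonneg (by norm_num); linarith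
          gcongr
      _ = (√((l : ℝ) - 1) * √((l : ℝ) - 1)) / ((l : ℝ) - 1) * (nx * ny) := by ring
      _ = nx * ny := by
          rw [mul_self_sqrt (by linarith), div_self (by linarith), one_mul]
  rw [h0]
  calc _ ≤ _ := norm_sub_le _ _
    _ ≤ nx * ny + nx * ny := add_le_add h1 h3
    _ = 2 * (nx * ny) := by ring

end

/-- a complete residue system -/
lemma sum_dl_range (l : ℕ) (hl : l.Prime) (a b : ℕ) (ha : ¬ l ∣ a) :
    ∑ u ∈ range l, dl l (a * u + b) = 0 := by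
  have : Fact l.Prime := ⟨hl⟩
  have h1 : ∑ u ∈ range l, dl l (a * u + b) = ∑ u ∈ range l, (fun v : ZMod l => Q1_dz l (a * v + b)) (u : ZMod l) := by
    apply sum_congr rfl
    intro u _
    rw [Q1_dl_eq]
    push_cast
    rfl
  rw [h1, Pool.Agent.Lib.MP_2a816b_nt.sum_range_zmod l (fun v : ZMod l => Q1_dz l (a * v + b))]
  rw [← Q1_sum_dz l]
  have ha' : (a : ZMod l) ≠ 0 := by rwa [Ne, ZMod.natCast_eq_zero_iff]
  apply Fintype.sum_equiv ((Equiv.mulLeft₀ (a : ZMod l) ha').trans (Equiv.addRight (b : ZMod l)))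
  intro v
  rfl

lemma bilin_dl (l : ℕ) (hl : l.Prime) (M N : ℕ) (x y : ℕ → ℂ) :
    ‖∑ m ∈ range M, ∑ n ∈ range N, x m * y n * dl l (m * n)‖ ≤
      (2 / (l : ℝ)) * (√(∑ b ∈ Ico 1 l, ‖∑ m ∈ range M, x m * e (m * ((b : ℝ) / l))‖ ^ 2) *
        √(∑ b ∈ Ico 1 l, ‖∑ n ∈ range N, y n * e (n * ((b : ℝ) / l))‖ ^ 2)) := by
  have : Fact l.Prime := ⟨hl⟩
  have h1 : ∑ m ∈ range M, ∑ n ∈ range N, x m * y n * dl l (m * n) =
      ∑ c : ZMod l, ∑ d : ZMod l, Pool.Agent.Lib.MP_2a816b_nt.cl l M x c *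
        Pool.Agent.Lib.MP_2a816b_nt.cl l N y d * Q1_dz l (c * d) := by
    have e1 : ∀ m ∈ range M, ∑ n ∈ range N, x m * y n * dl l (m * n) =
        x m * (fun c : ZMod l => ∑ d : ZMod l, Pool.Agent.Lib.MP_2a816b_nt.cl l N y d *
          Q1_dz l (c * d)) (m : ZMod l) := by
      intro m _
      simp only
      rw [← Pool.Agent.Lib.MP_2a816b_nt.sum_cl l N y (fun d => Q1_dz l ((m : ZMod l) * d)), mul_sum]
      apply sum_congr rfl; intro n _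
      rw [Q1_dl_eq]
      push_cast
      ring
    rw [sum_congr rfl e1, Pool.Agent.Lib.MP_2a816b_nt.sum_cl l M x
      (fun c : ZMod l => ∑ d : ZMod l, Pool.Agent.Lib.MP_2a816b_nt.cl l N y d * Q1_dz l (c * d))]
    apply sum_congr rfl; intro c _
    rw [mul_sum]
    apply sum_congr rfl; intro d _; ring
  rw [h1, Q1_bilin_sub l _ _ ((∑ c' : ZMod l, Pool.Agent.Lib.MP_2a816b_nt.cl l M x c') / l)
    ((∑ c' : ZMod l, Pool.Agent.Lib.MP_2a816b_nt.cl l N y c') / l)]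
  refine (Q1_bilin_le l _ _).trans ?_
  rw [Pool.Agent.Lib.MP_2a816b_nt.variance_eq, Pool.Agent.Lib.MP_2a816b_nt.variance_eq]
  have hq0 : (0 : ℝ) < l := by exact_mod_cast hl.pos
  have e2 : ∀ (K : ℕ) (z : ℕ → ℂ), ∑ b ∈ univ.erase (0 : ZMod l),
      ‖∑ d : ZMod l, Pool.Agent.Lib.MP_2a816b_nt.cl l K z d * Pool.Agent.Lib.MP_2a816b_nt.ps l (b * d)‖ ^ 2 =
      ∑ b ∈ Ico 1 l, ‖∑ n ∈ range K, z n * e (n * ((b : ℝ) / l))‖ ^ 2 := by
    intro K z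
    rw [← Pool.Agent.Lib.MP_2a816b_nt.sum_erase_eq]
    apply sum_congr rfl; intro b _
    rw [← Pool.Agent.Lib.MP_2a816b_nt.sum_cl l K z (fun d => Pool.Agent.Lib.MP_2a816b_nt.ps l (b * d))]
  rw [e2, e2, sqrt_mul (by positivity), sqrt_mul (by positivity)]
  apply le_of_eq
  have e3 : √(1 / (l : ℝ)) * √(1 / (l : ℝ)) = 1 / l := mul_self_sqrt (by positivity)
  calc _ = 2 * (√(1 / (l : ℝ)) * √(1 / (l : ℝ))) *
        (√(∑ b ∈ Ico 1 l, ‖∑ m ∈ range M, x m * e (m * ((b : ℝ) / l))‖ ^ 2) *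
        √(∑ b ∈ Ico 1 l, ‖∑ n ∈ range N, y n * e (n * ((b : ℝ) / l))‖ ^ 2)) := by ring
    _ = _ := by rw [e3]; ring

end Pool.Agent.Lib.MP_9c2ea5_nt
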