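import Mathlib
import Pool.Agent.Lib.MP_9c2ea5_nt.Q1

/-!
# Q2: the averaged kernel has small operator norm

Same proof as `opB_kernel` in `Lib/MP_2a816b_nt/PrimeSieve.lean`, with `bilin_dl` (factor `2/l ≤
2/y0`) in place of `bilin_seq` (factor `2/√l`), and the large sieve `prime_sieve`.
-/

open Finset Real
open Pool.Agent.Lib.MP_2a816b_nt (e OpB)

namespace Pool.Agent.Lib.MP_9c2ea5_nt

lemma opB_dl (P : Finset ℕ) (Q : ℕ) (y0 : ℝ) (hy0 : 0 < y0)
    (hP : ∀ l ∈ P, l.Prime ∧ l ≤ Q ∧ y0 ≤ l)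
    (ε : ℕ → ℂ) (hε : ∀ l ∈ P, ‖ε l‖ ≤ 1) (M N : ℕ) :
    OpB (fun m n => ∑ l ∈ P, ε l * dl l (m * n)) M N
      (18 / y0 * (√(M + (Q : ℝ) ^ 2) * √(N + (Q : ℝ) ^ 2))) := by
  intro x y
  have h1 : ∑ m ∈ range M, ∑ n ∈ range N, x m * y n * ∑ l ∈ P, ε l * dl l (m * n) =
      ∑ l ∈ P, ε l * ∑ m ∈ range M, ∑ n ∈ range N, x m * y n * dl l (m * n) := by
    calc _ = ∑ m ∈ range M, ∑ n ∈ range N, ∑ l ∈ P, x m * y n * (ε l * dl l (m * n)) := by
          simp only [mul_sum]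
      _ = ∑ m ∈ range M, ∑ l ∈ P, ∑ n ∈ range N, x m * y n * (ε l * dl l (m * n)) := by
          apply sum_congr rfl; intro m _; rw [sum_comm]
      _ = ∑ l ∈ P, ∑ m ∈ range M, ∑ n ∈ range N, x m * y n * (ε l * dl l (m * n)) := by
          rw [sum_comm]
      _ = _ := by
          apply sum_congr rfl; intro l _
          rw [mul_sum]
          apply sum_congr rfl; intro m _
          rw [mul_sum]
          apply sum_congr rfl; intro n _
          ring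
  rw [h1]
  set A : ℕ → ℝ := fun l => ∑ b ∈ Ico 1 l, ‖∑ n ∈ range M, x n * e (n * (b / l))‖ ^ 2 with hA
  set B : ℕ → ℝ := fun l => ∑ b ∈ Ico 1 l, ‖∑ n ∈ range N, y n * e (n * (b / l))‖ ^ 2 with hB
  have hA0 : ∀ l, 0 ≤ A l := fun l => by simp only [hA]; positivity
  have hB0 : ∀ l, 0 ≤ B l := fun l => by simp only [hB]; positivity
  have h2 : ∀ l ∈ P, ‖∑ m ∈ range M, ∑ n ∈ range N, x m * y n * dl l (m * n)‖ ≤
      2 / y0 * (√(A l) * √(B l)) := by
    intro l hl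
    obtain ⟨hlp, hlQ, hly⟩ := hP l hl
    have h := bilin_dl l hlp M N x y
    refine h.trans ?_
    have : 2 / (l : ℝ) ≤ 2 / y0 := by gcongr
    exact mul_le_mul_of_nonneg_right this (by positivity)
  calc _ ≤ ∑ l ∈ P, ‖ε l * ∑ m ∈ range M, ∑ n ∈ range N, x m * y n * dl l (m * n)‖ :=
        norm_sum_le _ _
    _ ≤ ∑ l ∈ P, 2 / y0 * (√(A l) * √(B l)) := by
        apply sum_le_sum; intro l hl
        rw [norm_mul]
        calc _ ≤ 1 * ‖∑ m ∈ range M, ∑ n ∈ range N, x m * y n * dl l (m * n)‖ := by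
              gcongr; exact hε l hl
          _ ≤ _ := by rw [one_mul]; exact h2 l hl
    _ = 2 / y0 * ∑ l ∈ P, √(A l) * √(B l) := by rw [mul_sum]
    _ ≤ 2 / y0 * (√(∑ l ∈ P, √(A l) ^ 2) * √(∑ l ∈ P, √(B l) ^ 2)) := by
        gcongr
        exact sum_mul_le_sqrt_mul_sqrt _ _ _
    _ = 2 / y0 * (√(∑ l ∈ P, A l) * √(∑ l ∈ P, B l)) := by
        congr 2
        · congr 1; apply sum_congr rfl; intro l _; exact sq_sqrt (hA0 l)
        · congr 1; apply sum_congr rfl; intro l _; exact sq_sqrt (hB0 l)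
    _ ≤ 2 / y0 * (√(9 * (M + (Q : ℝ) ^ 2) * ∑ n ∈ range M, ‖x n‖ ^ 2) *
          √(9 * (N + (Q : ℝ) ^ 2) * ∑ n ∈ range N, ‖y n‖ ^ 2)) := by
        have hP' : ∀ l ∈ P, l.Prime ∧ l ≤ Q := fun l hl => ⟨(hP l hl).1, (hP l hl).2.1⟩
        gcongr
        · exact Pool.Agent.Lib.MP_2a816b_nt.prime_sieve P Q hP' M x
        · exact Pool.Agent.Lib.MP_2a816b_nt.prime_sieve P Q hP' N y
    _ = _ := by
        rw [sqrt_mul (by positivity), sqrt_mul (by positivity), sqrt_mul (by positivity),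
          sqrt_mul (by positivity)]
        have : √(9 : ℝ) = 3 := by
          rw [show (9 : ℝ) = 3 ^ 2 by norm_num]; exact sqrt_sq (by norm_num)
        rw [this]; ring

end Pool.Agent.Lib.MP_9c2ea5_nt
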