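import Mathlib
import Pool.Agent.Lib.MP_9c2ea5_nt.Q2
import Pool.Agent.Lib.MP_2a816b_nt.TypeII

/-!
# Q3: Type II estimate

Same proof as `typeII` in `Lib/MP_2a816b_nt/TypeII.lean` (it only uses the operator norm bound of
the averaged kernel, `twist`, `dyadic_block`, `block_numeric`), with `opB_dl` in place of
`opB_kernel`: the factor `1/√y0` becomes `1/y0`.
-/

open Finset Real
open Pool.Agent.Lib.MP_2a816b_nt (e OpB exists_phase twist dyadic_block block_numeric)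

namespace Pool.Agent.Lib.MP_9c2ea5_nt

theorem typeII_dl (P : Finset ℕ) (Q : ℕ) (y0 : ℝ) (hy0 : 0 < y0)
    (hP : ∀ l ∈ P, l.Prime ∧ l ≤ Q ∧ y0 ≤ l)
    (r : ℕ) (hr : 0 < r) (b : ℕ) (N U L : ℕ) (hU : 1 ≤ U) (hL : N + 1 < 2 ^ L)
    (f g : ℕ → ℝ) (A : ℝ) (hA : 0 ≤ A)
    (hf : ∀ m, m ≤ N → |f m| ≤ A) (hg : ∀ n, n ≤ N → |g n| ≤ A)
    (hf0 : ∀ m, f m ≠ 0 → U < m ∧ m * U ≤ N) :
    ∑ l ∈ P, ‖∑ m ∈ Ioc 0 N, ∑ n ∈ Ioc 0 (N / m),
        (f m : ℂ) * (g n : ℂ) * (dl l (m * n) * e ((m * n * b : ℕ) / r))‖ ≤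
      72 * L ^ 2 * √r * A ^ 2 * N / y0 * √(1 + (Q : ℝ) ^ 2 / U + (Q : ℝ) ^ 4 / N) := by
  set z : ℕ → ℂ := fun l => ∑ m ∈ Ioc 0 N, ∑ n ∈ Ioc 0 (N / m),
        (f m : ℂ) * (g n : ℂ) * (dl l (m * n) * e ((m * n * b : ℕ) / r)) with hz
  choose ε hε1 hε2 using fun l => exists_phase (z l)
  set K : ℕ → ℕ → ℂ := fun m n => (∑ l ∈ P, ε l * dl l (m * n)) *
    e ((m * n * b : ℕ) / r) with hK
  have h1 : ((∑ l ∈ P, ‖z l‖ : ℝ) : ℂ) = ∑ m ∈ Ioc 0 N, ∑ n ∈ Ioc 0 (N / m),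
      (f m : ℂ) * (g n : ℂ) * K m n := by
    push_cast
    calc ∑ l ∈ P, (‖z l‖ : ℂ) = ∑ l ∈ P, ε l * z l := by
          apply sum_congr rfl; intro l _; exact (hε2 l).symm
      _ = ∑ l ∈ P, ∑ m ∈ Ioc 0 N, ∑ n ∈ Ioc 0 (N / m), ε l * ((f m : ℂ) * (g n : ℂ) *
            (dl l (m * n) * e ((m * n * b : ℕ) / r))) := by
          simp only [hz, mul_sum]
      _ = ∑ m ∈ Ioc 0 N, ∑ n ∈ Ioc 0 (N / m), ∑ l ∈ P, ε l * ((f m : ℂ) * (g n : ℂ) *
            (dl l (m * n) * e ((m * n * b : ℕ) / r))) := by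
          rw [sum_comm]
          apply sum_congr rfl; intro m _
          rw [sum_comm]
      _ = _ := by
          apply sum_congr rfl; intro m _
          apply sum_congr rfl; intro n _
          simp only [hK]
          rw [sum_mul, mul_sum]
          apply sum_congr rfl; intro l _
          ring
  have h2 : ∑ l ∈ P, ‖z l‖ = ‖∑ m ∈ Ioc 0 N, ∑ n ∈ Ioc 0 (N / m),
      (f m : ℂ) * (g n : ℂ) * K m n‖ := by
    rw [← h1, Complex.norm_real, norm_eq_abs, abs_of_nonneg (by positivity)]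
  change ∑ l ∈ P, ‖z l‖ ≤ _
  rw [h2]
  have hmaps : ∀ m ∈ Ioc 0 N, Nat.log 2 m ∈ range L := by
    intro m hm
    rw [mem_Ioc] at hm
    rw [mem_range]
    apply Nat.log_lt_of_lt_pow (by omega)
    omega
  rw [← sum_fiberwise_of_maps_to hmaps]
  refine (norm_sum_le _ _).trans ?_
  have hblock : ∀ i ∈ range L, ‖∑ m ∈ (Ioc 0 N).filter (fun m => Nat.log 2 m = i),
      ∑ n ∈ Ioc 0 (N / m), (f m : ℂ) * (g n : ℂ) * K m n‖ ≤
      72 * L * √r * A ^ 2 * N / y0 * √(1 + (Q : ℝ) ^ 2 / U + (Q : ℝ) ^ 4 / N) := by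
    intro i _
    by_cases hcase : 2 ^ i ≤ N ∧ U < 2 ^ (i + 1) ∧ 2 ^ i * U ≤ N
    · obtain ⟨hi, hi1, hi2⟩ := hcase
      have hop := twist _ (2 ^ (i + 1)) (N / 2 ^ i + 1) _ (by positivity)
        (opB_dl P Q y0 hy0 hP ε (fun l _ => hε1 l) (2 ^ (i + 1)) (N / 2 ^ i + 1)) r hr b
      have hd := dyadic_block K N i L hi hL _ (by positivity) hop f g A hA hf hg
      refine hd.trans ?_
      have hn := block_numeric N U Q i hU hi hi1 hi2
      calc _ = (18 * L * √r * A ^ 2 / y0) *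
            (√(((2 ^ (i + 1) : ℕ) : ℝ) + (Q : ℝ) ^ 2) *
              √(((N / 2 ^ i + 1 : ℕ) : ℝ) + (Q : ℝ) ^ 2) * (√(2 ^ i) * √(2 * N / 2 ^ i))) := by
            ring
        _ ≤ (18 * L * √r * A ^ 2 / y0) *
            (4 * N * √(1 + (Q : ℝ) ^ 2 / U + (Q : ℝ) ^ 4 / N)) := by gcongr
        _ = _ := by ring
    · have : ∑ m ∈ (Ioc 0 N).filter (fun m => Nat.log 2 m = i),
          ∑ n ∈ Ioc 0 (N / m), (f m : ℂ) * (g n : ℂ) * K m n = 0 := by
        apply sum_eq_zero; intro m hm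
        rw [mem_filter, mem_Ioc] at hm
        have hfm : f m = 0 := by
          by_contra hne
          obtain ⟨c1, c2⟩ := hf0 m hne
          apply hcase
          have d1 : 2 ^ i ≤ m := by rw [← hm.2]; exact Nat.pow_log_le_self 2 (by omega)
          have d2 : m < 2 ^ (i + 1) := by
            rw [← hm.2]; exact Nat.lt_pow_succ_log_self (by norm_num) m
          refine ⟨by omega, by omega, ?_⟩
          calc 2 ^ i * U ≤ m * U := Nat.mul_le_mul_right U d1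
            _ ≤ N := c2
        apply sum_eq_zero; intro n _
        rw [hfm]; simp
      rw [this, norm_zero]
      positivity
  refine (sum_le_sum hblock).trans ?_
  rw [sum_const, card_range, nsmul_eq_mul]
  apply le_of_eq
  ring

end Pool.Agent.Lib.MP_9c2ea5_nt
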