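import Mathlib
import Pool.Agent.Lib.MP_9c2ea5_nt.Q1
import Pool.Agent.Lib.MP_2a816b_nt.TypeI

/-!
# Q4: Type I estimates

Same proofs as in `Lib/MP_2a816b_nt/TypeI.lean` (`kq_complete`, `kq_periodic`, `typeI_range`,
`typeI_one`, `typeI_log`) with `dl l n * e(n b/r)` in place of `kq l a r b n`:
the sum over `d` in a full period `r l` vanishes (write `d = r v + u`, the exponential only depends
on `u`, and `∑_v δ_l(m (r v + u)) = 0` by `sum_dl_range` because `l ∤ m r`; if `l ∣ m` every term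
vanishes), every term is at most `2` in absolute value, and `periodic_sum_bound`, `abel_sum`
(in `Basic0.lean`) conclude.
-/

open Finset Real
open Pool.Agent.Lib.MP_2a816b_nt (e OpB)

namespace Pool.Agent.Lib.MP_9c2ea5_nt

private lemma q4_add_mul (l k u : ℕ) : dl l (l * k + u) = dl l u := by
  induction k with
  | zero => rw [mul_zero, zero_add]
  | succ k ih =>
    have h : l * (k + 1) + u = l + (l * k + u) := by ring
    rw [h, dl_add, ih]

private noncomputable def q4F (l r b m d : ℕ) : ℂ := dl l (m * d) * e ((m * d * b : ℕ) / r)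

private lemma q4_complete (l : ℕ) (hl : l.Prime) (r b m : ℕ) (hr : 0 < r) (hrl : ¬ l ∣ r) :
    ∑ d ∈ range (r * l), q4F l r b m d = 0 := by
  by_cases hm : l ∣ m
  · apply sum_eq_zero
    intro d _
    unfold q4F
    rw [dl_of_dvd l hl (hm.mul_right d), zero_mul]
  · rw [Pool.Agent.Lib.MP_2a816b_nt.sum_range_mul_eq, sum_comm]
    apply sum_eq_zero
    intro u _
    have h1 : ∀ v ∈ range l, q4F l r b m (r * v + u) =
        dl l (m * r * v + m * u) * e ((m * u * b : ℕ) / r) := by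
      intro v _
      unfold q4F
      congr 1
      · congr 1
        ring
      · have hr' : (r : ℝ) ≠ 0 := by positivity
        have : ((m * (r * v + u) * b : ℕ) : ℝ) / r = ((m * u * b : ℕ) : ℝ) / r +
            ((m * v * b : ℕ) : ℝ) := by
          push_cast
          field_simp
          ring
        rw [this, Pool.Agent.Lib.MP_2a816b_nt.e_add, Pool.Agent.Lib.MP_2a816b_nt.e_nat, mul_one]
    rw [sum_congr rfl h1, ← sum_mul]
    have hmr : ¬ l ∣ m * r := by
      rw [hl.dvd_mul]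
      push Not
      exact ⟨hm, hrl⟩
    rw [sum_dl_range l hl (m * r) (m * u) hmr, zero_mul]

private lemma q4_periodic (l r b m : ℕ) (hr : 0 < r) (d : ℕ) :
    q4F l r b m (r * l + d) = q4F l r b m d := by
  unfold q4F
  congr 1
  · have h : m * (r * l + d) = l * (m * r) + m * d := by ring
    rw [h, q4_add_mul]
  · have hr' : (r : ℝ) ≠ 0 := by positivity
    have : ((m * (r * l + d) * b : ℕ) : ℝ) / r = ((m * d * b : ℕ) : ℝ) / r +
        ((m * l * b : ℕ) : ℝ) := by
      push_cast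
      field_simp
      ring
    rw [this, Pool.Agent.Lib.MP_2a816b_nt.e_add, Pool.Agent.Lib.MP_2a816b_nt.e_nat, mul_one]

private lemma q4_norm_le (l : ℕ) (hl : l.Prime) (r b m d : ℕ) : ‖q4F l r b m d‖ ≤ 2 := by
  unfold q4F
  rw [norm_mul, Pool.Agent.Lib.MP_2a816b_nt.norm_e, mul_one]
  exact norm_dl_le l hl _

private lemma q4_zero (l : ℕ) (hl : l.Prime) (r b m : ℕ) : q4F l r b m 0 = 0 := by
  unfold q4F
  rw [mul_zero, dl_of_dvd l hl (dvd_zero l), zero_mul]

private lemma q4_range (l : ℕ) (hl : l.Prime) (r b m : ℕ) (hr : 0 < r) (hrl : ¬ l ∣ r) (t : ℕ) :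
    ‖∑ d ∈ range t, q4F l r b m d‖ ≤ 2 * (r * l) := by
  have h := Pool.Agent.Lib.MP_2a816b_nt.periodic_sum_bound (q4F l r b m) (r * l) 2
    (Nat.mul_pos hr hl.pos) (fun d => q4_periodic l r b m hr d) (q4_complete l hl r b m hr hrl)
    (fun d => q4_norm_le l hl r b m d) t
  push_cast at h
  exact h

lemma typeI_dl_one (l : ℕ) (hl : l.Prime) (r b m : ℕ) (hr : 0 < r) (hrl : ¬ l ∣ r) (t : ℕ) :
    ‖∑ d ∈ Ioc 0 t, dl l (m * d) * e ((m * d * b : ℕ) / r)‖ ≤ 2 * (r * l) := by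
  have h1 : ∑ d ∈ Ioc 0 t, dl l (m * d) * e ((m * d * b : ℕ) / r) =
      ∑ d ∈ range (t + 1), q4F l r b m d :=
    Pool.Agent.Lib.MP_2a816b_nt.sum_Ioc_range t (q4F l r b m) (q4_zero l hl r b m)
  rw [h1]
  exact q4_range l hl r b m hr hrl (t + 1)

lemma typeI_dl_log (l : ℕ) (hl : l.Prime) (r b m : ℕ) (hr : 0 < r) (hrl : ¬ l ∣ r) (t : ℕ) :
    ‖∑ d ∈ Ioc 0 t, (Real.log d : ℂ) * (dl l (m * d) * e ((m * d * b : ℕ) / r))‖ ≤
      4 * Real.log (t + 1) * (r * l) := by
  have h1 : ∑ d ∈ Ioc 0 t, (Real.log d : ℂ) * (dl l (m * d) * e ((m * d * b : ℕ) / r)) =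
      ∑ d ∈ range (t + 1), (Real.log d : ℂ) * q4F l r b m d :=
    Pool.Agent.Lib.MP_2a816b_nt.sum_Ioc_range t (fun d => (Real.log d : ℂ) * q4F l r b m d) (by
      rw [q4_zero l hl, mul_zero])
  rw [h1]
  have h := Pool.Agent.Lib.MP_2a816b_nt.abel_sum (q4F l r b m) (fun n : ℕ => Real.log n)
    (2 * (r * l)) Pool.Agent.Lib.MP_2a816b_nt.log_nat_mono (by simp)
    (fun k => q4_range l hl r b m hr hrl k) (t + 1)
  refine h.trans (le_of_eq ?_)
  push_cast
  ring

end Pool.Agent.Lib.MP_9c2ea5_nt
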