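import Mathlib
import Pool.Agent.Lib.MP_9c2ea5_nt.Q3
import Pool.Agent.Lib.MP_9c2ea5_nt.Q4
import Pool.Agent.Lib.MP_2a816b_nt.Vaughan
import Pool.Agent.Lib.MP_2a816b_nt.Core

/-!
# Q5: primes twisted by an additive character, on average over prime moduli

Same proof as theorem `core` in `Lib/MP_2a816b_nt/Core.lean` (Vaughan's identity, five pieces),
with `dl l k * e(k b/r)` in place of `kq l (a l) r b k`, `typeI_dl_one`, `typeI_dl_log`
in place of `typeI_one`, `typeI_log`, `norm_dl_le` (and `norm_e`) in place of `kq_norm_le`, and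
`typeII_dl` in place of `typeII` (the factor `1/√y0` becomes `1/y0`).
-/

open Finset Real
open Pool.Agent.Lib.MP_2a816b_nt

namespace Pool.Agent.Lib.MP_9c2ea5_nt

/-- the kernel -/
noncomputable def Q5_K (r b l k : ℕ) : ℂ := dl l k * e ((k * b : ℕ) / r)

lemma Q5_norm (l : ℕ) (hl : l.Prime) (r b k : ℕ) : ‖Q5_K r b l k‖ ≤ 2 := by
  unfold Q5_K
  rw [norm_mul, norm_e, mul_one]
  exact norm_dl_le l hl k

lemma Q5_one (l : ℕ) (hl : l.Prime) (r b m : ℕ) (hr : 0 < r) (hrl : ¬ l ∣ r) (t : ℕ) :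
    ‖∑ d ∈ Ioc 0 t, Q5_K r b l (m * d)‖ ≤ 2 * (r * l) := typeI_dl_one l hl r b m hr hrl t

lemma Q5_log (l : ℕ) (hl : l.Prime) (r b m : ℕ) (hr : 0 < r) (hrl : ¬ l ∣ r) (t : ℕ) :
    ‖∑ d ∈ Ioc 0 t, (Real.log d : ℂ) * Q5_K r b l (m * d)‖ ≤ 4 * Real.log (t + 1) * (r * l) :=
  typeI_dl_log l hl r b m hr hrl t

lemma Q5_two (P : Finset ℕ) (Q : ℕ) (y0 : ℝ) (hy0 : 0 < y0)
    (hP : ∀ l ∈ P, l.Prime ∧ l ≤ Q ∧ y0 ≤ l)
    (r : ℕ) (hr : 0 < r) (b : ℕ) (N U L : ℕ) (hU : 1 ≤ U) (hL : N + 1 < 2 ^ L)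
    (f g : ℕ → ℝ) (A : ℝ) (hA : 0 ≤ A)
    (hf : ∀ m, m ≤ N → |f m| ≤ A) (hg : ∀ n, n ≤ N → |g n| ≤ A)
    (hf0 : ∀ m, f m ≠ 0 → U < m ∧ m * U ≤ N) :
    ∑ l ∈ P, ‖∑ m ∈ Ioc 0 N, ∑ n ∈ Ioc 0 (N / m), (f m : ℂ) * (g n : ℂ) * Q5_K r b l (m * n)‖ ≤
      72 * L ^ 2 * √r * A ^ 2 * N / y0 * √(1 + (Q : ℝ) ^ 2 / U + (Q : ℝ) ^ 4 / N) :=
  typeII_dl P Q y0 hy0 hP r hr b N U L hU hL f g A hA hf hg hf0

theorem core_dl (P : Finset ℕ) (Q : ℕ) (y0 : ℝ) (hy0 : 0 < y0)
    (hP : ∀ l ∈ P, l.Prime ∧ l ≤ Q ∧ y0 ≤ l)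
    (r : ℕ) (hr : 0 < r) (hrl : ∀ l ∈ P, ¬ l ∣ r) (b : ℕ) (N U L : ℕ) (hU : 1 ≤ U)
    (hU3 : U * U * U ≤ N) (hL : N + 1 < 2 ^ L) :
    ∑ l ∈ P, ‖tw N (fun k => dl l k * e ((k * b : ℕ) / r)) vM‖ ≤ 8 * L * r * U * Q ^ 2 +
      144 * L ^ 4 * √r * N / y0 * √(1 + (Q : ℝ) ^ 2 / U + (Q : ℝ) ^ 4 / N) := by
  show ∑ l ∈ P, ‖tw N (Q5_K r b l) vM‖ ≤ _
  have hL0 : 1 ≤ L := by
    rcases Nat.eq_zero_or_pos L with h | h
    · subst h; omega
    · exact h
  have hLr : (1 : ℝ) ≤ L := by exact_mod_cast hL0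
  have hrr : (1 : ℝ) ≤ r := by exact_mod_cast hr
  have hQr : ∀ l ∈ P, (l : ℝ) ≤ Q := fun l hl => by exact_mod_cast (hP l hl).2.1
  have hQ1 : ∀ l ∈ P, (1 : ℝ) ≤ Q := fun l hl => by
    have : (1 : ℝ) ≤ l := by exact_mod_cast (hP l hl).1.one_lt.le
    exact this.trans (hQr l hl)
  -- the five pieces
  have h1 : ∀ l ∈ P, ‖tw N (Q5_K r b l) (lo U vM)‖ ≤ 2 * (U * L) := by
    intro l hl
    unfold tw
    calc _ ≤ ∑ n ∈ Ioc 0 N, ‖((lo U vM n : ℝ) : ℂ) * Q5_K r b l n‖ := norm_sum_le _ _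
      _ ≤ ∑ n ∈ Ioc 0 N, 2 * |lo U vM n| := by
          apply sum_le_sum; intro n _
          rw [norm_mul, Complex.norm_real, norm_eq_abs, mul_comm]
          gcongr
          exact Q5_norm l (hP l hl).1 r b _
      _ = 2 * ∑ n ∈ Ioc 0 N, |lo U vM n| := by rw [mul_sum]
      _ ≤ 2 * (U * L) := by
          gcongr
          apply sum_lo_le N U vM L (by positivity)
          intro m hm
          rw [abs_of_nonneg (vM_nonneg m)]
          exact (vM_le_log m).trans (log_le_L hL (by omega))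
  have h2 : ∀ l ∈ P, ‖tw N (Q5_K r b l) (lo U muR * ArithmeticFunction.log)‖ ≤
      (U * 1) * (4 * L * (r * Q)) := by
    intro l hl
    rw [tw_mul]
    calc _ ≤ ∑ m ∈ Ioc 0 N, ‖∑ d ∈ Ioc 0 (N / m), ((lo U muR m : ℝ) : ℂ) *
            ((ArithmeticFunction.log d : ℝ) : ℂ) * Q5_K r b l (m * d)‖ := norm_sum_le _ _
      _ ≤ ∑ m ∈ Ioc 0 N, |lo U muR m| * (4 * L * (r * Q)) := by
          apply sum_le_sum; intro m _
          have e1 : ∑ d ∈ Ioc 0 (N / m), ((lo U muR m : ℝ) : ℂ) *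
              ((ArithmeticFunction.log d : ℝ) : ℂ) * Q5_K r b l (m * d) =
              ((lo U muR m : ℝ) : ℂ) * ∑ d ∈ Ioc 0 (N / m), (Real.log d : ℂ) *
                Q5_K r b l (m * d) := by
            rw [mul_sum]
            apply sum_congr rfl; intro d _
            rw [ArithmeticFunction.log_apply]
            ring
          rw [e1, norm_mul, Complex.norm_real, norm_eq_abs]
          gcongr
          refine (Q5_log l (hP l hl).1 r b m hr (hrl l hl) (N / m)).trans ?_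
          have e2 : Real.log ((N / m : ℕ) + 1) ≤ L := by
            have := log_le_L (n := N / m + 1) hL (by have := Nat.div_le_self N m; omega)
            push_cast at this
            exact this
          have := hQr l hl
          gcongr
      _ = (∑ m ∈ Ioc 0 N, |lo U muR m|) * (4 * L * (r * Q)) := by rw [sum_mul]
      _ ≤ (U * 1) * (4 * L * (r * Q)) := by
          gcongr
          exact sum_lo_le N U muR 1 (by norm_num) (fun m _ => muR_abs_le m)
  have hcU : ∀ m, m ≤ N → |cU U m| ≤ L := fun m hm =>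
    (cU_abs_le U m).trans (log_le_L hL (by omega))
  have h3 : ∀ l ∈ P, ‖tw N (Q5_K r b l) (lo U (cU U) * zeR)‖ ≤
      (U * L) * (2 * (r * Q)) := by
    intro l hl
    rw [tw_mul]
    calc _ ≤ ∑ m ∈ Ioc 0 N, ‖∑ d ∈ Ioc 0 (N / m), ((lo U (cU U) m : ℝ) : ℂ) *
            ((zeR d : ℝ) : ℂ) * Q5_K r b l (m * d)‖ := norm_sum_le _ _
      _ ≤ ∑ m ∈ Ioc 0 N, |lo U (cU U) m| * (2 * (r * Q)) := by
          apply sum_le_sum; intro m _
          have e1 : ∑ d ∈ Ioc 0 (N / m), ((lo U (cU U) m : ℝ) : ℂ) *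
              ((zeR d : ℝ) : ℂ) * Q5_K r b l (m * d) =
              ((lo U (cU U) m : ℝ) : ℂ) * ∑ d ∈ Ioc 0 (N / m), Q5_K r b l (m * d) := by
            rw [mul_sum]
            apply sum_congr rfl; intro d hd
            rw [mem_Ioc] at hd
            rw [zeR_apply, if_neg (by omega)]
            push_cast
            ring
          rw [e1, norm_mul, Complex.norm_real, norm_eq_abs]
          gcongr
          refine (Q5_one l (hP l hl).1 r b m hr (hrl l hl) (N / m)).trans ?_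
          have := hQr l hl
          gcongr
      _ = (∑ m ∈ Ioc 0 N, |lo U (cU U) m|) * (2 * (r * Q)) := by rw [sum_mul]
      _ ≤ (U * L) * (2 * (r * Q)) := by
          gcongr
          exact sum_lo_le N U (cU U) L (by positivity) hcU
  have h4 : ∑ l ∈ P, ‖tw N (Q5_K r b l) (hi U (cU U) * zeR)‖ ≤
      72 * L ^ 2 * √r * (L : ℝ) ^ 2 * N / y0 * √(1 + (Q : ℝ) ^ 2 / U + (Q : ℝ) ^ 4 / N) := by
    have := Q5_two P Q y0 hy0 hP r hr b N U L hU hL (fun m => hi U (cU U) m)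
      (fun d => zeR d) L (by positivity) ?_ ?_ ?_
    · refine le_trans (le_of_eq ?_) this
      apply sum_congr rfl; intro l _
      rw [tw_mul]
    · intro m hm
      rw [hi_apply]
      split_ifs
      · exact hcU m hm
      · simp
    · intro n _
      rw [zeR_apply]
      split_ifs
      · simp
      · simpa using hLr
    · intro m hm
      rw [hi_apply] at hm
      by_cases hU' : U < m
      · rw [if_pos hU'] at hm
        refine ⟨hU', ?_⟩
        have hm2 : m ≤ U * U := by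
          by_contra hc
          exact hm (cU_eq_zero U m (by omega))
        calc m * U ≤ (U * U) * U := Nat.mul_le_mul_right U hm2
          _ ≤ N := hU3
      · rw [if_neg hU'] at hm
        exact absurd rfl hm
  have h5 : ∑ l ∈ P, ‖tw N (Q5_K r b l) (hi U muR * (hi U vM * zeR))‖ ≤
      72 * L ^ 2 * √r * (L : ℝ) ^ 2 * N / y0 * √(1 + (Q : ℝ) ^ 2 / U + (Q : ℝ) ^ 4 / N) := by
    have := Q5_two P Q y0 hy0 hP r hr b N U L hU hL
      (fun m => if m * U ≤ N then hi U muR m else 0)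
      (fun d => (hi U vM * zeR) d) L (by positivity) ?_ ?_ ?_
    · refine le_trans (le_of_eq ?_) this
      apply sum_congr rfl; intro l _
      rw [tw_mul]
      congr 1
      apply sum_congr rfl; intro m hm
      rw [mem_Ioc] at hm
      by_cases hmU : m * U ≤ N
      · simp only [if_pos hmU]
      · have hz : ∀ d ∈ Ioc 0 (N / m), (hi U vM * zeR) d = 0 := by
          intro d hd
          rw [mem_Ioc] at hd
          apply vz_eq_zero
          have : N / m < U := by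
            rw [Nat.div_lt_iff_lt_mul hm.1]
            rw [mul_comm]
            omega
          omega
        rw [sum_eq_zero, sum_eq_zero]
        · intro d hd
          rw [hz d hd]; simp
        · intro d hd
          rw [hz d hd]; simp
    · intro m _
      split_ifs
      · exact (hi_muR_abs_le U m).trans hLr
      · simp
    · intro n hn
      rw [abs_of_nonneg (vz_nonneg U n)]
      exact (vz_le U n).trans (log_le_L hL (by omega))
    · intro m hm
      by_cases hmU : m * U ≤ N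
      · rw [if_pos hmU, hi_apply] at hm
        refine ⟨?_, hmU⟩
        by_contra hc
        rw [if_neg hc] at hm
        exact hm rfl
      · rw [if_neg hmU] at hm
        exact absurd rfl hm
  -- assemble
  have hcard : (P.card : ℝ) ≤ Q := by
    have hsub : P ⊆ Ioc 0 Q := by
      intro l hl
      rw [mem_Ioc]
      exact ⟨(hP l hl).1.pos, (hP l hl).2.1⟩
    have := card_le_card hsub
    rw [Nat.card_Ioc, Nat.sub_zero] at this
    exact_mod_cast this
  calc ∑ l ∈ P, ‖tw N (Q5_K r b l) vM‖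
      ≤ ∑ l ∈ P, (2 * (U * L) + (U * 1) * (4 * L * (r * Q)) + (U * L) * (2 * (r * Q)) +
        ‖tw N (Q5_K r b l) (hi U (cU U) * zeR)‖ +
        ‖tw N (Q5_K r b l) (hi U muR * (hi U vM * zeR))‖) := by
        apply sum_le_sum; intro l hl
        rw [tw_vM N U]
        refine (norm_add_le _ _).trans ?_
        gcongr
        refine (norm_sub_le _ _).trans ?_
        gcongr
        refine (norm_sub_le _ _).trans ?_
        refine add_le_add ?_ (h3 l hl)
        exact (norm_add_le _ _).trans (add_le_add (h1 l hl) (h2 l hl))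
    _ ≤ ∑ l ∈ P, (8 * L * r * U * Q +
        ‖tw N (Q5_K r b l) (hi U (cU U) * zeR)‖ +
        ‖tw N (Q5_K r b l) (hi U muR * (hi U vM * zeR))‖) := by
        apply sum_le_sum; intro l hl
        gcongr
        have hq := hQ1 l hl
        have hrq : (1 : ℝ) ≤ r * Q := by nlinarith
        have hUL : (0 : ℝ) ≤ U * L := by positivity
        nlinarith
    _ = P.card * (8 * L * r * U * Q) +
        ∑ l ∈ P, ‖tw N (Q5_K r b l) (hi U (cU U) * zeR)‖ +
        ∑ l ∈ P, ‖tw N (Q5_K r b l) (hi U muR * (hi U vM * zeR))‖ := by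
        rw [sum_add_distrib, sum_add_distrib, sum_const, nsmul_eq_mul]
    _ ≤ Q * (8 * L * r * U * Q) +
        (72 * L ^ 2 * √r * (L : ℝ) ^ 2 * N / y0 * √(1 + (Q : ℝ) ^ 2 / U + (Q : ℝ) ^ 4 / N)) +
        (72 * L ^ 2 * √r * (L : ℝ) ^ 2 * N / y0 * √(1 + (Q : ℝ) ^ 2 / U + (Q : ℝ) ^ 4 / N)) := by
        gcongr
    _ = _ := by ring

end Pool.Agent.Lib.MP_9c2ea5_nt
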