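import Mathlib
import Pool.Agent.Lib.MP_9c2ea5_nt.Defs

/-!
# Elementary consequences of the hypotheses
-/

open Finset

namespace Pool.Agent.Lib.MP_9c2ea5_nt

namespace Hyp

variable {D N : ℕ}

lemma W0_pow_le (h : Hyp D N) : W0 ^ 100 ≤ D :=
  le_trans (Nat.le_mul_of_pos_right _ (by positivity)) h.big

lemma ten_pow_le (h : Hyp D N) : 10 ^ 100 ≤ D := by
  refine le_trans ?_ h.big
  exact Nat.le_mul_of_pos_left _ (pow_pos W0_pos _)

lemma D_pos (h : Hyp D N) : 0 < D := lt_of_lt_of_le (by positivity) h.ten_pow_le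

lemma D_ne (h : Hyp D N) : D ≠ 0 := h.D_pos.ne'

lemma D_gt_one (h : Hyp D N) : 1 < D :=
  lt_of_lt_of_le (by norm_num : 1 < 10 ^ 100) h.ten_pow_le

lemma W0_le (h : Hyp D N) : W0 ≤ D :=
  le_trans (Nat.le_self_pow (by norm_num) _) h.W0_pow_le

lemma D_le_N (h : Hyp D N) : D ≤ N :=
  le_trans (Nat.le_self_pow (by norm_num) _) h.size

lemma N_pos (h : Hyp D N) : 0 < N := lt_of_lt_of_le h.D_pos h.D_le_N

lemma WW_pos (h : Hyp D N) : 0 < WW D := Nat.mul_pos W0_pos h.D_pos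

lemma UU_pos (h : Hyp D N) : 0 < UU D N := Nat.mul_pos h.N_pos (pow_pos h.D_pos _)

lemma D_pow_le (h : Hyp D N) {k : ℕ} (hk : k ≤ 4000) : D ^ k ≤ N :=
  le_trans (Nat.pow_le_pow_right h.D_pos hk) h.size

lemma D_pow_le' (h : Hyp D N) {k : ℕ} (hk : k ≤ 4000) : (D : ℝ) ^ k ≤ N := by
  exact_mod_cast h.D_pow_le hk

lemma D_ge' (h : Hyp D N) : (10 : ℝ) ^ 100 ≤ D := by exact_mod_cast h.ten_pow_le

lemma one_le_D (h : Hyp D N) : (1 : ℝ) ≤ D := by exact_mod_cast h.D_pos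

lemma D_pos' (h : Hyp D N) : (0 : ℝ) < D := by exact_mod_cast h.D_pos

lemma N_pos' (h : Hyp D N) : (0 : ℝ) < N := by exact_mod_cast h.N_pos

lemma logD_ge (h : Hyp D N) : (100 : ℝ) ≤ Real.log D := by
  have h1 : Real.log ((10 : ℝ) ^ 100) ≤ Real.log D := Real.log_le_log (by positivity) h.D_ge'
  rw [Real.log_pow] at h1
  have h2 : (1 : ℝ) ≤ Real.log 10 := by
    rw [Real.le_log_iff_exp_le (by norm_num)]
    have := Real.exp_one_lt_d9
    linarith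
  push_cast at h1
  linarith

lemma logN_ge_logD (h : Hyp D N) : 4000 * Real.log D ≤ Real.log N := by
  have h1 : Real.log ((D : ℝ) ^ 4000) ≤ Real.log N :=
    Real.log_le_log (pow_pos h.D_pos' _) (h.D_pow_le' le_rfl)
  rw [Real.log_pow] at h1
  exact_mod_cast h1

lemma logN_ge (h : Hyp D N) : (10 : ℝ) ^ 5 ≤ Real.log N := by
  have h1 := h.logN_ge_logD
  have h2 := h.logD_ge
  norm_num
  linarith

lemma tau_le (h : Hyp D N) : (D.divisors.card : ℝ) ≤ D := by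
  exact_mod_cast Nat.card_divisors_le_self D

lemma logN_pow_le (h : Hyp D N) : Real.log N ^ 40 ≤ D := le_trans h.tau h.tau_le

lemma logN_pow_le' (h : Hyp D N) {k : ℕ} (hk : k ≤ 40) : Real.log N ^ k ≤ D := by
  refine le_trans ?_ h.logN_pow_le
  apply pow_le_pow_right₀ _ hk
  have := h.logN_ge
  linarith [show (1 : ℝ) ≤ 10 ^ 5 by norm_num]

lemma tau_pos (h : Hyp D N) : (0 : ℝ) < (D.divisors.card : ℝ) := by
  have : 0 < D.divisors.card := Finset.card_pos.mpr ⟨1, by simp [h.D_ne]⟩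
  exact_mod_cast this

/-- `W = W0 D ≤ D^2` (in fact much smaller) -/
lemma WW_le (h : Hyp D N) : WW D ≤ D ^ 2 := by
  unfold WW
  rw [sq]
  exact Nat.mul_le_mul_right _ h.W0_le

/-- `C W0^i D^j ≤ D^(j+1)` for `C ≤ 10^50`, `i ≤ 50` -/
lemma const_mul_le (h : Hyp D N) {C i : ℕ} (hC : C ≤ 10 ^ 100) (hi : i ≤ 100) :
    C * W0 ^ i ≤ D := by
  calc C * W0 ^ i ≤ 10 ^ 100 * W0 ^ 100 :=
        Nat.mul_le_mul hC (Nat.pow_le_pow_right W0_pos hi)
    _ = W0 ^ 100 * 10 ^ 100 := by ring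
    _ ≤ D := h.big

lemma WW_coprime_prime (h : Hyp D N) {v : ℕ} (hv : v.Prime) (hNv : N < v) :
    Nat.Coprime v (WW D) := by
  have h1 : 0 < WW D := h.WW_pos
  have h2 : WW D < v := by
    have h3 := h.WW_le
    have h4 := h.D_pow_le (k := 2) (by norm_num)
    omega
  rw [Nat.Prime.coprime_iff_not_dvd hv]
  intro hd
  exact absurd (Nat.le_of_dvd h1 hd) (by omega)

/-- `4 Z ≤ N^3` -/
lemma ZZ_le (h : Hyp D N) : 4 * ZZ D N ≤ N ^ 3 := by
  have h1 : 4 * W0 ^ 2 ≤ D := h.const_mul_le (by norm_num) (by norm_num)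
  have h2 : D ^ 304 ≤ N := h.D_pow_le (by norm_num)
  calc 4 * ZZ D N = (4 * W0 ^ 2) * D ^ 303 * N ^ 2 := by unfold ZZ UU WW; ring
    _ ≤ D * D ^ 303 * N ^ 2 := by gcongr
    _ = D ^ 304 * N ^ 2 := by ring
    _ ≤ N * N ^ 2 := by gcongr
    _ = N ^ 3 := by ring

lemma ZZ_ge (h : Hyp D N) : N ^ 2 * D ^ 303 ≤ ZZ D N := by
  have h1 : 1 ≤ W0 ^ 2 := Nat.one_le_pow _ _ W0_pos
  calc N ^ 2 * D ^ 303 = 1 * D ^ 303 * N ^ 2 := by ring
    _ ≤ (W0 ^ 2) * D ^ 303 * N ^ 2 := by gcongr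
    _ = ZZ D N := by unfold ZZ UU WW; ring

lemma ZZ_pos (h : Hyp D N) : 0 < ZZ D N :=
  lt_of_lt_of_le (Nat.mul_pos (pow_pos h.N_pos _) (pow_pos h.D_pos _)) h.ZZ_ge

end Hyp

end Pool.Agent.Lib.MP_9c2ea5_nt
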