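import Mathlib
import Pool.Agent.Lib.MP_9c2ea5_nt.Defs
import Pool.Agent.Lib.MP_9c2ea5_nt.AMain

/-!
# Theorem A (stream A, led by helper10): there are arbitrarily large good scales
-/

namespace Pool.Agent.Lib.MP_9c2ea5_nt

theorem theoremA (N0 : ℕ) : ∃ D N : ℕ, N0 ≤ N ∧ Hyp D N := An.theoremA N0

end Pool.Agent.Lib.MP_9c2ea5_nt
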