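import Mathlib
import Pool.Agent.Lib.MP_9c2ea5_nt.Defs

/-!
# L1: first properties of `h(r,n) = μ(gcd(r,n)) / φ(r/gcd(r,n))`

For coprime `r1, r2`: `gcd(r1 r2, n) = gcd(r1,n) gcd(r2,n)`, the two gcds are coprime, and
`r1 r2 / (g1 g2) = (r1/g1)(r2/g2)` with coprime factors; `μ` and `φ` are multiplicative.
`gcd(r,n)` only depends on `n` modulo `r`, and does not change if `n` is multiplied by a unit `B`.
-/

open Finset

namespace Pool.Agent.Lib.MP_9c2ea5_nt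

lemma hh_one (n : ℤ) : hh 1 n = 1 := by
  unfold hh
  simp

lemma hh_mul {r1 r2 : ℕ} (h1 : 0 < r1) (h2 : 0 < r2) (h : Nat.Coprime r1 r2) (n : ℤ) :
    hh (r1 * r2) n = hh r1 n * hh r2 n := by
  unfold hh
  have hg : Int.gcd ((r1 * r2 : ℕ) : ℤ) n = Int.gcd (r1 : ℤ) n * Int.gcd (r2 : ℤ) n := by
    rw [Int.gcd_eq_natAbs, Int.gcd_eq_natAbs, Int.gcd_eq_natAbs]
    simp only [Int.natAbs_natCast]
    exact Nat.Coprime.mul_gcd h n.natAbs
  rw [hg]
  set g1 := Int.gcd (r1 : ℤ) n with hg1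
  set g2 := Int.gcd (r2 : ℤ) n with hg2
  have hd1 : g1 ∣ r1 := by
    have := Int.gcd_dvd_left (a := (r1 : ℤ)) (b := n)
    exact_mod_cast this
  have hd2 : g2 ∣ r2 := by
    have := Int.gcd_dvd_left (a := (r2 : ℤ)) (b := n)
    exact_mod_cast this
  have hcg : Nat.Coprime g1 g2 := Nat.Coprime.of_dvd hd1 hd2 h
  have hcq : Nat.Coprime (r1 / g1) (r2 / g2) :=
    Nat.Coprime.of_dvd (Nat.div_dvd_of_dvd hd1) (Nat.div_dvd_of_dvd hd2) h
  have hdiv : r1 * r2 / (g1 * g2) = (r1 / g1) * (r2 / g2) := Nat.mul_div_mul_comm hd1 hd2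
  rw [hdiv, Nat.totient_mul hcq,
    ArithmeticFunction.isMultiplicative_moebius.map_mul_of_coprime hcg]
  push_cast
  exact (div_mul_div_comm _ _ _ _).symm

lemma hh_prime {l : ℕ} (hl : l.Prime) (n : ℤ) :
    hh l n = if (l : ℤ) ∣ n then -1 else 1 / ((l : ℝ) - 1) := by
  unfold hh
  split_ifs with hd
  · have : Int.gcd (l : ℤ) n = l := by
      rw [Int.gcd_eq_natAbs]
      simp only [Int.natAbs_natCast]
      exact Nat.gcd_eq_left (Int.natCast_dvd.mp hd)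
    rw [this, Nat.div_self hl.pos, ArithmeticFunction.moebius_apply_prime hl]
    simp
  · have : Int.gcd (l : ℤ) n = 1 := by
      rw [Int.gcd_eq_natAbs]
      simp only [Int.natAbs_natCast]
      have h1 : ¬ l ∣ n.natAbs := fun h => hd (Int.natCast_dvd.mpr h)
      exact (Nat.Prime.coprime_iff_not_dvd hl).mpr h1
    rw [this, Nat.div_one, Nat.totient_prime hl]
    have h1 : 1 ≤ l := hl.one_lt.le
    push_cast [Nat.cast_sub h1]
    simp

lemma gcd_congr_aux {r : ℕ} {n n' : ℤ} (h : (r : ℤ) ∣ n - n') :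
    Int.gcd (r : ℤ) n = Int.gcd (r : ℤ) n' := by
  obtain ⟨k, hk⟩ := h
  have : n = n' + (r : ℤ) * k := by linarith
  rw [this]
  exact Int.gcd_add_mul_left_right _ _ _

lemma hh_congr {r : ℕ} {n n' : ℤ} (h : (r : ℤ) ∣ n - n') : hh r n = hh r n' := by
  unfold hh
  rw [gcd_congr_aux h]

lemma hh_unit_mul {r : ℕ} {B : ℤ} (hB : Int.gcd r B = 1) (n : ℤ) : hh r (B * n) = hh r n := by
  unfold hh
  have : Int.gcd (r : ℤ) (B * n) = Int.gcd (r : ℤ) n := by
    rw [Int.gcd_eq_natAbs, Int.gcd_eq_natAbs, Int.natAbs_mul]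
    rw [Int.gcd_eq_natAbs] at hB
    exact Nat.Coprime.gcd_mul_left_cancel_right n.natAbs (Nat.Coprime.symm hB)
  rw [this]

/-- `|μ| ≤ 1` -/
lemma abs_hh_le (r : ℕ) (n : ℤ) :
    |hh r n| ≤ 1 / (Nat.totient (r / Int.gcd r n) : ℝ) := by
  unfold hh
  rw [abs_div, abs_of_nonneg (a := ((Nat.totient (r / Int.gcd (r : ℤ) n) : ℕ) : ℝ)) (Nat.cast_nonneg _)]
  apply div_le_div_of_nonneg_right _ (Nat.cast_nonneg _)
  have := ArithmeticFunction.abs_moebius_le_one (n := Int.gcd (r : ℤ) n)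
  exact_mod_cast this

/-- `r / gcd ≥ 1`, so its totient is at least one -/
lemma abs_hh_le_one {r : ℕ} (hr : 0 < r) (n : ℤ) : |hh r n| ≤ 1 := by
  refine (abs_hh_le r n).trans ?_
  have hd : Int.gcd (r : ℤ) n ∣ r := by
    have := Int.gcd_dvd_left (a := (r : ℤ)) (b := n)
    exact_mod_cast this
  have h1 : 0 < r / Int.gcd (r : ℤ) n := Nat.div_pos (Nat.le_of_dvd hr hd)
    (Nat.pos_of_dvd_of_pos hd hr)
  have h2 : 1 ≤ Nat.totient (r / Int.gcd (r : ℤ) n) := Nat.totient_pos.mpr h1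
  rw [div_le_one (by exact_mod_cast h2)]
  exact_mod_cast h2

end Pool.Agent.Lib.MP_9c2ea5_nt
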