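import Mathlib
import Pool.Agent.Lib.MP_9c2ea5_nt.L1

/-!
# L2: sums of `h(r, ·)` over progressions

* complete residue system: `∑_{j mod r} h(r,j) = ∑_{g | r} #{j : gcd = g} μ(g)/φ(r/g)
  = ∑_{g | r} φ(r/g) μ(g)/φ(r/g) = ∑_{g | r} μ(g) = 0` for `r > 1`
  (`Nat.filter_gcd... card` : the number of `j < r` with `gcd(r,j) = g` is `φ(r/g)`,
  cf. `Nat.totient_div_of_dvd`/`Nat.filter_gcd_eq_..`);
* if `gcd(m,r) = 1` then `t ↦ c + m t` permutes the residues mod `r`;
* if `r` is squarefree and does not divide `m`, put `g = gcd(r,m)`, `r = g r'`, `r' > 1`,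
  `gcd(r', m) = 1`, `gcd(g,r') = 1`; `h(r, c+mt) = h(g, c) h(r', c+mt)` and a sum over any `r'`
  consecutive `t` vanishes, so a sum over `t < n` is a sum of at most `r' ≤ r` terms of
  absolute value at most `1`.
-/

open Finset

namespace Pool.Agent.Lib.MP_9c2ea5_nt

private lemma L2_sum_moebius {r : ℕ} (hr : 1 < r) :
    ∑ g ∈ r.divisors, ((ArithmeticFunction.moebius g : ℤ) : ℝ) = 0 := by
  have h : (ArithmeticFunction.moebius * (ArithmeticFunction.zeta : ArithmeticFunction ℤ)) r =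
      (1 : ArithmeticFunction ℤ) r := by
    rw [ArithmeticFunction.moebius_mul_coe_zeta]
  rw [ArithmeticFunction.coe_mul_zeta_apply, ArithmeticFunction.one_apply_ne hr.ne'] at h
  rw [← Int.cast_sum, h, Int.cast_zero]

lemma sum_hh_range {r : ℕ} (hr : 1 < r) : ∑ j ∈ range r, hh r j = 0 := by
  have hr0 : r ≠ 0 := by omega
  have hmaps : ∀ j ∈ range r, r.gcd j ∈ r.divisors := fun j _ =>
    Nat.mem_divisors.2 ⟨Nat.gcd_dvd_left r j, hr0⟩
  rw [← Finset.sum_fiberwise_of_maps_to hmaps, ← L2_sum_moebius hr]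
  refine Finset.sum_congr rfl fun g hg => ?_
  have hgr : g ∣ r := Nat.dvd_of_mem_divisors hg
  have hpos : 0 < Nat.totient (r / g) :=
    Nat.totient_pos.2 (Nat.div_pos (Nat.le_of_dvd (by omega) hgr)
      (Nat.pos_of_mem_divisors hg))
  have e : ∀ j ∈ (range r).filter (fun j => r.gcd j = g), hh r j =
      ((ArithmeticFunction.moebius g : ℤ) : ℝ) / (Nat.totient (r / g) : ℝ) := by
    intro j hj
    have h2 : r.gcd j = g := (Finset.mem_filter.1 hj).2
    have h3 : Int.gcd (r : ℤ) (j : ℤ) = g := by rw [Int.gcd_natCast_natCast, h2]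
    unfold hh
    rw [h3]
  rw [Finset.sum_congr rfl e, Finset.sum_const, ← Nat.totient_div_of_dvd hgr, nsmul_eq_mul]
  field_simp

lemma sum_hh_ap {r m : ℕ} (hr : 1 < r) (hco : Nat.Coprime m r) (c : ℤ) :
    ∑ t ∈ range r, hh r (c + m * t) = 0 := by
  have hr0 : (r : ℤ) ≠ 0 := by
    have : r ≠ 0 := by omega
    exact_mod_cast this
  have hrp : (0 : ℤ) < r := by omega
  set i : ℕ → ℕ := fun t => ((c + m * t) % r).toNat with hi
  have hival : ∀ t : ℕ, ((i t : ℕ) : ℤ) = (c + m * t) % r := fun t =>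
    Int.toNat_of_nonneg (Int.emod_nonneg _ hr0)
  have hmem : ∀ t ∈ range r, i t ∈ range r := by
    intro t _
    have h1 : ((i t : ℕ) : ℤ) < r := by rw [hival]; exact Int.emod_lt_of_pos _ hrp
    exact Finset.mem_range.2 (by exact_mod_cast h1)
  have hinj : Set.InjOn i (range r : Finset ℕ) := by
    intro t ht t' ht' he
    have ht1 := Finset.mem_range.1 (Finset.mem_coe.1 ht)
    have ht2 := Finset.mem_range.1 (Finset.mem_coe.1 ht')
    have h1 : (c + m * t) % r = (c + m * t') % (r : ℤ) := by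
      rw [← hival, ← hival, he]
    have h2 : (r : ℤ) ∣ (c + m * t) - (c + m * t') :=
      Int.ModEq.dvd (show (c + m * t') ≡ (c + m * t) [ZMOD r] from h1.symm)
    have h3 : (r : ℤ) ∣ m * ((t : ℤ) - t') := by
      have e : (c + m * t) - (c + m * t') = m * ((t : ℤ) - t') := by ring
      rwa [e] at h2
    have h4 : (r : ℤ) ∣ ((t : ℤ) - t') := by
      have hc : IsCoprime (r : ℤ) (m : ℤ) := Nat.isCoprime_iff_coprime.2 hco.symm
      exact hc.dvd_of_dvd_mul_left h3
    obtain ⟨k, hk⟩ := h4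
    have hk0 : k = 0 := by
      by_contra hne
      have : 1 ≤ |k| := Int.one_le_abs hne
      have h5 : |(t : ℤ) - t'| = r * |k| := by rw [hk, abs_mul, abs_of_pos hrp]
      have h6 : |(t : ℤ) - t'| < r := by
        rw [abs_lt]; constructor <;> omega
      nlinarith
    rw [hk0, mul_zero] at hk
    omega
  have himg : (range r).image i = range r := by
    refine Finset.eq_of_subset_of_card_le (fun x hx => ?_) ?_
    · obtain ⟨t, ht, rfl⟩ := Finset.mem_image.1 hx
      exact hmem t ht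
    · rw [Finset.card_image_of_injOn hinj]
  have hval : ∀ t ∈ range r, hh r (c + m * t) = hh r ((i t : ℕ) : ℤ) := by
    intro t _
    apply hh_congr
    rw [hival]
    exact Int.dvd_self_sub_emod
  rw [Finset.sum_congr rfl hval]
  have h7 := Finset.sum_image (s := range r) (g := i) (f := fun j : ℕ => hh r (j : ℤ)) hinj
  rw [himg] at h7
  rw [← h7]
  exact sum_hh_range hr

lemma abs_sum_hh_ap_le {r m : ℕ} (hr : Squarefree r) (hm : ¬ r ∣ m) (c : ℤ) (n : ℕ) :
    |∑ t ∈ range n, hh r (c + m * t)| ≤ r := by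
  have hr0 : r ≠ 0 := hr.ne_zero
  obtain ⟨r', hr'⟩ : r.gcd m ∣ r := Nat.gcd_dvd_left r m
  set g := r.gcd m with hg
  have hg0 : 0 < g := Nat.gcd_pos_of_pos_left m (Nat.pos_of_ne_zero hr0)
  have hr'0 : 0 < r' := by
    rcases Nat.eq_zero_or_pos r' with h | h
    · rw [h, mul_zero] at hr'; exact absurd hr' hr0
    · exact h
  have hcop : Nat.Coprime g r' := by
    rw [hr'] at hr
    exact Nat.coprime_of_squarefree_mul hr
  have hr'1 : 1 < r' := by
    by_contra h
    have h1 : r' = 1 := by omega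
    rw [h1, mul_one] at hr'
    exact hm (hr' ▸ Nat.gcd_dvd_right r m)
  have hco : Nat.Coprime m r' := by
    rw [Nat.coprime_iff_gcd_eq_one]
    have h1 : m.gcd r' ∣ g := Nat.dvd_gcd ((Nat.gcd_dvd_right m r').trans ⟨g, by rw [hr']; ring⟩)
      (Nat.gcd_dvd_left m r')
    have h2 : m.gcd r' ∣ g.gcd r' := Nat.dvd_gcd h1 (Nat.gcd_dvd_right m r')
    rw [hcop] at h2
    exact Nat.dvd_one.1 h2
  have hgm : (g : ℤ) ∣ (m : ℤ) := Int.natCast_dvd_natCast.2 (Nat.gcd_dvd_right r m)
  have hfac : ∀ t : ℕ, hh r (c + m * t) = hh g c * hh r' (c + m * t) := by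
    intro t
    have h1 : hh g (c + m * t) = hh g c := by
      apply hh_congr
      have e : c + m * t - c = (m : ℤ) * t := by ring
      rw [e]
      exact hgm.mul_right _
    conv_lhs => rw [hr', hh_mul hg0 hr'0 hcop, h1]
  set S : ℕ → ℝ := fun k => ∑ t ∈ range k, hh r' (c + m * t) with hS
  have hper : ∀ k, S (k + r') = S k := by
    intro k
    simp only [hS]
    rw [Finset.sum_range_add]
    have h2 : ∑ x ∈ range r', hh r' (c + m * ((k + x : ℕ) : ℤ)) = 0 := by
      rw [← sum_hh_ap hr'1 hco (c + m * k)]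
      refine Finset.sum_congr rfl fun x _ => ?_
      congr 1
      push_cast
      ring
    rw [h2, add_zero]
  have hmul : ∀ q s : ℕ, S (s + r' * q) = S s := by
    intro q s
    induction q with
    | zero => simp
    | succ q ih =>
      have e : s + r' * (q + 1) = (s + r' * q) + r' := by ring
      rw [e, hper, ih]
  have hSn : S n = S (n % r') := by
    conv_lhs => rw [← Nat.mod_add_div n r']
    exact hmul _ _
  have hSle : |S (n % r')| ≤ r' := by
    calc |S (n % r')| ≤ ∑ t ∈ range (n % r'), |hh r' (c + m * t)| := Finset.abs_sum_le_sum_abs _ _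
      _ ≤ ∑ t ∈ range (n % r'), (1 : ℝ) := Finset.sum_le_sum fun t _ => abs_hh_le_one hr'0 _
      _ = ((n % r' : ℕ) : ℝ) := by simp
      _ ≤ r' := by exact_mod_cast (Nat.mod_lt n hr'0).le
  have e1 : ∑ t ∈ range n, hh r (c + m * t) = hh g c * S n := by
    rw [hS, Finset.mul_sum]
    exact Finset.sum_congr rfl fun t _ => hfac t
  rw [e1, abs_mul, hSn]
  have h3 : (r' : ℝ) ≤ r := by
    have : r' ≤ r := Nat.le_of_dvd (Nat.pos_of_ne_zero hr0) ⟨g, by rw [hr']; ring⟩
    exact_mod_cast this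
  calc |hh g c| * |S (n % r')| ≤ 1 * r' :=
        mul_le_mul (abs_hh_le_one hg0 c) hSle (abs_nonneg _) zero_le_one
    _ ≤ r := by rw [one_mul]; exact h3

end Pool.Agent.Lib.MP_9c2ea5_nt
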