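import Mathlib
import Pool.Agent.Lib.MP_9c2ea5_nt.L1

/-!
# L3: the sum of `h(r,c)` over the divisors `r` of `m`

Let `W ∣ m`, `c ≡ 1 mod W`, and assume that all squarefree divisors `r` of `m` prime to `W` are
`≤ Q`.  The index set is the set of products of subsets of
`S = m.primeFactors \ W.primeFactors`, so by multiplicativity the sum is
`∏_{l ∈ S} (1 + h(l,c))`, and `1 + h(l,c) = 0` if `l ∣ c`, `= l/(l-1)` otherwise.
If `gcd(c,m) = 1` this is `∏_{l ∈ S} l/(l-1) = (m/φ(m)) / (W/φ(W))`.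
If a prime `l` divides `gcd(c,m)` then `l ∤ W` because `c ≡ 1 mod W`, so the product is `0`.

Hints: `Finset.prod_one_add`/`Finset.prod_add_one` expands the product over subsets;
the bijection subsets `T ⊆ S` ↔ squarefree divisors is `T ↦ ∏ T` with inverse `primeFactors`
(`Nat.prod_primeFactors_of_squarefree`).  `φ(m)/m = ∏_{p ∈ m.primeFactors} (1 - 1/p)` is
`Nat.totient_eq_mul_prod_factors`.
-/

open Finset

namespace Pool.Agent.Lib.MP_9c2ea5_nt

private lemma L3_coprime_prod {T : Finset ℕ} (hT : ∀ p ∈ T, p.Prime) {p : ℕ} (hp : p.Prime)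
    (hpT : p ∉ T) : Nat.Coprime p (∏ q ∈ T, q) := by
  refine Nat.Coprime.prod_right fun q hq => ?_
  exact (Nat.coprime_primes hp (hT q hq)).2 fun h => hpT (h ▸ hq)

private lemma L3_hh_prod (c : ℤ) (T : Finset ℕ) (hT : ∀ p ∈ T, p.Prime) :
    hh (∏ p ∈ T, p) c = ∏ p ∈ T, hh p c := by
  induction T using Finset.induction_on with
  | empty => simp [hh_one]
  | insert a s ha ih =>
    have hs : ∀ p ∈ s, p.Prime := fun p hp => hT p (Finset.mem_insert_of_mem hp)
    have hap : a.Prime := hT a (Finset.mem_insert_self a s)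
    rw [Finset.prod_insert ha, Finset.prod_insert ha,
      hh_mul hap.pos (Finset.prod_pos fun p hp => (hs p hp).pos) (L3_coprime_prod hs hap ha),
      ih hs]

private lemma L3_squarefree_prod (T : Finset ℕ) (hT : ∀ p ∈ T, p.Prime) :
    Squarefree (∏ p ∈ T, p) := by
  induction T using Finset.induction_on with
  | empty => simp
  | insert a s ha ih =>
    have hs : ∀ p ∈ s, p.Prime := fun p hp => hT p (Finset.mem_insert_of_mem hp)
    have hap : a.Prime := hT a (Finset.mem_insert_self a s)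
    rw [Finset.prod_insert ha, Nat.squarefree_mul (L3_coprime_prod hs hap ha)]
    exact ⟨hap.squarefree, ih hs⟩

private lemma L3_ratio {n : ℕ} (hn : 0 < n) :
    (n : ℝ) / (Nat.totient n : ℝ) = ∏ p ∈ n.primeFactors, ((p : ℝ) / ((p : ℝ) - 1)) := by
  have h1 : (Nat.totient n : ℝ) = n * ∏ p ∈ n.primeFactors, (1 - (p : ℝ)⁻¹) := by
    have := Nat.totient_eq_mul_prod_factors n
    have h2 : ((Nat.totient n : ℚ) : ℝ) =
        ((n * ∏ p ∈ n.primeFactors, (1 - (p : ℚ)⁻¹) : ℚ) : ℝ) := by rw [this]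
    push_cast at h2
    exact h2
  have hn0 : (n : ℝ) ≠ 0 := by positivity
  have h3 : (∏ p ∈ n.primeFactors, (1 - (p : ℝ)⁻¹)) *
      (∏ p ∈ n.primeFactors, ((p : ℝ) / ((p : ℝ) - 1))) = 1 := by
    rw [← Finset.prod_mul_distrib]
    refine Finset.prod_eq_one fun p hp => ?_
    have hp2 : (2 : ℝ) ≤ p := by exact_mod_cast (Nat.prime_of_mem_primeFactors hp).two_le
    have e1 : (p : ℝ) ≠ 0 := by linarith
    have e2 : (p : ℝ) - 1 ≠ 0 := by linarith
    field_simp
  rw [h1]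
  have h4 : (∏ p ∈ n.primeFactors, (1 - (p : ℝ)⁻¹)) ≠ 0 := by
    intro h; rw [h, zero_mul] at h3; exact zero_ne_one h3
  rw [div_eq_iff (mul_ne_zero hn0 h4)]
  calc (n : ℝ) = n * ((∏ p ∈ n.primeFactors, (1 - (p : ℝ)⁻¹)) *
        (∏ p ∈ n.primeFactors, ((p : ℝ) / ((p : ℝ) - 1)))) := by rw [h3, mul_one]
    _ = _ := by ring

lemma sum_hh_dvd (W Q m : ℕ) (hm : 0 < m) (hW : W ∣ m) (c : ℤ) (hc : (W : ℤ) ∣ c - 1)
    (hQ : ∀ r : ℕ, Squarefree r → r ∣ m → Nat.Coprime r W → r ≤ Q) :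
    ∑ r ∈ (RR W Q).filter (fun r => r ∣ m), hh r c =
      if Int.gcd c m = 1 then
        ((m : ℝ) / (Nat.totient m : ℝ)) / ((W : ℝ) / (Nat.totient W : ℝ)) else 0 := by
  have hW0 : 0 < W := Nat.pos_of_dvd_of_pos hW hm
  have hm0 : m ≠ 0 := hm.ne'
  set S : Finset ℕ := m.primeFactors \ W.primeFactors with hS
  have hSp : ∀ p ∈ S, p.Prime := fun p hp =>
    Nat.prime_of_mem_primeFactors (Finset.mem_sdiff.1 hp).1
  have hSW : ∀ p ∈ S, ¬ p ∣ W := fun p hp h =>
    (Finset.mem_sdiff.1 hp).2 (Nat.mem_primeFactors.2 ⟨hSp p hp, h, hW0.ne'⟩)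
  -- the sum as a product
  have key : ∑ r ∈ (RR W Q).filter (fun r => r ∣ m), hh r c = ∏ l ∈ S, (1 + hh l c) := by
    rw [Finset.prod_one_add]
    symm
    refine Finset.sum_bij (fun T _ => ∏ p ∈ T, p) ?_ ?_ ?_ ?_
    · intro T hT
      have hTS : T ⊆ S := Finset.mem_powerset.1 hT
      have hTp : ∀ p ∈ T, p.Prime := fun p hp => hSp p (hTS hp)
      have h1 : Squarefree (∏ p ∈ T, p) := L3_squarefree_prod T hTp
      have h2 : Nat.Coprime (∏ p ∈ T, p) W :=
        Nat.Coprime.prod_left fun p hp => ((hTp p hp).coprime_iff_not_dvd).2 (hSW p (hTS hp))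
      have h3 : (∏ p ∈ T, p) ∣ m := by
        refine (Finset.prod_dvd_prod_of_subset T m.primeFactors (fun p => p)
          (hTS.trans Finset.sdiff_subset)).trans (Nat.prod_primeFactors_dvd m)
      rw [Finset.mem_filter, RR, Finset.mem_filter, Finset.mem_Icc]
      exact ⟨⟨⟨Nat.pos_of_ne_zero h1.ne_zero, hQ _ h1 h3 h2⟩, h1, h2⟩, h3⟩
    · intro T hT T' hT' he
      have hTp : ∀ p ∈ T, p.Prime := fun p hp => hSp p (Finset.mem_powerset.1 hT hp)
      have hTp' : ∀ p ∈ T', p.Prime := fun p hp => hSp p (Finset.mem_powerset.1 hT' hp)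
      rw [← Nat.primeFactors_prod hTp, ← Nat.primeFactors_prod hTp']
      rw [he]
    · intro r hr
      rw [Finset.mem_filter, RR, Finset.mem_filter, Finset.mem_Icc] at hr
      obtain ⟨⟨_, hsq, hcop⟩, hrm⟩ := hr
      refine ⟨r.primeFactors, Finset.mem_powerset.2 fun p hp => ?_,
        Nat.prod_primeFactors_of_squarefree hsq⟩
      have hpp := Nat.prime_of_mem_primeFactors hp
      have hpr := Nat.dvd_of_mem_primeFactors hp
      refine Finset.mem_sdiff.2 ⟨Nat.mem_primeFactors.2 ⟨hpp, hpr.trans hrm, hm0⟩, fun h => ?_⟩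
      have h5 := Nat.dvd_gcd hpr (Nat.dvd_of_mem_primeFactors h)
      rw [hcop] at h5
      exact hpp.one_lt.ne' (Nat.dvd_one.1 h5)
    · intro T hT
      exact (L3_hh_prod c T fun p hp => hSp p (Finset.mem_powerset.1 hT hp)).symm
  rw [key]
  split_ifs with hg
  · have hterm : ∀ l ∈ S, 1 + hh l c = (l : ℝ) / ((l : ℝ) - 1) := by
      intro l hl
      have hlp := hSp l hl
      have hlc : ¬ (l : ℤ) ∣ c := by
        intro h
        have hlm : (l : ℤ) ∣ (m : ℤ) :=
          Int.natCast_dvd_natCast.2 (Nat.dvd_of_mem_primeFactors (Finset.mem_sdiff.1 hl).1)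
        have h6 := Int.dvd_coe_gcd h hlm
        rw [hg] at h6
        have : l ∣ 1 := by exact_mod_cast h6
        exact hlp.one_lt.ne' (Nat.dvd_one.1 this)
      rw [hh_prime hlp, if_neg hlc]
      have hp2 : (2 : ℝ) ≤ l := by exact_mod_cast hlp.two_le
      have e2 : (l : ℝ) - 1 ≠ 0 := by linarith
      field_simp
      ring
    rw [Finset.prod_congr rfl hterm, L3_ratio hm, L3_ratio hW0]
    have hsub : W.primeFactors ⊆ m.primeFactors := Nat.primeFactors_mono hW hm0
    have h7 := Finset.prod_sdiff hsub (f := fun p : ℕ => (p : ℝ) / ((p : ℝ) - 1))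
    rw [← h7]
    have h8 : (∏ p ∈ W.primeFactors, ((p : ℝ) / ((p : ℝ) - 1))) ≠ 0 := by
      refine Finset.prod_ne_zero_iff.2 fun p hp => ?_
      have hp2 : (2 : ℝ) ≤ p := by exact_mod_cast (Nat.prime_of_mem_primeFactors hp).two_le
      exact div_ne_zero (by linarith) (by linarith)
    rw [mul_div_assoc, div_self h8, mul_one]
  · obtain ⟨l, hlp, hl⟩ := Nat.exists_prime_and_dvd hg
    have hlc : (l : ℤ) ∣ c := (Int.natCast_dvd_natCast.2 hl).trans (Int.gcd_dvd_left c m)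
    have hlm : (l : ℤ) ∣ (m : ℤ) := (Int.natCast_dvd_natCast.2 hl).trans (Int.gcd_dvd_right c m)
    have hlW : ¬ l ∣ W := by
      intro h
      have h9 : (l : ℤ) ∣ c - 1 := (Int.natCast_dvd_natCast.2 h).trans hc
      have h10 : (l : ℤ) ∣ 1 := by
        have := dvd_sub hlc h9
        simpa using this
      have : l ∣ 1 := by exact_mod_cast h10
      exact hlp.one_lt.ne' (Nat.dvd_one.1 this)
    have hlS : l ∈ S := Finset.mem_sdiff.2
      ⟨Nat.mem_primeFactors.2 ⟨hlp, Int.natCast_dvd_natCast.1 hlm, hm0⟩,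
        fun h => hlW (Nat.dvd_of_mem_primeFactors h)⟩
    refine Finset.prod_eq_zero hlS ?_
    rw [hh_prime hlp, if_pos hlc]
    ring

end Pool.Agent.Lib.MP_9c2ea5_nt
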