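import Mathlib
import Pool.Agent.Lib.MP_9c2ea5_nt.L2
import Pool.Agent.Lib.MP_9c2ea5_nt.L3

/-!
# L4: the model `λ` in arithmetic progressions

`∑_{t<n} λ(c+mt) = κ ∑_{r ∈ RR} ∑_{t<n} h(r,c+mt)`, `κ = W/φ(W) ≤ W`.
For `r ∣ m` every term is `h(r,c)` (periodicity, `hh_congr`): these `r` give
`n κ ∑_{r ∣ m} h(r,c) = n (m/φ(m)) [gcd(c,m)=1]` by L3.  Every other `r` gives at most `r`
(`abs_sum_hh_ap_le`), and `∑_{r ≤ Q} r ≤ Q²`.
-/

open Finset

namespace Pool.Agent.Lib.MP_9c2ea5_nt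

/-- `W/φ(W) ≤ W` for `W > 0` -/
lemma kappa_le {W : ℕ} (hW : 0 < W) : (W : ℝ) / (Nat.totient W : ℝ) ≤ W := by
  have h1 : (1 : ℝ) ≤ (Nat.totient W : ℝ) := by exact_mod_cast Nat.totient_pos.2 hW
  exact div_le_self (by positivity) h1

/-- `κ > 0` -/
lemma kappa_pos {W : ℕ} (hW : 0 < W) : 0 < (W : ℝ) / (Nat.totient W : ℝ) := by
  have h1 : (0 : ℝ) < (Nat.totient W : ℝ) := by exact_mod_cast Nat.totient_pos.2 hW
  have h2 : (0 : ℝ) < W := by exact_mod_cast hW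
  positivity

private lemma L4_card_RR (W Q : ℕ) : ((RR W Q).card : ℝ) ≤ Q := by
  have h : (RR W Q).card ≤ (Icc 1 Q).card := Finset.card_filter_le _ _
  rw [Nat.card_Icc] at h
  exact_mod_cast (by omega : (RR W Q).card ≤ Q)

private lemma L4_mem_RR {W Q r : ℕ} (hr : r ∈ RR W Q) :
    1 ≤ r ∧ r ≤ Q ∧ Squarefree r ∧ Nat.Coprime r W := by
  rw [RR, Finset.mem_filter, Finset.mem_Icc] at hr
  exact ⟨hr.1.1, hr.1.2, hr.2.1, hr.2.2⟩

/-- Lemma 1 -/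
lemma lam_ap (W Q m : ℕ) (hm : 0 < m) (hW : W ∣ m) (c : ℤ) (hc : (W : ℤ) ∣ c - 1)
    (hQ : ∀ r : ℕ, Squarefree r → r ∣ m → Nat.Coprime r W → r ≤ Q) (n : ℕ) :
    |∑ t ∈ range n, lam W Q (c + m * t) -
        (if Int.gcd c m = 1 then (n : ℝ) * ((m : ℝ) / (Nat.totient m : ℝ)) else 0)| ≤
      (W : ℝ) * (Q : ℝ) ^ 2 := by
  have hW0 : 0 < W := Nat.pos_of_dvd_of_pos hW hm
  have hk := kappa_pos hW0
  set κ : ℝ := (W : ℝ) / (Nat.totient W : ℝ) with hκ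
  have h1 : ∑ t ∈ range n, lam W Q (c + m * t) =
      κ * ∑ r ∈ RR W Q, ∑ t ∈ range n, hh r (c + m * t) := by
    rw [Finset.sum_comm, Finset.mul_sum]
    rfl
  have h2 : ∑ r ∈ RR W Q, ∑ t ∈ range n, hh r (c + m * t) =
      ∑ r ∈ (RR W Q).filter (fun r => r ∣ m), ∑ t ∈ range n, hh r (c + m * t) +
      ∑ r ∈ (RR W Q).filter (fun r => ¬ r ∣ m), ∑ t ∈ range n, hh r (c + m * t) :=
    (Finset.sum_filter_add_sum_filter_not _ _ _).symm
  have h3 : ∑ r ∈ (RR W Q).filter (fun r => r ∣ m), ∑ t ∈ range n, hh r (c + m * t) =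
      n * ∑ r ∈ (RR W Q).filter (fun r => r ∣ m), hh r c := by
    rw [Finset.mul_sum]
    refine Finset.sum_congr rfl fun r hr => ?_
    have hrm : (r : ℤ) ∣ (m : ℤ) := Int.natCast_dvd_natCast.2 (Finset.mem_filter.1 hr).2
    have e : ∀ t ∈ range n, hh r (c + m * t) = hh r c := by
      intro t _
      apply hh_congr
      have e : c + m * t - c = (m : ℤ) * t := by ring
      rw [e]
      exact hrm.mul_right _
    rw [Finset.sum_congr rfl e, Finset.sum_const, Finset.card_range, nsmul_eq_mul]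
  have h4 : κ * (n * ∑ r ∈ (RR W Q).filter (fun r => r ∣ m), hh r c) =
      (if Int.gcd c m = 1 then (n : ℝ) * ((m : ℝ) / (Nat.totient m : ℝ)) else 0) := by
    rw [sum_hh_dvd W Q m hm hW c hc hQ]
    split_ifs with hg
    · rw [← hκ]
      field_simp
    · ring
  have h5 : ∑ t ∈ range n, lam W Q (c + m * t) -
        (if Int.gcd c m = 1 then (n : ℝ) * ((m : ℝ) / (Nat.totient m : ℝ)) else 0) =
      κ * ∑ r ∈ (RR W Q).filter (fun r => ¬ r ∣ m), ∑ t ∈ range n, hh r (c + m * t) := by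
    rw [h1, h2, h3, ← h4]
    ring
  rw [h5, abs_mul, abs_of_pos hk]
  have h6 : |∑ r ∈ (RR W Q).filter (fun r => ¬ r ∣ m), ∑ t ∈ range n, hh r (c + m * t)| ≤
      (Q : ℝ) ^ 2 := by
    calc |∑ r ∈ (RR W Q).filter (fun r => ¬ r ∣ m), ∑ t ∈ range n, hh r (c + m * t)|
        ≤ ∑ r ∈ (RR W Q).filter (fun r => ¬ r ∣ m), |∑ t ∈ range n, hh r (c + m * t)| :=
          Finset.abs_sum_le_sum_abs _ _
      _ ≤ ∑ r ∈ (RR W Q).filter (fun r => ¬ r ∣ m), (Q : ℝ) := by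
          refine Finset.sum_le_sum fun r hr => ?_
          obtain ⟨hr1, hr2⟩ := Finset.mem_filter.1 hr
          obtain ⟨_, hrQ, hsq, _⟩ := L4_mem_RR hr1
          exact (abs_sum_hh_ap_le hsq hr2 c n).trans (by exact_mod_cast hrQ)
      _ = (((RR W Q).filter (fun r => ¬ r ∣ m)).card : ℝ) * Q := by
          rw [Finset.sum_const, nsmul_eq_mul]
      _ ≤ (Q : ℝ) * Q := by
          refine mul_le_mul_of_nonneg_right ?_ (by positivity)
          refine le_trans ?_ (L4_card_RR W Q)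
          exact_mod_cast Finset.card_filter_le _ _
      _ = (Q : ℝ) ^ 2 := by ring
  exact mul_le_mul (kappa_le hW0) h6 (abs_nonneg _) (by positivity)

/-- `|λ| ≤ κ #RR ≤ W Q` -/
lemma abs_lam_le (W Q : ℕ) (hW : 0 < W) (n : ℤ) : |lam W Q n| ≤ (W : ℝ) * Q := by
  unfold lam
  rw [abs_mul, abs_of_pos (kappa_pos hW)]
  refine mul_le_mul (kappa_le hW) ?_ (abs_nonneg _) (by positivity)
  calc |∑ r ∈ RR W Q, hh r n| ≤ ∑ r ∈ RR W Q, |hh r n| := Finset.abs_sum_le_sum_abs _ _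
    _ ≤ ∑ r ∈ RR W Q, (1 : ℝ) := Finset.sum_le_sum fun r hr => abs_hh_le_one (L4_mem_RR hr).1 n
    _ = ((RR W Q).card : ℝ) := by simp
    _ ≤ Q := L4_card_RR W Q

/-- Write `r = g r'` with `g = gcd(r,n)`: then `g ∈ RR`, `g ∣ n`, `r' ≤ Q`, and
`|h(r,n)| ≤ 1/φ(r')`; the map `r ↦ (g, r')` is injective. -/
lemma abs_lam_le_tau (W Q : ℕ) (hW : 0 < W) (n : ℤ) :
    |lam W Q n| ≤ ((W : ℝ) / (Nat.totient W : ℝ)) * (∑ r ∈ Icc 1 Q, 1 / (Nat.totient r : ℝ)) *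
      (((RR W Q).filter (fun g : ℕ => (g : ℤ) ∣ n)).card : ℝ) := by
  unfold lam
  rw [abs_mul, abs_of_pos (kappa_pos hW), mul_assoc]
  refine mul_le_mul_of_nonneg_left ?_ (kappa_pos hW).le
  set B := (RR W Q).filter (fun g : ℕ => (g : ℤ) ∣ n) with hB
  have hgd : ∀ r : ℕ, Int.gcd r n ∣ r := fun r =>
    Int.natCast_dvd_natCast.1 (Int.gcd_dvd_left (r : ℤ) n)
  have hinj : Set.InjOn (fun r : ℕ => (r / Int.gcd r n, Int.gcd r n)) (RR W Q : Finset ℕ) := by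
    intro r hr r' hr' he
    simp only [Prod.mk.injEq] at he
    rw [← Nat.div_mul_cancel (hgd r), ← Nat.div_mul_cancel (hgd r'), he.1, he.2]
  calc |∑ r ∈ RR W Q, hh r n| ≤ ∑ r ∈ RR W Q, |hh r n| := Finset.abs_sum_le_sum_abs _ _
    _ ≤ ∑ r ∈ RR W Q, 1 / (Nat.totient (r / Int.gcd r n) : ℝ) :=
        Finset.sum_le_sum fun r _ => abs_hh_le r n
    _ = ∑ x ∈ (RR W Q).image (fun r : ℕ => (r / Int.gcd r n, Int.gcd r n)),
          1 / (Nat.totient x.1 : ℝ) := by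
        rw [Finset.sum_image hinj]
    _ ≤ ∑ x ∈ Icc 1 Q ×ˢ B, 1 / (Nat.totient x.1 : ℝ) := by
        refine Finset.sum_le_sum_of_subset_of_nonneg ?_ fun _ _ _ => by positivity
        intro x hx
        obtain ⟨r, hr, rfl⟩ := Finset.mem_image.1 hx
        obtain ⟨hr1, hrQ, hsq, hcop⟩ := L4_mem_RR hr
        have hg0 : 0 < Int.gcd r n := Nat.pos_of_dvd_of_pos (hgd r) hr1
        refine Finset.mem_product.2 ⟨Finset.mem_Icc.2 ⟨?_, ?_⟩, ?_⟩
        · exact Nat.div_pos (Nat.le_of_dvd hr1 (hgd r)) hg0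
        · exact (Nat.div_le_self _ _).trans hrQ
        · refine Finset.mem_filter.2 ⟨?_, Int.gcd_dvd_right (r : ℤ) n⟩
          rw [RR, Finset.mem_filter, Finset.mem_Icc]
          exact ⟨⟨hg0, (Nat.le_of_dvd hr1 (hgd r)).trans hrQ⟩,
            hsq.squarefree_of_dvd (hgd r), Nat.Coprime.coprime_dvd_left (hgd r) hcop⟩
    _ = (∑ r ∈ Icc 1 Q, 1 / (Nat.totient r : ℝ)) * (B.card : ℝ) := by
        rw [Finset.sum_product, Finset.sum_mul]
        refine Finset.sum_congr rfl fun r _ => ?_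
        simp only [Finset.sum_const, nsmul_eq_mul]
        ring

end Pool.Agent.Lib.MP_9c2ea5_nt
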