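import Mathlib
import Pool.Agent.Lib.MP_9c2ea5_nt.Defs

/-!
# L5: the primes in arithmetic progressions

Lemma 2 of the notes.  If `gcd(c,m) = 1`, the numbers `c + m t`, `t < n`, are exactly the
`k ≡ c mod m` with `c - 1 < k ≤ c - 1 + m n`, so the sum is a difference of two sums as in `EQ`
(with the natural number `c.toNat`, `y = c-1+mn` and `y = c-1`, both `≤ Y`); the main terms give
`m n / φ(m)` and each error is at most `(Y+N)/D^1000`.
If `g = gcd(c,m) > 1` all terms are divisible by `g`, so at most one of them is prime (it must be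
equal to `g`, which divides `m`), and it contributes at most `log m` (the `c + m t` are distinct).
-/

open Finset

namespace Pool.Agent.Lib.MP_9c2ea5_nt

lemma thN_nonneg (n : ℕ) : 0 ≤ thN n := by
  unfold thN
  split_ifs
  · exact Real.log_natCast_nonneg n
  · exact le_rfl

/-- `θ(n) ≤ log n` -/
lemma thN_le_log (n : ℕ) : thN n ≤ Real.log n := by
  unfold thN
  split_ifs
  · exact le_rfl
  · exact Real.log_natCast_nonneg n

/-- one more term of the progression -/
lemma l5_step {m : ℕ} (hm : 0 < m) (c0 y : ℕ) (hy : y + 1 ≡ c0 [MOD m]) :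
    ∑ k ∈ (Ioc 0 (y + m)).filter (fun k => k ≡ c0 [MOD m]), thN k =
      ∑ k ∈ (Ioc 0 y).filter (fun k => k ≡ c0 [MOD m]), thN k + thN (y + 1) := by
  classical
  have h1 : (Ioc 0 (y + m)).filter (fun k => k ≡ c0 [MOD m]) =
      insert (y + 1) ((Ioc 0 y).filter (fun k => k ≡ c0 [MOD m])) := by
    ext k
    simp only [mem_filter, mem_Ioc, mem_insert]
    constructor
    · rintro ⟨⟨h0, h1⟩, h2⟩
      by_cases hk : k ≤ y
      · exact Or.inr ⟨⟨h0, hk⟩, h2⟩
      · left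
        have h3 : y + 1 ≡ k [MOD m] := hy.trans h2.symm
        have h4 : m ∣ k - (y + 1) := (Nat.modEq_iff_dvd' (by omega)).1 h3
        have h5 : k - (y + 1) = 0 := Nat.eq_zero_of_dvd_of_lt h4 (by omega)
        omega
    · rintro (rfl | ⟨⟨h0, h1⟩, h2⟩)
      · exact ⟨⟨by omega, by omega⟩, hy⟩
      · exact ⟨⟨h0, by omega⟩, h2⟩
  rw [h1, sum_insert, add_comm]
  simp

lemma l5_sum {m : ℕ} (hm : 0 < m) (c0 : ℕ) (hc : 1 ≤ c0) (n : ℕ) :
    ∑ k ∈ (Ioc 0 (c0 - 1 + m * n)).filter (fun k => k ≡ c0 [MOD m]), thN k =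
      ∑ k ∈ (Ioc 0 (c0 - 1)).filter (fun k => k ≡ c0 [MOD m]), thN k +
        ∑ t ∈ range n, thN (c0 + m * t) := by
  induction n with
  | zero => simp
  | succ n ih =>
    have h1 : c0 - 1 + m * n + 1 = c0 + m * n := by omega
    have h2 : c0 - 1 + m * n + 1 ≡ c0 [MOD m] := by
      rw [h1]
      simp [Nat.ModEq]
    have h3 : c0 - 1 + m * (n + 1) = c0 - 1 + m * n + m := by ring
    rw [h3, l5_step hm c0 _ h2, ih, sum_range_succ, h1, add_assoc]

lemma th_ap {D N : ℕ} (hEQ : EQ D N) (hD : 1 ≤ D) {m : ℕ} (hm : 0 < m) (hmD : m ≤ D ^ 6)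
    (c : ℤ) (hc : 1 ≤ c) (n Y : ℕ) (hY : c + m * n ≤ Y) (hYN : Y ≤ N ^ 3) :
    |∑ t ∈ range n, th (c + m * t) -
        (if Int.gcd c m = 1 then (n : ℝ) * ((m : ℝ) / (Nat.totient m : ℝ)) else 0)| ≤
      2 * ((Y : ℝ) + N) / (D : ℝ) ^ 1000 + Real.log m := by
  classical
  have hD0 : (0 : ℝ) < (D : ℝ) ^ 1000 := by
    have : (0 : ℝ) < D := by exact_mod_cast hD
    positivity
  have hlm : 0 ≤ Real.log m := Real.log_natCast_nonneg m
  obtain ⟨c0, rfl⟩ := Int.eq_ofNat_of_zero_le (by omega : (0 : ℤ) ≤ c)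
  have hc0 : 1 ≤ c0 := by exact_mod_cast hc
  have hY' : c0 + m * n ≤ Y := by exact_mod_cast hY
  have hth : ∀ t : ℕ, th ((c0 : ℤ) + m * t) = thN (c0 + m * t) := by
    intro t
    unfold th
    congr 1
  simp only [Int.ofNat_eq_natCast, hth]
  have hnn : 0 ≤ ((Y : ℝ) + N) / (D : ℝ) ^ 1000 := by positivity
  have hnn2 : 0 ≤ 2 * ((Y : ℝ) + N) / (D : ℝ) ^ 1000 := by positivity
  rw [Int.gcd_natCast_natCast]
  split_ifs with hg
  · have hcop : Nat.Coprime c0 m := hg
    have hs := l5_sum hm c0 hc0 n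
    have e1 := hEQ m c0 (c0 - 1 + m * n) hm hmD hcop (by omega)
    have e2 := hEQ m c0 (c0 - 1) hm hmD hcop (by omega)
    rw [hs] at e1
    set S := ∑ k ∈ (Ioc 0 (c0 - 1)).filter (fun k => k ≡ c0 [MOD m]), thN k with hS
    set T := ∑ t ∈ range n, thN (c0 + m * t) with hT
    have hy : ((c0 - 1 + m * n : ℕ) : ℝ) = ((c0 - 1 : ℕ) : ℝ) + (m : ℝ) * n := by push_cast; ring
    have h1 : T - (n : ℝ) * ((m : ℝ) / (Nat.totient m : ℝ)) =
        (S + T - ((c0 - 1 + m * n : ℕ) : ℝ) / (Nat.totient m : ℝ)) -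
          (S - ((c0 - 1 : ℕ) : ℝ) / (Nat.totient m : ℝ)) := by
      rw [hy]
      ring
    have b1 : (((c0 - 1 + m * n : ℕ) : ℝ) + N) / (D : ℝ) ^ 1000 ≤
        ((Y : ℝ) + N) / (D : ℝ) ^ 1000 := by
      have : ((c0 - 1 + m * n : ℕ) : ℝ) ≤ Y := by exact_mod_cast (by omega : c0 - 1 + m * n ≤ Y)
      gcongr
    have b2 : (((c0 - 1 : ℕ) : ℝ) + N) / (D : ℝ) ^ 1000 ≤
        ((Y : ℝ) + N) / (D : ℝ) ^ 1000 := by
      have : ((c0 - 1 : ℕ) : ℝ) ≤ Y := by
        exact_mod_cast (by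
          have : 0 ≤ m * n := Nat.zero_le _
          omega : c0 - 1 ≤ Y)
      gcongr
    have h2 : 2 * ((Y : ℝ) + N) / (D : ℝ) ^ 1000 =
        ((Y : ℝ) + N) / (D : ℝ) ^ 1000 + ((Y : ℝ) + N) / (D : ℝ) ^ 1000 := by ring
    rw [h1, h2]
    have h3 := abs_sub (S + T - ((c0 - 1 + m * n : ℕ) : ℝ) / (Nat.totient m : ℝ))
      (S - ((c0 - 1 : ℕ) : ℝ) / (Nat.totient m : ℝ))
    linarith
  · set g : ℕ := Nat.gcd c0 m with hgdef
    have hg0 : 0 < g := Nat.gcd_pos_of_pos_right c0 hm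
    have hterm : ∀ t : ℕ, thN (c0 + m * t) ≤ if c0 + m * t = g then Real.log m else 0 := by
      intro t
      unfold thN
      split_ifs with hp he he
      · have hle : g ≤ m := Nat.le_of_dvd hm (Nat.gcd_dvd_right c0 m)
        rw [he]
        exact Real.log_le_log (by exact_mod_cast hg0) (by exact_mod_cast hle)
      · exfalso
        have hdvd : g ∣ c0 + m * t :=
          dvd_add (Nat.gcd_dvd_left c0 m) (Dvd.dvd.mul_right (Nat.gcd_dvd_right c0 m) t)
        rcases (Nat.dvd_prime hp).1 hdvd with h | h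
        · exact hg h
        · exact he h.symm
      · exact hlm
      · exact le_rfl
    have hsum : ∑ t ∈ range n, thN (c0 + m * t) ≤ Real.log m := by
      refine (sum_le_sum fun t _ => hterm t).trans ?_
      rw [← sum_filter]
      rw [sum_const, nsmul_eq_mul]
      have hcard : ((range n).filter fun t => c0 + m * t = g).card ≤ 1 := by
        rw [card_le_one]
        intro a ha b hb
        rw [mem_filter] at ha hb
        have h1 : m * a = m * b := by omega
        exact Nat.eq_of_mul_eq_mul_left hm h1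
      have hcard' : (((range n).filter fun t => c0 + m * t = g).card : ℝ) ≤ 1 := by
        exact_mod_cast hcard
      nlinarith
    have hsum0 : 0 ≤ ∑ t ∈ range n, thN (c0 + m * t) := sum_nonneg fun t _ => thN_nonneg _
    rw [sub_zero, abs_of_nonneg hsum0]
    linarith

end Pool.Agent.Lib.MP_9c2ea5_nt
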