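import Mathlib
import Pool.Agent.Lib.MP_9c2ea5_nt.L4
import Pool.Agent.Lib.MP_9c2ea5_nt.L5

/-!
# L6: `f = θ - λ` has small sums over progressions  (Lemma 3: L4 and L5 together)
-/

open Finset

namespace Pool.Agent.Lib.MP_9c2ea5_nt

lemma ff_ap {D N : ℕ} (hEQ : EQ D N) (hD : 1 ≤ D) {m : ℕ} (hm : 0 < m) (hmD : m ≤ D ^ 6)
    (hW : WW D ∣ m) (hQ : ∀ r : ℕ, Squarefree r → r ∣ m → Nat.Coprime r (WW D) → r ≤ D ^ 2)
    (c : ℤ) (hc : 1 ≤ c) (hc' : (WW D : ℤ) ∣ c - 1)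
    (n Y : ℕ) (hY : c + m * n ≤ Y) (hYN : Y ≤ N ^ 3) :
    |∑ t ∈ range n, ff D (c + m * t)| ≤
      2 * ((Y : ℝ) + N) / (D : ℝ) ^ 1000 + Real.log m + (WW D : ℝ) * (D : ℝ) ^ 4 := by
  have h1 := lam_ap (WW D) (D ^ 2) m hm hW c hc' hQ n
  have h2 := th_ap hEQ hD hm hmD c hc n Y hY hYN
  have e1 : ∑ t ∈ range n, ff D (c + m * t) =
      (∑ t ∈ range n, th (c + m * t) -
        (if Int.gcd c m = 1 then (n : ℝ) * ((m : ℝ) / (Nat.totient m : ℝ)) else 0)) -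
      (∑ t ∈ range n, lam (WW D) (D ^ 2) (c + m * t) -
        (if Int.gcd c m = 1 then (n : ℝ) * ((m : ℝ) / (Nat.totient m : ℝ)) else 0)) := by
    unfold ff lamD
    rw [Finset.sum_sub_distrib]
    ring
  rw [e1]
  refine (abs_sub _ _).trans ?_
  have e2 : ((D ^ 2 : ℕ) : ℝ) ^ 2 = (D : ℝ) ^ 4 := by push_cast; ring
  rw [e2] at h1
  linarith

end Pool.Agent.Lib.MP_9c2ea5_nt
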