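import Mathlib

/-!
# P1: the fibres of `(u,v) ↦ d u + e v`  (Lemma 5)

Let `gcd(d,e) = 1`, `Δ = |d' e - e' d| > 0`.  For fixed `P` the pairs `(u,v)` of integers with
`d u + e v = P` are `(u₀ + e t, v₀ - d t)`.  If the fibre inside the box is empty there is nothing
to prove.  Otherwise let `(u₀,v₀)` be the element of the fibre with the smallest `u`; the fibre is
`{(u₀ + e t, v₀ - d t) : 0 ≤ t < n}` for some `n` (the box conditions `u₀ + e t ≤ M`,
`v₀ - d t > V` cut out an initial segment).  The argument of `G` is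
`(d' u₀ + e' v₀) + t (d' e - e' d)`, an arithmetic progression with step `± Δ`; all its terms are
between `1` (because `d' ≥ 1`, `u ≥ 1`) and `Y`.  If the step is negative reverse the order of
summation (`Finset.sum_range_reflect`).
-/

open Finset

namespace Pool.Agent.Lib.MP_9c2ea5_nt

/-- an arithmetic progression with positive or negative step -/
private lemma P1_ap (G : ℤ → ℝ) (ε : ℝ) (δ c : ℤ) (Y n : ℕ) (hn : 0 < n)
    (hG : ∀ (c : ℤ) (n : ℕ), 1 ≤ c →
      c + (Int.natAbs δ : ℤ) * n ≤ Y + (Int.natAbs δ : ℤ) →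
      |∑ t ∈ range n, G (c + (Int.natAbs δ : ℤ) * t)| ≤ ε)
    (h1 : ∀ t : ℕ, t < n → 1 ≤ c + δ * t) (h2 : ∀ t : ℕ, t < n → c + δ * t ≤ Y) :
    |∑ t ∈ range n, G (c + δ * t)| ≤ ε := by
  obtain ⟨m, rfl⟩ : ∃ m, n = m + 1 := ⟨n - 1, by omega⟩
  rcases le_total 0 δ with hδ | hδ
  · have hab : (Int.natAbs δ : ℤ) = δ := Int.natAbs_of_nonneg hδ
    have h := hG c (m + 1) (by simpa using h1 0 (by omega)) (by
      rw [hab]
      have := h2 m (by omega)
      push_cast
      linarith)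
    rw [hab] at h
    exact h
  · have hab : (Int.natAbs δ : ℤ) = -δ := Int.ofNat_natAbs_of_nonpos hδ
    have h := hG (c + δ * m) (m + 1) (h1 m (by omega)) (by
      rw [hab]
      have := h2 0 (by omega)
      push_cast
      push_cast at this
      linarith)
    rw [hab] at h
    rw [← Finset.sum_range_reflect]
    have e : ∀ j ∈ range (m + 1), G (c + δ * ((m + 1 - 1 - j : ℕ) : ℤ)) =
        G (c + δ * m + -δ * j) := by
      intro j hj
      rw [mem_range] at hj
      congr 1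
      rw [show m + 1 - 1 - j = m - j by omega, Nat.cast_sub (by omega)]
      ring
    rw [Finset.sum_congr rfl e]
    exact h

lemma fiber_le (d e d' e' : ℕ) (hd : 0 < d) (he : 0 < e) (hd' : 0 < d') (hco : Nat.Coprime d e)
    (hne : d' * e ≠ e' * d) (G : ℤ → ℝ) (ε : ℝ) (hε : 0 ≤ ε) (M V V' Y : ℕ)
    (hY : d' * M + e' * V' ≤ Y)
    (hG : ∀ (c : ℤ) (n : ℕ), 1 ≤ c →
      c + (Int.natAbs ((d' : ℤ) * e - e' * d) : ℤ) * n ≤
        Y + (Int.natAbs ((d' : ℤ) * e - e' * d) : ℤ) →
      |∑ t ∈ range n, G (c + (Int.natAbs ((d' : ℤ) * e - e' * d) : ℤ) * t)| ≤ ε) (P : ℕ) :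
    |∑ p ∈ ((Icc 1 M) ×ˢ (Ioc V V')).filter (fun p => d * p.1 + e * p.2 = P),
        G ((d' * p.1 + e' * p.2 : ℕ) : ℤ)| ≤ ε := by
  classical
  obtain ⟨S, hS⟩ : ∃ S, S = ((Icc 1 M) ×ˢ (Ioc V V')).filter
      (fun p : ℕ × ℕ => d * p.1 + e * p.2 = P) := ⟨_, rfl⟩
  rw [← hS]
  have hmem : ∀ p : ℕ × ℕ, p ∈ S ↔ ((1 ≤ p.1 ∧ p.1 ≤ M) ∧ (V < p.2 ∧ p.2 ≤ V')) ∧
      d * p.1 + e * p.2 = P := by
    intro p
    rw [hS]
    simp
  rcases S.eq_empty_or_nonempty with h0 | hne'
  · rw [h0]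
    simpa using hε
  obtain ⟨p0, hp0, hmin⟩ := S.exists_min_image (fun p => p.1) hne'
  obtain ⟨u0, v0⟩ := p0
  have hp0' := (hmem _).1 hp0
  simp only at hp0' hmin
  obtain ⟨⟨⟨hu1, hu2⟩, hv1, hv2⟩, hP0⟩ := hp0'
  -- the first index where a box condition fails
  have hex : ∃ t : ℕ, ¬ (u0 + e * t ≤ M ∧ V + d * t < v0) := by
    refine ⟨M + 1, fun h => ?_⟩
    have : 1 * (M + 1) ≤ e * (M + 1) := Nat.mul_le_mul_right _ he
    omega
  obtain ⟨n, hn⟩ : ∃ n, n = Nat.find hex := ⟨_, rfl⟩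
  have hlt : ∀ t, t < n → u0 + e * t ≤ M ∧ V + d * t < v0 := by
    intro t ht
    by_contra hcon
    exact Nat.find_min hex (hn ▸ ht) hcon
  have hge : ∀ t, n ≤ t → ¬ (u0 + e * t ≤ M ∧ V + d * t < v0) := by
    intro t ht h
    apply Nat.find_spec hex
    rw [← hn]
    have e1 : e * n ≤ e * t := Nat.mul_le_mul_left _ ht
    have e2 : d * n ≤ d * t := Nat.mul_le_mul_left _ ht
    omega
  have hn0 : 0 < n := by
    by_contra h
    have : n = 0 := by omega
    apply hge 0 (by omega)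
    simp
    omega
  have hSimg : S = (range n).image (fun t => (u0 + e * t, v0 - d * t)) := by
    ext p
    rw [Finset.mem_image]
    constructor
    · intro hp
      have hp' := (hmem p).1 hp
      obtain ⟨⟨⟨a1, a2⟩, a3, a4⟩, a5⟩ := hp'
      have hu := hmin p hp
      obtain ⟨w, hw⟩ : ∃ w, p.1 = u0 + w := ⟨p.1 - u0, by omega⟩
      have hdw : d * w + e * p.2 = e * v0 := by
        have : d * (u0 + w) + e * p.2 = d * u0 + e * v0 := by rw [← hw, a5, hP0]
        rw [mul_add] at this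
        omega
      have hew : e ∣ w := by
        have h1 : e ∣ d * w := by
          rw [← Nat.dvd_add_left (Dvd.intro p.2 rfl : e ∣ e * p.2), hdw]
          exact Dvd.intro _ rfl
        exact (Nat.Coprime.dvd_mul_left hco.symm).1 h1
      obtain ⟨t, rfl⟩ := hew
      have hv : d * t + p.2 = v0 := by
        have : e * (d * t + p.2) = e * v0 := by rw [← hdw]; ring
        exact Nat.eq_of_mul_eq_mul_left he this
      refine ⟨t, ?_, ?_⟩
      · rw [mem_range]
        by_contra hcon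
        apply hge t (by omega)
        constructor
        · omega
        · omega
      · apply Prod.ext
        · simp only
          omega
        · simp only
          omega
    · rintro ⟨t, ht, rfl⟩
      rw [mem_range] at ht
      obtain ⟨b1, b2⟩ := hlt t ht
      rw [hmem]
      simp only
      refine ⟨⟨⟨by omega, b1⟩, by omega, by omega⟩, ?_⟩
      have h3 : e * (v0 - d * t) + e * (d * t) = e * v0 := by
        rw [← mul_add]
        congr 1
        omega
      have h4 : d * (u0 + e * t) = d * u0 + e * (d * t) := by ring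
      omega
  have hinj : Set.InjOn (fun t => (u0 + e * t, v0 - d * t)) (range n : Set ℕ) := by
    intro a _ b _ hab
    have h1 : u0 + e * a = u0 + e * b := (Prod.ext_iff.1 hab).1
    have h2 : e * a = e * b := by omega
    exact Nat.eq_of_mul_eq_mul_left he h2
  have hval : ∀ t, t < n → ((d' * (u0 + e * t) + e' * (v0 - d * t) : ℕ) : ℤ) =
      ((d' : ℤ) * u0 + e' * v0) + ((d' : ℤ) * e - e' * d) * t := by
    intro t ht
    obtain ⟨b1, b2⟩ := hlt t ht
    push_cast [Nat.cast_sub (show d * t ≤ v0 by omega)]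
    ring
  rw [hSimg, Finset.sum_image hinj]
  rw [Finset.sum_congr rfl (fun t ht => by rw [hval t (mem_range.1 ht)])]
  refine P1_ap G ε _ _ Y n hn0 hG ?_ ?_
  · intro t ht
    rw [← hval t ht]
    obtain ⟨b1, b2⟩ := hlt t ht
    have : 1 * 1 ≤ d' * (u0 + e * t) := Nat.mul_le_mul hd' (by omega)
    exact_mod_cast (by omega : 1 ≤ d' * (u0 + e * t) + e' * (v0 - d * t))
  · intro t ht
    rw [← hval t ht]
    obtain ⟨b1, b2⟩ := hlt t ht
    have h5 : d' * (u0 + e * t) ≤ d' * M := Nat.mul_le_mul_left _ b1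
    have h6 : e' * (v0 - d * t) ≤ e' * V' := Nat.mul_le_mul_left _ (by omega)
    exact_mod_cast (by omega : d' * (u0 + e * t) + e' * (v0 - d * t) ≤ Y)

end Pool.Agent.Lib.MP_9c2ea5_nt
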