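import Mathlib
import Pool.Agent.Lib.MP_9c2ea5_nt.P1

/-!
# P2: the bilinear sum over the box

Group the pairs by the value `P = d u + e v ∈ [0, d M + e V']`
(`Finset.sum_fiberwise_of_maps_to`); on the fibre `F` is constant, `|F P| ≤ B`, and the sum of `G`
over the fibre is at most `ε` in absolute value by P1.
-/

open Finset

namespace Pool.Agent.Lib.MP_9c2ea5_nt

lemma box_bilinear_le (d e d' e' : ℕ) (hd : 0 < d) (he : 0 < e) (hd' : 0 < d')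
    (hco : Nat.Coprime d e)
    (hne : d' * e ≠ e' * d) (F G : ℤ → ℝ) (B ε : ℝ) (hB : 0 ≤ B) (hε : 0 ≤ ε) (M V V' Y : ℕ)
    (hY : d' * M + e' * V' ≤ Y)
    (hF : ∀ P : ℕ, P ≤ d * M + e * V' → |F P| ≤ B)
    (hG : ∀ (c : ℤ) (n : ℕ), 1 ≤ c →
      c + (Int.natAbs ((d' : ℤ) * e - e' * d) : ℤ) * n ≤
        Y + (Int.natAbs ((d' : ℤ) * e - e' * d) : ℤ) →
      |∑ t ∈ range n, G (c + (Int.natAbs ((d' : ℤ) * e - e' * d) : ℤ) * t)| ≤ ε) :
    |∑ p ∈ (Icc 1 M) ×ˢ (Ioc V V'),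
        F ((d * p.1 + e * p.2 : ℕ) : ℤ) * G ((d' * p.1 + e' * p.2 : ℕ) : ℤ)| ≤
      ((d * M + e * V' : ℕ) + 1 : ℝ) * B * ε := by
  have hmaps : ∀ p ∈ (Icc 1 M) ×ˢ (Ioc V V'), d * p.1 + e * p.2 ∈ range (d * M + e * V' + 1) := by
    intro p hp
    rw [Finset.mem_product, Finset.mem_Icc, Finset.mem_Ioc] at hp
    rw [Finset.mem_range]
    have h1 : d * p.1 ≤ d * M := Nat.mul_le_mul_left _ hp.1.2
    have h2 : e * p.2 ≤ e * V' := Nat.mul_le_mul_left _ hp.2.2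
    omega
  rw [← Finset.sum_fiberwise_of_maps_to hmaps]
  refine (Finset.abs_sum_le_sum_abs _ _).trans ?_
  have hterm : ∀ P ∈ range (d * M + e * V' + 1),
      |∑ p ∈ ((Icc 1 M) ×ˢ (Ioc V V')).filter (fun p => d * p.1 + e * p.2 = P),
        F ((d * p.1 + e * p.2 : ℕ) : ℤ) * G ((d' * p.1 + e' * p.2 : ℕ) : ℤ)| ≤ B * ε := by
    intro P hP
    rw [Finset.mem_range] at hP
    have h1 : ∑ p ∈ ((Icc 1 M) ×ˢ (Ioc V V')).filter (fun p => d * p.1 + e * p.2 = P),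
        F ((d * p.1 + e * p.2 : ℕ) : ℤ) * G ((d' * p.1 + e' * p.2 : ℕ) : ℤ) =
        F (P : ℤ) * ∑ p ∈ ((Icc 1 M) ×ˢ (Ioc V V')).filter (fun p => d * p.1 + e * p.2 = P),
          G ((d' * p.1 + e' * p.2 : ℕ) : ℤ) := by
      rw [Finset.mul_sum]
      apply Finset.sum_congr rfl
      intro p hp
      rw [Finset.mem_filter] at hp
      rw [hp.2]
    rw [h1, abs_mul]
    apply mul_le_mul (hF P (by omega)) _ (abs_nonneg _) hB
    exact fiber_le d e d' e' hd he hd' hco hne G ε hε M V V' Y hY hG P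
  calc _ ≤ ∑ _P ∈ range (d * M + e * V' + 1), B * ε := Finset.sum_le_sum hterm
    _ = ((d * M + e * V' : ℕ) + 1 : ℝ) * B * ε := by
      rw [Finset.sum_const, Finset.card_range, nsmul_eq_mul]
      push_cast
      ring

end Pool.Agent.Lib.MP_9c2ea5_nt
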