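import Mathlib
import Pool.Agent.Lib.MP_9c2ea5_nt.Facts
import Pool.Agent.Lib.MP_9c2ea5_nt.L6
import Pool.Agent.Lib.MP_9c2ea5_nt.P2

/-!
# P3: the off-diagonal terms  (Lemma 6)

`d ≠ d'` divisors of the squarefree `D`, `e = D/d`, `e' = D/d'`, `Δ = |d' e - e' d|`.
* `gcd(d,e) = 1` since `D = d e` is squarefree;
* `d' e ≠ e' d` : multiply by `d d'`: `d' e = e' d` would give `d'² D = d² D`;
* `0 < Δ ≤ D²` (each product is at most `D · D`, both nonnegative).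
Apply `box_bilinear_le` with `M = 4U`, `V = N`, `V' = 2N`, `F P = G P = ff D (W P + 1)`
(`pd D d u v = W (d u + e v) + 1`), `Y = d' M + e' V' ≤ 6 D U`.
* `hG`: `ff_ap` with `m = W Δ` (`m ≤ W0 D · D² ≤ D^4 ≤ D^6`), `c := W c + 1`,
  `hQ`: a squarefree `r ∣ W Δ` prime to `W` divides `Δ`, so `r ≤ Δ ≤ D²`;
  `W (c + Δ n) + 1 ≤ W (6 D U + Δ) + 1 ≤ N D^303 =: Y'  (≤ N^3)`.  Hence one can take
  `ε = 2 (N D^303 + N)/D^1000 + log (D^4) + W D^4 ≤ N / D^690`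
  (`log m ≤ m ≤ D^4`, `W D^4 ≤ D^6`, `D^4000 ≤ N`).
* `hF`: `|ff| ≤ |θ| + |λ| ≤ log (N D^303) + W D² ≤ 2 D^4` (`log n ≤ 2 log N ≤ D`, `abs_lam_le`,
  `W D^2 = W0 D^3 ≤ D^4`).
* total `≤ (4 D U + 2 D N + 1) · 2 D^4 · N / D^690 ≤ 6 D N D^300 · 2 D^4 N / D^690 ≤ U N / D^2`.
-/

open Finset

namespace Pool.Agent.Lib.MP_9c2ea5_nt

/-- basic size bound for the linear form -/
lemma lin_le {D N : ℕ} (h : Hyp D N) {d u v : ℕ} (hd : d ∈ D.divisors)
    (hu : u ≤ 4 * UU D N) (hv : v ≤ 2 * N) : d * u + (D / d) * v ≤ 6 * (N * D ^ 301) := by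
  have hdD : d ≤ D := Nat.divisor_le hd
  have heD : D / d ≤ D := Nat.div_le_self _ _
  have h1 : d * u ≤ D * (4 * (N * D ^ 300)) := by
    have := Nat.mul_le_mul hdD hu
    simpa [UU] using this
  have h2 : (D / d) * v ≤ D * (2 * N) := Nat.mul_le_mul heD hv
  have h3 : D * (2 * N) ≤ 2 * (N * D ^ 301) := by
    have h4 : D ≤ D ^ 301 := Nat.le_self_pow (by norm_num) _
    calc D * (2 * N) = 2 * (N * D) := by ring
      _ ≤ 2 * (N * D ^ 301) := by gcongr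
  have h5 : D * (4 * (N * D ^ 300)) = 4 * (N * D ^ 301) := by ring
  omega

lemma lin_mul_le {D N : ℕ} (h : Hyp D N) {X : ℕ} (hX : X ≤ 7 * (N * D ^ 301)) :
    WW D * X + 1 ≤ N * D ^ 303 := by
  have h1 : 8 * W0 ^ 1 ≤ D := h.const_mul_le (by norm_num) (by norm_num)
  have h2 : 1 ≤ W0 * (N * D ^ 302) :=
    Nat.mul_pos W0_pos (Nat.mul_pos h.N_pos (pow_pos h.D_pos _))
  calc WW D * X + 1 ≤ WW D * (7 * (N * D ^ 301)) + W0 * (N * D ^ 302) := by
        gcongr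
    _ = (8 * W0 ^ 1) * (N * D ^ 302) := by unfold WW; ring
    _ ≤ D * (N * D ^ 302) := by gcongr
    _ = N * D ^ 303 := by ring

lemma ND_le {D N : ℕ} (h : Hyp D N) : N * D ^ 303 ≤ N ^ 2 := by
  have h2 : D ^ 303 ≤ N := h.D_pow_le (by norm_num)
  calc N * D ^ 303 ≤ N * N := by gcongr
    _ = N ^ 2 := by ring

/-- size of `p_d` on the box -/
lemma pd_le {D N : ℕ} (h : Hyp D N) {d : ℕ} (hd : d ∈ D.divisors) {u v : ℕ}
    (hu : u ≤ 4 * UU D N) (hv : v ≤ 2 * N) : pd D d u v ≤ ((N ^ 2 : ℕ) : ℤ) := by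
  unfold pd
  have h1 := lin_le h hd hu hv
  have h2 := lin_mul_le h (X := d * u + (D / d) * v) (by omega)
  exact_mod_cast h2.trans (ND_le h)

lemma abs_ff_le {D N : ℕ} (h : Hyp D N) {P : ℕ} (hP : P ≤ N ^ 2) (hP1 : 1 ≤ P) :
    |ff D (P : ℤ)| ≤ 2 * (D : ℝ) ^ 4 := by
  unfold ff
  have h1 : |th (P : ℤ)| ≤ 2 * D := by
    unfold th
    rw [Int.toNat_natCast, abs_of_nonneg (thN_nonneg _)]
    refine (thN_le_log _).trans ?_
    have h2 : Real.log P ≤ Real.log ((N : ℝ) ^ 2) := by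
      apply Real.log_le_log (by exact_mod_cast hP1)
      exact_mod_cast hP
    rw [Real.log_pow] at h2
    have h3 := h.logN_pow_le' (k := 1) (by norm_num)
    rw [pow_one] at h3
    push_cast at h2
    linarith
  have h2 : |lamD D (P : ℤ)| ≤ (D : ℝ) ^ 4 := by
    unfold lamD
    refine (abs_lam_le (WW D) (D ^ 2) h.WW_pos _).trans ?_
    have h3 : ((WW D : ℕ) : ℝ) ≤ (D : ℝ) ^ 2 := by exact_mod_cast h.WW_le
    push_cast
    calc (WW D : ℝ) * (D : ℝ) ^ 2 ≤ (D : ℝ) ^ 2 * (D : ℝ) ^ 2 := by gcongr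
      _ = (D : ℝ) ^ 4 := by ring
  have h3 : 2 * (D : ℝ) ≤ (D : ℝ) ^ 4 := by
    have h4 : (2 : ℝ) ≤ D := by
      have := h.D_ge'
      linarith [show (2 : ℝ) ≤ 10 ^ 100 by norm_num]
    have h5 : (D : ℝ) ≤ (D : ℝ) ^ 3 := by
      have := h.one_le_D
      calc (D : ℝ) = (D : ℝ) ^ 1 := (pow_one _).symm
        _ ≤ (D : ℝ) ^ 3 := pow_le_pow_right₀ this (by norm_num)
    calc 2 * (D : ℝ) ≤ (D : ℝ) * (D : ℝ) ^ 3 := by gcongr
      _ = (D : ℝ) ^ 4 := by ring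
  calc |th (P : ℤ) - lamD D (P : ℤ)| ≤ |th (P : ℤ)| + |lamD D (P : ℤ)| := abs_sub _ _
    _ ≤ 2 * (D : ℝ) ^ 4 := by linarith

lemma delta_le {D d d' : ℕ} (hd : d ∈ D.divisors) (hd' : d' ∈ D.divisors) :
    Int.natAbs ((d' : ℤ) * ((D / d : ℕ) : ℤ) - ((D / d' : ℕ) : ℤ) * d) ≤ D ^ 2 := by
  have h1 : d' * (D / d) ≤ D * D := Nat.mul_le_mul (Nat.divisor_le hd') (Nat.div_le_self _ _)
  have h2 : (D / d') * d ≤ D * D := Nat.mul_le_mul (Nat.div_le_self _ _) (Nat.divisor_le hd)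
  have h1' : (d' : ℤ) * ((D / d : ℕ) : ℤ) ≤ (D * D : ℕ) := by exact_mod_cast h1
  have h2' : ((D / d' : ℕ) : ℤ) * d ≤ (D * D : ℕ) := by exact_mod_cast h2
  have h3 : (0 : ℤ) ≤ (d' : ℤ) * ((D / d : ℕ) : ℤ) := by positivity
  have h4 : (0 : ℤ) ≤ ((D / d' : ℕ) : ℤ) * d := by positivity
  rw [sq]
  generalize (d' : ℤ) * ((D / d : ℕ) : ℤ) = a at *
  generalize ((D / d' : ℕ) : ℤ) * d = b at *
  generalize D * D = c at *
  omega

lemma hne_aux {D d d' : ℕ} (hD : 0 < D) (hd : d ∈ D.divisors) (hd' : d' ∈ D.divisors)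
    (hne : d ≠ d') : d' * (D / d) ≠ (D / d') * d := by
  intro heq
  have hd1 : d * (D / d) = D := Nat.mul_div_cancel' (Nat.dvd_of_mem_divisors hd)
  have hd2 : d' * (D / d') = D := Nat.mul_div_cancel' (Nat.dvd_of_mem_divisors hd')
  have h1 : D * d' ^ 2 = D * d ^ 2 := by
    calc D * d' ^ 2 = (d * (D / d)) * d' ^ 2 := by rw [hd1]
      _ = d * d' * (d' * (D / d)) := by ring
      _ = d * d' * ((D / d') * d) := by rw [heq]
      _ = (d' * (D / d')) * d ^ 2 := by ring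
      _ = D * d ^ 2 := by rw [hd2]
  have h2 := Nat.eq_of_mul_eq_mul_left hD h1
  exact hne (Nat.pow_left_injective (by norm_num : 2 ≠ 0) h2).symm

lemma offdiag {D N : ℕ} (h : Hyp D N) {d d' : ℕ} (hd : d ∈ D.divisors) (hd' : d' ∈ D.divisors)
    (hne : d ≠ d') :
    |∑ p ∈ box D N, ff D (pd D d p.1 p.2) * ff D (pd D d' p.1 p.2)| ≤
      ((UU D N : ℝ) * N) / (D : ℝ) ^ 2 := by
  have hDpos := h.D_pos
  have hd0 : 0 < d := Nat.pos_of_mem_divisors hd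
  have hd'0 : 0 < d' := Nat.pos_of_mem_divisors hd'
  have he0 : 0 < D / d := Nat.div_pos (Nat.divisor_le hd) hd0
  have hde : d * (D / d) = D := Nat.mul_div_cancel' (Nat.dvd_of_mem_divisors hd)
  have hco : Nat.Coprime d (D / d) := by
    have := h.sqf
    rw [← hde] at this
    exact (Nat.squarefree_mul_iff.mp this).1
  have hne' := hne_aux hDpos hd hd' hne
  set Δ : ℕ := Int.natAbs ((d' : ℤ) * ((D / d : ℕ) : ℤ) - ((D / d' : ℕ) : ℤ) * d) with hΔ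
  have hΔle : Δ ≤ D ^ 2 := delta_le hd hd'
  have hΔpos : 0 < Δ := by
    rw [hΔ, Int.natAbs_pos, sub_ne_zero]
    intro hh
    exact hne' (by exact_mod_cast hh)
  set F : ℤ → ℝ := fun P => ff D ((WW D : ℤ) * P + 1) with hF
  have hDr := h.one_le_D
  have hDr0 := h.D_pos'
  have hDbig : (10 : ℝ) ≤ D := by
    have := h.D_ge'
    linarith [show (10 : ℝ) ≤ 10 ^ 100 by norm_num]
  have hN0 := h.N_pos'
  have hWle : ((WW D : ℕ) : ℝ) ≤ (D : ℝ) ^ 2 := by exact_mod_cast h.WW_le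
  have key := box_bilinear_le d (D / d) d' (D / d') hd0 he0 hd'0 hco hne' F F
    (2 * (D : ℝ) ^ 4) ((N : ℝ) / (D : ℝ) ^ 690) (by positivity) (by positivity)
    (4 * UU D N) N (2 * N) (d' * (4 * UU D N) + (D / d') * (2 * N)) le_rfl
    (by
      intro P hP
      have h1 := lin_le h hd (u := 4 * UU D N) (v := 2 * N) le_rfl le_rfl
      have h2 := lin_mul_le h (X := P) (by omega)
      have h3 := h2.trans (ND_le h)
      have h4 := abs_ff_le h h3 (by omega)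
      simp only [hF]
      push_cast at h4
      exact h4)
    (by
      intro c n hc hcn
      rw [← hΔ] at hcn ⊢
      have h1 := lin_le h hd' (u := 4 * UU D N) (v := 2 * N) le_rfl le_rfl
      have hm : 0 < WW D * Δ := Nat.mul_pos h.WW_pos hΔpos
      have hm4 : WW D * Δ ≤ D ^ 4 := by
        calc WW D * Δ ≤ D ^ 2 * D ^ 2 := Nat.mul_le_mul h.WW_le hΔle
          _ = D ^ 4 := by ring
      have hm6 : WW D * Δ ≤ D ^ 6 := hm4.trans (Nat.pow_le_pow_right hDpos (by norm_num))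
      have hX : (d' * (4 * UU D N) + (D / d') * (2 * N)) + Δ ≤ 7 * (N * D ^ 301) := by
        have h5 : D ^ 2 ≤ N * D ^ 301 := by
          calc D ^ 2 ≤ D ^ 301 := Nat.pow_le_pow_right hDpos (by norm_num)
            _ ≤ N * D ^ 301 := Nat.le_mul_of_pos_left _ h.N_pos
        omega
      have h6 := lin_mul_le h hX
      have h7 := ff_ap h.eq hDpos hm hm6 (Dvd.intro _ rfl)
        (by
          intro r _ hr hrW
          have : r ∣ Δ := by
            have h8 : r ∣ WW D * Δ := hr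
            exact hrW.dvd_of_dvd_mul_left h8
          exact (Nat.le_of_dvd hΔpos this).trans hΔle)
        ((WW D : ℤ) * c + 1)
        (by
          have : (0 : ℤ) ≤ (WW D : ℤ) * c := by positivity
          omega)
        (by simp) n (N * D ^ 303)
        (by
          have h8 : (WW D : ℤ) * c + 1 + ((WW D * Δ : ℕ) : ℤ) * n ≤
              (WW D : ℤ) * (((d' * (4 * UU D N) + (D / d') * (2 * N) : ℕ) : ℤ) + Δ) + 1 := by
            have h9 : (WW D : ℤ) * (c + (Δ : ℤ) * n) ≤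
                (WW D : ℤ) * (((d' * (4 * UU D N) + (D / d') * (2 * N) : ℕ) : ℤ) + Δ) := by
              apply mul_le_mul_of_nonneg_left hcn (by positivity)
            push_cast at h9 ⊢
            linarith
          refine h8.trans ?_
          exact_mod_cast h6)
        (by
          calc N * D ^ 303 ≤ N ^ 2 := ND_le h
            _ ≤ N ^ 3 := Nat.pow_le_pow_right h.N_pos (by norm_num))
      have e1 : ∀ t ∈ range n, F (c + (Δ : ℤ) * t) =
          ff D ((WW D : ℤ) * c + 1 + ((WW D * Δ : ℕ) : ℤ) * t) := by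
        intro t _
        simp only [hF]
        congr 1
        push_cast
        ring
      rw [Finset.sum_congr rfl e1]
      refine h7.trans ?_
      have hlog : Real.log ((WW D * Δ : ℕ) : ℝ) ≤ (D : ℝ) ^ 6 := by
        have h9 : Real.log ((WW D * Δ : ℕ) : ℝ) ≤ ((WW D * Δ : ℕ) : ℝ) := by
          have := Real.log_le_sub_one_of_pos (x := ((WW D * Δ : ℕ) : ℝ)) (by exact_mod_cast hm)
          linarith
        refine h9.trans ?_
        exact_mod_cast hm6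
      have hW6 : (WW D : ℝ) * (D : ℝ) ^ 4 ≤ (D : ℝ) ^ 6 := by
        calc (WW D : ℝ) * (D : ℝ) ^ 4 ≤ (D : ℝ) ^ 2 * (D : ℝ) ^ 4 := by gcongr
          _ = (D : ℝ) ^ 6 := by ring
      have hN697 : (D : ℝ) ^ 697 ≤ N := h.D_pow_le' (by norm_num)
      have h10 : 2 * (((N * D ^ 303 : ℕ) : ℝ) + N) / (D : ℝ) ^ 1000 ≤
          (N : ℝ) / (D : ℝ) ^ 690 / 2 := by
        rw [div_div, div_le_div_iff₀ (by positivity) (by positivity)]
        push_cast
        have h11 : (1 : ℝ) ≤ (D : ℝ) ^ 303 := one_le_pow₀ hDr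
        have h12 : (N : ℝ) ≤ N * (D : ℝ) ^ 303 := by nlinarith
        have h13 : (8 : ℝ) * (D : ℝ) ^ 993 ≤ (D : ℝ) ^ 1000 := by
          have : (8 : ℝ) ≤ (D : ℝ) ^ 7 := by
            calc (8 : ℝ) ≤ (D : ℝ) := by linarith
              _ = (D : ℝ) ^ 1 := (pow_one _).symm
              _ ≤ (D : ℝ) ^ 7 := pow_le_pow_right₀ hDr (by norm_num)
          calc (8 : ℝ) * (D : ℝ) ^ 993 ≤ (D : ℝ) ^ 7 * (D : ℝ) ^ 993 := by gcongr
            _ = (D : ℝ) ^ 1000 := by rw [← pow_add]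
        calc 2 * ((N : ℝ) * (D : ℝ) ^ 303 + N) * ((D : ℝ) ^ 690 * 2)
            ≤ 2 * ((N : ℝ) * (D : ℝ) ^ 303 + N * (D : ℝ) ^ 303) * ((D : ℝ) ^ 690 * 2) := by
              gcongr
          _ = N * (8 * ((D : ℝ) ^ 303 * (D : ℝ) ^ 690)) := by ring
          _ = N * (8 * (D : ℝ) ^ 993) := by rw [← pow_add]
          _ ≤ N * (D : ℝ) ^ 1000 := by gcongr
      have h14 : 2 * (D : ℝ) ^ 6 ≤ (N : ℝ) / (D : ℝ) ^ 690 / 2 := by
        rw [div_div, le_div_iff₀ (by positivity)]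
        calc 2 * (D : ℝ) ^ 6 * ((D : ℝ) ^ 690 * 2) = 4 * ((D : ℝ) ^ 6 * (D : ℝ) ^ 690) := by ring
          _ = 4 * (D : ℝ) ^ 696 := by rw [← pow_add]
          _ ≤ D * (D : ℝ) ^ 696 := by
              gcongr
              linarith
          _ = (D : ℝ) ^ 697 := by rw [← pow_succ']
          _ ≤ N := hN697
      linarith)
  have e2 : ∀ p ∈ box D N, ff D (pd D d p.1 p.2) * ff D (pd D d' p.1 p.2) =
      F ((d * p.1 + (D / d) * p.2 : ℕ) : ℤ) * F ((d' * p.1 + (D / d') * p.2 : ℕ) : ℤ) := by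
    intro p _
    simp only [hF, pd]
    push_cast
    rfl
  rw [Finset.sum_congr rfl e2]
  unfold box
  refine key.trans ?_
  have h1 := lin_le h hd (u := 4 * UU D N) (v := 2 * N) le_rfl le_rfl
  have h1' : ((d * (4 * UU D N) + (D / d) * (2 * N) : ℕ) : ℝ) ≤ 6 * (N * (D : ℝ) ^ 301) := by
    exact_mod_cast h1
  have hND : (1 : ℝ) ≤ N * (D : ℝ) ^ 301 := by
    have h15 : (1 : ℝ) ≤ N := by exact_mod_cast h.N_pos
    have h16 : (1 : ℝ) ≤ (D : ℝ) ^ 301 := one_le_pow₀ hDr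
    nlinarith
  have hUU : (UU D N : ℝ) = N * (D : ℝ) ^ 300 := by unfold UU; push_cast; ring
  rw [hUU]
  calc (((d * (4 * UU D N) + (D / d) * (2 * N) : ℕ) : ℝ) + 1) * (2 * (D : ℝ) ^ 4) *
        ((N : ℝ) / (D : ℝ) ^ 690)
      ≤ (7 * (N * (D : ℝ) ^ 301)) * (2 * (D : ℝ) ^ 4) * ((N : ℝ) / (D : ℝ) ^ 690) := by
        gcongr
        linarith
    _ = (N : ℝ) * N * (14 * (D : ℝ) ^ 305 / (D : ℝ) ^ 690) := by
        have : (D : ℝ) ^ 301 * (D : ℝ) ^ 4 = (D : ℝ) ^ 305 := by rw [← pow_add]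
        rw [← this]
        ring
    _ ≤ (N : ℝ) * N * ((D : ℝ) ^ 300 / (D : ℝ) ^ 2) := by
        gcongr ?_ * ?_
        rw [div_le_div_iff₀ (by positivity) (by positivity), ← pow_add]
        calc 14 * (D : ℝ) ^ 305 * (D : ℝ) ^ 2 = 14 * ((D : ℝ) ^ 305 * (D : ℝ) ^ 2) := by ring
          _ = 14 * (D : ℝ) ^ 307 := by rw [← pow_add]
          _ ≤ (D : ℝ) ^ 2 * (D : ℝ) ^ 307 := by
              gcongr
              nlinarith
          _ = (D : ℝ) ^ 309 := by rw [← pow_add]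
          _ ≤ (D : ℝ) ^ (300 + 690) := pow_le_pow_right₀ hDr (by norm_num)
    _ = (N : ℝ) * (D : ℝ) ^ 300 * N / (D : ℝ) ^ 2 := by ring

end Pool.Agent.Lib.MP_9c2ea5_nt
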