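import Mathlib

/-!
# P4: elementary sums

* `n/φ(n) = ∏_{p ∣ n} p/(p-1) ≤ ω(n) + 1 ≤ 1 + log₂ n`.  For a finite set `S` of integers `≥ 2`
  one has `∏_{p ∈ S} p/(p-1) ≤ |S| + 1` by induction on `|S|` (remove the largest element, it is
  `≥ |S|+1` and `p ↦ p/(p-1)` is decreasing; the product telescopes).  `2^{ω(n)} ≤ n`.
* `1/φ(r) = (r/φ(r)) (1/r)` and `∑_{r ≤ Q} 1/r ≤ 1 + log Q`
  (`harmonic_le_one_add_log` in Mathlib).
-/

open Finset

namespace Pool.Agent.Lib.MP_9c2ea5_nt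

lemma prod_ratio_le (S : Finset ℕ) (hS : ∀ p ∈ S, 2 ≤ p) :
    ∏ p ∈ S, (p : ℝ) / ((p : ℝ) - 1) ≤ (S.card : ℝ) + 1 := by
  induction S using Finset.induction_on_max with
  | empty => simp
  | insert a s hmax ih =>
    have hns : a ∉ s := fun h => lt_irrefl _ (hmax a h)
    rw [Finset.prod_insert hns, Finset.card_insert_of_notMem hns]
    have h1 := ih (fun p hp => hS p (mem_insert_of_mem hp))
    have ha2 : 2 ≤ a := hS a (mem_insert_self _ _)
    -- s ⊆ Ico 2 a, so card s ≤ a - 2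
    have hsub : s ⊆ Ico 2 a := by
      intro x hx
      exact mem_Ico.mpr ⟨hS x (mem_insert_of_mem hx), hmax x hx⟩
    have hc : s.card ≤ a - 2 := by simpa using Finset.card_le_card hsub
    have hc' : (s.card : ℝ) + 2 ≤ a := by
      have : s.card + 2 ≤ a := by omega
      exact_mod_cast this
    have hpos : (0 : ℝ) < (a : ℝ) - 1 := by
      have : (2 : ℝ) ≤ a := by exact_mod_cast ha2
      linarith
    have h0 : 0 ≤ (a : ℝ) / ((a : ℝ) - 1) := by positivity
    calc (a : ℝ) / ((a : ℝ) - 1) * ∏ p ∈ s, (p : ℝ) / ((p : ℝ) - 1)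
        ≤ (a : ℝ) / ((a : ℝ) - 1) * ((s.card : ℝ) + 1) := mul_le_mul_of_nonneg_left h1 h0
      _ ≤ ((s.card + 1 : ℕ) : ℝ) + 1 := by
          push_cast
          rw [div_mul_eq_mul_div, div_le_iff₀ hpos]
          nlinarith

lemma div_totient_eq {n : ℕ} (hn : 0 < n) :
    (n : ℝ) / (Nat.totient n : ℝ) = ∏ p ∈ n.primeFactors, (p : ℝ) / ((p : ℝ) - 1) := by
  have h := Nat.totient_mul_prod_primeFactors n
  have h1 : (Nat.totient n : ℝ) * ∏ p ∈ n.primeFactors, (p : ℝ) =
      n * ∏ p ∈ n.primeFactors, ((p : ℝ) - 1) := by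
    have h2 : ((Nat.totient n * ∏ p ∈ n.primeFactors, p : ℕ) : ℝ) =
      ((n * ∏ p ∈ n.primeFactors, (p - 1) : ℕ) : ℝ) := by rw [h]
    push_cast at h2
    rw [h2]
    congr 1
    apply Finset.prod_congr rfl
    intro p hp
    have := (Nat.prime_of_mem_primeFactors hp).one_lt
    rw [Nat.cast_sub this.le]; simp
  have hne : ∏ p ∈ n.primeFactors, ((p : ℝ) - 1) ≠ 0 := by
    apply Finset.prod_ne_zero_iff.mpr
    intro p hp
    have := (Nat.prime_of_mem_primeFactors hp).one_lt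
    have h2 : (1 : ℝ) < p := by exact_mod_cast this
    linarith
  have hφ : (Nat.totient n : ℝ) ≠ 0 := by
    have := Nat.totient_pos.mpr hn
    positivity
  rw [Finset.prod_div_distrib, div_eq_div_iff hφ hne]
  linarith

lemma div_totient_le {n : ℕ} (hn : 0 < n) :
    (n : ℝ) / (Nat.totient n : ℝ) ≤ 1 + Real.log n / Real.log 2 := by
  rw [div_totient_eq hn]
  refine (prod_ratio_le _ (fun p hp => (Nat.prime_of_mem_primeFactors hp).two_le)).trans ?_
  have h1 : 2 ^ n.primeFactors.card ≤ n := by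
    calc 2 ^ n.primeFactors.card ≤ ∏ p ∈ n.primeFactors, p :=
          Finset.pow_card_le_prod _ _ _ (fun p hp => (Nat.prime_of_mem_primeFactors hp).two_le)
      _ ≤ n := Nat.le_of_dvd hn (Nat.prod_primeFactors_dvd n)
  have h2 : (n.primeFactors.card : ℝ) * Real.log 2 ≤ Real.log n := by
    rw [← Real.log_pow]
    apply Real.log_le_log (by positivity)
    exact_mod_cast h1
  have h3 : 0 < Real.log 2 := Real.log_pos (by norm_num)
  have h4 : (n.primeFactors.card : ℝ) ≤ Real.log n / Real.log 2 := by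
    rw [le_div_iff₀ h3]; exact h2
  linarith

lemma sum_inv_totient_le {Q : ℕ} (hQ : 0 < Q) :
    ∑ r ∈ Icc 1 Q, 1 / (Nat.totient r : ℝ) ≤
      (1 + Real.log Q / Real.log 2) * (1 + Real.log Q) := by
  have h3 : 0 < Real.log 2 := Real.log_pos (by norm_num)
  have hlQ : 0 ≤ Real.log Q := Real.log_natCast_nonneg Q
  have h1 : ∀ r ∈ Icc 1 Q, 1 / (Nat.totient r : ℝ) ≤
      (1 + Real.log Q / Real.log 2) * (1 / (r : ℝ)) := by
    intro r hr
    obtain ⟨hr1, hr2⟩ := mem_Icc.mp hr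
    have hφ : (0 : ℝ) < (Nat.totient r : ℝ) := by
      have := Nat.totient_pos.mpr hr1
      positivity
    have hr0 : (0 : ℝ) < r := by exact_mod_cast hr1
    have h4 := div_totient_le hr1
    have h5 : Real.log r ≤ Real.log Q := Real.log_le_log hr0 (by exact_mod_cast hr2)
    have h6 : (r : ℝ) / (Nat.totient r : ℝ) ≤ 1 + Real.log Q / Real.log 2 := by
      refine h4.trans ?_
      gcongr
    calc 1 / (Nat.totient r : ℝ) = ((r : ℝ) / (Nat.totient r : ℝ)) * (1 / (r : ℝ)) := by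
          field_simp
      _ ≤ _ := by gcongr
  refine (Finset.sum_le_sum h1).trans ?_
  rw [← Finset.mul_sum]
  gcongr
  have h7 := harmonic_le_one_add_log Q
  have h8 : ((harmonic Q : ℚ) : ℝ) = ∑ r ∈ Icc 1 Q, 1 / (r : ℝ) := by
    rw [harmonic_eq_sum_Icc]
    push_cast
    simp
  rw [← h8]
  exact h7

end Pool.Agent.Lib.MP_9c2ea5_nt
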