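import Mathlib

/-!
# P4b: elementary sums

* `1/lcm(a,b) = gcd(a,b)/(ab) ≤ ∑_{c ∣ a, c ∣ b} c/(ab)`; with `a = c a'`, `b = c b'` the sum is
  `≤ ∑_{c ≤ Q} (1/c) (∑_{a' ≤ Q} 1/a')² ≤ (1 + log Q)^3`.  (Or: fibre the pairs over
  `g = gcd(a,b)`, `a = g a'`, `b = g b'`, `lcm = g a' b'`.)
  `∑_{r ≤ Q} 1/r ≤ 1 + log Q` is `harmonic_le_one_add_log` in Mathlib.
* the solutions `u` of `a u + b ≡ 0 mod g` with `gcd(a,g) = 1` form one class mod `g`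
  (or none in the range); `Nat.count`/`Nat.Ioc_filter_modEq_card` or an injection
  `u ↦ u / g` into `range (M / g + 1)`.
-/

open Finset

namespace Pool.Agent.Lib.MP_9c2ea5_nt

private lemma P4b_harm (Q : ℕ) : ∑ a ∈ Icc 1 Q, 1 / (a : ℝ) ≤ 1 + Real.log Q := by
  have h1 := harmonic_le_one_add_log Q
  rw [harmonic_eq_sum_Icc] at h1
  push_cast at h1
  simpa [one_div] using h1

lemma sum_inv_lcm_le {Q : ℕ} (hQ : 0 < Q) :
    ∑ a ∈ Icc 1 Q, ∑ b ∈ Icc 1 Q, 1 / (Nat.lcm a b : ℝ) ≤ (1 + Real.log Q) ^ 3 := by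
  have hlog : 0 ≤ Real.log Q := Real.log_natCast_nonneg Q
  have hH := P4b_harm Q
  have hH0 : 0 ≤ ∑ a ∈ Icc 1 Q, 1 / (a : ℝ) := Finset.sum_nonneg fun _ _ => by positivity
  have key : ∀ a b : ℕ, 0 < a → 0 < b → 1 / (Nat.lcm a b : ℝ) =
      1 / (Nat.gcd a b : ℝ) * (1 / ((a / Nat.gcd a b : ℕ) : ℝ)) *
        (1 / ((b / Nat.gcd a b : ℕ) : ℝ)) := by
    intro a b ha hb
    have hg : 0 < Nat.gcd a b := Nat.gcd_pos_of_pos_left _ ha
    have h1 := Nat.gcd_mul_lcm a b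
    have h2 := Nat.div_mul_cancel (Nat.gcd_dvd_left a b)
    have h3 := Nat.div_mul_cancel (Nat.gcd_dvd_right a b)
    have h4 : Nat.lcm a b = Nat.gcd a b * (a / Nat.gcd a b) * (b / Nat.gcd a b) := by
      apply Nat.eq_of_mul_eq_mul_left hg
      rw [h1]
      calc a * b = (a / Nat.gcd a b * Nat.gcd a b) * (b / Nat.gcd a b * Nat.gcd a b) := by
            rw [h2, h3]
        _ = _ := by ring
    rw [h4]
    push_cast
    rw [one_div_mul_one_div, one_div_mul_one_div]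
  rw [← Finset.sum_product']
  have h1 : ∑ p ∈ Icc 1 Q ×ˢ Icc 1 Q, 1 / (Nat.lcm p.1 p.2 : ℝ) =
      ∑ p ∈ Icc 1 Q ×ˢ Icc 1 Q, (fun q : ℕ × ℕ × ℕ => 1 / (q.1 : ℝ) * (1 / (q.2.1 : ℝ)) *
        (1 / (q.2.2 : ℝ))) (Nat.gcd p.1 p.2, p.1 / Nat.gcd p.1 p.2, p.2 / Nat.gcd p.1 p.2) := by
    apply Finset.sum_congr rfl
    intro p hp
    have h2 := Finset.mem_product.1 hp
    have h3 := Finset.mem_Icc.1 h2.1
    have h4 := Finset.mem_Icc.1 h2.2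
    exact key p.1 p.2 (by omega) (by omega)
  rw [h1]
  have hinj : Set.InjOn (fun p : ℕ × ℕ => (Nat.gcd p.1 p.2, p.1 / Nat.gcd p.1 p.2,
      p.2 / Nat.gcd p.1 p.2)) (Icc 1 Q ×ˢ Icc 1 Q : Finset (ℕ × ℕ)) := by
    intro p _ q _ hpq
    simp only [Prod.mk.injEq] at hpq
    obtain ⟨e1, e2, e3⟩ := hpq
    have a1 := Nat.div_mul_cancel (Nat.gcd_dvd_left p.1 p.2)
    have a2 := Nat.div_mul_cancel (Nat.gcd_dvd_right p.1 p.2)
    have b1 := Nat.div_mul_cancel (Nat.gcd_dvd_left q.1 q.2)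
    have b2 := Nat.div_mul_cancel (Nat.gcd_dvd_right q.1 q.2)
    apply Prod.ext
    · rw [← a1, ← b1, e2, e1]
    · rw [← a2, ← b2, e3, e1]
  rw [← Finset.sum_image (f := fun q : ℕ × ℕ × ℕ => 1 / (q.1 : ℝ) * (1 / (q.2.1 : ℝ)) *
        (1 / (q.2.2 : ℝ))) hinj]
  have hsub : (Icc 1 Q ×ˢ Icc 1 Q : Finset (ℕ × ℕ)).image (fun p : ℕ × ℕ =>
      (Nat.gcd p.1 p.2, p.1 / Nat.gcd p.1 p.2, p.2 / Nat.gcd p.1 p.2)) ⊆
      Icc 1 Q ×ˢ (Icc 1 Q ×ˢ Icc 1 Q) := by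
    intro q hq
    obtain ⟨p, hp, rfl⟩ := Finset.mem_image.1 hq
    have h2 := Finset.mem_product.1 hp
    have h3 := Finset.mem_Icc.1 h2.1
    have h4 := Finset.mem_Icc.1 h2.2
    have hg : 0 < Nat.gcd p.1 p.2 := Nat.gcd_pos_of_pos_left _ (by omega)
    have g1 : Nat.gcd p.1 p.2 ≤ p.1 := Nat.gcd_le_left _ (by omega)
    have g2 : Nat.gcd p.1 p.2 ≤ p.2 := Nat.gcd_le_right _ (by omega)
    have d1 := Nat.div_le_self p.1 (Nat.gcd p.1 p.2)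
    have d2 := Nat.div_le_self p.2 (Nat.gcd p.1 p.2)
    have c1 : 0 < p.1 / Nat.gcd p.1 p.2 := Nat.div_pos g1 hg
    have c2 : 0 < p.2 / Nat.gcd p.1 p.2 := Nat.div_pos g2 hg
    simp only [Finset.mem_product, Finset.mem_Icc]
    omega
  calc _ ≤ ∑ q ∈ Icc 1 Q ×ˢ (Icc 1 Q ×ˢ Icc 1 Q), 1 / (q.1 : ℝ) * (1 / (q.2.1 : ℝ)) *
        (1 / (q.2.2 : ℝ)) :=
        Finset.sum_le_sum_of_subset_of_nonneg hsub fun _ _ _ => by positivity
    _ = (∑ a ∈ Icc 1 Q, 1 / (a : ℝ)) * ((∑ a ∈ Icc 1 Q, 1 / (a : ℝ)) *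
          (∑ a ∈ Icc 1 Q, 1 / (a : ℝ))) := by
        rw [Finset.sum_mul_sum, Finset.sum_mul, Finset.sum_product]
        apply Finset.sum_congr rfl
        intro a _
        rw [Finset.mul_sum, Finset.sum_product]
        apply Finset.sum_congr rfl
        intro b _
        rw [Finset.mul_sum]
        apply Finset.sum_congr rfl
        intro c _
        ring
    _ = (∑ a ∈ Icc 1 Q, 1 / (a : ℝ)) ^ 3 := by ring
    _ ≤ (1 + Real.log Q) ^ 3 := pow_le_pow_left₀ hH0 hH 3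

lemma card_ap_le (g a b M : ℕ) (hg : 0 < g) (hco : Nat.Coprime a g) :
    ((Icc 1 M).filter (fun u => g ∣ a * u + b)).card ≤ M / g + 1 := by
  rw [← Finset.card_range (M / g + 1)]
  apply Finset.card_le_card_of_injOn (fun u => u / g)
  · intro u hu
    have h1 := Finset.mem_Icc.1 (Finset.mem_filter.1 hu).1
    have h2 : u / g ≤ M / g := Nat.div_le_div_right h1.2
    simp only [Finset.coe_range, Set.mem_Iio]
    omega
  · intro u hu u' hu' h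
    have h1 := (Finset.mem_filter.1 hu).2
    have h2 := (Finset.mem_filter.1 hu').2
    have h3 : a * u + b ≡ a * u' + b [MOD g] :=
      ((Nat.modEq_zero_iff_dvd.2 h1).trans (Nat.modEq_zero_iff_dvd.2 h2).symm)
    have h4 : a * u ≡ a * u' [MOD g] := Nat.ModEq.add_right_cancel' b h3
    have h5 : u ≡ u' [MOD g] := Nat.ModEq.cancel_left_of_coprime hco.symm h4
    have h6 : u % g = u' % g := h5
    have h7 : u / g = u' / g := h
    rw [← Nat.div_add_mod u g, ← Nat.div_add_mod u' g, h6, h7]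

end Pool.Agent.Lib.MP_9c2ea5_nt
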