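import Mathlib
import Pool.Agent.Lib.MP_9c2ea5_nt.Defs
import Pool.Agent.Lib.MP_9c2ea5_nt.P4b

/-!
# P5: the second moment of the divisor function of `p_d`

Expand the square: the left side is `∑_{g1,g2 ∈ RR} #{(u,v) : lcm(g1,g2) ∣ W(du+ev)+1}`.
For fixed `v` and `g = lcm(g1,g2)` (`g ≤ Q² ≤ M`, `g` prime to `W`, hence to `W d` because
`d ∣ W`) the number of `u ≤ M` is at most `M/g + 1 ≤ 2M/g` (`card_ap_le` with `a = W d`,
`b = W e v + 1`).  Sum over `v` and over `g1, g2` with `sum_inv_lcm_le`.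
-/

open Finset

namespace Pool.Agent.Lib.MP_9c2ea5_nt

private lemma P5_card_sq (S : Finset ℕ) (n : ℕ) :
    ((S.filter (fun g : ℕ => (g : ℤ) ∣ ((n : ℕ) : ℤ))).card : ℝ) ^ 2 =
      ∑ g1 ∈ S, ∑ g2 ∈ S, if Nat.lcm g1 g2 ∣ n then (1 : ℝ) else 0 := by
  have e1 : ((S.filter (fun g : ℕ => (g : ℤ) ∣ ((n : ℕ) : ℤ))).card : ℝ) =
      ∑ g ∈ S, if g ∣ n then (1 : ℝ) else 0 := by
    rw [Finset.card_filter]
    push_cast
    apply Finset.sum_congr rfl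
    intro g _
    simp only [Int.natCast_dvd_natCast]
  rw [e1, sq, Finset.sum_mul_sum]
  apply Finset.sum_congr rfl
  intro g1 _
  apply Finset.sum_congr rfl
  intro g2 _
  by_cases h1 : g1 ∣ n
  · by_cases h2 : g2 ∣ n
    · rw [if_pos h1, if_pos h2, if_pos (Nat.lcm_dvd h1 h2), mul_one]
    · rw [if_neg h2, if_neg (fun h => h2 ((Nat.dvd_lcm_right g1 g2).trans h)), mul_zero]
  · rw [if_neg h1, if_neg (fun h => h1 ((Nat.dvd_lcm_left g1 g2).trans h)), zero_mul]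

private lemma P5_count (W d e v M g : ℕ) (hg : 0 < g) (hgM : g ≤ M) (hco : Nat.Coprime (W * d) g) :
    ∑ u ∈ Icc 1 M, (if g ∣ W * (d * u + e * v) + 1 then (1 : ℝ) else 0) ≤
      2 * (M : ℝ) * (1 / (g : ℝ)) := by
  have h1 := card_ap_le g (W * d) (W * e * v + 1) M hg hco
  have h2 : ∑ u ∈ Icc 1 M, (if g ∣ W * (d * u + e * v) + 1 then (1 : ℝ) else 0) =
      (((Icc 1 M).filter (fun u => g ∣ W * d * u + (W * e * v + 1))).card : ℝ) := by
    rw [Finset.card_filter]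
    push_cast
    apply Finset.sum_congr rfl
    intro u _
    have e2 : W * (d * u + e * v) + 1 = W * d * u + (W * e * v + 1) := by ring
    rw [e2]
  rw [h2]
  have hg' : (0 : ℝ) < g := by exact_mod_cast hg
  have h3 : (((Icc 1 M).filter (fun u => g ∣ W * d * u + (W * e * v + 1))).card : ℝ) ≤
      ((M / g : ℕ) : ℝ) + 1 := by exact_mod_cast h1
  have h4 : ((M / g : ℕ) : ℝ) ≤ (M : ℝ) / g := Nat.cast_div_le
  have h5 : (1 : ℝ) ≤ (M : ℝ) / g := by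
    rw [le_div_iff₀ hg', one_mul]
    exact_mod_cast hgM
  have e3 : 2 * (M : ℝ) * (1 / (g : ℝ)) = (M : ℝ) / g + (M : ℝ) / g := by ring
  rw [e3]
  linarith

lemma sum_tau_sq (W Q d e M V V' : ℕ) (hW : 0 < W) (hQ : 0 < Q) (hd : d ∣ W) (hd0 : 0 < d)
    (hQM : Q ^ 2 ≤ M) (hV : V ≤ V') :
    ∑ p ∈ (Icc 1 M) ×ˢ (Ioc V V'),
      (((RR W Q).filter (fun g : ℕ => (g : ℤ) ∣ ((W * (d * p.1 + e * p.2) + 1 : ℕ) : ℤ))).card
        : ℝ) ^ 2 ≤
      2 * (M : ℝ) * ((V' : ℝ) - V) * (1 + Real.log Q) ^ 3 := by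
  have hM : (0 : ℝ) ≤ M := Nat.cast_nonneg M
  have hVV : (0 : ℝ) ≤ (V' : ℝ) - V := by
    have : (V : ℝ) ≤ V' := by exact_mod_cast hV
    linarith
  have hRR : RR W Q ⊆ Icc 1 Q := Finset.filter_subset _ _
  calc ∑ p ∈ (Icc 1 M) ×ˢ (Ioc V V'),
      (((RR W Q).filter (fun g : ℕ => (g : ℤ) ∣ ((W * (d * p.1 + e * p.2) + 1 : ℕ) : ℤ))).card
        : ℝ) ^ 2
      = ∑ p ∈ (Icc 1 M) ×ˢ (Ioc V V'), ∑ g1 ∈ RR W Q, ∑ g2 ∈ RR W Q,
          (if Nat.lcm g1 g2 ∣ W * (d * p.1 + e * p.2) + 1 then (1 : ℝ) else 0) :=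
        Finset.sum_congr rfl fun p _ => P5_card_sq (RR W Q) _
    _ = ∑ g1 ∈ RR W Q, ∑ g2 ∈ RR W Q, ∑ p ∈ (Icc 1 M) ×ˢ (Ioc V V'),
          (if Nat.lcm g1 g2 ∣ W * (d * p.1 + e * p.2) + 1 then (1 : ℝ) else 0) := by
        rw [Finset.sum_comm]
        apply Finset.sum_congr rfl
        intro g1 _
        rw [Finset.sum_comm]
    _ ≤ ∑ g1 ∈ RR W Q, ∑ g2 ∈ RR W Q,
          2 * (M : ℝ) * ((V' : ℝ) - V) * (1 / (Nat.lcm g1 g2 : ℝ)) := by
        apply Finset.sum_le_sum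
        intro g1 hg1
        apply Finset.sum_le_sum
        intro g2 hg2
        have a1 := (Finset.mem_filter.1 hg1)
        have a2 := (Finset.mem_filter.1 hg2)
        have b1 := Finset.mem_Icc.1 a1.1
        have b2 := Finset.mem_Icc.1 a2.1
        have hpos : 0 < Nat.lcm g1 g2 := Nat.lcm_pos (by omega) (by omega)
        have hle : Nat.lcm g1 g2 ≤ M := by
          have c1 : Nat.lcm g1 g2 ≤ g1 * g2 :=
            Nat.le_of_dvd (Nat.mul_pos (by omega) (by omega)) (Nat.lcm_dvd_mul g1 g2)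
          have c2 : g1 * g2 ≤ Q * Q := Nat.mul_le_mul b1.2 b2.2
          rw [sq] at hQM
          omega
        have hcoW : Nat.Coprime W (Nat.lcm g1 g2) := by
          have c1 : Nat.Coprime W (g1 * g2) := Nat.Coprime.mul_right a1.2.2.symm a2.2.2.symm
          exact c1.coprime_dvd_right (Nat.lcm_dvd_mul g1 g2)
        have hco : Nat.Coprime (W * d) (Nat.lcm g1 g2) :=
          Nat.Coprime.mul_left hcoW (hcoW.coprime_dvd_left hd)
        rw [Finset.sum_product_right]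
        calc ∑ v ∈ Ioc V V', ∑ u ∈ Icc 1 M,
            (if Nat.lcm g1 g2 ∣ W * (d * u + e * v) + 1 then (1 : ℝ) else 0)
            ≤ ∑ v ∈ Ioc V V', 2 * (M : ℝ) * (1 / (Nat.lcm g1 g2 : ℝ)) :=
              Finset.sum_le_sum fun v _ => P5_count W d e v M _ hpos hle hco
          _ = 2 * (M : ℝ) * ((V' : ℝ) - V) * (1 / (Nat.lcm g1 g2 : ℝ)) := by
              rw [Finset.sum_const, Nat.card_Ioc, nsmul_eq_mul, Nat.cast_sub hV]
              ring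
    _ ≤ ∑ g1 ∈ Icc 1 Q, ∑ g2 ∈ Icc 1 Q,
          2 * (M : ℝ) * ((V' : ℝ) - V) * (1 / (Nat.lcm g1 g2 : ℝ)) := by
        calc _ ≤ ∑ g1 ∈ RR W Q, ∑ g2 ∈ Icc 1 Q,
              2 * (M : ℝ) * ((V' : ℝ) - V) * (1 / (Nat.lcm g1 g2 : ℝ)) :=
              Finset.sum_le_sum fun g1 _ =>
                Finset.sum_le_sum_of_subset_of_nonneg hRR fun _ _ _ => by positivity
          _ ≤ _ :=
              Finset.sum_le_sum_of_subset_of_nonneg hRR fun _ _ _ =>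
                Finset.sum_nonneg fun _ _ => by positivity
    _ = 2 * (M : ℝ) * ((V' : ℝ) - V) *
          ∑ a ∈ Icc 1 Q, ∑ b ∈ Icc 1 Q, 1 / (Nat.lcm a b : ℝ) := by
        rw [Finset.mul_sum]
        apply Finset.sum_congr rfl
        intro g1 _
        rw [Finset.mul_sum]
    _ ≤ 2 * (M : ℝ) * ((V' : ℝ) - V) * (1 + Real.log Q) ^ 3 :=
        mul_le_mul_of_nonneg_left (sum_inv_lcm_le hQ) (by positivity)

end Pool.Agent.Lib.MP_9c2ea5_nt
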