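import Mathlib
import Pool.Agent.Lib.MP_9c2ea5_nt.P3
import Pool.Agent.Lib.MP_9c2ea5_nt.P4
import Pool.Agent.Lib.MP_9c2ea5_nt.P5

/-!
# P6: the diagonal terms  (Lemma 7)

`ff² ≤ 2 θ² + 2 λ²`.  With `L = log N ≥ 4000 log D`, `L ≥ 10^5`:
* `θ(p_d) ≤ log p_d ≤ log N² = 2 L` (`pd_le`, `thN_le_log`), and the box has `4 U N` elements;
* `|λ(p_d)| ≤ κ Φ τ(p_d)` (`abs_lam_le_tau` with `Q = D²`),
  `κ ≤ 1 + log W/log 2 ≤ L` (`div_totient_le`, `WW_le`), `Φ ≤ (1+log Q/log 2)(1+log Q) ≤ L²`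
  (`sum_inv_totient_le`) and `∑ τ² ≤ 2 (4U) N (1+log Q)^3 ≤ 8 U N L^3 / 1000` (P5; in fact
  `1 + log Q ≤ L/1000`).
Total `≤ U N (32 L² + 2 · 8 · L^9/1000 ) ≤ U N L^10`.
-/

open Finset

namespace Pool.Agent.Lib.MP_9c2ea5_nt

lemma diag {D N : ℕ} (h : Hyp D N) {d : ℕ} (hd : d ∈ D.divisors) :
    ∑ p ∈ box D N, ff D (pd D d p.1 p.2) ^ 2 ≤ ((UU D N : ℝ) * N) * Real.log N ^ 10 := by
  have hdD : d ∣ D := (Nat.mem_divisors.mp hd).1
  have hd0 : 0 < d := Nat.pos_of_dvd_of_pos hdD h.D_pos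
  set L : ℝ := Real.log N with hL
  have hL5 : (10 : ℝ) ^ 5 ≤ L := h.logN_ge
  have hL0 : 0 < L := by linarith [show (0 : ℝ) < 10 ^ 5 by norm_num]
  have hlogD := h.logN_ge_logD
  have hlogD0 := h.logD_ge
  have hl2 : (1 : ℝ) / 2 < Real.log 2 := by
    have := Real.log_two_gt_d9
    linarith
  have hl2' : 0 < Real.log 2 := by linarith
  -- the constant kappa
  set W : ℕ := WW D with hW
  have hWpos : 0 < W := h.WW_pos
  have hWpos' : (0 : ℝ) < W := by exact_mod_cast hWpos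
  have hlogW : Real.log W ≤ 2 * Real.log D := by
    have h1 : (W : ℝ) ≤ (D : ℝ) ^ 2 := by exact_mod_cast h.WW_le
    have h2 : Real.log W ≤ Real.log ((D : ℝ) ^ 2) := Real.log_le_log hWpos' h1
    rw [Real.log_pow] at h2
    exact_mod_cast h2
  have hlogQ : Real.log ((D ^ 2 : ℕ) : ℝ) = 2 * Real.log D := by
    push_cast
    rw [Real.log_pow]
    norm_num
  have hdiv : ∀ x : ℝ, 0 ≤ x → x ≤ 2 * Real.log D → 1 + x / Real.log 2 ≤ L := by
    intro x hx0 hx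
    have h1 : x / Real.log 2 ≤ 2 * x := by
      rw [div_le_iff₀ hl2']
      nlinarith
    have : L ≥ 100000 := by norm_num at hL5; linarith
    linarith
  have hκ : (W : ℝ) / (Nat.totient W : ℝ) ≤ L :=
    (div_totient_le hWpos).trans (hdiv _ (Real.log_natCast_nonneg W) hlogW)
  have hκ0 : 0 < (W : ℝ) / (Nat.totient W : ℝ) := kappa_pos hWpos
  have hQpos : 0 < D ^ 2 := pow_pos h.D_pos 2
  have hQ1 : 1 + Real.log ((D ^ 2 : ℕ) : ℝ) ≤ L := by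
    rw [hlogQ]
    have : L ≥ 100000 := by norm_num at hL5; linarith
    linarith
  have hQ0 : 0 ≤ 1 + Real.log ((D ^ 2 : ℕ) : ℝ) := by
    rw [hlogQ]; linarith
  have hΦ : ∑ r ∈ Icc 1 (D ^ 2), 1 / (Nat.totient r : ℝ) ≤ L ^ 2 := by
    refine (sum_inv_totient_le hQpos).trans ?_
    have h1 : 1 + Real.log ((D ^ 2 : ℕ) : ℝ) / Real.log 2 ≤ L :=
      hdiv _ (by rw [hlogQ]; linarith) (by rw [hlogQ])
    calc (1 + Real.log ((D ^ 2 : ℕ) : ℝ) / Real.log 2) * (1 + Real.log ((D ^ 2 : ℕ) : ℝ))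
        ≤ L * L := mul_le_mul h1 hQ1 hQ0 hL0.le
      _ = L ^ 2 := by ring
  have hΦ0 : 0 ≤ ∑ r ∈ Icc 1 (D ^ 2), 1 / (Nat.totient r : ℝ) :=
    Finset.sum_nonneg fun r _ => by positivity
  -- pointwise bound
  set τf : ℕ × ℕ → ℝ := fun p =>
    (((RR W (D ^ 2)).filter (fun g : ℕ => (g : ℤ) ∣
      ((W * (d * p.1 + (D / d) * p.2) + 1 : ℕ) : ℤ))).card : ℝ) with hτf
  have hpt : ∀ p ∈ box D N, ff D (pd D d p.1 p.2) ^ 2 ≤ 8 * L ^ 2 + 2 * L ^ 6 * τf p ^ 2 := by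
    intro p hp
    obtain ⟨hp1, hp2⟩ := Finset.mem_product.mp hp
    obtain ⟨hu1, hu2⟩ := Finset.mem_Icc.mp hp1
    obtain ⟨hv1, hv2⟩ := Finset.mem_Ioc.mp hp2
    have hle := pd_le h hd hu2 hv2
    have hnn : 0 < (pd D d p.1 p.2).toNat := by
      unfold pd
      rw [Int.toNat_natCast]
      omega
    have hle' : (pd D d p.1 p.2).toNat ≤ N ^ 2 := by omega
    have hθ0 : 0 ≤ th (pd D d p.1 p.2) := thN_nonneg _
    have hθ : th (pd D d p.1 p.2) ≤ 2 * L := by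
      unfold th
      refine (thN_le_log _).trans ?_
      have h1 : Real.log ((pd D d p.1 p.2).toNat : ℝ) ≤ Real.log ((N : ℝ) ^ 2) := by
        apply Real.log_le_log
        · exact_mod_cast hnn
        · exact_mod_cast hle'
      rw [Real.log_pow] at h1
      exact_mod_cast h1
    have hlm : |lamD D (pd D d p.1 p.2)| ≤ L ^ 3 * τf p := by
      unfold lamD
      refine (abs_lam_le_tau W (D ^ 2) hWpos _).trans ?_
      have h1 : ((W : ℝ) / (Nat.totient W : ℝ)) * (∑ r ∈ Icc 1 (D ^ 2), 1 / (Nat.totient r : ℝ)) ≤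
          L ^ 3 := by
        calc ((W : ℝ) / (Nat.totient W : ℝ)) * (∑ r ∈ Icc 1 (D ^ 2), 1 / (Nat.totient r : ℝ))
            ≤ L * L ^ 2 := mul_le_mul hκ hΦ hΦ0 hL0.le
          _ = L ^ 3 := by ring
      have h2 : (((RR W (D ^ 2)).filter (fun g : ℕ => (g : ℤ) ∣ pd D d p.1 p.2)).card : ℝ) =
          τf p := by
        rw [hτf]
        rfl
      rw [h2]
      apply mul_le_mul_of_nonneg_right h1
      rw [hτf]
      positivity
    have hτ0 : 0 ≤ τf p := by rw [hτf]; positivity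
    unfold ff
    set θ := th (pd D d p.1 p.2)
    set l := lamD D (pd D d p.1 p.2)
    have h3 : (θ - l) ^ 2 ≤ 2 * θ ^ 2 + 2 * l ^ 2 := by nlinarith [sq_nonneg (θ + l)]
    have h4 : θ ^ 2 ≤ 4 * L ^ 2 := by nlinarith
    have h5 : l ^ 2 ≤ L ^ 6 * τf p ^ 2 := by
      have : l ^ 2 ≤ (L ^ 3 * τf p) ^ 2 := by
        rw [← sq_abs l]
        exact pow_le_pow_left₀ (abs_nonneg _) hlm 2
      calc l ^ 2 ≤ (L ^ 3 * τf p) ^ 2 := this
        _ = L ^ 6 * τf p ^ 2 := by ring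
    linarith
  refine (Finset.sum_le_sum hpt).trans ?_
  have hsplit : ∑ p ∈ box D N, (8 * L ^ 2 + 2 * L ^ 6 * τf p ^ 2) =
      ((box D N).card : ℝ) * (8 * L ^ 2) + 2 * L ^ 6 * ∑ p ∈ box D N, τf p ^ 2 := by
    rw [Finset.sum_add_distrib, Finset.sum_const, nsmul_eq_mul, Finset.mul_sum]
  rw [hsplit]
  have hcard : ((box D N).card : ℝ) = 4 * (UU D N : ℝ) * N := by
    unfold box
    rw [Finset.card_product, Nat.card_Icc, Nat.card_Ioc]
    have h1 : 4 * UU D N + 1 - 1 = 4 * UU D N := by omega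
    have h2 : 2 * N - N = N := by omega
    rw [h1, h2]
    push_cast
    ring
  have hτs : ∑ p ∈ box D N, τf p ^ 2 ≤ 8 * ((UU D N : ℝ) * N) * L ^ 3 := by
    have h1 := sum_tau_sq W (D ^ 2) d (D / d) (4 * UU D N) N (2 * N) hWpos hQpos
      (hdD.trans (Dvd.intro_left W0 rfl)) hd0 (by
        have h2 : D ^ 4 ≤ D ^ 300 := Nat.pow_le_pow_right h.D_pos (by norm_num)
        have h3 : 1 * D ^ 300 ≤ N * D ^ 300 := Nat.mul_le_mul_right _ h.N_pos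
        calc (D ^ 2) ^ 2 = D ^ 4 := by ring
          _ ≤ D ^ 300 := h2
          _ = 1 * D ^ 300 := by ring
          _ ≤ N * D ^ 300 := h3
          _ ≤ 4 * UU D N := by unfold UU; omega) (by omega)
    refine le_trans ?_ (h1.trans ?_)
    · exact le_rfl
    · push_cast
      have h4 : (1 + Real.log ((D : ℝ) ^ 2)) ^ 3 ≤ L ^ 3 := by
        have := pow_le_pow_left₀ hQ0 hQ1 3
        push_cast at this
        exact this
      have h5 : (0 : ℝ) ≤ (UU D N : ℝ) * N := by positivity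
      calc 2 * (4 * (UU D N : ℝ)) * (2 * (N : ℝ) - N) * (1 + Real.log ((D : ℝ) ^ 2)) ^ 3
          = 8 * ((UU D N : ℝ) * N) * (1 + Real.log ((D : ℝ) ^ 2)) ^ 3 := by ring
        _ ≤ 8 * ((UU D N : ℝ) * N) * L ^ 3 := by gcongr
  rw [hcard]
  have hA0 : (0 : ℝ) ≤ (UU D N : ℝ) * N := by positivity
  set A : ℝ := (UU D N : ℝ) * N
  have hL2 : (0 : ℝ) ≤ L ^ 9 := by positivity
  have h6 : 8 * L ^ 2 * 4 ≤ 32 * L ^ 9 := by
    have : L ^ 2 ≤ L ^ 9 := pow_le_pow_right₀ (by linarith [show (1 : ℝ) ≤ 10 ^ 5 by norm_num])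
      (by norm_num)
    linarith
  have h7 : 48 * L ^ 9 ≤ L ^ 10 := by
    have h8 : (48 : ℝ) ≤ L := by linarith [show (48 : ℝ) ≤ 10 ^ 5 by norm_num]
    calc 48 * L ^ 9 ≤ L * L ^ 9 := by gcongr
      _ = L ^ 10 := by ring
  calc 4 * (UU D N : ℝ) * N * (8 * L ^ 2) + 2 * L ^ 6 * ∑ p ∈ box D N, τf p ^ 2
      ≤ 4 * (UU D N : ℝ) * N * (8 * L ^ 2) + 2 * L ^ 6 * (8 * A * L ^ 3) := by gcongr
    _ = A * (8 * L ^ 2 * 4) + A * (16 * L ^ 9) := by ring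
    _ ≤ A * (32 * L ^ 9) + A * (16 * L ^ 9) := by gcongr
    _ = A * (48 * L ^ 9) := by ring
    _ ≤ A * L ^ 10 := by gcongr

end Pool.Agent.Lib.MP_9c2ea5_nt
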