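import Mathlib
import Pool.Agent.Lib.MP_9c2ea5_nt.P6

/-!
# P7: the second moment  (Lemma 8)
-/

open Finset

namespace Pool.Agent.Lib.MP_9c2ea5_nt

theorem secondMoment {D N : ℕ} (h : Hyp D N) :
    ∑ p ∈ box D N, (∑ d ∈ D.divisors, ff D (pd D d p.1 p.2)) ^ 2 ≤
      (D.divisors.card : ℝ) * ((UU D N : ℝ) * N) * Real.log N ^ 11 := by
  set A : ℝ := (UU D N : ℝ) * N with hA
  have hA0 : 0 ≤ A := by positivity
  set τ : ℝ := (D.divisors.card : ℝ) with hτ
  have hτ0 : 0 < τ := h.tau_pos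
  have hτD : τ ≤ D := h.tau_le
  have hL := h.logN_ge
  have hD := h.D_pos'
  have e1 : ∀ p ∈ box D N, (∑ d ∈ D.divisors, ff D (pd D d p.1 p.2)) ^ 2 =
      ∑ d ∈ D.divisors, ∑ d' ∈ D.divisors, ff D (pd D d p.1 p.2) * ff D (pd D d' p.1 p.2) := by
    intro p _
    rw [sq, Finset.sum_mul_sum]
  rw [Finset.sum_congr rfl e1, Finset.sum_comm]
  have e2 : ∀ d ∈ D.divisors,
      ∑ p ∈ box D N, ∑ d' ∈ D.divisors, ff D (pd D d p.1 p.2) * ff D (pd D d' p.1 p.2) ≤
      A * Real.log N ^ 10 + τ * (A / (D : ℝ) ^ 2) := by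
    intro d hd
    rw [Finset.sum_comm]
    have e3 : ∀ d' ∈ D.divisors,
        ∑ p ∈ box D N, ff D (pd D d p.1 p.2) * ff D (pd D d' p.1 p.2) ≤
        (if d = d' then A * Real.log N ^ 10 else 0) + A / (D : ℝ) ^ 2 := by
      intro d' hd'
      by_cases hdd : d = d'
      · subst hdd
        rw [if_pos rfl]
        have h1 := diag h hd
        have h2 : ∑ p ∈ box D N, ff D (pd D d p.1 p.2) * ff D (pd D d p.1 p.2) =
            ∑ p ∈ box D N, ff D (pd D d p.1 p.2) ^ 2 := by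
          apply Finset.sum_congr rfl; intro p _; ring
        rw [h2]
        have h3 : 0 ≤ A / (D : ℝ) ^ 2 := by positivity
        linarith
      · rw [if_neg hdd, zero_add]
        exact (le_abs_self _).trans (offdiag h hd hd' hdd)
    refine (Finset.sum_le_sum e3).trans ?_
    rw [Finset.sum_add_distrib, Finset.sum_ite_eq, if_pos hd, Finset.sum_const, nsmul_eq_mul]
  refine (Finset.sum_le_sum e2).trans ?_
  rw [Finset.sum_const, nsmul_eq_mul]
  change τ * (A * Real.log N ^ 10 + τ * (A / (D : ℝ) ^ 2)) ≤ τ * A * Real.log N ^ 11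
  have h5 : τ * (A / (D : ℝ) ^ 2) ≤ A := by
    rw [mul_div_assoc', div_le_iff₀ (by positivity)]
    have : τ ≤ (D : ℝ) ^ 2 := by nlinarith [h.one_le_D]
    nlinarith
  have h6 : A ≤ A * Real.log N ^ 10 := by
    have : (1 : ℝ) ≤ Real.log N ^ 10 := one_le_pow₀ (by linarith [show (1:ℝ) ≤ 10 ^ 5 by norm_num])
    nlinarith
  have h7 : 2 * Real.log N ^ 10 ≤ Real.log N ^ 11 := by
    have : (0 : ℝ) ≤ Real.log N ^ 10 := by positivity
    have h8 : (2 : ℝ) ≤ Real.log N := by linarith [show (2:ℝ) ≤ 10 ^ 5 by norm_num]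
    nlinarith
  calc τ * (A * Real.log N ^ 10 + τ * (A / (D : ℝ) ^ 2))
      ≤ τ * (A * Real.log N ^ 10 + A * Real.log N ^ 10) := by
        apply mul_le_mul_of_nonneg_left _ hτ0.le
        linarith
    _ = τ * A * (2 * Real.log N ^ 10) := by ring
    _ ≤ τ * A * Real.log N ^ 11 := by gcongr

end Pool.Agent.Lib.MP_9c2ea5_nt
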