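import Mathlib
import Pool.Agent.Lib.MP_9c2ea5_nt.L2

/-!
# Q8: the sum of `h(r, b+n)` over the units `b` mod `r`

Möbius: `[gcd(b,r)=1] = ∑_{e ∣ gcd(b,r)} μ(e)`.  For a divisor `e` of `r` the sum over `b = e b'`,
`b' < r/e =: r'`: `h(r, e b' + n) = h(e, n) h(r', e b' + n)` (`r` is squarefree, so
`gcd(e,r')=1`), and `∑_{b' < r'} h(r', e b' + n) = 0` unless `r' = 1` (`sum_hh_ap`).  Only `e = r`
survives: it gives `μ(r) h(r,n)`.
-/

open Finset

namespace Pool.Agent.Lib.MP_9c2ea5_nt

private lemma q8_moebius (g : ℕ) (hg : 0 < g) :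
    ∑ e ∈ g.divisors, ((ArithmeticFunction.moebius e : ℤ) : ℝ) = if g = 1 then 1 else 0 := by
  have h := congrArg (fun f : ArithmeticFunction ℤ => f g) ArithmeticFunction.moebius_mul_coe_zeta
  simp only [ArithmeticFunction.coe_mul_zeta_apply] at h
  have h2 : ((∑ e ∈ g.divisors, ArithmeticFunction.moebius e : ℤ) : ℝ) = if g = 1 then 1 else 0 := by
    rw [h, ArithmeticFunction.one_apply]
    split_ifs <;> simp
  rw [← h2]
  push_cast
  rfl

private lemma q8_ind {r : ℕ} (hr : 0 < r) (b : ℕ) :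
    (if Nat.Coprime b r then (1 : ℝ) else 0) =
      ∑ e ∈ r.divisors, if e ∣ b then ((ArithmeticFunction.moebius e : ℤ) : ℝ) else 0 := by
  rw [← Finset.sum_filter]
  have h1 : r.divisors.filter (fun e => e ∣ b) = (Nat.gcd b r).divisors := by
    ext e
    simp only [Finset.mem_filter, Nat.mem_divisors]
    constructor
    · rintro ⟨⟨h1, h2⟩, h3⟩
      exact ⟨Nat.dvd_gcd h3 h1, (Nat.gcd_pos_of_pos_right b hr).ne'⟩
    · rintro ⟨h1, h2⟩
      exact ⟨⟨h1.trans (Nat.gcd_dvd_right _ _), hr.ne'⟩, h1.trans (Nat.gcd_dvd_left _ _)⟩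
  rw [h1, q8_moebius _ (Nat.gcd_pos_of_pos_right b hr)]

private lemma q8_inner {e r' : ℕ} (he : 0 < e) (hr' : 0 < r') (hco : Nat.Coprime e r') (n : ℤ) :
    ∑ b ∈ (range (e * r')).filter (fun b => e ∣ b), hh (e * r') (b + n) =
      if r' = 1 then hh e n else 0 := by
  have h1 : ∑ b ∈ (range (e * r')).filter (fun b => e ∣ b), hh (e * r') (b + n) =
      ∑ t ∈ range r', hh e n * hh r' (n + (e : ℕ) * (t : ℕ)) := by
    symm
    apply Finset.sum_bij (fun t _ => e * t)
    · intro t ht
      rw [Finset.mem_filter, Finset.mem_range]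
      exact ⟨Nat.mul_lt_mul_of_pos_left (Finset.mem_range.mp ht) he, dvd_mul_right _ _⟩
    · intro t ht t' ht' h
      exact Nat.eq_of_mul_eq_mul_left he h
    · intro b hb
      rw [Finset.mem_filter, Finset.mem_range] at hb
      obtain ⟨hb1, t, rfl⟩ := hb
      exact ⟨t, Finset.mem_range.mpr (Nat.lt_of_mul_lt_mul_left hb1), rfl⟩
    · intro t ht
      rw [hh_mul he hr' hco]
      have h2 : hh e (((e * t : ℕ) : ℤ) + n) = hh e n := by
        apply hh_congr
        push_cast
        exact ⟨(t : ℤ), by ring⟩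
      rw [h2]
      congr 2
      push_cast
      ring
  rw [h1, ← Finset.mul_sum]
  split_ifs with h
  · subst h
    simp [hh_one]
  · have h3 : 1 < r' := by omega
    rw [sum_hh_ap h3 hco n, mul_zero]

lemma sum_units_hh {r : ℕ} (hr : Squarefree r) (n : ℤ) :
    ∑ b ∈ (range r).filter (fun b => Nat.Coprime b r), hh r (b + n) =
      ((ArithmeticFunction.moebius r : ℤ) : ℝ) * hh r n := by
  have hr0 : 0 < r := Nat.pos_of_ne_zero hr.ne_zero
  have h1 : ∑ b ∈ (range r).filter (fun b => Nat.Coprime b r), hh r (b + n) =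
      ∑ e ∈ r.divisors, ((ArithmeticFunction.moebius e : ℤ) : ℝ) *
        ∑ b ∈ (range r).filter (fun b => e ∣ b), hh r (b + n) := by
    rw [Finset.sum_filter]
    have h2 : ∀ b ∈ range r, (if Nat.Coprime b r then hh r (b + n) else 0) =
        ∑ e ∈ r.divisors, (if e ∣ b then ((ArithmeticFunction.moebius e : ℤ) : ℝ) * hh r (b + n) else 0) := by
      intro b _
      have h3 : (if Nat.Coprime b r then hh r (b + n) else 0) =
          (if Nat.Coprime b r then (1 : ℝ) else 0) * hh r (b + n) := by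
        split_ifs <;> simp
      rw [h3, q8_ind hr0, Finset.sum_mul]
      refine Finset.sum_congr rfl fun e _ => ?_
      split_ifs <;> simp
    rw [Finset.sum_congr rfl h2, Finset.sum_comm]
    refine Finset.sum_congr rfl fun e _ => ?_
    rw [Finset.mul_sum, Finset.sum_filter]
  rw [h1, Finset.sum_eq_single r]
  · have h4 := q8_inner (e := r) (r' := 1) hr0 one_pos (Nat.coprime_one_right r) n
    rw [mul_one, if_pos rfl] at h4
    rw [h4]
  · intro e he hne
    obtain ⟨⟨r', hr'⟩, -⟩ := Nat.mem_divisors.mp he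
    have he0 : 0 < e := Nat.pos_of_mem_divisors he
    have hr'0 : 0 < r' := by
      rcases Nat.eq_zero_or_pos r' with h | h
      · rw [h, mul_zero] at hr'
        omega
      · exact h
    have hco : Nat.Coprime e r' := by
      rw [hr'] at hr
      exact Nat.coprime_of_squarefree_mul hr
    have h5 := q8_inner he0 hr'0 hco n
    rw [← hr'] at h5
    rw [h5, if_neg, mul_zero]
    intro h
    rw [h, mul_one] at hr'
    exact hne hr'.symm
  · intro h
    exact absurd (Nat.mem_divisors.mpr ⟨dvd_rfl, hr0.ne'⟩) h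

end Pool.Agent.Lib.MP_9c2ea5_nt
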