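import Mathlib
import Pool.Agent.Lib.MP_9c2ea5_nt.Facts
import Pool.Agent.Lib.MP_9c2ea5_nt.L1

/-!
# Q9: `h(r, p_d) = h(r, q + N_v)`

`d ∣ D`, `e = D/d`, `B = W e v`.  Then `B p_d = (W e v)(W d u) + B² + B = (q - 1) + B² + B`.
`B` is prime to `r` for `r ∈ RR (WW D) (D²)` and a prime `v > N ≥ D²≥ r`.

`sum_QQ_eq`: for `v ∈ VV N` the map `u ↦ q(u,v) = W² D v u + 1` is a bijection from `QQ D N v` onto
the `k ∈ (2Z,4Z]` with `k ≡ 1 mod W² D v`: if `k - 1 = W² D v u` then `u ≥ 1` because `k > 2Z ≥ 1`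
and `W² D v u < 4Z = 4 W² D U N`, `v > N`, so `u ≤ 4U`.
-/

open Finset

namespace Pool.Agent.Lib.MP_9c2ea5_nt

/-- `B = W (D/d) v` -/
noncomputable def Bv (D d v : ℕ) : ℕ := WW D * (D / d) * v

/-- `N_v = B² + B - 1` -/
noncomputable def Nv (D d v : ℕ) : ℤ := (Bv D d v : ℤ) ^ 2 + Bv D d v - 1

lemma hh_pd {D N : ℕ} (h : Hyp D N) {d r v : ℕ} (hd : d ∈ D.divisors)
    (hr : r ∈ RR (WW D) (D ^ 2)) (hv : v ∈ VV N) (u : ℕ) :
    hh r (pd D d u v) = hh r ((qq D u v : ℤ) + Nv D d v) := by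
  have hdD : d ∣ D := Nat.dvd_of_mem_divisors hd
  obtain ⟨e, he⟩ := hdD
  have hd0 : 0 < d := Nat.pos_of_mem_divisors hd
  have hDe : D / d = e := by rw [he]; exact Nat.mul_div_cancel_left e hd0
  simp only [VV, mem_filter, mem_Ioc] at hv
  simp only [RR, mem_filter, mem_Icc] at hr
  have hcW : Nat.Coprime r (WW D) := hr.2.2
  have hce : Nat.Coprime r e := by
    refine Nat.Coprime.coprime_dvd_right ?_ hcW
    exact (Dvd.intro_left d he.symm).trans (Dvd.intro_left W0 rfl)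
  have hrN : r ≤ N := le_trans hr.1.2 (h.D_pow_le (by norm_num))
  have hcv : Nat.Coprime r v := by
    rw [Nat.coprime_comm, Nat.Prime.coprime_iff_not_dvd hv.2]
    intro hdv
    exact absurd (Nat.le_of_dvd hr.1.1 hdv) (by omega)
  have hcB : Nat.Coprime r (Bv D d v) := by
    unfold Bv
    rw [hDe]
    exact Nat.Coprime.mul_right (Nat.Coprime.mul_right hcW hce) hcv
  have hB : Int.gcd r (Bv D d v : ℤ) = 1 := by
    rw [Int.gcd_natCast_natCast]
    exact hcB
  rw [← hh_unit_mul hB]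
  congr 1
  unfold pd qq Nv Bv
  rw [hDe]
  have hDz : (D : ℤ) = d * e := by exact_mod_cast he
  push_cast
  rw [hDz]
  ring

lemma sum_QQ_eq {D N : ℕ} (h : Hyp D N) {v : ℕ} (hv : v ∈ VV N) (F : ℕ → ℝ) :
    ∑ u ∈ QQ D N v, F (qq D u v) =
      ∑ k ∈ (Ioc (2 * ZZ D N) (4 * ZZ D N)).filter (fun k => k ≡ 1 [MOD (WW D) ^ 2 * D * v]),
        F k := by
  simp only [VV, mem_filter, mem_Ioc] at hv
  have hm : 0 < (WW D) ^ 2 * D * v := by
    have := h.WW_pos
    have := h.D_pos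
    have := hv.2.pos
    positivity
  have hqq : ∀ u, qq D u v = (WW D) ^ 2 * D * v * u + 1 := by
    intro u; unfold qq; ring
  refine Finset.sum_nbij' (fun u => qq D u v) (fun k => (k - 1) / ((WW D) ^ 2 * D * v)) ?_ ?_ ?_ ?_ ?_
  · intro u hu
    simp only [QQ, mem_filter, mem_Icc] at hu
    simp only [mem_filter, mem_Ioc]
    refine ⟨hu.2, ?_⟩
    rw [hqq u]
    have : (WW D) ^ 2 * D * v * u + 1 ≡ 0 + 1 [MOD (WW D) ^ 2 * D * v] := by
      apply Nat.ModEq.add_right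
      exact (Nat.modEq_zero_iff_dvd).2 (Dvd.intro _ rfl)
    simpa using this
  · intro k hk
    simp only [mem_filter, mem_Ioc] at hk
    obtain ⟨⟨hk1, hk2⟩, hk3⟩ := hk
    have hZ := h.ZZ_pos
    have h1k : 1 ≤ k := by omega
    obtain ⟨u, hu⟩ := (Nat.modEq_iff_dvd' h1k).1 hk3.symm
    have hku : (k - 1) / ((WW D) ^ 2 * D * v) = u := by
      rw [hu]; exact Nat.mul_div_cancel_left u hm
    have hq : qq D u v = k := by
      rw [hqq u, ← hu]; omega
    simp only [QQ, mem_filter, mem_Icc]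
    rw [hku, hq]
    refine ⟨⟨?_, ?_⟩, hk1, hk2⟩
    · rcases Nat.eq_zero_or_pos u with h0 | h0
      · rw [h0] at hu
        omega
      · exact h0
    · by_contra hlt
      push Not at hlt
      have h2 : ZZ D N * 4 ≤ (WW D) ^ 2 * D * v * u := by
        have h3 : (WW D) ^ 2 * D * N * (4 * UU D N) ≤ (WW D) ^ 2 * D * v * u := by
          apply Nat.mul_le_mul
          · exact Nat.mul_le_mul_left _ (by omega)
          · omega
        calc ZZ D N * 4 = (WW D) ^ 2 * D * N * (4 * UU D N) := by unfold ZZ; ring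
          _ ≤ _ := h3
      omega
  · intro u hu
    show (qq D u v - 1) / ((WW D) ^ 2 * D * v) = u
    rw [hqq u, Nat.add_sub_cancel]
    exact Nat.mul_div_cancel_left u hm
  · intro k hk
    simp only [mem_filter, mem_Ioc] at hk
    obtain ⟨⟨hk1, hk2⟩, hk3⟩ := hk
    have hZ := h.ZZ_pos
    have h1k : 1 ≤ k := by omega
    obtain ⟨u, hu⟩ := (Nat.modEq_iff_dvd' h1k).1 hk3.symm
    have hku : (k - 1) / ((WW D) ^ 2 * D * v) = u := by
      rw [hu]; exact Nat.mul_div_cancel_left u hm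
    show qq D ((k - 1) / ((WW D) ^ 2 * D * v)) v = k
    rw [hku, hqq u, ← hu]
    omega
  · intro u hu
    rfl

end Pool.Agent.Lib.MP_9c2ea5_nt
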