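import Mathlib
import Pool.Agent.Lib.MP_9c2ea5_nt.Facts
import Pool.Agent.Lib.MP_9c2ea5_nt.Q8
import Pool.Agent.Lib.MP_9c2ea5_nt.Q9

/-!
# Q10: splitting into classes mod `r`

Let `r ∈ RR (WW D) (D²)`, `m = W² D r`.  For `b` prime to `r` let `c b` be the solution of
`c ≡ 1 mod W² D`, `c ≡ b mod r` (`Nat.chineseRemainder`; `gcd(W² D, r) = 1`), it is prime to `m`.
For `v ∈ VV N` (prime, `> N`, hence prime to `W² D`) and `k ∈ (2Z,4Z]`:
`k ≡ 1 mod W² D v ∧ k ≡ b mod r  ⟺  k ≡ 1 mod v ∧ k ≡ c b mod m`.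
Primes `k > 2Z > r` are prime to `r`, so only the classes `b` prime to `r` matter
(`b = k % r`), and on such a class `h(r, k+n) = h(r, b+n)` (`hh_congr`).
-/

open Finset

namespace Pool.Agent.Lib.MP_9c2ea5_nt

private lemma sum_eq_aux {r : ℕ} (hr0 : 0 < r) {M v : ℕ} (hMr : Nat.Coprime M r)
    (hMv : Nat.Coprime M v) (c : ℕ → ℕ)
    (hc : ∀ b, c b ≡ 1 [MOD M] ∧ c b ≡ b [MOD r]) (n : ℤ) {k : ℕ}
    (hk : k.Prime → Nat.Coprime k r) :
    (if k ≡ 1 [MOD M * v] then thN k * hh r (k + n) else 0) =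
      ∑ b ∈ (range r).filter (fun b => Nat.Coprime b r),
        hh r (b + n) * (if k ≡ 1 [MOD v] ∧ k ≡ c b [MOD M * r] then thN k else 0) := by
  by_cases hp : k.Prime
  · have hkr := hk hp
    have hb0 : k % r ∈ (range r).filter (fun b => Nat.Coprime b r) := by
      rw [mem_filter, mem_range]
      refine ⟨Nat.mod_lt _ hr0, ?_⟩
      unfold Nat.Coprime
      rw [← Nat.gcd_rec, Nat.gcd_comm]
      exact hkr
    rw [Finset.sum_eq_single_of_mem (k % r) hb0]
    · have h1 : (k ≡ 1 [MOD M * v]) ↔ (k ≡ 1 [MOD v] ∧ k ≡ c (k % r) [MOD M * r]) := by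
        rw [← Nat.modEq_and_modEq_iff_modEq_mul hMv, ← Nat.modEq_and_modEq_iff_modEq_mul hMr]
        have h2 := hc (k % r)
        have h3 : k ≡ c (k % r) [MOD r] := ((Nat.mod_modEq k r).symm).trans h2.2.symm
        constructor
        · rintro ⟨h4, h5⟩
          exact ⟨h5, h4.trans h2.1.symm, h3⟩
        · rintro ⟨h4, h5, _⟩
          exact ⟨h5.trans h2.1, h4⟩
      have h2 : hh r (((k % r : ℕ) : ℤ) + n) = hh r (k + n) := by
        apply hh_congr
        have h3 : (((k % r : ℕ) : ℤ) + n) - (k + n) = -((r : ℤ) * (k / r : ℕ)) := by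
          have h4 : ((k % r : ℕ) : ℤ) + (r : ℤ) * ((k / r : ℕ) : ℤ) = k := by
            exact_mod_cast Nat.mod_add_div k r
          linarith
        rw [h3]
        exact (dvd_mul_right _ _).neg_right
      rw [h2]
      by_cases h3 : k ≡ 1 [MOD M * v]
      · rw [if_pos h3, if_pos (h1.1 h3), mul_comm]
      · rw [if_neg h3, if_neg (fun h4 => h3 (h1.2 h4)), mul_zero]
    · intro b hb hne
      rw [mem_filter, mem_range] at hb
      rw [if_neg, mul_zero]
      rintro ⟨_, h4⟩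
      rw [← Nat.modEq_and_modEq_iff_modEq_mul hMr] at h4
      have h5 : k ≡ b [MOD r] := h4.2.trans (hc b).2
      apply hne
      have h6 : k % r = b % r := h5
      rw [h6, Nat.mod_eq_of_lt hb.1]
  · have h0 : thN k = 0 := by
      unfold thN
      rw [if_neg hp]
    rw [h0]
    simp

lemma split_classes {D N : ℕ} (h : Hyp D N) {r : ℕ} (hr : r ∈ RR (WW D) (D ^ 2)) :
    ∃ c : ℕ → ℕ, (∀ b, Nat.Coprime b r → Nat.Coprime (c b) ((WW D) ^ 2 * D * r)) ∧
      ∀ v ∈ VV N, ∀ n : ℤ,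
        ∑ k ∈ (Ioc (2 * ZZ D N) (4 * ZZ D N)).filter (fun k => k ≡ 1 [MOD (WW D) ^ 2 * D * v]),
          thN k * hh r (k + n) =
        ∑ b ∈ (range r).filter (fun b => Nat.Coprime b r), hh r (b + n) *
          ∑ k ∈ (Ioc (2 * ZZ D N) (4 * ZZ D N)).filter
            (fun k => k ≡ 1 [MOD v] ∧ k ≡ c b [MOD (WW D) ^ 2 * D * r]), thN k := by
  unfold RR at hr
  rw [mem_filter, mem_Icc] at hr
  obtain ⟨⟨hr1, hrD⟩, _, hrW⟩ := hr
  have hWD : D ∣ WW D := Dvd.intro_left W0 rfl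
  have hrD' : Nat.Coprime r D := Nat.Coprime.coprime_dvd_right hWD hrW
  have hMr : Nat.Coprime ((WW D) ^ 2 * D) r :=
    Nat.Coprime.mul_left (Nat.Coprime.pow_left 2 hrW.symm) hrD'.symm
  refine ⟨fun b => (Nat.chineseRemainder hMr 1 b : ℕ), fun b hb => ?_, fun v hv n => ?_⟩
  · have hc := (Nat.chineseRemainder hMr 1 b).2
    apply Nat.Coprime.mul_right
    · have h1 := hc.1.gcd_eq
      unfold Nat.Coprime
      rw [h1]
      exact Nat.gcd_one_left _
    · have h1 := hc.2.gcd_eq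
      unfold Nat.Coprime
      rw [h1]
      exact hb
  · unfold VV at hv
    rw [mem_filter, mem_Ioc] at hv
    obtain ⟨⟨hv1, _⟩, hvp⟩ := hv
    have hvW := h.WW_coprime_prime hvp hv1
    have hvD : Nat.Coprime v D := Nat.Coprime.coprime_dvd_right hWD hvW
    have hMv : Nat.Coprime ((WW D) ^ 2 * D) v :=
      Nat.Coprime.mul_left (Nat.Coprime.pow_left 2 hvW.symm) hvD.symm
    have hk : ∀ k ∈ Ioc (2 * ZZ D N) (4 * ZZ D N), k.Prime → Nat.Coprime k r := by
      intro k hk hp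
      rw [mem_Ioc] at hk
      rw [Nat.Prime.coprime_iff_not_dvd hp]
      intro hd
      have h1 := Nat.le_of_dvd hr1 hd
      have h2 := h.D_pow_le (k := 2) (by norm_num)
      have h3 := h.ZZ_ge
      have h4 : N ≤ N ^ 2 * D ^ 303 := by
        calc N = N * 1 := (mul_one N).symm
          _ ≤ N * (N * D ^ 303) :=
            Nat.mul_le_mul_left _ (Nat.mul_pos h.N_pos (pow_pos h.D_pos _))
          _ = N ^ 2 * D ^ 303 := by ring
      omega
    rw [sum_filter]
    have hR : ∀ b ∈ (range r).filter (fun b => Nat.Coprime b r), hh r (b + n) *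
          ∑ k ∈ (Ioc (2 * ZZ D N) (4 * ZZ D N)).filter
            (fun k => k ≡ 1 [MOD v] ∧
              k ≡ (Nat.chineseRemainder hMr 1 b : ℕ) [MOD (WW D) ^ 2 * D * r]), thN k =
          ∑ k ∈ Ioc (2 * ZZ D N) (4 * ZZ D N), hh r (b + n) *
            (if k ≡ 1 [MOD v] ∧
              k ≡ (Nat.chineseRemainder hMr 1 b : ℕ) [MOD (WW D) ^ 2 * D * r]
              then thN k else 0) := by
      intro b _
      rw [sum_filter, mul_sum]
    rw [sum_congr rfl hR, sum_comm]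
    refine sum_congr rfl fun k hk' => ?_
    exact sum_eq_aux hr1 hMr hMv (fun b => (Nat.chineseRemainder hMr 1 b : ℕ))
      (fun b => (Nat.chineseRemainder hMr 1 b).2) n (hk k hk')

end Pool.Agent.Lib.MP_9c2ea5_nt
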