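import Mathlib
import Pool.Agent.Lib.MP_9c2ea5_nt.Facts
import Pool.Agent.Lib.MP_9c2ea5_nt.Q5

/-!
# Q5b: the numbers

`core_dl` with `P = VV N`, `Q = 2N`, `y0 = N`, `N := M ∈ [Z, 4Z]`, `U = D^100`
(`U³ = D^300 ≤ M`), `r ≤ D^6 < N` (so no prime `l > N` divides `r`), and
`L = Nat.log 2 (M+1) + 2`, so `M + 1 < 2^L` and `L ≤ 5 ℓ`, `ℓ = log N`
(`M ≤ 4Z ≤ N³`: `log₂(N³+1) + 2 ≤ 3 · 1.4427 ℓ + 3 ≤ 5 ℓ`).
First term: `8 · 5ℓ · D^6 · D^100 · 4N² ≤ D^108 N² ≤ Z/D^190` (`ZZ_ge : N² D^303 ≤ Z`, `160 ℓ ≤ D`).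
Second term: `Q²/U = 4N²/D^100`, `Q⁴/M ≤ 16 N⁴/(N² D^303) = 16 N²/D^303`, `1 ≤ N²/D^100`, hence the
root is `≤ √(6 N²/D^100) ≤ 3 N/D^50`; the term is
`≤ 144 · 625 ℓ⁴ · D³ · (4Z/N) · 3N/D^50 ≤ Z · (1080000 ℓ⁴) · D³/D^50 ≤ Z · D · D³/D^50`
(`1080000 ℓ⁴ ≤ ℓ^6 ≤ D` since `ℓ ≥ 10^5`).  The sum of the two is `≤ Z/D^40`.
(`tw M κ vM = ∑ k ∈ Ioc 0 M, (vM k : ℂ) * κ k` by definition.)
-/

open Finset Real
open Pool.Agent.Lib.MP_2a816b_nt (e OpB vM tw)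

namespace Pool.Agent.Lib.MP_9c2ea5_nt

theorem bv_additive {D N : ℕ} (h : Hyp D N) {r : ℕ} (hr : 0 < r) (hrD : r ≤ D ^ 6) (b M : ℕ)
    (hM1 : ZZ D N ≤ M) (hM2 : M ≤ 4 * ZZ D N) :
    ∑ v ∈ VV N, ‖∑ k ∈ Ioc 0 M, (vM k : ℂ) * (dl v k * e ((k * b : ℕ) / r))‖ ≤
      (ZZ D N : ℝ) / (D : ℝ) ^ 40 := by
  have hD1 := h.one_le_D
  have hD0 := h.D_pos'
  have hN0 := h.N_pos'
  have hlN := h.logN_ge
  have hZ0 : (0 : ℝ) < (ZZ D N : ℝ) := by exact_mod_cast h.ZZ_pos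
  have hZge : (N : ℝ) ^ 2 * (D : ℝ) ^ 303 ≤ (ZZ D N : ℝ) := by exact_mod_cast h.ZZ_ge
  have hMpos : 0 < M := lt_of_lt_of_le h.ZZ_pos hM1
  have hN2 : 2 ≤ N := by
    have h1 := h.D_gt_one
    have h2 := h.D_le_N
    omega
  have hMN4 : M + 1 ≤ N ^ 4 := by
    have h1 := h.ZZ_le
    have h2 : N ^ 3 * 2 ≤ N ^ 3 * N := Nat.mul_le_mul_left _ hN2
    have h3 : 1 ≤ N ^ 3 := Nat.one_le_pow _ _ h.N_pos
    calc M + 1 ≤ N ^ 3 + N ^ 3 := by omega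
      _ = N ^ 3 * 2 := by ring
      _ ≤ N ^ 3 * N := h2
      _ = N ^ 4 := by ring
  -- the parameter L
  have hLlt : M + 1 < 2 ^ (Nat.log 2 (M + 1) + 2) := by
    have h1 : M + 1 < 2 ^ (Nat.log 2 (M + 1) + 1) := Nat.lt_pow_succ_log_self (by norm_num) _
    have h2 : 2 ^ (Nat.log 2 (M + 1) + 1) ≤ 2 ^ (Nat.log 2 (M + 1) + 2) :=
      Nat.pow_le_pow_right (by norm_num) (by omega)
    omega
  have hLle : ((Nat.log 2 (M + 1) + 2 : ℕ) : ℝ) ≤ 8 * Real.log N := by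
    have h1 : 2 ^ Nat.log 2 (M + 1) ≤ N ^ 4 := (Nat.pow_log_le_self 2 (by omega)).trans hMN4
    have h2 : ((2 : ℝ) ^ Nat.log 2 (M + 1)) ≤ (N : ℝ) ^ 4 := by exact_mod_cast h1
    have h3 := Real.log_le_log (by positivity) h2
    rw [Real.log_pow, Real.log_pow] at h3
    have h4 := Real.log_two_gt_d9
    push_cast at h3 ⊢
    have h5 : (0 : ℝ) ≤ (Nat.log 2 (M + 1) : ℝ) := Nat.cast_nonneg _
    have h6 : (10 : ℝ) ^ 5 ≤ Real.log N := hlN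
    norm_num at h6
    nlinarith
  have hDN : D ^ 6 < N := by
    have h1 : D ^ 7 ≤ N := h.D_pow_le (by norm_num)
    have h2 : D ^ 6 * 1 < D ^ 6 * D := Nat.mul_lt_mul_of_pos_left h.D_gt_one (pow_pos h.D_pos _)
    calc D ^ 6 = D ^ 6 * 1 := by ring
      _ < D ^ 6 * D := h2
      _ = D ^ 7 := by ring
      _ ≤ N := h1
  have hU3 : D ^ 100 * D ^ 100 * D ^ 100 ≤ M := by
    refine le_trans ?_ (h.ZZ_ge.trans hM1)
    calc D ^ 100 * D ^ 100 * D ^ 100 = 1 * D ^ 300 := by ring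
      _ ≤ N ^ 2 * D ^ 303 := Nat.mul_le_mul (Nat.one_le_pow _ _ h.N_pos)
          (Nat.pow_le_pow_right h.D_pos (by norm_num))
  have hcore := core_dl (VV N) (2 * N) (N : ℝ) hN0 (by
      intro l hl
      unfold VV at hl
      rw [mem_filter, mem_Ioc] at hl
      exact ⟨hl.2, hl.1.2, by exact_mod_cast hl.1.1.le⟩)
    r hr (by
      intro l hl hd
      unfold VV at hl
      rw [mem_filter, mem_Ioc] at hl
      have := Nat.le_of_dvd hr hd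
      omega) b M (D ^ 100) (Nat.log 2 (M + 1) + 2) (Nat.one_le_pow _ _ h.D_pos) hU3 hLlt
  refine le_trans hcore ?_
  clear hcore
  generalize hLL : ((Nat.log 2 (M + 1) + 2 : ℕ) : ℝ) = L at hLle ⊢
  have hL0 : 0 ≤ L := by rw [← hLL]; positivity
  have hM1' : (ZZ D N : ℝ) ≤ (M : ℝ) := by exact_mod_cast hM1
  have hM2' : (M : ℝ) ≤ 4 * (ZZ D N : ℝ) := by exact_mod_cast hM2
  have hr1 : (r : ℝ) ≤ (D : ℝ) ^ 6 := by exact_mod_cast hrD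
  have hr0 : (0 : ℝ) ≤ (r : ℝ) := Nat.cast_nonneg _
  have hl2 : Real.log N ^ 2 ≤ D := h.logN_pow_le' (by norm_num)
  have hl6 : Real.log N ^ 6 ≤ D := h.logN_pow_le' (by norm_num)
  have hd50 : (D : ℝ) ^ 50 ≤ N := h.D_pow_le' (by norm_num)
  have hbig := h.D_ge'
  push_cast
  generalize (ZZ D N : ℝ) = Z at *
  generalize (M : ℝ) = m at *
  generalize (r : ℝ) = rr at *
  generalize Real.log (N : ℝ) = ℓ at *
  generalize (N : ℝ) = n at *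
  generalize (D : ℝ) = d at *
  norm_num at hlN
  have hm0 : 0 < m := lt_of_lt_of_le hZ0 hM1'
  have hT1 : 2 * (8 * L * rr * d ^ 100 * (2 * n) ^ 2) ≤ Z / d ^ 40 := by
    rw [le_div_iff₀ (by positivity)]
    have h1 : L * rr ≤ (8 * ℓ) * d ^ 6 := mul_le_mul hLle hr1 hr0 (by linarith)
    have h2 : 512 * ℓ ≤ d := by nlinarith
    calc 2 * (8 * L * rr * d ^ 100 * (2 * n) ^ 2) * d ^ 40
        = (L * rr) * (64 * d ^ 140 * n ^ 2) := by ring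
      _ ≤ ((8 * ℓ) * d ^ 6) * (64 * d ^ 140 * n ^ 2) := mul_le_mul_of_nonneg_right h1 (by positivity)
      _ = (512 * ℓ) * (d ^ 146 * n ^ 2) := by ring
      _ ≤ d * (d ^ 146 * n ^ 2) := mul_le_mul_of_nonneg_right h2 (by positivity)
      _ = n ^ 2 * d ^ 147 := by ring
      _ ≤ n ^ 2 * d ^ 303 := mul_le_mul_of_nonneg_left (pow_le_pow_right₀ hD1 (by norm_num)) (by positivity)
      _ ≤ Z := hZge
  have hsr : √rr ≤ d ^ 3 := by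
    rw [Real.sqrt_le_iff]
    refine ⟨by positivity, ?_⟩
    calc rr ≤ d ^ 6 := hr1
      _ = (d ^ 3) ^ 2 := by ring
  have hs : √(1 + (2 * n) ^ 2 / d ^ 100 + (2 * n) ^ 4 / m) ≤ 3 * n / d ^ 50 := by
    rw [Real.sqrt_le_iff]
    refine ⟨by positivity, ?_⟩
    have e1 : (3 * n / d ^ 50) ^ 2 = 9 * (n ^ 2 / d ^ 100) := by
      rw [div_pow, ← pow_mul]
      ring
    have e2 : 1 ≤ n ^ 2 / d ^ 100 := by
      rw [le_div_iff₀ (by positivity), one_mul]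
      calc d ^ 100 = (d ^ 50) ^ 2 := by ring
        _ ≤ n ^ 2 := pow_le_pow_left₀ (by positivity) hd50 2
    have e3 : (2 * n) ^ 2 / d ^ 100 = 4 * (n ^ 2 / d ^ 100) := by ring
    have e4 : (2 * n) ^ 4 / m ≤ n ^ 2 / d ^ 100 := by
      rw [div_le_div_iff₀ hm0 (by positivity)]
      have f1 : 16 * d ^ 100 ≤ d ^ 303 := by
        have f2 : (16 : ℝ) ≤ d ^ 203 := by
          calc (16 : ℝ) ≤ 10 ^ 100 := by norm_num
            _ ≤ d := hbig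
            _ = d ^ 1 := (pow_one d).symm
            _ ≤ d ^ 203 := pow_le_pow_right₀ hD1 (by norm_num)
        calc 16 * d ^ 100 ≤ d ^ 203 * d ^ 100 := mul_le_mul_of_nonneg_right f2 (by positivity)
          _ = d ^ 303 := by ring
      calc (2 * n) ^ 4 * d ^ 100 = n ^ 2 * (n ^ 2 * (16 * d ^ 100)) := by ring
        _ ≤ n ^ 2 * (n ^ 2 * d ^ 303) := by gcongr
        _ ≤ n ^ 2 * m := by
            refine mul_le_mul_of_nonneg_left (hZge.trans hM1') (by positivity)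
    rw [e1, e3]
    linarith
  have hT2 : 2 * (144 * L ^ 4 * √rr * m / n * √(1 + (2 * n) ^ 2 / d ^ 100 + (2 * n) ^ 4 / m)) ≤ Z / d ^ 40 := by
    have g1 : L ^ 4 ≤ (8 * ℓ) ^ 4 := pow_le_pow_left₀ hL0 hLle 4
    have g2 : 14155776 * ℓ ^ 4 ≤ d := by
      refine le_trans ?_ hl6
      have g3 : (14155776 : ℝ) ≤ ℓ ^ 2 := by nlinarith
      calc 14155776 * ℓ ^ 4 ≤ ℓ ^ 2 * ℓ ^ 4 := mul_le_mul_of_nonneg_right g3 (by positivity)
        _ = ℓ ^ 6 := by ring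
    have hℓ0 : 0 ≤ ℓ := by linarith
    calc 2 * (144 * L ^ 4 * √rr * m / n * √(1 + (2 * n) ^ 2 / d ^ 100 + (2 * n) ^ 4 / m))
        ≤ 2 * (144 * (8 * ℓ) ^ 4 * d ^ 3 * (4 * Z) / n * (3 * n / d ^ 50)) := by gcongr
      _ = (14155776 * ℓ ^ 4) * (d ^ 3 * Z / d ^ 50) := by
          field_simp
          ring
      _ ≤ d * (d ^ 3 * Z / d ^ 50) := mul_le_mul_of_nonneg_right g2 (by positivity)
      _ = Z * (d ^ 4 / d ^ 50) := by ring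
      _ ≤ Z * (1 / d ^ 40) := by
          refine mul_le_mul_of_nonneg_left ?_ hZ0.le
          rw [div_le_div_iff₀ (by positivity) (by positivity), one_mul, ← pow_add]
          exact pow_le_pow_right₀ hD1 (by norm_num)
      _ = Z / d ^ 40 := by ring
  linarith

end Pool.Agent.Lib.MP_9c2ea5_nt
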