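import Mathlib
import Pool.Agent.Lib.MP_9c2ea5_nt.Q5b

/-!
# Q6: primes in residue classes, on average over prime moduli `v ∈ (N, 2N]`

For `v ∈ VV N` and a prime `k ∈ (2Z,4Z]` one has `v ∤ k` (`k > 2Z > 2N ≥ v`), so the expression
inside the absolute value is `∑_{2Z<k≤4Z, k ≡ c (m)} θ(k) δ_v(k)` (a real number; `dl` is complex
valued).  Replace `θ` by `Λ`: the difference is at most
`∑_{2Z<k≤4Z} (Λ(k) - θ(k)) |δ_v(k)|`, `|δ_v(k)| ≤ [v ∣ k-1] + 1/(v-1)`, and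
`∑_{v ∈ VV} |δ_v(k)| ≤ 3 + 2` for `k ≥ 2` (at most `3` primes `v > N` divide `k - 1 < 4Z ≤ N³`;
`#VV ≤ N`), while `∑_{k ≤ 4Z} (Λ(k) - θ(k)) = ψ(4Z) - ϑ(4Z) ≤ 2 √(4Z) log(4Z)`
(`Chebyshev.abs_psi_sub_theta_le_sqrt_mul_log` or similar in Mathlib).  This is `≤ Z/D^45` since
`√Z ≥ N D^150`.
Finally `[k ≡ c (m)] = (1/m) ∑_{b<m} e(-cb/m) e(kb/m)`, so that
`∑_v |∑_{2Z<k≤4Z, k≡c} Λ(k) δ_v(k)| ≤ (1/m) ∑_{b<m} ∑_v |∑_{2Z<k≤4Z} Λ(k) δ_v(k) e(kb/m)|
≤ 2 Z/D^40` by `bv_additive` with `M = 4Z` and `M = 2Z`.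
-/

open Finset Real

namespace Pool.Agent.Lib.MP_9c2ea5_nt

open Pool.Agent.Lib.MP_2a816b_nt (e vM e_add e_neg norm_e e_eq_one_iff e_nat_mul e_int e_zero)

/-- orthogonality of additive characters -/
lemma class_ind (m c k : ℕ) (hm : 0 < m) :
    (if k ≡ c [MOD m] then (1 : ℂ) else 0) =
      (1 / (m : ℂ)) * ∑ b ∈ range m, e (-((c : ℝ) * b) / m) * e (((k * b : ℕ) : ℝ) / m) := by
  have hm' : (m : ℝ) ≠ 0 := by exact_mod_cast hm.ne'
  have hmc : (m : ℂ) ≠ 0 := by exact_mod_cast hm.ne'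
  have h1 : ∀ b ∈ range m, e (-((c : ℝ) * b) / m) * e (((k * b : ℕ) : ℝ) / m) =
      (e (((k : ℝ) - c) / m)) ^ b := by
    intro b _
    rw [← e_add, ← e_nat_mul]
    congr 1
    push_cast
    field_simp
    ring
  rw [sum_congr rfl h1]
  have hxm : (e (((k : ℝ) - c) / m)) ^ m = 1 := by
    rw [← e_nat_mul]
    have h2 : (m : ℝ) * (((k : ℝ) - c) / m) = (((k : ℤ) - (c : ℤ) : ℤ) : ℝ) := by
      push_cast
      field_simp
    rw [h2, e_int]
  split_ifs with hk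
  · have h3 : (m : ℤ) ∣ (k : ℤ) - c := (Nat.modEq_iff_dvd.1 hk.symm)
    obtain ⟨t, ht⟩ := h3
    have h4 : ((k : ℝ) - c) / m = (t : ℝ) := by
      have h5 : (k : ℝ) - c = m * t := by exact_mod_cast ht
      rw [h5]
      field_simp
    rw [h4, e_int]
    simp [hmc]
  · have hne : e (((k : ℝ) - c) / m) ≠ 1 := by
      intro h6
      obtain ⟨t, ht⟩ := (e_eq_one_iff _).1 h6
      apply hk
      apply Nat.ModEq.symm
      rw [Nat.modEq_iff_dvd]
      refine ⟨t, ?_⟩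
      have h7 : (k : ℝ) - c = m * t := by
        rw [← ht]; field_simp
      exact_mod_cast h7
    have h8 := geom_sum_mul (e (((k : ℝ) - c) / m)) m
    rw [hxm, sub_self] at h8
    rcases mul_eq_zero.1 h8 with h9 | h9
    · rw [h9, mul_zero]
    · exact absurd (sub_eq_zero.1 h9) hne

lemma vM_apply (k : ℕ) : vM k = ArithmeticFunction.vonMangoldt k := rfl

lemma thN_le_vM (k : ℕ) : thN k ≤ vM k := by
  rw [vM_apply]
  unfold thN
  split_ifs with hk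
  · rw [ArithmeticFunction.vonMangoldt_apply_prime hk]
  · exact ArithmeticFunction.vonMangoldt_nonneg

lemma thN_nonneg (k : ℕ) : 0 ≤ thN k := by
  unfold thN
  split_ifs with hk
  · exact Real.log_nonneg (by exact_mod_cast hk.one_lt.le)
  · exact le_rfl

/-- prime powers -/
lemma sum_pp {D N : ℕ} (h : Hyp D N) :
    ∑ k ∈ Ioc (2 * ZZ D N) (4 * ZZ D N), (vM k - thN k) ≤
      12 * √(ZZ D N : ℝ) * Real.log N := by
  have h1 : ∑ k ∈ Ioc (2 * ZZ D N) (4 * ZZ D N), (vM k - thN k) ≤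
      ∑ k ∈ Ioc 0 (4 * ZZ D N), (vM k - thN k) := by
    apply sum_le_sum_of_subset_of_nonneg
    · intro k hk
      simp only [mem_Ioc] at hk ⊢
      omega
    · intro k _ _
      linarith [thN_le_vM k]
  have h2 : ∑ k ∈ Ioc 0 (4 * ZZ D N), (vM k - thN k) =
      Chebyshev.psi ((4 * ZZ D N : ℕ) : ℝ) - Chebyshev.theta ((4 * ZZ D N : ℕ) : ℝ) := by
    rw [Chebyshev.psi_sub_theta_eq_sum_not_prime, Nat.floor_natCast, sum_filter]
    refine sum_congr rfl fun k _ => ?_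
    rw [vM_apply]
    unfold thN
    split_ifs with hk
    · rw [ArithmeticFunction.vonMangoldt_apply_prime hk, sub_self]
    · rw [sub_zero]
  have hZ1 : (1 : ℝ) ≤ ((4 * ZZ D N : ℕ) : ℝ) := by
    have := h.ZZ_pos
    exact_mod_cast (by omega : 1 ≤ 4 * ZZ D N)
  have h3 := Chebyshev.psi_sub_theta_le hZ1
  have h4 : √(((4 * ZZ D N : ℕ) : ℝ)) = 2 * √(ZZ D N : ℝ) := by
    push_cast
    rw [Real.sqrt_mul (by norm_num), show (4 : ℝ) = 2 ^ 2 by norm_num, Real.sqrt_sq (by norm_num)]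
  have h5 : Real.log ((4 * ZZ D N : ℕ) : ℝ) ≤ 3 * Real.log N := by
    have h6 : Real.log ((4 * ZZ D N : ℕ) : ℝ) ≤ Real.log ((N : ℝ) ^ 3) := by
      apply Real.log_le_log (by linarith)
      exact_mod_cast h.ZZ_le
    rw [Real.log_pow] at h6
    exact_mod_cast h6
  rw [h4] at h3
  have h7 : 0 ≤ √(ZZ D N : ℝ) := Real.sqrt_nonneg _
  calc _ ≤ 2 * (2 * √(ZZ D N : ℝ)) * Real.log ((4 * ZZ D N : ℕ) : ℝ) := by
        rw [h2] at h1; linarith
    _ ≤ 2 * (2 * √(ZZ D N : ℝ)) * (3 * Real.log N) := by gcongr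
    _ = _ := by ring

lemma norm_dl_le' {l k : ℕ} (hl : l.Prime) :
    ‖dl l k‖ ≤ (if k ≡ 1 [MOD l] then (1 : ℝ) else 0) + 1 / ((l : ℝ) - 1) := by
  have h1 : (1 : ℝ) < l := by exact_mod_cast hl.one_lt
  have h2 : ‖(1 : ℂ) / ((l : ℂ) - 1)‖ = 1 / ((l : ℝ) - 1) := by
    rw [norm_div, norm_one]
    congr 1
    rw [show ((l : ℂ) - 1) = (((l : ℝ) - 1 : ℝ) : ℂ) by push_cast; ring, Complex.norm_real,
      Real.norm_of_nonneg (by linarith)]
  unfold dl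
  refine le_trans (norm_sub_le _ _) ?_
  apply add_le_add
  · split_ifs <;> simp
  · split_ifs
    · rw [norm_zero]
      have : 0 < (l : ℝ) - 1 := by linarith
      positivity
    · rw [h2]

lemma card_VV (N : ℕ) : ((VV N).card : ℝ) ≤ N := by
  have h1 : (VV N).card ≤ N := by
    calc (VV N).card ≤ (Ioc N (2 * N)).card := card_filter_le _ _
      _ = N := by rw [Nat.card_Ioc]; omega
  exact_mod_cast h1

lemma sum_norm_dl {D N : ℕ} (h : Hyp D N) {k : ℕ} (hk : k ∈ Ioc (2 * ZZ D N) (4 * ZZ D N)) :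
    ∑ v ∈ VV N, ‖dl v k‖ ≤ 4 := by
  have hN := h.N_pos
  have hN2 : 2 ≤ N := by
    have h1 := h.D_le_N
    have h2 := h.D_gt_one
    omega
  have hNr : (0 : ℝ) < N := h.N_pos'
  simp only [mem_Ioc] at hk
  have hZ := h.ZZ_pos
  have hV : ∀ v ∈ VV N, v.Prime ∧ N < v := by
    intro v hv
    simp only [VV, mem_filter, mem_Ioc] at hv
    exact ⟨hv.2, hv.1.1⟩
  have h1 : ∑ v ∈ VV N, ‖dl v k‖ ≤
      ∑ v ∈ VV N, ((if k ≡ 1 [MOD v] then (1 : ℝ) else 0) + 1 / (N : ℝ)) := by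
    refine sum_le_sum fun v hv => le_trans (norm_dl_le' (hV v hv).1) ?_
    have h2 : (N : ℝ) ≤ (v : ℝ) - 1 := by
      have h3 : (N : ℝ) + 1 ≤ v := by exact_mod_cast (hV v hv).2
      linarith
    gcongr
  have h4 : ∑ v ∈ VV N, (1 / (N : ℝ)) ≤ 1 := by
    rw [sum_const, nsmul_eq_mul]
    rw [mul_one_div, div_le_one hNr]
    exact card_VV N
  have h5 : ∑ v ∈ VV N, (if k ≡ 1 [MOD v] then (1 : ℝ) else 0) ≤ 3 := by
    rw [← sum_filter, sum_const, nsmul_eq_mul, mul_one]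
    have h6 : ((VV N).filter (fun v => k ≡ 1 [MOD v])).card ≤ 3 := by
      have h7 : (VV N).filter (fun v => k ≡ 1 [MOD v]) ⊆ (k - 1).primeFactors := by
        intro v hv
        simp only [mem_filter] at hv
        rw [Nat.mem_primeFactors]
        refine ⟨(hV v hv.1).1, ?_, by omega⟩
        exact (Nat.modEq_iff_dvd' (by omega : 1 ≤ k)).1 hv.2.symm
      have h8 : ∏ v ∈ (VV N).filter (fun v => k ≡ 1 [MOD v]), v ∣ k - 1 :=
        (Finset.prod_dvd_prod_of_subset _ _ _ h7).trans (Nat.prod_primeFactors_dvd _)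
      have h9 : ∏ v ∈ (VV N).filter (fun v => k ≡ 1 [MOD v]), v ≤ k - 1 :=
        Nat.le_of_dvd (by omega) h8
      have h10 : N ^ ((VV N).filter (fun v => k ≡ 1 [MOD v])).card ≤
          ∏ v ∈ (VV N).filter (fun v => k ≡ 1 [MOD v]), v := by
        rw [← prod_const]
        apply prod_le_prod'
        intro v hv
        exact (hV v (mem_filter.1 hv).1).2.le
      have h11 : N ^ ((VV N).filter (fun v => k ≡ 1 [MOD v])).card ≤ N ^ 3 := by
        have := h.ZZ_le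
        omega
      exact (Nat.pow_le_pow_iff_right (by omega)).1 h11
    exact_mod_cast h6
  rw [sum_add_distrib] at h1
  linarith

/-- the sum over `Λ` in a class -/
lemma bv_vM {D N : ℕ} (h : Hyp D N) {m : ℕ} (c : ℕ) (hm : 0 < m) (hmD : m ≤ D ^ 6) :
    ∑ v ∈ VV N, ‖∑ k ∈ (Ioc (2 * ZZ D N) (4 * ZZ D N)).filter (fun k => k ≡ c [MOD m]),
      (vM k : ℂ) * dl v k‖ ≤ 2 * ((ZZ D N : ℝ) / (D : ℝ) ^ 40) := by
  have hmr : (0 : ℝ) < m := by exact_mod_cast hm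
  have hmc : (m : ℂ) ≠ 0 := by exact_mod_cast hm.ne'
  set T : ℕ → ℕ → ℕ → ℂ := fun v b M =>
    ∑ k ∈ Ioc 0 M, (vM k : ℂ) * (dl v k * e (((k * b : ℕ) : ℝ) / m)) with hT
  have h1 : ∀ v, ∑ k ∈ (Ioc (2 * ZZ D N) (4 * ZZ D N)).filter (fun k => k ≡ c [MOD m]),
      (vM k : ℂ) * dl v k =
      (1 / (m : ℂ)) * ∑ b ∈ range m, e (-((c : ℝ) * b) / m) *
        (T v b (4 * ZZ D N) - T v b (2 * ZZ D N)) := by
    intro v
    have hsub : ∀ b, T v b (4 * ZZ D N) - T v b (2 * ZZ D N) =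
        ∑ k ∈ Ioc (2 * ZZ D N) (4 * ZZ D N), (vM k : ℂ) * (dl v k * e (((k * b : ℕ) : ℝ) / m)) := by
      intro b
      rw [sub_eq_iff_eq_add]
      simp only [hT]
      have h2 : 2 * ZZ D N ≤ 4 * ZZ D N := by omega
      have h3 := Finset.sum_Ioc_consecutive (fun k => (vM k : ℂ) *
        (dl v k * e (((k * b : ℕ) : ℝ) / m))) (Nat.zero_le (2 * ZZ D N)) h2
      rw [← h3, add_comm]
    rw [sum_filter]
    have h4 : ∀ k ∈ Ioc (2 * ZZ D N) (4 * ZZ D N),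
        (if k ≡ c [MOD m] then (vM k : ℂ) * dl v k else 0) =
        ∑ b ∈ range m, (1 / (m : ℂ)) * (e (-((c : ℝ) * b) / m) *
          ((vM k : ℂ) * (dl v k * e (((k * b : ℕ) : ℝ) / m)))) := by
      intro k _
      have h5 : (if k ≡ c [MOD m] then (vM k : ℂ) * dl v k else 0) =
          (vM k : ℂ) * dl v k * (if k ≡ c [MOD m] then (1 : ℂ) else 0) := by
        split_ifs <;> simp
      rw [h5, class_ind m c k hm, mul_sum, mul_sum]
      refine sum_congr rfl fun b _ => ?_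
      ring
    rw [sum_congr rfl h4, sum_comm, mul_sum]
    refine sum_congr rfl fun b _ => ?_
    rw [hsub b, mul_sum, mul_sum]
  have h6 : ∀ b, ∑ v ∈ VV N, ‖T v b (4 * ZZ D N) - T v b (2 * ZZ D N)‖ ≤
      2 * ((ZZ D N : ℝ) / (D : ℝ) ^ 40) := by
    intro b
    have h7 := bv_additive h hm hmD b (4 * ZZ D N) (by omega) le_rfl
    have h8 := bv_additive h hm hmD b (2 * ZZ D N) (by omega) (by omega)
    calc ∑ v ∈ VV N, ‖T v b (4 * ZZ D N) - T v b (2 * ZZ D N)‖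
        ≤ ∑ v ∈ VV N, (‖T v b (4 * ZZ D N)‖ + ‖T v b (2 * ZZ D N)‖) :=
          sum_le_sum fun v _ => norm_sub_le _ _
      _ = ∑ v ∈ VV N, ‖T v b (4 * ZZ D N)‖ + ∑ v ∈ VV N, ‖T v b (2 * ZZ D N)‖ := sum_add_distrib
      _ ≤ _ := by
          simp only [hT]
          linarith
  calc ∑ v ∈ VV N, ‖∑ k ∈ (Ioc (2 * ZZ D N) (4 * ZZ D N)).filter (fun k => k ≡ c [MOD m]),
      (vM k : ℂ) * dl v k‖
      ≤ ∑ v ∈ VV N, (1 / (m : ℝ)) * ∑ b ∈ range m, ‖T v b (4 * ZZ D N) - T v b (2 * ZZ D N)‖ := by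
        refine sum_le_sum fun v _ => ?_
        rw [h1 v, norm_mul]
        have h9 : ‖(1 : ℂ) / (m : ℂ)‖ = 1 / (m : ℝ) := by
          rw [norm_div, norm_one, Complex.norm_natCast]
        rw [h9]
        refine mul_le_mul_of_nonneg_left ?_ (by positivity)
        refine le_trans (norm_sum_le _ _) (sum_le_sum fun b _ => ?_)
        rw [norm_mul, norm_e, one_mul]
    _ = (1 / (m : ℝ)) * ∑ b ∈ range m, ∑ v ∈ VV N,
        ‖T v b (4 * ZZ D N) - T v b (2 * ZZ D N)‖ := by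
        rw [← mul_sum, sum_comm]
    _ ≤ (1 / (m : ℝ)) * ∑ b ∈ range m, 2 * ((ZZ D N : ℝ) / (D : ℝ) ^ 40) := by
        refine mul_le_mul_of_nonneg_left ?_ (by positivity)
        exact sum_le_sum fun b _ => h6 b
    _ = 2 * ((ZZ D N : ℝ) / (D : ℝ) ^ 40) := by
        rw [sum_const, card_range, nsmul_eq_mul]
        field_simp

theorem bv_class {D N : ℕ} (h : Hyp D N) {m c : ℕ} (hm : 0 < m) (hmD : m ≤ D ^ 6) :
    ∑ v ∈ VV N,
      |∑ k ∈ (Ioc (2 * ZZ D N) (4 * ZZ D N)).filter (fun k => k ≡ 1 [MOD v] ∧ k ≡ c [MOD m]),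
          thN k -
        (1 / ((v : ℝ) - 1)) *
          ∑ k ∈ (Ioc (2 * ZZ D N) (4 * ZZ D N)).filter (fun k => k ≡ c [MOD m]), thN k| ≤
      (ZZ D N : ℝ) / (D : ℝ) ^ 38 := by
  have hDr := h.D_pos'
  have hNr := h.N_pos'
  have hV : ∀ v ∈ VV N, v.Prime ∧ N < v ∧ v ≤ 2 * N := by
    intro v hv
    simp only [VV, mem_filter, mem_Ioc] at hv
    exact ⟨hv.2, hv.1.1, hv.1.2⟩
  have hZN : 2 * N ≤ 2 * ZZ D N := by
    have h1 := h.ZZ_ge
    have h2 : N * 1 ≤ N ^ 2 * D ^ 303 := by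
      apply Nat.mul_le_mul
      · exact Nat.le_self_pow (by norm_num) N
      · exact Nat.one_le_pow _ _ h.D_pos
    omega
  -- the expression as a sum with dl
  have h1 : ∀ v ∈ VV N,
      ((∑ k ∈ (Ioc (2 * ZZ D N) (4 * ZZ D N)).filter (fun k => k ≡ 1 [MOD v] ∧ k ≡ c [MOD m]),
          thN k -
        (1 / ((v : ℝ) - 1)) *
          ∑ k ∈ (Ioc (2 * ZZ D N) (4 * ZZ D N)).filter (fun k => k ≡ c [MOD m]), thN k : ℝ) : ℂ) =
      ∑ k ∈ (Ioc (2 * ZZ D N) (4 * ZZ D N)).filter (fun k => k ≡ c [MOD m]),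
        (thN k : ℂ) * dl v k := by
    intro v hv
    have h2 : (Ioc (2 * ZZ D N) (4 * ZZ D N)).filter (fun k => k ≡ 1 [MOD v] ∧ k ≡ c [MOD m]) =
        ((Ioc (2 * ZZ D N) (4 * ZZ D N)).filter (fun k => k ≡ c [MOD m])).filter
          (fun k => k ≡ 1 [MOD v]) := by
      rw [filter_filter]
      congr 1
      ext k
      exact and_comm
    rw [h2, sum_filter, mul_sum, ← sum_sub_distrib]
    push_cast
    refine sum_congr rfl fun k hk => ?_
    simp only [mem_filter, mem_Ioc] at hk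
    unfold dl thN
    by_cases hkp : k.Prime
    · have hvk : ¬ v ∣ k := by
        intro hd
        rcases (Nat.dvd_prime hkp).1 hd with h3 | h3
        · exact (hV v hv).1.one_lt.ne' h3
        · have := (hV v hv).2.2
          omega
      simp only [hkp, hvk, if_true, if_false]
      split_ifs <;> push_cast <;> ring
    · simp [hkp]
  have h3 : ∀ v ∈ VV N,
      |∑ k ∈ (Ioc (2 * ZZ D N) (4 * ZZ D N)).filter (fun k => k ≡ 1 [MOD v] ∧ k ≡ c [MOD m]),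
          thN k -
        (1 / ((v : ℝ) - 1)) *
          ∑ k ∈ (Ioc (2 * ZZ D N) (4 * ZZ D N)).filter (fun k => k ≡ c [MOD m]), thN k| ≤
      ‖∑ k ∈ (Ioc (2 * ZZ D N) (4 * ZZ D N)).filter (fun k => k ≡ c [MOD m]),
        (vM k : ℂ) * dl v k‖ +
      ∑ k ∈ Ioc (2 * ZZ D N) (4 * ZZ D N), (vM k - thN k) * ‖dl v k‖ := by
    intro v hv
    rw [← Real.norm_eq_abs, ← Complex.norm_real, h1 v hv]
    have h4 : ∑ k ∈ (Ioc (2 * ZZ D N) (4 * ZZ D N)).filter (fun k => k ≡ c [MOD m]),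
        (thN k : ℂ) * dl v k =
      ∑ k ∈ (Ioc (2 * ZZ D N) (4 * ZZ D N)).filter (fun k => k ≡ c [MOD m]),
        (vM k : ℂ) * dl v k -
      ∑ k ∈ (Ioc (2 * ZZ D N) (4 * ZZ D N)).filter (fun k => k ≡ c [MOD m]),
        ((vM k - thN k : ℝ) : ℂ) * dl v k := by
      rw [← sum_sub_distrib]
      refine sum_congr rfl fun k _ => ?_
      push_cast
      ring
    rw [h4]
    refine le_trans (norm_sub_le _ _) ?_
    gcongr
    calc ‖∑ k ∈ (Ioc (2 * ZZ D N) (4 * ZZ D N)).filter (fun k => k ≡ c [MOD m]),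
        ((vM k - thN k : ℝ) : ℂ) * dl v k‖
        ≤ ∑ k ∈ (Ioc (2 * ZZ D N) (4 * ZZ D N)).filter (fun k => k ≡ c [MOD m]),
          ‖((vM k - thN k : ℝ) : ℂ) * dl v k‖ := norm_sum_le _ _
      _ ≤ ∑ k ∈ Ioc (2 * ZZ D N) (4 * ZZ D N), ‖((vM k - thN k : ℝ) : ℂ) * dl v k‖ :=
          sum_le_sum_of_subset_of_nonneg (filter_subset _ _) fun _ _ _ => norm_nonneg _
      _ = _ := by
          refine sum_congr rfl fun k _ => ?_
          rw [norm_mul, Complex.norm_real, Real.norm_of_nonneg]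
          linarith [thN_le_vM k]
  have h5 : ∑ v ∈ VV N, ∑ k ∈ Ioc (2 * ZZ D N) (4 * ZZ D N), (vM k - thN k) * ‖dl v k‖ ≤
      4 * (12 * √(ZZ D N : ℝ) * Real.log N) := by
    rw [sum_comm]
    calc ∑ k ∈ Ioc (2 * ZZ D N) (4 * ZZ D N), ∑ v ∈ VV N, (vM k - thN k) * ‖dl v k‖
        = ∑ k ∈ Ioc (2 * ZZ D N) (4 * ZZ D N), (vM k - thN k) * ∑ v ∈ VV N, ‖dl v k‖ := by
          refine sum_congr rfl fun k _ => ?_
          rw [mul_sum]
      _ ≤ ∑ k ∈ Ioc (2 * ZZ D N) (4 * ZZ D N), (vM k - thN k) * 4 := by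
          refine sum_le_sum fun k hk => ?_
          refine mul_le_mul_of_nonneg_left (sum_norm_dl h hk) ?_
          linarith [thN_le_vM k]
      _ = 4 * ∑ k ∈ Ioc (2 * ZZ D N) (4 * ZZ D N), (vM k - thN k) := by
          rw [mul_sum]
          refine sum_congr rfl fun k _ => ?_
          ring
      _ ≤ _ := by
          have := sum_pp h
          linarith
  have h6 := bv_vM h c hm hmD
  have h7 : ∑ v ∈ VV N,
      |∑ k ∈ (Ioc (2 * ZZ D N) (4 * ZZ D N)).filter (fun k => k ≡ 1 [MOD v] ∧ k ≡ c [MOD m]),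
          thN k -
        (1 / ((v : ℝ) - 1)) *
          ∑ k ∈ (Ioc (2 * ZZ D N) (4 * ZZ D N)).filter (fun k => k ≡ c [MOD m]), thN k| ≤
      2 * ((ZZ D N : ℝ) / (D : ℝ) ^ 40) + 4 * (12 * √(ZZ D N : ℝ) * Real.log N) := by
    refine le_trans (sum_le_sum h3) ?_
    rw [sum_add_distrib]
    linarith
  refine le_trans h7 ?_
  -- numbers
  have hZr : (0 : ℝ) < ZZ D N := by exact_mod_cast h.ZZ_pos
  have hDge : (100 : ℝ) ≤ D := by
    have := h.D_ge'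
    linarith [show (100 : ℝ) ≤ 10 ^ 100 by norm_num]
  have h8 : (N : ℝ) ≤ √(ZZ D N : ℝ) := by
    apply Real.le_sqrt_of_sq_le
    have h9 := h.ZZ_ge
    have h10 : N ^ 2 * 1 ≤ N ^ 2 * D ^ 303 := Nat.mul_le_mul_left _ (Nat.one_le_pow _ _ h.D_pos)
    exact_mod_cast (by omega : N ^ 2 ≤ ZZ D N)
  have h11 : (D : ℝ) ^ 41 ≤ √(ZZ D N : ℝ) := le_trans (h.D_pow_le' (by norm_num)) h8
  have h12 : Real.log N ≤ D := by
    have := h.logN_pow_le' (k := 1) (by norm_num)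
    simpa using this
  have h13 : √(ZZ D N : ℝ) * √(ZZ D N : ℝ) = ZZ D N := Real.mul_self_sqrt hZr.le
  have h14 : 4 * (12 * √(ZZ D N : ℝ) * Real.log N) ≤ 48 * ((ZZ D N : ℝ) / (D : ℝ) ^ 40) := by
    have h15 : √(ZZ D N : ℝ) * Real.log N ≤ (ZZ D N : ℝ) / (D : ℝ) ^ 40 := by
      rw [le_div_iff₀ (by positivity)]
      calc √(ZZ D N : ℝ) * Real.log N * (D : ℝ) ^ 40 ≤ √(ZZ D N : ℝ) * D * (D : ℝ) ^ 40 := by gcongr
        _ = √(ZZ D N : ℝ) * (D : ℝ) ^ 41 := by ring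
        _ ≤ √(ZZ D N : ℝ) * √(ZZ D N : ℝ) := by gcongr
        _ = _ := h13
    linarith
  have h16 : 50 * ((ZZ D N : ℝ) / (D : ℝ) ^ 40) ≤ (ZZ D N : ℝ) / (D : ℝ) ^ 38 := by
    rw [← mul_div_assoc, div_le_div_iff₀ (by positivity) (by positivity)]
    calc 50 * (ZZ D N : ℝ) * (D : ℝ) ^ 38 ≤ (D * D) * (ZZ D N : ℝ) * (D : ℝ) ^ 38 := by
          gcongr
          nlinarith
      _ = (ZZ D N : ℝ) * (D : ℝ) ^ 40 := by ring
  linarith

end Pool.Agent.Lib.MP_9c2ea5_nt
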