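import Mathlib
import Pool.Agent.Lib.MP_9c2ea5_nt.Q6

/-!
# Q7: the main term

By `EQ` (with `y = 4Z` and `y = 2Z`, both `≤ N³`) the sum of `θ(k)` over `2Z < k ≤ 4Z`,
`k ≡ c mod m`, is `2Z/φ(m)` up to `(6Z + 2N)/D^1000`; multiply by `1/(v-1) ≤ 1/N` and sum over the
at most `N` primes `v`.
-/

open Finset Real

namespace Pool.Agent.Lib.MP_9c2ea5_nt

theorem bv_main {D N : ℕ} (h : Hyp D N) {m c : ℕ} (hm : 0 < m) (hmD : m ≤ D ^ 6)
    (hc : Nat.Coprime c m) :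
    ∑ v ∈ VV N,
      |∑ k ∈ (Ioc (2 * ZZ D N) (4 * ZZ D N)).filter (fun k => k ≡ 1 [MOD v] ∧ k ≡ c [MOD m]),
          thN k -
        2 * (ZZ D N : ℝ) / (((v : ℝ) - 1) * (Nat.totient m : ℝ))| ≤
      (ZZ D N : ℝ) / (D : ℝ) ^ 37 := by
  have hDr := h.D_pos'
  have hNr := h.N_pos'
  have hZr : (0 : ℝ) < ZZ D N := by exact_mod_cast h.ZZ_pos
  have hD10 : (10 : ℝ) ≤ D := by
    have := h.D_ge'
    linarith [show (10 : ℝ) ≤ 10 ^ 100 by norm_num]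
  have hNZ : (N : ℝ) ≤ ZZ D N := by
    have h1 := h.ZZ_ge
    have h2 : N * 1 ≤ N ^ 2 * D ^ 303 := by
      apply Nat.mul_le_mul
      · exact Nat.le_self_pow (by norm_num) N
      · exact Nat.one_le_pow _ _ h.D_pos
    exact_mod_cast (by omega : N ≤ ZZ D N)
  set T : ℝ := ∑ k ∈ (Ioc (2 * ZZ D N) (4 * ZZ D N)).filter (fun k => k ≡ c [MOD m]), thN k with hT
  have hT1 : |T - 2 * (ZZ D N : ℝ) / (Nat.totient m : ℝ)| ≤ 8 * (ZZ D N : ℝ) / (D : ℝ) ^ 1000 := by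
    have h1 := h.eq m c (4 * ZZ D N) hm hmD hc h.ZZ_le
    have h2 := h.eq m c (2 * ZZ D N) hm hmD hc (by have := h.ZZ_le; omega)
    have h3 : ∑ k ∈ (Ioc 0 (2 * ZZ D N)).filter (fun k => k ≡ c [MOD m]), thN k + T =
        ∑ k ∈ (Ioc 0 (4 * ZZ D N)).filter (fun k => k ≡ c [MOD m]), thN k := by
      rw [hT, sum_filter, sum_filter, sum_filter]
      exact Finset.sum_Ioc_consecutive _ (Nat.zero_le (2 * ZZ D N)) (by omega)
    have h4 : T - 2 * (ZZ D N : ℝ) / (Nat.totient m : ℝ) =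
        (∑ k ∈ (Ioc 0 (4 * ZZ D N)).filter (fun k => k ≡ c [MOD m]), thN k -
          ((4 * ZZ D N : ℕ) : ℝ) / (Nat.totient m : ℝ)) -
        (∑ k ∈ (Ioc 0 (2 * ZZ D N)).filter (fun k => k ≡ c [MOD m]), thN k -
          ((2 * ZZ D N : ℕ) : ℝ) / (Nat.totient m : ℝ)) := by
      rw [← h3]
      push_cast
      ring
    rw [h4]
    refine le_trans (abs_sub _ _) ?_
    refine le_trans (add_le_add h1 h2) ?_
    rw [← add_div]
    gcongr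
    push_cast
    linarith
  have h5 := bv_class h (c := c) hm hmD
  have hV : ∀ v ∈ VV N, (N : ℝ) ≤ (v : ℝ) - 1 := by
    intro v hv
    simp only [VV, mem_filter, mem_Ioc] at hv
    have h6 : (N : ℝ) + 1 ≤ v := by exact_mod_cast hv.1.1
    linarith
  have h7 : ∀ v ∈ VV N,
      |∑ k ∈ (Ioc (2 * ZZ D N) (4 * ZZ D N)).filter (fun k => k ≡ 1 [MOD v] ∧ k ≡ c [MOD m]),
          thN k -
        2 * (ZZ D N : ℝ) / (((v : ℝ) - 1) * (Nat.totient m : ℝ))| ≤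
      |∑ k ∈ (Ioc (2 * ZZ D N) (4 * ZZ D N)).filter (fun k => k ≡ 1 [MOD v] ∧ k ≡ c [MOD m]),
          thN k - (1 / ((v : ℝ) - 1)) * T| +
      (1 / (N : ℝ)) * (8 * (ZZ D N : ℝ) / (D : ℝ) ^ 1000) := by
    intro v hv
    have h8 := hV v hv
    have h9 : (0 : ℝ) < (v : ℝ) - 1 := by linarith
    have h10 : ∑ k ∈ (Ioc (2 * ZZ D N) (4 * ZZ D N)).filter
          (fun k => k ≡ 1 [MOD v] ∧ k ≡ c [MOD m]), thN k -
        2 * (ZZ D N : ℝ) / (((v : ℝ) - 1) * (Nat.totient m : ℝ)) =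
      (∑ k ∈ (Ioc (2 * ZZ D N) (4 * ZZ D N)).filter
          (fun k => k ≡ 1 [MOD v] ∧ k ≡ c [MOD m]), thN k - (1 / ((v : ℝ) - 1)) * T) +
        (1 / ((v : ℝ) - 1)) * (T - 2 * (ZZ D N : ℝ) / (Nat.totient m : ℝ)) := by
      have h11 : 2 * (ZZ D N : ℝ) / (((v : ℝ) - 1) * (Nat.totient m : ℝ)) =
          (1 / ((v : ℝ) - 1)) * (2 * (ZZ D N : ℝ) / (Nat.totient m : ℝ)) := by
        rw [div_mul_div_comm, one_mul]
      rw [h11]
      ring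
    rw [h10]
    refine le_trans (abs_add_le _ _) ?_
    gcongr
    rw [abs_mul, abs_of_pos (by positivity : (0 : ℝ) < 1 / ((v : ℝ) - 1))]
    gcongr
  have h12 : ((VV N).card : ℝ) ≤ N := card_VV N
  calc _ ≤ ∑ v ∈ VV N,
      (|∑ k ∈ (Ioc (2 * ZZ D N) (4 * ZZ D N)).filter (fun k => k ≡ 1 [MOD v] ∧ k ≡ c [MOD m]),
          thN k - (1 / ((v : ℝ) - 1)) * T| +
      (1 / (N : ℝ)) * (8 * (ZZ D N : ℝ) / (D : ℝ) ^ 1000)) := sum_le_sum h7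
    _ ≤ (ZZ D N : ℝ) / (D : ℝ) ^ 38 +
        N * ((1 / (N : ℝ)) * (8 * (ZZ D N : ℝ) / (D : ℝ) ^ 1000)) := by
        rw [sum_add_distrib]
        refine add_le_add h5 ?_
        rw [sum_const, nsmul_eq_mul]
        gcongr
    _ = (ZZ D N : ℝ) / (D : ℝ) ^ 38 + 8 * ((ZZ D N : ℝ) / (D : ℝ) ^ 1000) := by
        field_simp
    _ ≤ (ZZ D N : ℝ) / (D : ℝ) ^ 38 + 8 * ((ZZ D N : ℝ) / (D : ℝ) ^ 38) := by
        gcongr
        · linarith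
        · norm_num
    _ = 9 * ((ZZ D N : ℝ) / (D : ℝ) ^ 38) := by ring
    _ ≤ (ZZ D N : ℝ) / (D : ℝ) ^ 37 := by
        rw [← mul_div_assoc, div_le_div_iff₀ (by positivity) (by positivity)]
        calc 9 * (ZZ D N : ℝ) * (D : ℝ) ^ 37 ≤ D * (ZZ D N : ℝ) * (D : ℝ) ^ 37 := by
              gcongr
              linarith
          _ = (ZZ D N : ℝ) * (D : ℝ) ^ 38 := by ring

end Pool.Agent.Lib.MP_9c2ea5_nt
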