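import Mathlib
import Pool.Agent.Lib.MP_9c2ea5_nt.Q7
import Pool.Agent.Lib.MP_9c2ea5_nt.Q10

/-!
# Q11: evaluation of the sum with a fixed `r`

`m = W² D r ≤ W0² D³ · D² ≤ D^6`.  By Q9 and Q10 the sum over `u` is
`∑_b h(r, b + N_v) Θ_v(c b)`; replace `Θ_v(c b)` by `2Z/((v-1) φ(m))`, the error for each `b` is
controlled on average over `v` by `bv_main` and `|h| ≤ 1`, and there are at most `r` values of `b`;
the main term is `2Z/((v-1)φ(m)) · μ(r) h(r,N_v)` by Q8.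
-/

open Finset

namespace Pool.Agent.Lib.MP_9c2ea5_nt

lemma T_eval {D N : ℕ} (h : Hyp D N) {d r : ℕ} (hd : d ∈ D.divisors)
    (hr : r ∈ RR (WW D) (D ^ 2)) :
    ∑ v ∈ VV N,
      |∑ u ∈ QQ D N v, thN (qq D u v) * hh r (pd D d u v) -
        2 * (ZZ D N : ℝ) / (((v : ℝ) - 1) * (Nat.totient ((WW D) ^ 2 * D * r) : ℝ)) *
          (((ArithmeticFunction.moebius r : ℤ) : ℝ) * hh r (Nv D d v))| ≤
      (r : ℝ) * ((ZZ D N : ℝ) / (D : ℝ) ^ 37) := by
  obtain ⟨c, hc, hsplit⟩ := split_classes h hr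
  have hr' := hr
  unfold RR at hr'
  rw [Finset.mem_filter, Finset.mem_Icc] at hr'
  obtain ⟨⟨hr1, hrD⟩, hsq, hrW⟩ := hr'
  have hmpos : 0 < (WW D) ^ 2 * D * r :=
    Nat.mul_pos (Nat.mul_pos (pow_pos h.WW_pos _) h.D_pos) (by omega)
  have hmD : (WW D) ^ 2 * D * r ≤ D ^ 6 := by
    have h1 : 1 * W0 ^ 2 ≤ D := h.const_mul_le (by norm_num) (by norm_num)
    calc (WW D) ^ 2 * D * r = (1 * W0 ^ 2) * D ^ 3 * r := by unfold WW; ring
      _ ≤ D * D ^ 3 * D ^ 2 := by gcongr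
      _ = D ^ 6 := by ring
  have hkey : ∀ v ∈ VV N,
      |∑ u ∈ QQ D N v, thN (qq D u v) * hh r (pd D d u v) -
        2 * (ZZ D N : ℝ) / (((v : ℝ) - 1) * (Nat.totient ((WW D) ^ 2 * D * r) : ℝ)) *
          (((ArithmeticFunction.moebius r : ℤ) : ℝ) * hh r (Nv D d v))| ≤
      ∑ b ∈ (range r).filter (fun b => Nat.Coprime b r),
        |∑ k ∈ (Ioc (2 * ZZ D N) (4 * ZZ D N)).filter
            (fun k => k ≡ 1 [MOD v] ∧ k ≡ c b [MOD (WW D) ^ 2 * D * r]), thN k -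
          2 * (ZZ D N : ℝ) / (((v : ℝ) - 1) * (Nat.totient ((WW D) ^ 2 * D * r) : ℝ))| := by
    intro v hv
    have e1 : ∑ u ∈ QQ D N v, thN (qq D u v) * hh r (pd D d u v) =
        ∑ b ∈ (range r).filter (fun b => Nat.Coprime b r), hh r (b + Nv D d v) *
          ∑ k ∈ (Ioc (2 * ZZ D N) (4 * ZZ D N)).filter
            (fun k => k ≡ 1 [MOD v] ∧ k ≡ c b [MOD (WW D) ^ 2 * D * r]), thN k := by
      rw [← hsplit v hv (Nv D d v)]
      rw [← sum_QQ_eq h hv (fun k => thN k * hh r ((k : ℤ) + Nv D d v))]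
      refine Finset.sum_congr rfl fun u _ => ?_
      rw [hh_pd h hd hr hv u]
    rw [e1, ← sum_units_hh hsq (Nv D d v), Finset.mul_sum, ← Finset.sum_sub_distrib]
    refine le_trans (Finset.abs_sum_le_sum_abs _ _) (Finset.sum_le_sum fun b _ => ?_)
    have e2 : ∀ x y z : ℝ, x * y - z * x = x * (y - z) := fun x y z => by ring
    rw [e2, abs_mul]
    exact mul_le_of_le_one_left (abs_nonneg _) (abs_hh_le_one (by omega) _)
  calc _ ≤ ∑ v ∈ VV N, ∑ b ∈ (range r).filter (fun b => Nat.Coprime b r),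
        |∑ k ∈ (Ioc (2 * ZZ D N) (4 * ZZ D N)).filter
            (fun k => k ≡ 1 [MOD v] ∧ k ≡ c b [MOD (WW D) ^ 2 * D * r]), thN k -
          2 * (ZZ D N : ℝ) / (((v : ℝ) - 1) * (Nat.totient ((WW D) ^ 2 * D * r) : ℝ))| :=
        Finset.sum_le_sum hkey
    _ = ∑ b ∈ (range r).filter (fun b => Nat.Coprime b r), ∑ v ∈ VV N,
        |∑ k ∈ (Ioc (2 * ZZ D N) (4 * ZZ D N)).filter
            (fun k => k ≡ 1 [MOD v] ∧ k ≡ c b [MOD (WW D) ^ 2 * D * r]), thN k -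
          2 * (ZZ D N : ℝ) / (((v : ℝ) - 1) * (Nat.totient ((WW D) ^ 2 * D * r) : ℝ))| :=
        Finset.sum_comm
    _ ≤ ∑ b ∈ (range r).filter (fun b => Nat.Coprime b r), (ZZ D N : ℝ) / (D : ℝ) ^ 37 :=
        Finset.sum_le_sum fun b hb =>
          bv_main h hmpos hmD (hc b (Finset.mem_filter.mp hb).2)
    _ ≤ (r : ℝ) * ((ZZ D N : ℝ) / (D : ℝ) ^ 37) := by
        rw [Finset.sum_const, nsmul_eq_mul]
        have hcard : ((range r).filter (fun b => Nat.Coprime b r)).card ≤ r :=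
          (Finset.card_filter_le _ _).trans (by simp)
        have hcard' : (((range r).filter (fun b => Nat.Coprime b r)).card : ℝ) ≤ r := by
          exact_mod_cast hcard
        exact mul_le_mul_of_nonneg_right hcard' (by positivity)

end Pool.Agent.Lib.MP_9c2ea5_nt
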