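import Mathlib
import Pool.Agent.Lib.MP_9c2ea5_nt.Facts
import Pool.Agent.Lib.MP_9c2ea5_nt.L5

/-!
# Q13b: lower bound for the sum of `1/(v-1)` over primes `v ∈ (N,2N]`

`L = log N`.  `EQ` with `m = 1`, `y = 2N` and `y = N`: `∑_{N<v≤2N} θ(v) ≥ N - 5N/D^1000 ≥ 0.99 N`,
every term is at most `log(2N) ≤ 1.01 L`, so `#VV N ≥ (0.99/1.01) N/L`, and `1/(v-1) ≥ 1/(2N)`.
-/

open Finset

namespace Pool.Agent.Lib.MP_9c2ea5_nt

lemma SV_ge {D N : ℕ} (h : Hyp D N) :
    2 / (5 * Real.log N) ≤ ∑ v ∈ VV N, 1 / ((v : ℝ) - 1) := by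
  have hN : (0 : ℝ) < N := h.N_pos'
  have hNn : 0 < N := h.N_pos
  have hL := h.logN_ge
  have hL0 : (0 : ℝ) < Real.log N := by linarith [show (0:ℝ) < 10 ^ 5 by norm_num]
  have hD1000 : (10 : ℝ) ^ 4 ≤ (D : ℝ) ^ 1000 := by
    calc (10 : ℝ) ^ 4 ≤ 10 ^ 100 := by norm_num
      _ ≤ (D : ℝ) := h.D_ge'
      _ = (D : ℝ) ^ 1 := (pow_one _).symm
      _ ≤ (D : ℝ) ^ 1000 := pow_le_pow_right₀ h.one_le_D (by norm_num)
  have hD0 : (0 : ℝ) < (D : ℝ) ^ 1000 := by linarith [show (0:ℝ) < 10 ^ 4 by norm_num]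
  have hN3 : 2 * N ≤ N ^ 3 := by
    have h2 : 2 ≤ N := le_trans (by
      have := h.ten_pow_le
      have h3 : 2 ≤ 10 ^ 100 := by norm_num
      exact h3.trans this) h.D_le_N
    nlinarith [Nat.mul_le_mul h2 h2, sq_nonneg N]
  have hEQ := h.eq
  -- the sums up to y
  have key : ∀ y : ℕ, y ≤ N ^ 3 → |∑ n ∈ Ioc 0 y, thN n - (y : ℝ)| ≤ ((y : ℝ) + N) / (D : ℝ) ^ 1000 := by
    intro y hy
    have h1 := hEQ 1 0 y one_pos (Nat.one_le_pow _ _ h.D_pos) (by simp) hy
    have h2 : (Ioc 0 y).filter (fun n => n ≡ 0 [MOD 1]) = Ioc 0 y := by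
      apply Finset.filter_true_of_mem
      intro n _
      exact Nat.modEq_one
    rw [h2] at h1
    simpa using h1
  have k1 := key (2 * N) hN3
  have k2 := key N (by nlinarith)
  rw [abs_le] at k1 k2
  have hsplit : ∑ n ∈ Ioc 0 (2 * N), thN n = ∑ n ∈ Ioc 0 N, thN n + ∑ n ∈ Ioc N (2 * N), thN n := by
    rw [← Finset.sum_union]
    · congr 1
      ext n
      simp only [mem_Ioc, mem_union]
      omega
    · rw [Finset.disjoint_left]
      intro n hn hn'
      simp only [mem_Ioc] at hn hn'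
      omega
  have hVV : ∑ n ∈ Ioc N (2 * N), thN n = ∑ v ∈ VV N, Real.log v := by
    unfold VV
    rw [Finset.sum_filter]
    apply Finset.sum_congr rfl
    intro n _
    unfold thN
    rfl
  have herr : ((((2 * N : ℕ)) : ℝ) + N) / (D : ℝ) ^ 1000 + ((N : ℝ) + N) / (D : ℝ) ^ 1000 ≤ N / 100 := by
    rw [← add_div, div_le_div_iff₀ hD0 (by norm_num)]
    push_cast
    nlinarith [mul_le_mul_of_nonneg_left hD1000 hN.le]
  have hsum : 99 / 100 * (N : ℝ) ≤ ∑ v ∈ VV N, Real.log v := by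
    rw [← hVV]
    have h1 := k1.1
    have h2 := k2.2
    push_cast at *
    linarith
  -- each log is at most 1.01 L
  have hlog : ∀ v ∈ VV N, Real.log v ≤ 101 / 100 * Real.log N := by
    intro v hv
    simp only [VV, mem_filter, mem_Ioc] at hv
    have hv0 : (0 : ℝ) < v := by
      have : 0 < v := by omega
      exact_mod_cast this
    have h1 : Real.log v ≤ Real.log (2 * N) := by
      apply Real.log_le_log hv0
      exact_mod_cast hv.1.2
    rw [Real.log_mul (by norm_num) hN.ne'] at h1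
    have h2 : Real.log 2 ≤ 1 := by
      have := Real.log_two_lt_d9
      linarith
    linarith [show (10:ℝ) ^ 5 / 100 ≥ 1 by norm_num]
  have hcard : 99 / 100 * (N : ℝ) ≤ (VV N).card * (101 / 100 * Real.log N) := by
    refine hsum.trans ?_
    have := Finset.sum_le_card_nsmul (VV N) (fun v : ℕ => Real.log v) (101 / 100 * Real.log N) hlog
    simpa [nsmul_eq_mul] using this
  have hterm : ∀ v ∈ VV N, 1 / (2 * (N : ℝ)) ≤ 1 / ((v : ℝ) - 1) := by
    intro v hv
    simp only [VV, mem_filter, mem_Ioc] at hv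
    have hv1 : (1 : ℝ) < v := by
      have : 1 < v := hv.2.one_lt
      exact_mod_cast this
    have hv2 : (v : ℝ) ≤ 2 * N := by exact_mod_cast hv.1.2
    apply one_div_le_one_div_of_le (by linarith)
    linarith
  have hlow : (VV N).card * (1 / (2 * (N : ℝ))) ≤ ∑ v ∈ VV N, 1 / ((v : ℝ) - 1) := by
    have := Finset.card_nsmul_le_sum (VV N) (fun v : ℕ => 1 / ((v : ℝ) - 1)) (1 / (2 * (N : ℝ))) hterm
    simpa [nsmul_eq_mul] using this
  refine le_trans ?_ hlow
  rw [div_le_iff₀ (by positivity)]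
  have e1 : ((VV N).card : ℝ) * (1 / (2 * (N : ℝ))) * (5 * Real.log N) =
      ((VV N).card * (101 / 100 * Real.log N)) * (500 / (202 * N)) := by
    field_simp
    ring
  rw [e1]
  have e2 : (2 : ℝ) ≤ (99 / 100 * (N : ℝ)) * (500 / (202 * N)) := by
    have : (99 / 100 * (N : ℝ)) * (500 / (202 * N)) = 99 / 100 * 500 / 202 := by
      field_simp
    rw [this]
    norm_num
  exact e2.trans (mul_le_mul_of_nonneg_right hcard (by positivity))

end Pool.Agent.Lib.MP_9c2ea5_nt
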