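import Mathlib

/-!
# Q12: roots of `(a b)² + a b - 1` modulo a squarefree number

For a prime `p ∣ g` the polynomial `(aX)² + aX - 1` over `ZMod p` has degree `2` (`p ∤ a`), so at
most `2` roots.  The map `b ↦ (b mod p)_{p ∣ g}` is injective on `range g` (`g` squarefree), so the
number of roots mod `g` is at most `2^{ω(g)}`, which is the number of divisors of `g`
(`Nat.card_divisors` / `ArithmeticFunction.sigma` / `Nat.Squarefree` : `card_divisors = 2 ^ ω`).
An induction over coprime factors (`Nat.recOnPosPrimePosCoprime`, CRT) also works.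
-/

open Finset

namespace Pool.Agent.Lib.MP_9c2ea5_nt

/-- at most two roots modulo a prime, in `ZMod p` -/
lemma card_roots_prime {p : ℕ} [Fact p.Prime] (a : ZMod p) (ha : a ≠ 0) :
    ((univ : Finset (ZMod p)).filter (fun x => (a * x) ^ 2 + a * x - 1 = 0)).card ≤ 2 := by
  classical
  by_contra hcon
  push Not at hcon
  obtain ⟨x, y, z, hx, hy, hz, hxy, hxz, hyz⟩ := Finset.two_lt_card_iff.mp hcon
  simp only [mem_filter, mem_univ, true_and] at hx hy hz
  have h1 : (a * (x - y)) * (a * x + a * y + 1) = 0 := by linear_combination hx - hy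
  have h2 : (a * (x - z)) * (a * x + a * z + 1) = 0 := by linear_combination hx - hz
  have h3 : a * x + a * y + 1 = 0 := by
    rcases mul_eq_zero.mp h1 with h | h
    · rcases mul_eq_zero.mp h with h | h
      · exact absurd h ha
      · exact absurd (sub_eq_zero.mp h) hxy
    · exact h
  have h4 : a * x + a * z + 1 = 0 := by
    rcases mul_eq_zero.mp h2 with h | h
    · rcases mul_eq_zero.mp h with h | h
      · exact absurd h ha
      · exact absurd (sub_eq_zero.mp h) hxz
    · exact h
  have h5 : a * (y - z) = 0 := by linear_combination h3 - h4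
  rcases mul_eq_zero.mp h5 with h | h
  · exact ha h
  · exact hyz (sub_eq_zero.mp h)

lemma card_roots_le {g a : ℕ} (hg : Squarefree g) (hco : Nat.Coprime a g) :
    ((range g).filter (fun b : ℕ => (g : ℤ) ∣ ((a : ℤ) * b) ^ 2 + (a : ℤ) * b - 1)).card ≤
      g.divisors.card := by
  classical
  have hg0 : g ≠ 0 := hg.ne_zero
  -- the number of divisors
  have hdiv : g.divisors.card = 2 ^ g.primeFactors.card := by
    rw [Nat.card_divisors hg0, Finset.prod_congr rfl (g := fun _ => 2)]
    · simp
    · intro p hp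
      have h1 : g.factorization p ≤ 1 := hg.natFactorization_le_one p
      have h2 : 0 < g.factorization p :=
        (Nat.prime_of_mem_primeFactors hp).factorization_pos_of_dvd hg0
          (Nat.dvd_of_mem_primeFactors hp)
      omega
  rw [hdiv]
  -- target finset : for each prime factor a residue
  let T : (p : ℕ) → Finset ℕ := fun p =>
    (range p).filter (fun b : ℕ => (p : ℤ) ∣ ((a : ℤ) * b) ^ 2 + (a : ℤ) * b - 1)
  have hT : ∀ p ∈ g.primeFactors, (T p).card ≤ 2 := by
    intro p hp
    have hpp : p.Prime := Nat.prime_of_mem_primeFactors hp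
    have : Fact p.Prime := ⟨hpp⟩
    have ha : ((a : ℕ) : ZMod p) ≠ 0 := by
      intro h0
      rw [ZMod.natCast_eq_zero_iff] at h0
      have h1 := Nat.dvd_gcd h0 (Nat.dvd_of_mem_primeFactors hp)
      rw [hco] at h1
      exact hpp.one_lt.ne' (Nat.dvd_one.mp h1)
    refine le_trans ?_ (card_roots_prime ((a : ℕ) : ZMod p) ha)
    apply Finset.card_le_card_of_injOn (fun b : ℕ => (b : ZMod p))
    · intro b hb
      simp only [T, coe_filter, mem_range, Set.mem_ofPred_eq] at hb
      simp only [coe_filter, mem_univ, true_and, Set.mem_ofPred_eq]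
      have := (ZMod.intCast_zmod_eq_zero_iff_dvd _ p).mpr hb.2
      push_cast at this
      exact this
    · intro b hb c hc hbc
      simp only [T, coe_filter, mem_range, Set.mem_ofPred_eq] at hb hc
      have h1 : b ≡ c [MOD p] := (ZMod.natCast_eq_natCast_iff _ _ _).mp hbc
      exact Nat.ModEq.eq_of_lt_of_lt h1 hb.1 hc.1
  have hprod : (Finset.pi g.primeFactors T).card ≤ 2 ^ g.primeFactors.card := by
    rw [Finset.card_pi]
    exact Finset.prod_le_pow_card _ _ _ hT
  refine le_trans ?_ hprod
  apply Finset.card_le_card_of_injOn (fun b : ℕ => fun (p : ℕ) (_ : p ∈ g.primeFactors) => b % p)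
  · intro b hb
    simp only [coe_filter, mem_range, Set.mem_ofPred_eq] at hb
    simp only [mem_coe, Finset.mem_pi]
    intro p hp
    have hpp : p.Prime := Nat.prime_of_mem_primeFactors hp
    simp only [T, mem_filter, mem_range]
    refine ⟨Nat.mod_lt _ hpp.pos, ?_⟩
    have h1 : (p : ℤ) ∣ ((a : ℤ) * b) ^ 2 + (a : ℤ) * b - 1 :=
      dvd_trans (Int.natCast_dvd_natCast.mpr (Nat.dvd_of_mem_primeFactors hp)) hb.2
    have h2 : (p : ℤ) ∣ (b : ℤ) - ((b % p : ℕ) : ℤ) := by
      rw [Int.natCast_mod]
      exact Int.dvd_self_sub_emod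
    obtain ⟨k, hk⟩ := h2
    have h3 : ((a : ℤ) * ((b % p : ℕ) : ℤ)) ^ 2 + (a : ℤ) * ((b % p : ℕ) : ℤ) - 1 =
        (((a : ℤ) * b) ^ 2 + (a : ℤ) * b - 1) -
          (p : ℤ) * (k * (a * (a * (b + ((b % p : ℕ) : ℤ)) + 1))) := by
      have hb' : (b : ℤ) = ((b % p : ℕ) : ℤ) + p * k := by linarith
      rw [hb']
      ring
    rw [h3]
    exact dvd_sub h1 (dvd_mul_right _ _)
  · intro b hb c hc hbc
    simp only [coe_filter, mem_range, Set.mem_ofPred_eq] at hb hc
    have h1 : ∀ p ∈ g.primeFactors, b % p = c % p := by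
      intro p hp
      have := congrFun (congrFun hbc p) hp
      simpa using this
    have h2 : b ≡ c [MOD ∏ p ∈ g.primeFactors, p] := by
      rw [Nat.modEq_iff_dvd, Int.natCast_dvd]
      apply Finset.prod_primes_dvd
      · intro p hp
        exact (Nat.prime_of_mem_primeFactors hp).prime
      · intro p hp
        rw [← Int.natCast_dvd, ← Nat.modEq_iff_dvd]
        exact h1 p hp
    rw [Nat.prod_primeFactors_of_squarefree hg] at h2
    exact Nat.ModEq.eq_of_lt_of_lt h2 hb.1 hc.1

end Pool.Agent.Lib.MP_9c2ea5_nt
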