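import Mathlib
import Pool.Agent.Lib.MP_9c2ea5_nt.Facts
import Pool.Agent.Lib.MP_9c2ea5_nt.L5
import Pool.Agent.Lib.MP_9c2ea5_nt.Q9
import Pool.Agent.Lib.MP_9c2ea5_nt.Q12

/-!
# Q13: sums of `1/(v-1)` over primes `v ∈ (N,2N]` with `g ∣ N_v`

`L = log N`.
* upper bound: let `g ∈ RR`, `a = W (D/d)` (prime to `g`).  If `g ∣ N_v = (a v)² + a v - 1` then
  `b = v % g` is one of the at most `τ(g)` roots of Q12; such a `b` is prime to `g` (a common prime
  factor of `b` and `g` would divide `1`).  For such a class `EQ` with `y = 2N` and `y = N` gives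
  `L #{v ∈ (N,2N] prime, v ≡ b (g)} ≤ ∑ θ(v) ≤ N/φ(g) + 5N/D^1000 ≤ 2N/φ(g)`, and
  `1/(v-1) ≤ 1/N`.
-/

open Finset

namespace Pool.Agent.Lib.MP_9c2ea5_nt

/-- the contribution of one reduced class mod `g` -/
lemma sum_v_class_le {D N : ℕ} (h : Hyp D N) {g b : ℕ} (hg0 : 0 < g) (hgD : g ≤ D ^ 2)
    (hbg : Nat.Coprime b g) (hb : b < g) :
    ∑ v ∈ (VV N).filter (fun v => v % g = b), 1 / ((v : ℝ) - 1) ≤
      2 / ((Nat.totient g : ℝ) * Real.log N) := by
  classical
  have hN := h.N_pos'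
  have hNn := h.N_pos
  have hL : (0 : ℝ) < Real.log N := by
    have := h.logN_ge
    linarith [show (1 : ℝ) ≤ 10 ^ 5 by norm_num]
  have hphi : (0 : ℝ) < (Nat.totient g : ℝ) := by exact_mod_cast Nat.totient_pos.mpr hg0
  have hphiD : (Nat.totient g : ℝ) ≤ (D : ℝ) ^ 2 := by
    exact_mod_cast le_trans (Nat.totient_le g) hgD
  -- the sum of theta over the class
  have hth : ∑ v ∈ (VV N).filter (fun v => v % g = b), thN v ≤ 2 * N / (Nat.totient g : ℝ) := by
    have hg6 : g ≤ D ^ 6 := le_trans hgD (Nat.pow_le_pow_right h.D_pos (by norm_num))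
    have h2N : 2 * N ≤ N ^ 3 := by
      have h1 : 2 ≤ N := by
        have h2 := h.D_le_N
        have h3 := h.D_gt_one
        omega
      calc 2 * N ≤ N * N := Nat.mul_le_mul_right _ h1
        _ = N ^ 2 := by ring
        _ ≤ N ^ 3 := Nat.pow_le_pow_right hNn (by norm_num)
    have e1 := h.eq g b (2 * N) hg0 hg6 hbg h2N
    have e2 := h.eq g b N hg0 hg6 hbg (by omega)
    have hsub : ∑ n ∈ (Ioc 0 (2 * N)).filter (fun n => n ≡ b [MOD g]), thN n -
        ∑ n ∈ (Ioc 0 N).filter (fun n => n ≡ b [MOD g]), thN n =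
        ∑ v ∈ (VV N).filter (fun v => v % g = b), thN v := by
      have hun : (Ioc 0 (2 * N)).filter (fun n => n ≡ b [MOD g]) =
          (Ioc 0 N).filter (fun n => n ≡ b [MOD g]) ∪
            (Ioc N (2 * N)).filter (fun n => n ≡ b [MOD g]) := by
        rw [← Finset.filter_union, Finset.Ioc_union_Ioc_eq_Ioc (by omega) (by omega)]
      have hdis : Disjoint ((Ioc 0 N).filter (fun n => n ≡ b [MOD g]))
          ((Ioc N (2 * N)).filter (fun n => n ≡ b [MOD g])) := by
        rw [Finset.disjoint_left]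
        intro x hx hx'
        simp only [Finset.mem_filter, Finset.mem_Ioc] at hx hx'
        omega
      rw [hun, Finset.sum_union hdis, add_sub_cancel_left]
      symm
      apply Finset.sum_subset
      · intro v hv
        simp only [VV, Finset.mem_filter, Finset.mem_Ioc] at hv ⊢
        refine ⟨hv.1.1, ?_⟩
        unfold Nat.ModEq
        rw [hv.2, Nat.mod_eq_of_lt hb]
      · intro v hv hv'
        simp only [VV, Finset.mem_filter, Finset.mem_Ioc] at hv hv'
        have h1 : v % g = b := by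
          have := hv.2
          unfold Nat.ModEq at this
          rw [this, Nat.mod_eq_of_lt hb]
        have h2 : ¬ v.Prime := by
          intro hp
          exact hv' ⟨⟨hv.1, hp⟩, h1⟩
        unfold thN
        rw [if_neg h2]
    rw [← hsub]
    have a1 := (abs_le.mp e1).2
    have a2 := (abs_le.mp e2).1
    have hD1000 : 5 * (N : ℝ) / (D : ℝ) ^ 1000 ≤ N / (Nat.totient g : ℝ) := by
      rw [div_le_div_iff₀ (pow_pos h.D_pos' _) hphi]
      have h5 : (5 : ℝ) * (D : ℝ) ^ 2 ≤ (D : ℝ) ^ 1000 := by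
        have h6 : (5 : ℝ) ≤ D := by
          have := h.D_ge'
          linarith [show (5 : ℝ) ≤ 10 ^ 100 by norm_num]
        calc (5 : ℝ) * (D : ℝ) ^ 2 ≤ D * (D : ℝ) ^ 2 := by
              exact mul_le_mul_of_nonneg_right h6 (by positivity)
          _ = (D : ℝ) ^ 3 := by ring
          _ ≤ (D : ℝ) ^ 1000 := pow_le_pow_right₀ h.one_le_D (by norm_num)
      calc 5 * (N : ℝ) * (Nat.totient g : ℝ) ≤ 5 * (N : ℝ) * (D : ℝ) ^ 2 := by
            exact mul_le_mul_of_nonneg_left hphiD (by positivity)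
        _ = N * (5 * (D : ℝ) ^ 2) := by ring
        _ ≤ N * (D : ℝ) ^ 1000 := mul_le_mul_of_nonneg_left h5 hN.le
    have b1 : (((2 * N : ℕ) : ℝ) + N) / (D : ℝ) ^ 1000 + ((N : ℝ) + N) / (D : ℝ) ^ 1000 =
        5 * (N : ℝ) / (D : ℝ) ^ 1000 := by
      push_cast
      ring
    have b2 : ((2 * N : ℕ) : ℝ) / (Nat.totient g : ℝ) =
        2 * (N : ℝ) / (Nat.totient g : ℝ) := by push_cast; ring
    have b3 : 2 * (N : ℝ) / (Nat.totient g : ℝ) =
        N / (Nat.totient g : ℝ) + N / (Nat.totient g : ℝ) := by ring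
    linarith
  -- compare 1/(v-1) with theta
  have hterm : ∀ v ∈ (VV N).filter (fun v => v % g = b),
      1 / ((v : ℝ) - 1) ≤ thN v * (1 / (N * Real.log N)) := by
    intro v hv
    simp only [VV, Finset.mem_filter, Finset.mem_Ioc] at hv
    have hv1 : (N : ℝ) + 1 ≤ v := by exact_mod_cast hv.1.1.1
    have h1 : 1 / ((v : ℝ) - 1) ≤ 1 / N := by
      apply one_div_le_one_div_of_le hN
      linarith
    have h2 : Real.log N ≤ thN v := by
      unfold thN
      rw [if_pos hv.1.2]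
      apply Real.log_le_log hN
      linarith
    calc 1 / ((v : ℝ) - 1) ≤ 1 / N := h1
      _ = Real.log N * (1 / (N * Real.log N)) := by
          field_simp
      _ ≤ thN v * (1 / (N * Real.log N)) := by
          apply mul_le_mul_of_nonneg_right h2
          positivity
  calc ∑ v ∈ (VV N).filter (fun v => v % g = b), 1 / ((v : ℝ) - 1)
      ≤ ∑ v ∈ (VV N).filter (fun v => v % g = b), thN v * (1 / (N * Real.log N)) :=
        Finset.sum_le_sum hterm
    _ = (∑ v ∈ (VV N).filter (fun v => v % g = b), thN v) * (1 / (N * Real.log N)) := by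
        rw [Finset.sum_mul]
    _ ≤ (2 * N / (Nat.totient g : ℝ)) * (1 / (N * Real.log N)) := by
        apply mul_le_mul_of_nonneg_right hth
        positivity
    _ = 2 / ((Nat.totient g : ℝ) * Real.log N) := by
        field_simp

lemma sum_v_dvd_le {D N : ℕ} (h : Hyp D N) {d g : ℕ} (hd : d ∈ D.divisors)
    (hg : g ∈ RR (WW D) (D ^ 2)) :
    ∑ v ∈ (VV N).filter (fun v => (g : ℤ) ∣ Nv D d v), 1 / ((v : ℝ) - 1) ≤
      (g.divisors.card : ℝ) * (2 / ((Nat.totient g : ℝ) * Real.log N)) := by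
  classical
  have hL : (0 : ℝ) < Real.log N := by
    have := h.logN_ge
    linarith [show (1 : ℝ) ≤ 10 ^ 5 by norm_num]
  simp only [RR, Finset.mem_filter, Finset.mem_Icc] at hg
  obtain ⟨⟨hg1, hgD⟩, hgsq, hgW⟩ := hg
  have hphi : (0 : ℝ) < (Nat.totient g : ℝ) := by exact_mod_cast Nat.totient_pos.mpr hg1
  set a : ℕ := WW D * (D / d) with ha
  have hdD : d ∣ D := Nat.dvd_of_mem_divisors hd
  have hag : Nat.Coprime a g := by
    have h1 : Nat.Coprime (WW D) g := hgW.symm
    have h2 : Nat.Coprime (D / d) g := by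
      apply Nat.Coprime.coprime_dvd_left _ h1
      exact dvd_trans (Nat.div_dvd_of_dvd hdD) (Dvd.intro_left _ rfl)
    exact Nat.Coprime.mul_left h1 h2
  set R : Finset ℕ :=
    (range g).filter (fun b : ℕ => (g : ℤ) ∣ ((a : ℤ) * b) ^ 2 + (a : ℤ) * b - 1) with hR
  have hRcard : (R.card : ℝ) ≤ (g.divisors.card : ℝ) := by
    exact_mod_cast card_roots_le hgsq hag
  have hRco : ∀ b ∈ R, Nat.Coprime b g := by
    intro b hb
    simp only [hR, Finset.mem_filter, Finset.mem_range] at hb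
    have h1 : ((Nat.gcd b g : ℕ) : ℤ) ∣ 1 := by
      have hb1 : ((Nat.gcd b g : ℕ) : ℤ) ∣ (b : ℤ) := by exact_mod_cast Nat.gcd_dvd_left b g
      have hb2 : ((Nat.gcd b g : ℕ) : ℤ) ∣ (g : ℤ) := by exact_mod_cast Nat.gcd_dvd_right b g
      have hb3 := dvd_trans hb2 hb.2
      have hb4 : ((Nat.gcd b g : ℕ) : ℤ) ∣ ((a : ℤ) * b) ^ 2 + (a : ℤ) * b := by
        have : ((a : ℤ) * b) ^ 2 + (a : ℤ) * b = (b : ℤ) * (a ^ 2 * b + a) := by ring
        rw [this]
        exact Dvd.dvd.mul_right hb1 _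
      have := dvd_sub hb4 hb3
      have e : ((a : ℤ) * b) ^ 2 + (a : ℤ) * b - (((a : ℤ) * b) ^ 2 + (a : ℤ) * b - 1) = 1 := by
        ring
      rwa [e] at this
    have h2 : Nat.gcd b g ∣ 1 := by exact_mod_cast h1
    exact Nat.dvd_one.mp h2
  have hmap : ∀ v ∈ (VV N).filter (fun v => (g : ℤ) ∣ Nv D d v), v % g ∈ R := by
    intro v hv
    simp only [Finset.mem_filter] at hv
    simp only [hR, Finset.mem_filter, Finset.mem_range]
    refine ⟨Nat.mod_lt _ hg1, ?_⟩
    have h1 : (g : ℤ) ∣ ((a : ℤ) * v) ^ 2 + (a : ℤ) * v - 1 := by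
      have h2 := hv.2
      unfold Nv Bv at h2
      rw [← ha] at h2
      push_cast at h2
      exact h2
    have h3 : ((v % g : ℕ) : ℤ) ≡ (v : ℤ) [ZMOD (g : ℤ)] := by
      rw [Int.natCast_mod]
      exact Int.mod_modEq _ _
    have h4 : ((a : ℤ) * ((v % g : ℕ) : ℤ)) ^ 2 + (a : ℤ) * ((v % g : ℕ) : ℤ) - 1 ≡
        ((a : ℤ) * v) ^ 2 + (a : ℤ) * v - 1 [ZMOD (g : ℤ)] := by
      gcongr
    exact (Int.ModEq.dvd_iff h4).mpr h1
  calc ∑ v ∈ (VV N).filter (fun v => (g : ℤ) ∣ Nv D d v), 1 / ((v : ℝ) - 1)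
      = ∑ b ∈ R, ∑ v ∈ ((VV N).filter (fun v => (g : ℤ) ∣ Nv D d v)).filter
          (fun v => v % g = b), 1 / ((v : ℝ) - 1) :=
        (Finset.sum_fiberwise_of_maps_to hmap _).symm
    _ ≤ ∑ b ∈ R, ∑ v ∈ (VV N).filter (fun v => v % g = b), 1 / ((v : ℝ) - 1) := by
        apply Finset.sum_le_sum
        intro b _
        apply Finset.sum_le_sum_of_subset_of_nonneg
        · intro v hv
          simp only [Finset.mem_filter] at hv ⊢
          exact ⟨hv.1.1, hv.2⟩
        · intro v hv _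
          simp only [VV, Finset.mem_filter, Finset.mem_Ioc] at hv
          have h1 : (1 : ℝ) ≤ v := by exact_mod_cast hv.1.2.one_lt.le
          apply div_nonneg zero_le_one
          linarith
    _ ≤ ∑ _b ∈ R, 2 / ((Nat.totient g : ℝ) * Real.log N) := by
        apply Finset.sum_le_sum
        intro b hb
        have hb' : b < g := by
          simp only [hR, Finset.mem_filter, Finset.mem_range] at hb
          exact hb.1
        exact sum_v_class_le h hg1 hgD (hRco b hb) hb'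
    _ = (R.card : ℝ) * (2 / ((Nat.totient g : ℝ) * Real.log N)) := by
        rw [Finset.sum_const, nsmul_eq_mul]
    _ ≤ (g.divisors.card : ℝ) * (2 / ((Nat.totient g : ℝ) * Real.log N)) := by
        apply mul_le_mul_of_nonneg_right hRcard
        positivity

end Pool.Agent.Lib.MP_9c2ea5_nt
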