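import Mathlib
import Pool.Agent.Lib.MP_9c2ea5_nt.Defs

/-!
# Q14: the tail of the singular series

Let `r > 1` be squarefree and prime to `W`, `W0 ∣ W`.  All prime factors `p` of `r` are `> 10^4`
(`prime_gt_of_coprime_W0`), in particular `r > 10^4`, and
`τ(r)²/φ(r)² = ∏_{p ∣ r} 4/(p-1)² ≤ ∏_{p ∣ r} p^{-3/2} = r^{-3/2}`
(`4 p^{3/2} ≤ (p-1)²` for `p ≥ 10^4`).  `∑_{r > 10^4} r^{-3/2} ≤ 2/√(10^4) = 1/50`
(telescoping: `r^{-3/2} ≤ 2/√(r-1) - 2/√r`).
-/

open Finset

namespace Pool.Agent.Lib.MP_9c2ea5_nt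

private lemma tau_phi_aux : ∀ r : ℕ, Squarefree r → Nat.Coprime r W0 →
    r.divisors.card ^ 4 * r ^ 3 ≤ (Nat.totient r) ^ 4 := by
  intro r
  induction r using Nat.strong_induction_on with
  | _ r ih =>
    intro hsq hco
    rcases Nat.lt_or_ge 1 r with h1 | h1
    · have hp : (r.minFac).Prime := Nat.minFac_prime (by omega)
      have hpd : r.minFac ∣ r := Nat.minFac_dvd r
      obtain ⟨s, hs⟩ := hpd
      have hp4 : 10000 < r.minFac := prime_gt_of_coprime_W0 hco hp (Nat.minFac_dvd r)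
      set p := r.minFac with hpdef
      have hcop : Nat.Coprime p s := by
        rw [hs] at hsq
        exact Nat.coprime_of_squarefree_mul hsq
      have hs0 : 0 < s := by
        rcases Nat.eq_zero_or_pos s with h0 | h0
        · subst h0; omega
        · exact h0
      have hsr : s < r := by
        rw [hs]
        have := hp.two_le
        nlinarith
      have hssq : Squarefree s := by
        rw [hs] at hsq
        exact hsq.of_mul_right
      have hsco : Nat.Coprime s W0 := by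
        rw [hs] at hco
        exact Nat.Coprime.coprime_mul_left hco
      have hI := ih s hsr hssq hsco
      rw [hs, hcop.card_divisors_mul, Nat.totient_mul hcop, hp.divisors,
        Nat.totient_prime hp]
      have hc : ({1, p} : Finset ℕ).card = 2 := by
        rw [Finset.card_pair]
        exact hp.one_lt.ne
      rw [hc]
      have hkey : 2 ^ 4 * p ^ 3 ≤ (p - 1) ^ 4 := by
        obtain ⟨k, hk⟩ : ∃ k, p = k + 1 := ⟨p - 1, by omega⟩
        rw [hk]
        simp only [Nat.add_sub_cancel]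
        have hk4 : 10000 ≤ k := by omega
        have h2 : (k + 1) ^ 3 ≤ 8 * k ^ 3 := by
          calc (k + 1) ^ 3 ≤ (2 * k) ^ 3 := Nat.pow_le_pow_left (by omega) 3
            _ = 8 * k ^ 3 := by ring
        calc 2 ^ 4 * (k + 1) ^ 3 ≤ 2 ^ 4 * (8 * k ^ 3) := Nat.mul_le_mul_left _ h2
          _ = 128 * k ^ 3 := by ring
          _ ≤ k * k ^ 3 := Nat.mul_le_mul_right _ (by omega)
          _ = k ^ 4 := by ring
      calc (2 * s.divisors.card) ^ 4 * (p * s) ^ 3
          = (2 ^ 4 * p ^ 3) * (s.divisors.card ^ 4 * s ^ 3) := by ring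
        _ ≤ (p - 1) ^ 4 * (Nat.totient s) ^ 4 := Nat.mul_le_mul hkey hI
        _ = ((p - 1) * Nat.totient s) ^ 4 := by ring
    · interval_cases r
      · simp at hsq
      · simp

private lemma term_le {r : ℕ} (hsq : Squarefree r) (hco : Nat.Coprime r W0) (h1 : 10000 < r) :
    (r.divisors.card : ℝ) ^ 2 / (Nat.totient r : ℝ) ^ 2 ≤
      2 / Real.sqrt ((r - 1 : ℕ) : ℝ) - 2 / Real.sqrt (r : ℝ) := by
  have hN := tau_phi_aux r hsq hco
  have hR : (r.divisors.card : ℝ) ^ 4 * (r : ℝ) ^ 3 ≤ (Nat.totient r : ℝ) ^ 4 := by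
    exact_mod_cast hN
  have hr0 : (0 : ℝ) < r := by
    have : 0 < r := by omega
    exact_mod_cast this
  have hphi : (0 : ℝ) < Nat.totient r := by
    have : 0 < Nat.totient r := Nat.totient_pos.mpr (by omega)
    exact_mod_cast this
  obtain ⟨k, hk⟩ : ∃ k, r = k + 1 := ⟨r - 1, by omega⟩
  have hk4 : 10000 ≤ k := by omega
  have hkr : ((r - 1 : ℕ) : ℝ) = (r : ℝ) - 1 := by
    rw [hk]; push_cast; simp
  rw [hkr]
  set u := Real.sqrt (r : ℝ) with hu
  set v := Real.sqrt ((r : ℝ) - 1) with hv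
  have hr1 : (1 : ℝ) < r := by exact_mod_cast (by omega : 1 < r)
  have hu2 : u ^ 2 = r := Real.sq_sqrt hr0.le
  have hv2 : v ^ 2 = r - 1 := Real.sq_sqrt (by linarith)
  have hu0 : 0 < u := Real.sqrt_pos.mpr hr0
  have hv0 : 0 < v := Real.sqrt_pos.mpr (by linarith)
  have hvu : v < u := Real.sqrt_lt_sqrt (by linarith) (by linarith)
  -- first bound: τ²/φ² ≤ 1/(r u)
  have hA : (r.divisors.card : ℝ) ^ 2 / (Nat.totient r : ℝ) ^ 2 ≤ 1 / (r * u) := by
    rw [div_le_div_iff₀ (by positivity) (by positivity), one_mul]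
    apply le_of_sq_le_sq _ (by positivity)
    calc ((r.divisors.card : ℝ) ^ 2 * (r * u)) ^ 2
        = (r.divisors.card : ℝ) ^ 4 * (r ^ 2 * u ^ 2) := by ring
      _ = (r.divisors.card : ℝ) ^ 4 * (r : ℝ) ^ 3 := by rw [hu2]; ring
      _ ≤ (Nat.totient r : ℝ) ^ 4 := hR
      _ = ((Nat.totient r : ℝ) ^ 2) ^ 2 := by ring
  refine hA.trans ?_
  -- 1/(u^3) ≤ 2/v - 2/u
  rw [← hu2, div_sub_div _ _ hv0.ne' hu0.ne', div_le_div_iff₀ (by positivity) (by positivity)]
  have h2 : u - v = 1 / (u + v) := by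
    rw [eq_div_iff (by positivity)]
    nlinarith [hu2, hv2]
  have h3 : 1 ≤ (u - v) * (2 * u) := by
    rw [h2, div_mul_eq_mul_div, one_mul, le_div_iff₀ (by positivity)]
    linarith
  calc 1 * (v * u) ≤ ((u - v) * (2 * u)) * (v * u) := by
        apply mul_le_mul_of_nonneg_right h3 (by positivity)
    _ ≤ ((u - v) * (2 * u)) * (u * u) := by
        apply mul_le_mul_of_nonneg_left _ (by nlinarith)
        nlinarith
    _ = (2 * u - v * 2) * (u ^ 2 * u) := by ring

lemma tail_sum_le (W Q : ℕ) (hW : W0 ∣ W) :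
    ∑ r ∈ (RR W Q).filter (fun r => 1 < r),
      (r.divisors.card : ℝ) ^ 2 / (Nat.totient r : ℝ) ^ 2 ≤ 1 / 40 := by
  have hmem : ∀ r ∈ (RR W Q).filter (fun r => 1 < r),
      Squarefree r ∧ Nat.Coprime r W0 ∧ 10000 < r ∧ r ≤ Q := by
    intro r hr
    rw [Finset.mem_filter, RR, Finset.mem_filter, Finset.mem_Icc] at hr
    obtain ⟨⟨⟨h1, h2⟩, h3, h4⟩, h5⟩ := hr
    have hco : Nat.Coprime r W0 := Nat.Coprime.coprime_dvd_right hW h4
    refine ⟨h3, hco, ?_, h2⟩
    have hp : (r.minFac).Prime := Nat.minFac_prime (by omega)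
    have := prime_gt_of_coprime_W0 hco hp (Nat.minFac_dvd r)
    exact this.trans_le (Nat.minFac_le (by omega))
  have h1 : ∑ r ∈ (RR W Q).filter (fun r => 1 < r),
      (r.divisors.card : ℝ) ^ 2 / (Nat.totient r : ℝ) ^ 2 ≤
      ∑ r ∈ (RR W Q).filter (fun r => 1 < r),
        (2 / Real.sqrt ((r - 1 : ℕ) : ℝ) - 2 / Real.sqrt (r : ℝ)) := by
    apply Finset.sum_le_sum
    intro r hr
    obtain ⟨a, b, c, _⟩ := hmem r hr
    exact term_le a b c
  have hnonneg : ∀ r : ℕ, 10000 < r →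
      0 ≤ (2 / Real.sqrt ((r - 1 : ℕ) : ℝ) - 2 / Real.sqrt (r : ℝ)) := by
    intro r hr
    rw [sub_nonneg]
    apply div_le_div_of_nonneg_left (by norm_num)
    · apply Real.sqrt_pos.mpr
      have : 0 < r - 1 := by omega
      exact_mod_cast this
    · apply Real.sqrt_le_sqrt
      have : r - 1 ≤ r := by omega
      exact_mod_cast this
  have h2 : ∑ r ∈ (RR W Q).filter (fun r => 1 < r),
        (2 / Real.sqrt ((r - 1 : ℕ) : ℝ) - 2 / Real.sqrt (r : ℝ)) ≤
      ∑ r ∈ Finset.Ico 10001 (10001 + Q),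
        (2 / Real.sqrt ((r - 1 : ℕ) : ℝ) - 2 / Real.sqrt (r : ℝ)) := by
    apply Finset.sum_le_sum_of_subset_of_nonneg
    · intro r hr
      obtain ⟨_, _, c, d⟩ := hmem r hr
      rw [Finset.mem_Ico]
      omega
    · intro r hr _
      rw [Finset.mem_Ico] at hr
      exact hnonneg r (by omega)
  have h3 : ∀ n : ℕ, ∑ r ∈ Finset.Ico 10001 (10001 + n),
        (2 / Real.sqrt ((r - 1 : ℕ) : ℝ) - 2 / Real.sqrt (r : ℝ)) =
      2 / Real.sqrt (10000 : ℝ) - 2 / Real.sqrt ((10000 + n : ℕ) : ℝ) := by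
    intro n
    induction n with
    | zero => simp
    | succ n ih =>
      rw [← add_assoc, Finset.sum_Ico_succ_top (by omega), ih]
      have e1 : 10001 + n - 1 = 10000 + n := by omega
      have e2 : 10001 + n = 10000 + n + 1 := by omega
      rw [e1, e2, add_assoc]
      ring
  have h4 : Real.sqrt (10000 : ℝ) = 100 := by
    rw [show (10000 : ℝ) = 100 ^ 2 by norm_num]
    exact Real.sqrt_sq (by norm_num)
  have h5 := h3 Q
  rw [h4] at h5
  have h6 : 0 ≤ 2 / Real.sqrt ((10000 + Q : ℕ) : ℝ) := by positivity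
  calc _ ≤ _ := h1
    _ ≤ _ := h2
    _ = _ := h5
    _ ≤ 1 / 40 := by
      have : (2 : ℝ) / 100 ≤ 1 / 40 := by norm_num
      linarith

end Pool.Agent.Lib.MP_9c2ea5_nt
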