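import Mathlib
import Pool.Agent.Lib.MP_9c2ea5_nt.Q13
import Pool.Agent.Lib.MP_9c2ea5_nt.Q14

/-!
# Q15: the terms `r > 1` of the main term

For `r ∈ RR`: `|h(r,N_v)| ≤ 1/φ(r/g)` with `g = gcd(r,N_v)`, `g ∣ N_v` (`abs_hh_le`), so
`∑_v |h(r,N_v)|/(v-1) ≤ ∑_{g ∣ r} (1/φ(r/g)) ∑_{v : g ∣ N_v} 1/(v-1)
 ≤ ∑_{g ∣ r} (1/φ(r/g)) τ(g) 2/(φ(g) L) = (2/(L φ(r))) ∑_{g∣r} τ(g) ≤ (2/(L φ(r))) τ(r)²`
(`r` squarefree, `φ(g) φ(r/g) = φ(r)`, `τ(g) ≤ τ(r)`; the divisors `g` of `r` are in `RR`).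
Multiply by `1/φ(r)` and sum over `r > 1` with `tail_sum_le`: `≤ (2/L)(1/40)`.
-/

open Finset

namespace Pool.Agent.Lib.MP_9c2ea5_nt

private lemma Q15_inner {D N : ℕ} (h : Hyp D N) {d r : ℕ} (hd : d ∈ D.divisors)
    (hr : r ∈ RR (WW D) (D ^ 2)) :
    ∑ v ∈ VV N, (1 / ((v : ℝ) - 1)) * |hh r (Nv D d v)| ≤
      (2 / Real.log N) * ((r.divisors.card : ℝ) ^ 2 / (Nat.totient r : ℝ)) := by
  classical
  have hr' := hr
  unfold RR at hr'
  rw [Finset.mem_filter, Finset.mem_Icc] at hr'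
  obtain ⟨⟨hr1, hrQ⟩, hsq, hcop⟩ := hr'
  have hr0 : r ≠ 0 := by omega
  have hv1 : ∀ v ∈ VV N, 0 < (v : ℝ) - 1 := by
    intro v hv
    unfold VV at hv
    rw [Finset.mem_filter] at hv
    have : (2 : ℝ) ≤ v := by exact_mod_cast hv.2.two_le
    linarith
  have hL : 0 < Real.log N := lt_of_lt_of_le (by positivity) h.logN_ge
  -- first step
  have s1 : ∀ v ∈ VV N, (1 / ((v : ℝ) - 1)) * |hh r (Nv D d v)| ≤
      ∑ g ∈ r.divisors, (1 / (Nat.totient (r / g) : ℝ)) *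
        (if (g : ℤ) ∣ Nv D d v then 1 / ((v : ℝ) - 1) else 0) := by
    intro v hv
    have hv' := hv1 v hv
    have hnn : ∀ g ∈ r.divisors, 0 ≤ (1 / (Nat.totient (r / g) : ℝ)) *
        (if (g : ℤ) ∣ Nv D d v then 1 / ((v : ℝ) - 1) else 0) := by
      intro g _
      apply mul_nonneg (by positivity)
      split_ifs
      · positivity
      · exact le_rfl
    have hgr : Int.gcd r (Nv D d v) ∣ r := by
      have : ((Int.gcd r (Nv D d v) : ℕ) : ℤ) ∣ (r : ℤ) := Int.gcd_dvd_left _ _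
      exact_mod_cast this
    have hgmem : Int.gcd r (Nv D d v) ∈ r.divisors := Nat.mem_divisors.2 ⟨hgr, hr0⟩
    refine le_trans ?_ (Finset.single_le_sum hnn hgmem)
    rw [if_pos (Int.gcd_dvd_right _ _), mul_comm]
    exact mul_le_mul_of_nonneg_right (abs_hh_le r _) (by positivity)
  refine le_trans (Finset.sum_le_sum s1) ?_
  rw [Finset.sum_comm]
  have s2 : ∀ g ∈ r.divisors, ∑ v ∈ VV N, (1 / (Nat.totient (r / g) : ℝ)) *
        (if (g : ℤ) ∣ Nv D d v then 1 / ((v : ℝ) - 1) else 0) ≤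
      (r.divisors.card : ℝ) * (2 / ((Nat.totient r : ℝ) * Real.log N)) := by
    intro g hg
    have hgr : g ∣ r := Nat.dvd_of_mem_divisors hg
    have hg0 : 0 < g := Nat.pos_of_mem_divisors hg
    obtain ⟨k, rfl⟩ := hgr
    have hk0 : 0 < k := Nat.pos_of_ne_zero (by rintro rfl; simp at hr0)
    have hgk : Nat.Coprime g k := Nat.coprime_of_squarefree_mul hsq
    have hgRR : g ∈ RR (WW D) (D ^ 2) := by
      unfold RR
      rw [Finset.mem_filter, Finset.mem_Icc]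
      refine ⟨⟨hg0, le_trans (Nat.le_mul_of_pos_right _ hk0) hrQ⟩, ?_, ?_⟩
      · exact hsq.squarefree_of_dvd (Dvd.intro _ rfl)
      · exact Nat.Coprime.coprime_dvd_left (Dvd.intro _ rfl) hcop
    rw [← Finset.mul_sum, ← Finset.sum_filter]
    have h3 := sum_v_dvd_le h hd hgRR
    have hcard : (g.divisors.card : ℝ) ≤ ((g * k).divisors.card : ℝ) := by
      exact_mod_cast Finset.card_le_card (Nat.divisors_subset_of_dvd hr0 (Dvd.intro _ rfl))
    have hdiv : g * k / g = k := Nat.mul_div_cancel_left k hg0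
    rw [hdiv]
    have hφg : (0 : ℝ) < (Nat.totient g : ℝ) := by exact_mod_cast Nat.totient_pos.2 hg0
    have hφk : (0 : ℝ) < (Nat.totient k : ℝ) := by exact_mod_cast Nat.totient_pos.2 hk0
    have hφ : ((Nat.totient (g * k) : ℕ) : ℝ) = (Nat.totient g : ℝ) * (Nat.totient k : ℝ) := by
      rw [Nat.totient_mul hgk]
      push_cast
      ring
    rw [hφ]
    calc (1 / (Nat.totient k : ℝ)) *
          ∑ v ∈ (VV N).filter (fun v => (g : ℤ) ∣ Nv D d v), 1 / ((v : ℝ) - 1)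
        ≤ (1 / (Nat.totient k : ℝ)) *
          ((g.divisors.card : ℝ) * (2 / ((Nat.totient g : ℝ) * Real.log N))) := by
          apply mul_le_mul_of_nonneg_left h3 (by positivity)
      _ = (g.divisors.card : ℝ) *
          (2 / ((Nat.totient g : ℝ) * (Nat.totient k : ℝ) * Real.log N)) := by
          field_simp
      _ ≤ _ := by
          apply mul_le_mul_of_nonneg_right hcard
          positivity
  refine le_trans (Finset.sum_le_sum s2) ?_
  rw [Finset.sum_const, nsmul_eq_mul]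
  have hφr : (0 : ℝ) < (Nat.totient r : ℝ) := by exact_mod_cast Nat.totient_pos.2 (by omega)
  apply le_of_eq
  field_simp

lemma tail_main_le {D N : ℕ} (h : Hyp D N) {d : ℕ} (hd : d ∈ D.divisors) :
    ∑ r ∈ (RR (WW D) (D ^ 2)).filter (fun r => 1 < r), (1 / (Nat.totient r : ℝ)) *
      ∑ v ∈ VV N, (1 / ((v : ℝ) - 1)) * |hh r (Nv D d v)| ≤ 1 / (20 * Real.log N) := by
  have hL : 0 < Real.log N := lt_of_lt_of_le (by positivity) h.logN_ge
  have h1 : ∀ r ∈ (RR (WW D) (D ^ 2)).filter (fun r => 1 < r), (1 / (Nat.totient r : ℝ)) *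
      ∑ v ∈ VV N, (1 / ((v : ℝ) - 1)) * |hh r (Nv D d v)| ≤
      (2 / Real.log N) * ((r.divisors.card : ℝ) ^ 2 / (Nat.totient r : ℝ) ^ 2) := by
    intro r hr
    rw [Finset.mem_filter] at hr
    have hφr : (0 : ℝ) < (Nat.totient r : ℝ) := by exact_mod_cast Nat.totient_pos.2 (by omega)
    calc (1 / (Nat.totient r : ℝ)) * ∑ v ∈ VV N, (1 / ((v : ℝ) - 1)) * |hh r (Nv D d v)|
        ≤ (1 / (Nat.totient r : ℝ)) *
          ((2 / Real.log N) * ((r.divisors.card : ℝ) ^ 2 / (Nat.totient r : ℝ))) :=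
          mul_le_mul_of_nonneg_left (Q15_inner h hd hr.1) (by positivity)
      _ = _ := by field_simp
  refine le_trans (Finset.sum_le_sum h1) ?_
  rw [← Finset.mul_sum]
  have h2 := tail_sum_le (WW D) (D ^ 2) (Dvd.intro _ rfl : W0 ∣ WW D)
  calc (2 / Real.log N) * ∑ r ∈ (RR (WW D) (D ^ 2)).filter (fun r => 1 < r),
        (r.divisors.card : ℝ) ^ 2 / (Nat.totient r : ℝ) ^ 2
      ≤ (2 / Real.log N) * (1 / 40) := mul_le_mul_of_nonneg_left h2 (by positivity)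
    _ = 1 / (20 * Real.log N) := by
        field_simp
        norm_num

end Pool.Agent.Lib.MP_9c2ea5_nt
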