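import Mathlib
import Pool.Agent.Lib.MP_9c2ea5_nt.Q11
import Pool.Agent.Lib.MP_9c2ea5_nt.Q13b
import Pool.Agent.Lib.MP_9c2ea5_nt.Q15

/-!
# Q16: lower bound for `M_d`  (Lemmas 15 and 17)

`κ = W/φ(W)`, `1 ≤ κ ≤ W`, `L = log N`, `S = ∑_v 1/(v-1)`.
`Md = κ ∑_{r ∈ RR} ∑_v ∑_{u ∈ QQ} θ(q) h(r,p_d)` (expand `lam`, exchange the sums).
By `T_eval` this is `κ ∑_r ∑_v 2Z/((v-1)φ(W²Dr)) μ(r) h(r,N_v)` up to
`κ ∑_{r ≤ D²} r Z/D^37 ≤ W D^4 Z/D^37`.
`φ(W² D r) = φ(W² D) φ(r)` (coprime), so the main term is `κ (2Z/φ(W²D)) (S + E)` with the `r = 1`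
term `S` (`μ(1) h(1,·) = 1`) and `|E| ≤ 1/(20 L)` (`tail_main_le`, `|μ| ≤ 1`).
`S ≥ 2/(5L)` (`SV_ge`), `κ/φ(W²D) ≥ 1/(W²D)`, `Z = W² D U N`:
`Md ≥ 2 U N (2/5 - 1/20)/L - W D^4 Z/D^37 = 0.7 U N/L - W³ D^5 U N / D^37 ≥ U N/(2 L)`
(`W ≤ D²`, `L ≤ D`).
-/

open Finset

namespace Pool.Agent.Lib.MP_9c2ea5_nt

private lemma q16_expand (D N d : ℕ) :
    Md D N d = ((WW D : ℝ) / (Nat.totient (WW D) : ℝ)) *
      ∑ r ∈ RR (WW D) (D ^ 2), ∑ v ∈ VV N, ∑ u ∈ QQ D N v,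
        thN (qq D u v) * hh r (pd D d u v) := by
  unfold Md lamD lam
  simp only [Finset.mul_sum]
  have h1 : ∀ v ∈ VV N, ∑ u ∈ QQ D N v, ∑ r ∈ RR (WW D) (D ^ 2),
      thN (qq D u v) * (((WW D : ℝ) / (Nat.totient (WW D) : ℝ)) * hh r (pd D d u v)) =
      ∑ r ∈ RR (WW D) (D ^ 2), ∑ u ∈ QQ D N v,
      ((WW D : ℝ) / (Nat.totient (WW D) : ℝ)) * (thN (qq D u v) * hh r (pd D d u v)) := by
    intro v _
    rw [Finset.sum_comm]
    apply Finset.sum_congr rfl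
    intro r _
    apply Finset.sum_congr rfl
    intro u _
    ring
  rw [Finset.sum_congr rfl h1, Finset.sum_comm]

theorem Md_ge {D N : ℕ} (h : Hyp D N) {d : ℕ} (hd : d ∈ D.divisors) :
    ((UU D N : ℝ) * N) / (2 * Real.log N) ≤ Md D N d := by
  have hW := h.WW_pos
  have hWr : (0 : ℝ) < (WW D : ℝ) := by exact_mod_cast hW
  have hZ := h.ZZ_pos
  have hZr : (0 : ℝ) < (ZZ D N : ℝ) := by exact_mod_cast hZ
  have hDr := h.D_pos'
  have hD1 := h.one_le_D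
  have hNr := h.N_pos'
  have hLL := h.logN_ge
  have hL0 : (0 : ℝ) < Real.log N := by linarith [show (0 : ℝ) < 10 ^ 5 by norm_num]
  have hLD : Real.log N ≤ D := by
    have := h.logN_pow_le' (k := 1) (by norm_num)
    simpa using this
  have hphiW : 0 < Nat.totient (WW D) := Nat.totient_pos.mpr hW
  have hphiWr : (0 : ℝ) < (Nat.totient (WW D) : ℝ) := by exact_mod_cast hphiW
  have hWD : 0 < (WW D) ^ 2 * D := Nat.mul_pos (pow_pos hW _) h.D_pos
  have hWDr : (0 : ℝ) < (((WW D) ^ 2 * D : ℕ) : ℝ) := by exact_mod_cast hWD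
  have hphi2 : 0 < Nat.totient ((WW D) ^ 2 * D) := Nat.totient_pos.mpr hWD
  have hphi2r : (0 : ℝ) < (Nat.totient ((WW D) ^ 2 * D) : ℝ) := by exact_mod_cast hphi2
  -- `1 ≤ κ ≤ W`
  have hk1 : (1 : ℝ) ≤ (WW D : ℝ) / (Nat.totient (WW D) : ℝ) := by
    rw [le_div_iff₀ hphiWr, one_mul]
    exact_mod_cast Nat.totient_le (WW D)
  have hk2 : (WW D : ℝ) / (Nat.totient (WW D) : ℝ) ≤ WW D := by
    apply div_le_self hWr.le
    exact_mod_cast hphiW
  rw [q16_expand]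
  set κ : ℝ := (WW D : ℝ) / (Nat.totient (WW D) : ℝ) with hκ
  set E : ℝ := (ZZ D N : ℝ) / (D : ℝ) ^ 37 with hE
  have hE0 : 0 ≤ E := by positivity
  set M : ℕ → ℕ → ℝ := fun r v => 2 * (ZZ D N : ℝ) /
    (((v : ℝ) - 1) * (Nat.totient ((WW D) ^ 2 * D * r) : ℝ)) *
      (((ArithmeticFunction.moebius r : ℤ) : ℝ) * hh r (Nv D d v)) with hM
  -- comparison with the main term
  have h2 : ∀ r ∈ RR (WW D) (D ^ 2), ∑ v ∈ VV N, M r v - (r : ℝ) * E ≤
      ∑ v ∈ VV N, ∑ u ∈ QQ D N v, thN (qq D u v) * hh r (pd D d u v) := by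
    intro r hr
    have h3 := T_eval h hd hr
    have h4 : |∑ v ∈ VV N, ((∑ u ∈ QQ D N v, thN (qq D u v) * hh r (pd D d u v)) - M r v)| ≤
        (r : ℝ) * E := le_trans (Finset.abs_sum_le_sum_abs _ _) h3
    rw [Finset.sum_sub_distrib, abs_le] at h4
    linarith [h4.1]
  have h5 := Finset.sum_le_sum h2
  rw [Finset.sum_sub_distrib] at h5
  have h6 : ∑ r ∈ RR (WW D) (D ^ 2), (r : ℝ) * E ≤ (D : ℝ) ^ 4 * E := by
    rw [← Finset.sum_mul]
    apply mul_le_mul_of_nonneg_right _ hE0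
    have h7 : ∀ r ∈ RR (WW D) (D ^ 2), (r : ℝ) ≤ (D : ℝ) ^ 2 := by
      intro r hr
      unfold RR at hr
      rw [Finset.mem_filter, Finset.mem_Icc] at hr
      exact_mod_cast hr.1.2
    refine le_trans (Finset.sum_le_card_nsmul _ _ _ h7) ?_
    rw [nsmul_eq_mul]
    have h8 : ((RR (WW D) (D ^ 2)).card : ℝ) ≤ (D : ℝ) ^ 2 := by
      have h9 : (RR (WW D) (D ^ 2)).card ≤ D ^ 2 := by
        unfold RR
        refine le_trans (Finset.card_filter_le _ _) ?_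
        simp
      exact_mod_cast h9
    calc ((RR (WW D) (D ^ 2)).card : ℝ) * (D : ℝ) ^ 2 ≤ (D : ℝ) ^ 2 * (D : ℝ) ^ 2 :=
          mul_le_mul_of_nonneg_right h8 (by positivity)
      _ = (D : ℝ) ^ 4 := by ring
  -- the main term
  have hone : 1 ∈ RR (WW D) (D ^ 2) := by
    unfold RR
    rw [Finset.mem_filter, Finset.mem_Icc]
    exact ⟨⟨le_rfl, Nat.one_le_pow _ _ h.D_pos⟩, squarefree_one, Nat.coprime_one_left _⟩
  have hv1 : ∀ v ∈ VV N, (0 : ℝ) < (v : ℝ) - 1 := by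
    intro v hv
    unfold VV at hv
    rw [Finset.mem_filter] at hv
    have : (1 : ℝ) < (v : ℝ) := by exact_mod_cast hv.2.one_lt
    linarith
  set A : ℝ := 2 * (ZZ D N : ℝ) / (Nat.totient ((WW D) ^ 2 * D) : ℝ) with hA
  have hA0 : 0 ≤ A := by positivity
  have hMr : ∀ r ∈ RR (WW D) (D ^ 2), ∀ v ∈ VV N, M r v =
      A * ((1 / (Nat.totient r : ℝ)) * ((1 / ((v : ℝ) - 1)) *
        (((ArithmeticFunction.moebius r : ℤ) : ℝ) * hh r (Nv D d v)))) := by
    intro r hr v hv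
    have hr2 := hr
    unfold RR at hr2
    rw [Finset.mem_filter, Finset.mem_Icc] at hr2
    have hrpos : 0 < r := hr2.1.1
    have hcop : Nat.Coprime ((WW D) ^ 2 * D) r := by
      apply Nat.Coprime.mul_left
      · exact (Nat.Coprime.pow_left 2 hr2.2.2.symm)
      · have : D ∣ WW D := Dvd.intro_left _ rfl
        exact (Nat.Coprime.coprime_dvd_right this hr2.2.2).symm
    have hphir : (0 : ℝ) < (Nat.totient r : ℝ) := by exact_mod_cast Nat.totient_pos.mpr hrpos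
    have := hv1 v hv
    rw [hM, hA]
    simp only
    rw [Nat.totient_mul hcop]
    push_cast
    field_simp
  have h10 : ∑ r ∈ RR (WW D) (D ^ 2), ∑ v ∈ VV N, M r v =
      A * ((∑ v ∈ VV N, 1 / ((v : ℝ) - 1)) + ∑ r ∈ (RR (WW D) (D ^ 2)).filter (fun r => 1 < r),
        (1 / (Nat.totient r : ℝ)) * ∑ v ∈ VV N, (1 / ((v : ℝ) - 1)) *
          (((ArithmeticFunction.moebius r : ℤ) : ℝ) * hh r (Nv D d v))) := by
    have h11 : ∑ r ∈ RR (WW D) (D ^ 2), ∑ v ∈ VV N, M r v =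
        A * ∑ r ∈ RR (WW D) (D ^ 2), (1 / (Nat.totient r : ℝ)) * ∑ v ∈ VV N,
          (1 / ((v : ℝ) - 1)) *
          (((ArithmeticFunction.moebius r : ℤ) : ℝ) * hh r (Nv D d v)) := by
      rw [Finset.mul_sum]
      apply Finset.sum_congr rfl
      intro r hr
      rw [Finset.mul_sum, Finset.mul_sum]
      exact Finset.sum_congr rfl (hMr r hr)
    rw [h11, ← Finset.sum_filter_add_sum_filter_not (RR (WW D) (D ^ 2)) (fun r => 1 < r)]
    have h12 : (RR (WW D) (D ^ 2)).filter (fun r => ¬ 1 < r) = {1} := by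
      ext r
      simp only [Finset.mem_filter, Finset.mem_singleton]
      constructor
      · rintro ⟨hr, hr1⟩
        unfold RR at hr
        rw [Finset.mem_filter, Finset.mem_Icc] at hr
        omega
      · rintro rfl
        exact ⟨hone, lt_irrefl 1⟩
    rw [h12, Finset.sum_singleton, add_comm]
    congr 2
    simp [hh_one]
  have h13 : |∑ r ∈ (RR (WW D) (D ^ 2)).filter (fun r => 1 < r),
        (1 / (Nat.totient r : ℝ)) * ∑ v ∈ VV N, (1 / ((v : ℝ) - 1)) *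
          (((ArithmeticFunction.moebius r : ℤ) : ℝ) * hh r (Nv D d v))| ≤
      1 / (20 * Real.log N) := by
    refine le_trans (Finset.abs_sum_le_sum_abs _ _) (le_trans ?_ (tail_main_le h hd))
    apply Finset.sum_le_sum
    intro r _
    rw [abs_mul, abs_of_nonneg (by positivity : (0 : ℝ) ≤ 1 / (Nat.totient r : ℝ))]
    apply mul_le_mul_of_nonneg_left _ (by positivity)
    refine le_trans (Finset.abs_sum_le_sum_abs _ _) ?_
    apply Finset.sum_le_sum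
    intro v hv
    have hv' := hv1 v hv
    rw [abs_mul, abs_of_nonneg (by positivity : (0 : ℝ) ≤ 1 / ((v : ℝ) - 1)), abs_mul]
    apply mul_le_mul_of_nonneg_left _ (by positivity)
    have h14 : |((ArithmeticFunction.moebius r : ℤ) : ℝ)| ≤ 1 := by
      have := ArithmeticFunction.abs_moebius_le_one (n := r)
      exact_mod_cast this
    calc |((ArithmeticFunction.moebius r : ℤ) : ℝ)| * |hh r (Nv D d v)| ≤
          1 * |hh r (Nv D d v)| := mul_le_mul_of_nonneg_right h14 (abs_nonneg _)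
      _ = |hh r (Nv D d v)| := one_mul _
  rw [abs_le] at h13
  have h15 := SV_ge h
  -- numbers
  have hUN : (0 : ℝ) < (UU D N : ℝ) * N := by
    have : (0 : ℝ) < (UU D N : ℝ) := by exact_mod_cast h.UU_pos
    positivity
  have hZeq : (ZZ D N : ℝ) = (((WW D) ^ 2 * D : ℕ) : ℝ) * ((UU D N : ℝ) * N) := by
    unfold ZZ
    push_cast
    ring
  have h16 : 2 * ((UU D N : ℝ) * N) ≤ κ * A := by
    have h17 : 2 * ((UU D N : ℝ) * N) ≤ A := by
      rw [hA, le_div_iff₀ hphi2r, hZeq]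
      have h18 : (Nat.totient ((WW D) ^ 2 * D) : ℝ) ≤ (((WW D) ^ 2 * D : ℕ) : ℝ) := by
        exact_mod_cast Nat.totient_le _
      nlinarith
    calc 2 * ((UU D N : ℝ) * N) ≤ A := h17
      _ = 1 * A := (one_mul _).symm
      _ ≤ κ * A := mul_le_mul_of_nonneg_right hk1 hA0
  have h19 : (7 / 20) / Real.log N ≤ (∑ v ∈ VV N, 1 / ((v : ℝ) - 1)) +
      ∑ r ∈ (RR (WW D) (D ^ 2)).filter (fun r => 1 < r),
        (1 / (Nat.totient r : ℝ)) * ∑ v ∈ VV N, (1 / ((v : ℝ) - 1)) *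
          (((ArithmeticFunction.moebius r : ℤ) : ℝ) * hh r (Nv D d v)) := by
    have h20 : (7 / 20) / Real.log N = 2 / (5 * Real.log N) - 1 / (20 * Real.log N) := by
      field_simp
      norm_num
    rw [h20]
    linarith [h13.1]
  have hκ0 : 0 ≤ κ := by linarith
  have h21 : κ * ∑ r ∈ RR (WW D) (D ^ 2), ∑ v ∈ VV N, M r v ≥
      2 * ((UU D N : ℝ) * N) * ((7 / 20) / Real.log N) := by
    rw [h10, ← mul_assoc]
    apply mul_le_mul h16 h19 (by positivity) (by positivity)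
  have h22 : κ * ((D : ℝ) ^ 4 * E) ≤ ((UU D N : ℝ) * N) * ((1 / 10) / Real.log N) := by
    have hW2 : (WW D : ℝ) ≤ (D : ℝ) ^ 2 := by exact_mod_cast h.WW_le
    have h23 : κ ≤ (D : ℝ) ^ 2 := le_trans hk2 hW2
    have h24 : (ZZ D N : ℝ) ≤ (D : ℝ) ^ 5 * ((UU D N : ℝ) * N) := by
      rw [hZeq]
      apply mul_le_mul_of_nonneg_right _ hUN.le
      push_cast
      calc (WW D : ℝ) ^ 2 * D ≤ ((D : ℝ) ^ 2) ^ 2 * D := by
            apply mul_le_mul_of_nonneg_right _ hDr.le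
            exact pow_le_pow_left₀ hWr.le hW2 2
        _ = (D : ℝ) ^ 5 := by ring
    have h25 : E ≤ ((UU D N : ℝ) * N) / (D : ℝ) ^ 32 := by
      rw [hE, div_le_div_iff₀ (by positivity) (by positivity)]
      calc (ZZ D N : ℝ) * (D : ℝ) ^ 32 ≤ (D : ℝ) ^ 5 * ((UU D N : ℝ) * N) * (D : ℝ) ^ 32 :=
            mul_le_mul_of_nonneg_right h24 (by positivity)
        _ = (UU D N : ℝ) * N * (D : ℝ) ^ 37 := by ring
    calc κ * ((D : ℝ) ^ 4 * E) ≤ (D : ℝ) ^ 2 * ((D : ℝ) ^ 4 *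
          (((UU D N : ℝ) * N) / (D : ℝ) ^ 32)) := by
          apply mul_le_mul h23 _ (by positivity) (by positivity)
          exact mul_le_mul_of_nonneg_left h25 (by positivity)
      _ = ((UU D N : ℝ) * N) * (1 / (D : ℝ) ^ 26) := by
          field_simp
      _ ≤ ((UU D N : ℝ) * N) * ((1 / 10) / Real.log N) := by
          apply mul_le_mul_of_nonneg_left _ hUN.le
          rw [div_div, div_le_div_iff₀ (by positivity) (by positivity), one_mul, one_mul]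
          have h26 : (10 : ℝ) ≤ D := le_trans (by norm_num) h.D_ge'
          calc 10 * Real.log N ≤ (D : ℝ) * D := mul_le_mul h26 hLD hL0.le hDr.le
            _ = (D : ℝ) ^ 2 := by ring
            _ ≤ (D : ℝ) ^ 26 := pow_le_pow_right₀ hD1 (by norm_num)
  have h27 : κ * (∑ r ∈ RR (WW D) (D ^ 2), ∑ v ∈ VV N, M r v - (D : ℝ) ^ 4 * E) ≤
      κ * ∑ r ∈ RR (WW D) (D ^ 2), ∑ v ∈ VV N, ∑ u ∈ QQ D N v,
        thN (qq D u v) * hh r (pd D d u v) := by
    apply mul_le_mul_of_nonneg_left _ hκ0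
    linarith
  rw [mul_sub] at h27
  have h28 : ((UU D N : ℝ) * N) / (2 * Real.log N) =
      ((UU D N : ℝ) * N) * ((1 / 2) / Real.log N) := by
    field_simp
  rw [h28]
  have h29 : 0 < 1 / Real.log N := by positivity
  have h30 : ((UU D N : ℝ) * N) * ((1 / 2) / Real.log N) ≤
      2 * ((UU D N : ℝ) * N) * ((7 / 20) / Real.log N) -
        ((UU D N : ℝ) * N) * ((1 / 10) / Real.log N) := by
    have h31 : 2 * ((UU D N : ℝ) * N) * ((7 / 20) / Real.log N) -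
        ((UU D N : ℝ) * N) * ((1 / 10) / Real.log N) -
        ((UU D N : ℝ) * N) * ((1 / 2) / Real.log N) =
        ((UU D N : ℝ) * N) * (1 / Real.log N) * (1 / 10) := by
      ring
    have h32 : 0 ≤ ((UU D N : ℝ) * N) * (1 / Real.log N) * (1 / 10) := by positivity
    linarith
  linarith

end Pool.Agent.Lib.MP_9c2ea5_nt
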