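import Mathlib
import Pool.Agent.Lib.MP_9c2ea5_nt.P7
import Pool.Agent.Lib.MP_9c2ea5_nt.Q16

/-!
# Theorem B: a good pair `(D, N)` gives a solution
-/

open Finset

namespace Pool.Agent.Lib.MP_9c2ea5_nt

/-- a solution with `y ≥ N` -/
def Sol (N : ℕ) : Prop := ∃ x y : ℕ, x > y ∧ y ≥ N ∧ (x + y + 1).Prime ∧ (x * y + 1).Prime

/-- a prime `q` with a prime `p_d` is a solution -/
lemma sol_of_primes {D N : ℕ} (h : Hyp D N) {d u v : ℕ} (hd : d ∈ D.divisors) (hv : v ∈ VV N)
    (hu : u ∈ QQ D N v) (hq : (qq D u v).Prime) (hp : (pd D d u v).toNat.Prime) : Sol N := by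
  have hdD : d ∣ D := Nat.dvd_of_mem_divisors hd
  have hd0 : 0 < d := Nat.pos_of_mem_divisors hd
  set e := D / d with he
  have hde : d * e = D := Nat.mul_div_cancel' hdD
  have he0 : 0 < e := Nat.div_pos (Nat.le_of_dvd h.D_pos hdD) hd0
  have heD : e ≤ D := Nat.div_le_self D d
  have hW : 0 < WW D := h.WW_pos
  unfold VV at hv
  rw [mem_filter, mem_Ioc] at hv
  obtain ⟨⟨hv1, hv2⟩, hvp⟩ := hv
  unfold QQ at hu
  rw [mem_filter, mem_Icc] at hu
  obtain ⟨⟨hu1, hu2⟩, hq1, hq2⟩ := hu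
  -- lower bound for `u`
  have hUN : 2 * (UU D N * N) ≤ u * v := by
    unfold ZZ qq at hq1
    have hpos : 0 < (WW D) ^ 2 * D := Nat.mul_pos (pow_pos hW _) h.D_pos
    have h1 : (WW D) ^ 2 * D * (2 * (UU D N * N)) < (WW D) ^ 2 * D * (u * v) + 1 := by
      calc (WW D) ^ 2 * D * (2 * (UU D N * N)) = 2 * ((WW D) ^ 2 * D * UU D N * N) := by ring
        _ < (WW D) ^ 2 * D * u * v + 1 := hq1
        _ = (WW D) ^ 2 * D * (u * v) + 1 := by ring
    have h2 : (WW D) ^ 2 * D * (2 * (UU D N * N)) ≤ (WW D) ^ 2 * D * (u * v) := by omega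
    exact Nat.le_of_mul_le_mul_left h2 hpos
  have hUu : UU D N ≤ u := by
    by_contra hlt
    push Not at hlt
    have h3 : u * v < UU D N * (2 * N) := by
      calc u * v ≤ u * (2 * N) := Nat.mul_le_mul_left _ hv2
        _ < UU D N * (2 * N) := Nat.mul_lt_mul_of_pos_right hlt (by have := h.N_pos; omega)
    have h4 : UU D N * (2 * N) = 2 * (UU D N * N) := by ring
    omega
  have hU : 2 * N * D < UU D N := by
    unfold UU
    have h5 : 2 * D < D ^ 300 := by
      calc 2 * D < D * D := Nat.mul_lt_mul_of_pos_right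
            (lt_of_lt_of_le (by norm_num : 2 < 10 ^ 100) h.ten_pow_le) h.D_pos
        _ = D ^ 2 := by ring
        _ ≤ D ^ 300 := Nat.pow_le_pow_right h.D_pos (by norm_num)
    calc 2 * N * D = N * (2 * D) := by ring
      _ < N * D ^ 300 := Nat.mul_lt_mul_of_pos_left h5 h.N_pos
  refine ⟨WW D * d * u, WW D * e * v, ?_, ?_, ?_, ?_⟩
  · -- `x > y`
    have h6 : e * v < d * u := by
      calc e * v ≤ D * (2 * N) := Nat.mul_le_mul heD hv2
        _ = 2 * N * D := by ring
        _ < UU D N := hU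
        _ ≤ u := hUu
        _ ≤ d * u := Nat.le_mul_of_pos_left _ hd0
    have h7 := Nat.mul_lt_mul_of_pos_left h6 hW
    calc WW D * e * v = WW D * (e * v) := by ring
      _ < WW D * (d * u) := h7
      _ = WW D * d * u := by ring
  · have h8 : 1 ≤ WW D * e := Nat.mul_pos hW he0
    calc N ≤ v := hv1.le
      _ = 1 * v := (one_mul v).symm
      _ ≤ WW D * e * v := Nat.mul_le_mul_right _ h8
  · have h9 : (pd D d u v).toNat = WW D * d * u + WW D * e * v + 1 := by
      unfold pd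
      rw [Int.toNat_natCast]
      ring
    rwa [h9] at hp
  · have h10 : WW D * d * u * (WW D * e * v) + 1 = qq D u v := by
      unfold qq
      rw [← hde]
      ring
    rwa [h10]

theorem theoremB {D N : ℕ} (h : Hyp D N) : Sol N := by
  by_contra hno
  set A : ℝ := (UU D N : ℝ) * N with hA
  have hA0 : 0 < A := by
    have h1 : (0 : ℝ) < UU D N := by exact_mod_cast h.UU_pos
    exact mul_pos h1 h.N_pos'
  set τ : ℝ := (D.divisors.card : ℝ) with hτ
  have hτ0 : 0 < τ := h.tau_pos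
  set L := Real.log N with hL
  have hL5 : (10 : ℝ) ^ 5 ≤ L := h.logN_ge
  have hL0 : 0 < L := by linarith [show (0 : ℝ) < 10 ^ 5 by norm_num]
  -- lower bound
  have low : τ * (A / (2 * L)) ≤ ∑ d ∈ D.divisors, Md D N d := by
    calc τ * (A / (2 * L)) = ∑ d ∈ D.divisors, A / (2 * L) := by
          rw [Finset.sum_const, nsmul_eq_mul]
      _ ≤ _ := Finset.sum_le_sum (fun d hd => Md_ge h hd)
  -- rewrite the sum
  set I : Finset (Σ _ : ℕ, ℕ) := (VV N).sigma (fun v => QQ D N v) with hI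
  have eM : ∑ d ∈ D.divisors, Md D N d =
      ∑ i ∈ I, thN (qq D i.2 i.1) * (- ∑ d ∈ D.divisors, ff D (pd D d i.2 i.1)) := by
    unfold Md
    rw [Finset.sum_comm, hI, Finset.sum_sigma]
    apply Finset.sum_congr rfl
    intro v hv
    rw [Finset.sum_comm]
    apply Finset.sum_congr rfl
    intro u hu
    rw [← Finset.mul_sum]
    by_cases hq : (qq D u v).Prime
    · congr 1
      rw [← Finset.sum_neg_distrib]
      apply Finset.sum_congr rfl
      intro d hd
      have hnp : ¬ (pd D d u v).toNat.Prime := fun hp => hno (sol_of_primes h hd hv hu hq hp)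
      unfold ff th thN
      rw [if_neg hnp]
      ring
    · unfold thN
      rw [if_neg hq, zero_mul, zero_mul]
  -- injection of the index set into the box
  have inj : ∑ i ∈ I, (∑ d ∈ D.divisors, ff D (pd D d i.2 i.1)) ^ 2 ≤
      ∑ p ∈ box D N, (∑ d ∈ D.divisors, ff D (pd D d p.1 p.2)) ^ 2 := by
    have h1 : ∑ i ∈ I, (∑ d ∈ D.divisors, ff D (pd D d i.2 i.1)) ^ 2 =
        ∑ p ∈ I.image (fun i => (i.2, i.1)), (∑ d ∈ D.divisors, ff D (pd D d p.1 p.2)) ^ 2 := by
      rw [Finset.sum_image]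
      rintro ⟨v, u⟩ _ ⟨v', u'⟩ _ heq
      simp only [Prod.mk.injEq] at heq
      obtain ⟨h1, h2⟩ := heq
      subst h1; subst h2; rfl
    rw [h1]
    apply Finset.sum_le_sum_of_subset_of_nonneg
    · intro p hp
      rw [Finset.mem_image] at hp
      obtain ⟨⟨v, u⟩, hi, rfl⟩ := hp
      rw [hI, Finset.mem_sigma] at hi
      obtain ⟨hv, hu⟩ := hi
      unfold VV at hv
      unfold QQ at hu
      unfold box
      rw [mem_filter] at hv hu
      exact Finset.mem_product.mpr ⟨hu.1, hv.1⟩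
    · intro p _ _
      positivity
  have cardI : (I.card : ℝ) ≤ 4 * A := by
    have h1 : I.card ≤ (box D N).card := by
      have h2 : I.card = (I.image (fun i => (i.2, i.1))).card := by
        rw [Finset.card_image_of_injOn]
        rintro ⟨v, u⟩ _ ⟨v', u'⟩ _ heq
        simp only [Prod.mk.injEq] at heq
        obtain ⟨h1, h2⟩ := heq
        subst h1; subst h2; rfl
      rw [h2]
      apply Finset.card_le_card
      intro p hp
      rw [Finset.mem_image] at hp
      obtain ⟨⟨v, u⟩, hi, rfl⟩ := hp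
      rw [hI, Finset.mem_sigma] at hi
      obtain ⟨hv, hu⟩ := hi
      unfold VV at hv
      unfold QQ at hu
      unfold box
      rw [mem_filter] at hv hu
      exact Finset.mem_product.mpr ⟨hu.1, hv.1⟩
    have h3 : (box D N).card = 4 * UU D N * N := by
      unfold box
      rw [Finset.card_product, Nat.card_Icc, Nat.card_Ioc]
      congr 1
      omega
    rw [h3] at h1
    calc (I.card : ℝ) ≤ ((4 * UU D N * N : ℕ) : ℝ) := by exact_mod_cast h1
      _ = 4 * A := by rw [hA]; push_cast; ring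
  have hth : ∑ i ∈ I, thN (qq D i.2 i.1) ^ 2 ≤ 4 * A * (3 * L) ^ 2 := by
    have h1 : ∀ i ∈ I, thN (qq D i.2 i.1) ^ 2 ≤ (3 * L) ^ 2 := by
      rintro ⟨v, u⟩ hi
      rw [hI, Finset.mem_sigma] at hi
      obtain ⟨hv, hu⟩ := hi
      unfold QQ at hu
      rw [mem_filter] at hu
      have h2 : qq D u v ≤ N ^ 3 := hu.2.2.trans h.ZZ_le
      have h3 : thN (qq D u v) ≤ 3 * L := by
        refine (thN_le_log _).trans ?_
        have h4 : (0 : ℝ) < (qq D u v : ℝ) := by
          have : 0 < qq D u v := by unfold qq; omega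
          exact_mod_cast this
        calc Real.log (qq D u v) ≤ Real.log ((N : ℝ) ^ 3) := by
              apply Real.log_le_log h4
              exact_mod_cast h2
          _ = 3 * L := by rw [Real.log_pow]; norm_num [hL]
      exact pow_le_pow_left₀ (thN_nonneg _) h3 2
    calc _ ≤ ∑ i ∈ I, (3 * L) ^ 2 := Finset.sum_le_sum h1
      _ = I.card * (3 * L) ^ 2 := by rw [Finset.sum_const, nsmul_eq_mul]
      _ ≤ 4 * A * (3 * L) ^ 2 := by gcongr
  -- Cauchy-Schwarz
  have cs : (∑ d ∈ D.divisors, Md D N d) ^ 2 ≤ (4 * A * (3 * L) ^ 2) * (τ * A * L ^ 11) := by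
    rw [eM]
    refine (Finset.sum_mul_sq_le_sq_mul_sq I _ _).trans ?_
    have h1 : ∑ i ∈ I, (- ∑ d ∈ D.divisors, ff D (pd D d i.2 i.1)) ^ 2 ≤ τ * A * L ^ 11 := by
      have h2 : ∑ i ∈ I, (- ∑ d ∈ D.divisors, ff D (pd D d i.2 i.1)) ^ 2 =
          ∑ i ∈ I, (∑ d ∈ D.divisors, ff D (pd D d i.2 i.1)) ^ 2 := by
        apply Finset.sum_congr rfl; intro i _; ring
      rw [h2]
      exact inj.trans (secondMoment h)
    have h3 : 0 ≤ ∑ i ∈ I, (- ∑ d ∈ D.divisors, ff D (pd D d i.2 i.1)) ^ 2 := by positivity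
    exact mul_le_mul hth h1 h3 (by positivity)
  have low2 : (τ * (A / (2 * L))) ^ 2 ≤ (∑ d ∈ D.divisors, Md D N d) ^ 2 :=
    pow_le_pow_left₀ (by positivity) low 2
  have fin1 := low2.trans cs
  have fin2 : τ ≤ 144 * L ^ 15 := by
    have h1 : (τ * (A / (2 * L))) ^ 2 = τ * (τ * A ^ 2) / (4 * L ^ 2) := by
      field_simp
      ring
    rw [h1, div_le_iff₀ (by positivity)] at fin1
    have h2 : (4 * A * (3 * L) ^ 2) * (τ * A * L ^ 11) * (4 * L ^ 2) =
        (144 * L ^ 15) * (τ * A ^ 2) := by ring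
    rw [h2] at fin1
    exact le_of_mul_le_mul_right fin1 (by positivity)
  have fin3 : L ^ 40 ≤ τ := h.tau
  have fin4 : 144 * L ^ 15 < L ^ 40 := by
    have h1 : L ^ 40 = L ^ 25 * L ^ 15 := by ring
    rw [h1]
    apply mul_lt_mul_of_pos_right _ (by positivity)
    calc (144 : ℝ) < 10 ^ 5 := by norm_num
      _ ≤ L := hL5
      _ ≤ L ^ 25 := le_self_pow₀ (by linarith [show (1 : ℝ) ≤ 10 ^ 5 by norm_num]) (by norm_num)
  linarith

end Pool.Agent.Lib.MP_9c2ea5_nt
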