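import Mathlib
import Pool.Agent.Lib.MP_9c2ea5_nt.TheoremA
import Pool.Agent.Lib.MP_9c2ea5_nt.TheoremB

/-!
# The final statement
-/

namespace Pool.Agent.Lib.MP_9c2ea5_nt

theorem final : ∀ a : ℕ, ∃ x y : ℕ, x > y ∧ y > a ∧ (x + y + 1).Prime ∧ (x * y + 1).Prime := by
  intro a
  obtain ⟨D, N, hN, h⟩ := theoremA (a + 1)
  obtain ⟨x, y, h1, h2, h3, h4⟩ := theoremB h
  exact ⟨x, y, h1, by omega, h3, h4⟩

end Pool.Agent.Lib.MP_9c2ea5_nt
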